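import Mathlib

/-!
Interface between the two halves of the density threshold theorem for MP_90b327_co.

Part I (probabilistic): a sequence of families without a good pair, of density bounded below,
produces a `LimFun`.
Part II (Hilbert space / ultrafilter): a `LimFun d δ` with `1 ≤ d` forces
`δ ≤ (1 - δ) * (1 - (1/2)^(d-1))`.
-/

set_option autoImplicit false

namespace Pool.Agent.Lib.MP_90b327_co

/-- Patterns on the cells of `[K]^d`. -/
abbrev Pat (d K : ℕ) : Type := (Fin d → Fin K) → Bool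

/-- A family is good if it contains `A` and `A ∪ γ^d`, with `γ` non-empty and `A` disjoint from `γ^d`. -/
def Good (d N : ℕ) (S : Finset (Finset (Fin d → Fin N))) : Prop :=
  ∃ A ∈ S, ∃ γ : Finset (Fin N), γ.Nonempty ∧
    Disjoint A (Fintype.piFinset (fun _ : Fin d => γ)) ∧
    A ∪ Fintype.piFinset (fun _ : Fin d => γ) ∈ S

/-- Limiting pair correlations of the indicator of a family after overwriting the cells of
`[K]^d` by patterns. -/
structure LimFun (d : ℕ) (δ : ℝ) where
  G : (K : ℕ) → Pat d K → Pat d K → ℝ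
  symm : ∀ K X Y, G K X Y = G K Y X
  nonneg : ∀ K X Y, 0 ≤ G K X Y
  diag : ∀ K X, G K X X = δ
  /-- vertices outside the range of `ι` may carry any common pattern -/
  ext : ∀ (K K' : ℕ) (ι : Fin K → Fin K'), Function.Injective ι → ∀ X Y : Pat d K',
    (∀ c : Fin d → Fin K', (¬ ∃ c' : Fin d → Fin K, c = ι ∘ c') → X c = Y c) →
      G K' X Y = G K (fun c => X (ι ∘ c)) (fun c => Y (ι ∘ c))
  /-- the Gram matrix of the constant one and of finitely many pattern vectors is positive -/
  psd : ∀ (K n : ℕ) (X : Fin n → Pat d K) (a : Fin n → ℝ) (a₀ : ℝ),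
    0 ≤ a₀ ^ 2 + 2 * a₀ * (∑ i, a i) * δ + ∑ i, ∑ j, a i * a j * G K (X i) (X j)
  /-- no good pair -/
  bad : ∀ (K : ℕ) (X Y : Pat d K) (γ : Finset (Fin K)), γ.Nonempty →
    (∀ c : Fin d → Fin K, (∀ i, c i ∈ γ) → X c = false) →
    (∀ c : Fin d → Fin K, (∀ i, c i ∈ γ) → Y c = true) →
    (∀ c : Fin d → Fin K, ¬ (∀ i, c i ∈ γ) → Y c = X c) → G K X Y = 0

end Pool.Agent.Lib.MP_90b327_co
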