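import Mathlib
set_option autoImplicit false
namespace Pool.Agent.Lib.MP_90b327_co
open Finset

section QI
variable {C : Type} [Fintype C] [DecidableEq C]

/-- overwrite the cells in `W` by `B` -/
def ovw (W : Finset C) (B A : C → Bool) : C → Bool := fun c => if c ∈ W then B c else A c

/-- indicator that `A` agrees with `B` on `W` -/
noncomputable def agr (W : Finset C) (B A : C → Bool) : ℝ := if ∀ c ∈ W, A c = B c then 1 else 0

/-- flip the cells in `T` -/
def flip (T : Finset C) (A : C → Bool) : C → Bool := fun c => if c ∈ T then !(A c) else A c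

omit [Fintype C] in
lemma flip_flip (T : Finset C) (A : C → Bool) : flip T (flip T A) = A := by
  funext c
  unfold flip
  split_ifs <;> simp

def flipEquiv (T : Finset C) : (C → Bool) ≃ (C → Bool) :=
  ⟨flip T, flip T, flip_flip T, flip_flip T⟩

lemma sum_ovw (W : Finset C) (B : C → Bool) (g : (C → Bool) → ℝ) :
    ∑ A, g (ovw W B A) = 2 ^ W.card * ∑ A, agr W B A * g A := by
  have h1 : ∀ A : C → Bool, g (ovw W B A) =
      ∑ T ∈ W.powerset, agr W B (flip T A) * g (flip T A) := by
    intro A
    rw [Finset.sum_eq_single (W.filter (fun c => A c ≠ B c))]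
    · have e : flip (W.filter (fun c => A c ≠ B c)) A = ovw W B A := by
        funext c
        unfold flip ovw
        by_cases hc : c ∈ W
        · by_cases hb : A c = B c
          · simp [hc, hb]
          · simp [hc, hb]
            cases h1 : A c <;> cases h2 : B c <;> simp_all
        · simp [hc]
      rw [e]
      have : agr W B (ovw W B A) = 1 := by
        unfold agr ovw
        rw [if_pos]
        intro c hc
        simp [hc]
      rw [this, one_mul]
    · intro T hT hne
      have : agr W B (flip T A) = 0 := by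
        unfold agr
        rw [if_neg]
        intro hcon
        apply hne
        ext c
        rw [Finset.mem_filter]
        constructor
        · intro hc
          have hcW := (Finset.mem_powerset.mp hT) hc
          refine ⟨hcW, ?_⟩
          have := hcon c hcW
          unfold flip at this
          rw [if_pos hc] at this
          intro h
          rw [h] at this
          simp at this
        · rintro ⟨hcW, hAB⟩
          by_contra hc
          have := hcon c hcW
          unfold flip at this
          rw [if_neg hc] at this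
          exact hAB this
      rw [this, zero_mul]
    · intro h
      exfalso
      apply h
      rw [Finset.mem_powerset]
      exact Finset.filter_subset _ _
  calc ∑ A, g (ovw W B A) = ∑ A, ∑ T ∈ W.powerset, agr W B (flip T A) * g (flip T A) :=
        Finset.sum_congr rfl (fun A _ => h1 A)
    _ = ∑ T ∈ W.powerset, ∑ A, agr W B (flip T A) * g (flip T A) := Finset.sum_comm
    _ = ∑ T ∈ W.powerset, ∑ A, agr W B A * g A := by
        apply Finset.sum_congr rfl
        intro T _
        exact Equiv.sum_comp (flipEquiv T) (fun A => agr W B A * g A)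
    _ = 2 ^ W.card * ∑ A, agr W B A * g A := by
        rw [Finset.sum_const, Finset.card_powerset, nsmul_eq_mul]
        push_cast
        ring

/-- centred weight -/
noncomputable def xi (W : Finset C) (B A : C → Bool) : ℝ := 2 ^ W.card * agr W B A - 1

lemma sum_xi_mul (W : Finset C) (B : C → Bool) (g : (C → Bool) → ℝ) :
    ∑ A, xi W B A * g A = ∑ A, g (ovw W B A) - ∑ A, g A := by
  rw [sum_ovw, Finset.mul_sum, ← Finset.sum_sub_distrib]
  apply Finset.sum_congr rfl
  intro A _
  unfold xi
  ring

lemma agr_ovw_disj (W W' : Finset C) (h : Disjoint W W') (B B' A : C → Bool) :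
    agr W' B' (ovw W B A) = agr W' B' A := by
  unfold agr
  congr 1
  apply propext
  constructor
  · intro h1 c hc
    have := h1 c hc
    unfold ovw at this
    rw [if_neg (Finset.disjoint_right.mp h hc)] at this
    exact this
  · intro h1 c hc
    unfold ovw
    rw [if_neg (Finset.disjoint_right.mp h hc)]
    exact h1 c hc

lemma sum_xi_xi (W W' : Finset C) (h : Disjoint W W') (B B' : C → Bool) :
    ∑ A, xi W B A * xi W' B' A = 0 := by
  rw [sum_xi_mul]
  have : ∀ A : C → Bool, xi W' B' (ovw W B A) = xi W' B' A := by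
    intro A
    unfold xi
    rw [agr_ovw_disj W W' h]
  simp [this]

lemma sum_xi_sq (W : Finset C) (B : C → Bool) :
    ∑ A, xi W B A * xi W B A = (2 ^ W.card - 1) * 2 ^ (Fintype.card C) := by
  rw [sum_xi_mul]
  have h1 : ∀ A : C → Bool, xi W B (ovw W B A) = 2 ^ W.card - 1 := by
    intro A
    unfold xi agr ovw
    rw [if_pos]
    · ring
    · intro c hc
      simp [hc]
  have h2 : ∑ A, xi W B A = 0 := by
    have := sum_xi_mul W B (fun _ => (1:ℝ))
    simpa using this
  rw [h2, Finset.sum_congr rfl (fun A _ => h1 A)]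
  simp
  ring

/-- Quasi-independence: overwriting a random one of `m` disjoint windows hardly changes averages. -/
lemma quasi (m w : ℕ) (W : Fin m → Finset C) (B : Fin m → C → Bool)
    (hd : ∀ i j, i ≠ j → Disjoint (W i) (W j)) (hw : ∀ i, (W i).card ≤ w)
    (h : (C → Bool) → ℝ) (h0 : ∀ A, 0 ≤ h A) (h1 : ∀ A, h A ≤ 1) :
    (∑ i, ∑ A, h (ovw (W i) (B i) A) - m * ∑ A, h A) ^ 2 ≤
      m * 2 ^ w * (2 ^ (Fintype.card C)) ^ 2 := by
  have e1 : ∑ i, ∑ A, h (ovw (W i) (B i) A) - m * ∑ A, h A =
      ∑ A, h A * ∑ i, xi (W i) (B i) A := by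
    have : ∀ i, ∑ A, xi (W i) (B i) A * h A = ∑ A, h (ovw (W i) (B i) A) - ∑ A, h A :=
      fun i => sum_xi_mul _ _ _
    calc ∑ i, ∑ A, h (ovw (W i) (B i) A) - m * ∑ A, h A
        = ∑ i, (∑ A, h (ovw (W i) (B i) A) - ∑ A, h A) := by
          rw [Finset.sum_sub_distrib]
          simp
      _ = ∑ i, ∑ A, xi (W i) (B i) A * h A := by
          apply Finset.sum_congr rfl
          intro i _
          rw [this]
      _ = ∑ A, ∑ i, xi (W i) (B i) A * h A := Finset.sum_comm
      _ = _ := by
          apply Finset.sum_congr rfl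
          intro A _
          rw [← Finset.sum_mul]
          ring
  rw [e1]
  refine (Finset.sum_mul_sq_le_sq_mul_sq _ _ _).trans ?_
  have e2 : ∑ A, h A ^ 2 ≤ 2 ^ (Fintype.card C) := by
    calc ∑ A, h A ^ 2 ≤ ∑ A : C → Bool, (1:ℝ) := by
          apply Finset.sum_le_sum
          intro A _
          nlinarith [h0 A, h1 A]
      _ = 2 ^ (Fintype.card C) := by simp
  have e3 : ∑ A, (∑ i, xi (W i) (B i) A) ^ 2 ≤ m * 2 ^ w * 2 ^ (Fintype.card C) := by
    have : ∀ A : C → Bool, (∑ i, xi (W i) (B i) A) ^ 2 =
        ∑ i, ∑ j, xi (W i) (B i) A * xi (W j) (B j) A := by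
      intro A
      rw [sq, Finset.sum_mul_sum]
    rw [Finset.sum_congr rfl (fun A _ => this A), Finset.sum_comm]
    have h3 : ∀ i : Fin m, ∑ A, ∑ j, xi (W i) (B i) A * xi (W j) (B j) A ≤
        2 ^ w * 2 ^ (Fintype.card C) := by
      intro i
      rw [Finset.sum_comm, Finset.sum_eq_single i]
      · rw [sum_xi_sq]
        apply mul_le_mul_of_nonneg_right _ (by positivity)
        have : (2:ℝ) ^ (W i).card ≤ 2 ^ w := pow_le_pow_right₀ (by norm_num) (hw i)
        linarith
      · intro j _ hj
        exact sum_xi_xi _ _ (hd i j (Ne.symm hj)) _ _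
      · intro hi
        exact absurd (Finset.mem_univ i) hi
    calc _ ≤ ∑ i : Fin m, (2:ℝ) ^ w * 2 ^ (Fintype.card C) := Finset.sum_le_sum (fun i _ => h3 i)
      _ = _ := by simp; ring
  calc (∑ A, h A ^ 2) * ∑ A, (∑ i, xi (W i) (B i) A) ^ 2
      ≤ 2 ^ (Fintype.card C) * (m * 2 ^ w * 2 ^ (Fintype.card C)) := by
        apply mul_le_mul e2 e3
        · apply Finset.sum_nonneg
          intro A _
          positivity
        · positivity
    _ = _ := by ring
end QI

end Pool.Agent.Lib.MP_90b327_co
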