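import Mathlib

/-!
Idempotent ultrafilters on the positive integers: limits of bounded functions and the choice of
nested sizes.
-/

set_option autoImplicit false

namespace Pool.Agent.Lib.MP_90b327_co

open Filter Topology

attribute [local instance] Ultrafilter.add Ultrafilter.addSemigroup

/-- There is an ultrafilter `p` on the positive integers with `p + p = p`, in quantifier form. -/
theorem exists_idempotent : ∃ p : Ultrafilter ℕ+, ∀ A : ℕ+ → Prop,
    (∀ᶠ m in (p : Filter ℕ+), A m) ↔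
      ∀ᶠ a in (p : Filter ℕ+), ∀ᶠ m in (p : Filter ℕ+), A (a + m) := by
  obtain ⟨p, hp⟩ := exists_idempotent_of_compact_t2_of_continuous_add_left
    (M := Ultrafilter ℕ+) Ultrafilter.continuous_add_left
  refine ⟨p, fun A => ?_⟩
  have := Ultrafilter.eventually_add p p A
  rw [hp] at this
  exact this

/-- Choice of nested sizes `s 0 > s 1 > ... > s n` along an idempotent ultrafilter. -/
theorem exists_sizes (p : Ultrafilter ℕ+)
    (hp : ∀ A : ℕ+ → Prop, (∀ᶠ m in (p : Filter ℕ+), A m) ↔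
      ∀ᶠ a in (p : Filter ℕ+), ∀ᶠ m in (p : Filter ℕ+), A (a + m))
    (P : ℕ+ → Prop) (Q : ℕ+ → ℕ+ → Prop) (hP : ∀ᶠ m in (p : Filter ℕ+), P m)
    (hQ : ∀ᶠ e in (p : Filter ℕ+), ∀ᶠ m in (p : Filter ℕ+), Q e m) (n : ℕ) :
    ∀ (R : ℕ+ → Prop) (Q' : ℕ+ → ℕ+ → Prop), (∀ᶠ m in (p : Filter ℕ+), R m) →
      (∀ᶠ e in (p : Filter ℕ+), ∀ᶠ m in (p : Filter ℕ+), Q' e m) →
      ∃ s : ℕ → ℕ+, R (s 0) ∧ (∀ l ≤ n, P (s l)) ∧
        (∀ l l', l < l' → l' ≤ n → ∃ e, s l = e + s l' ∧ Q e (s l')) ∧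
        (∀ l', 0 < l' → l' ≤ n → ∃ e, s 0 = e + s l' ∧ Q' e (s l')) := by
  induction n with
  | zero =>
    intro R Q' hR _
    obtain ⟨m, hm⟩ := (hR.and hP).exists
    refine ⟨fun _ => m, hm.1, fun l _ => hm.2, ?_, ?_⟩
    · intro l l' h1 h2
      omega
    · intro l' h1 h2
      omega
  | succ n ih =>
    intro R Q' hR hQ'
    have h1 : ∀ᶠ a in (p : Filter ℕ+), ∀ᶠ m in (p : Filter ℕ+), R (a + m) ∧ P (a + m) :=
      (hp _).mp (hR.and hP)
    have h2 : ∀ᶠ a in (p : Filter ℕ+), ∀ᶠ e in (p : Filter ℕ+), ∀ᶠ m in (p : Filter ℕ+),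
        Q (a + e) m ∧ Q' (a + e) m := by
      have : ∀ᶠ e in (p : Filter ℕ+), ∀ᶠ m in (p : Filter ℕ+), Q e m ∧ Q' e m := by
        filter_upwards [hQ, hQ'] with e he he'
        exact he.and he'
      exact (hp _).mp this
    obtain ⟨a, ha1, ha2, ha3, ha4⟩ := (h1.and (h2.and (hQ.and hQ'))).exists
    obtain ⟨s, hs1, hs2, hs3, hs4⟩ := ih
      (fun m => (R (a + m) ∧ P (a + m)) ∧ Q a m ∧ Q' a m)
      (fun e m => Q (a + e) m ∧ Q' (a + e) m)
      (ha1.and (ha3.and ha4)) ha2
    refine ⟨fun i => Nat.casesOn i (a + s 0) s, hs1.1.1, ?_, ?_, ?_⟩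
    · intro l hl
      cases l with
      | zero => exact hs1.1.2
      | succ l => exact hs2 l (by omega)
    · intro l l' h1 h2
      cases l' with
      | zero => omega
      | succ l' =>
        cases l with
        | zero =>
          cases l' with
          | zero => exact ⟨a, rfl, hs1.2.1⟩
          | succ l' =>
            obtain ⟨e, he1, he2⟩ := hs4 (l' + 1) (by omega) (by omega)
            refine ⟨a + e, ?_, he2.1⟩
            change a + s 0 = a + e + s (l' + 1)
            rw [he1, add_assoc]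
        | succ l => exact hs3 l l' (by omega) (by omega)
    · intro l' h1 h2
      cases l' with
      | zero => omega
      | succ l' =>
        cases l' with
        | zero => exact ⟨a, rfl, hs1.2.2⟩
        | succ l' =>
          obtain ⟨e, he1, he2⟩ := hs4 (l' + 1) (by omega) (by omega)
          refine ⟨a + e, ?_, he2.2⟩
          change a + s 0 = a + e + s (l' + 1)
          rw [he1, add_assoc]

/-- Bounded functions converge along ultrafilters. -/
theorem exists_limit {α : Type} (p : Ultrafilter α) (f : α → ℝ) (C : ℝ) (h0 : ∀ m, 0 ≤ f m)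
    (h1 : ∀ m, f m ≤ C) : ∃ a : ℝ, Tendsto f p (𝓝 a) := by
  have hc : IsCompact (Set.Icc (0 : ℝ) C) := isCompact_Icc
  have hmem : ((p.map f : Ultrafilter ℝ) : Filter ℝ) ≤ 𝓟 (Set.Icc (0 : ℝ) C) := by
    rw [Filter.le_principal_iff]
    change f ⁻¹' (Set.Icc (0 : ℝ) C) ∈ (p : Filter α)
    filter_upwards with m
    exact ⟨h0 m, h1 m⟩
  obtain ⟨a, _, ha⟩ := hc.ultrafilter_le_nhds (p.map f) hmem
  exact ⟨a, ha⟩

end Pool.Agent.Lib.MP_90b327_co
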