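import Mathlib
import Pool.Agent.Lib.MP_90b327_co.Interface
import Pool.Agent.Lib.MP_90b327_co.Ultra
import Pool.Agent.Lib.MP_90b327_co.Quasi
set_option autoImplicit false
namespace Pool.Agent.Lib.MP_90b327_co
open Finset

variable {d : ℕ}

/-- the set of cells on which a pattern is true -/
def toSet {N : ℕ} (A : Pat d N) : Finset (Fin d → Fin N) := univ.filter (fun c => A c = true)

lemma mem_toSet {N : ℕ} (A : Pat d N) (c : Fin d → Fin N) : c ∈ toSet A ↔ A c = true := by
  unfold toSet
  simp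

/-- indicator function of the family on patterns -/
noncomputable def ind {N : ℕ} (S : Finset (Finset (Fin d → Fin N))) (A : Pat d N) : ℝ :=
  if toSet A ∈ S then 1 else 0

lemma ind_nonneg {N : ℕ} (S : Finset (Finset (Fin d → Fin N))) (A : Pat d N) : 0 ≤ ind S A := by
  unfold ind; split_ifs <;> norm_num

lemma ind_le_one {N : ℕ} (S : Finset (Finset (Fin d → Fin N))) (A : Pat d N) : ind S A ≤ 1 := by
  unfold ind; split_ifs <;> norm_num

lemma ind_mul_self {N : ℕ} (S : Finset (Finset (Fin d → Fin N))) (A : Pat d N) :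
    ind S A * ind S A = ind S A := by
  unfold ind; split_ifs <;> norm_num

/-- overwrite the cells indexed by the vertices `j 0, j 1, ...` by the pattern `X` -/
noncomputable def ov {K N : ℕ} (j : Fin K → Fin N) (A : Pat d N) (X : Pat d K) : Pat d N :=
  Function.extend (fun c' : Fin d → Fin K => (fun i => j (c' i))) X A

lemma comp_inj {K N : ℕ} (j : Fin K → Fin N) (hj : Function.Injective j) :
    Function.Injective (fun c' : Fin d → Fin K => (fun i => j (c' i))) := by
  intro a b h
  funext i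
  exact hj (congrFun h i)

lemma ov_in {K N : ℕ} (j : Fin K → Fin N) (hj : Function.Injective j) (A : Pat d N) (X : Pat d K)
    (c' : Fin d → Fin K) : ov j A X (fun i => j (c' i)) = X c' :=
  (comp_inj j hj).extend_apply X A c'

lemma ov_out {K N : ℕ} (j : Fin K → Fin N) (A : Pat d N) (X : Pat d K)
    (c : Fin d → Fin N) (h : ¬ ∃ c' : Fin d → Fin K, (fun i => j (c' i)) = c) : ov j A X c = A c :=
  Function.extend_apply' X A c h

/-- relabel the vertices -/
def rel {N : ℕ} (σ : Equiv.Perm (Fin N)) (A : Pat d N) : Pat d N := fun c => A (fun i => σ (c i))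

lemma rel_rel {N : ℕ} (σ τ : Equiv.Perm (Fin N)) (A : Pat d N) :
    rel σ (rel τ A) = rel (τ * σ) A := rfl

lemma rel_one {N : ℕ} (A : Pat d N) : rel 1 A = A := rfl

def relEquiv {N : ℕ} (σ : Equiv.Perm (Fin N)) : Pat d N ≃ Pat d N :=
  ⟨rel σ, rel σ⁻¹, by intro A; rw [rel_rel]; simp [rel_one], by intro A; rw [rel_rel]; simp [rel_one]⟩

lemma ov_rel {K N : ℕ} (j : Fin K → Fin N) (hj : Function.Injective j) (τ : Equiv.Perm (Fin N))
    (A : Pat d N) (X : Pat d K) :
    ov (fun v => τ (j v)) A X = rel τ⁻¹ (ov j (rel τ A) X) := by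
  funext c
  by_cases h : ∃ c' : Fin d → Fin K, (fun i => τ (j (c' i))) = c
  · obtain ⟨c', rfl⟩ := h
    rw [ov_in (fun v => τ (j v)) (τ.injective.comp hj)]
    unfold rel
    have : (fun i => τ⁻¹ (τ (j (c' i)))) = (fun i => j (c' i)) := by
      funext i
      simp
    rw [this, ov_in j hj]
  · rw [ov_out _ _ _ _ h]
    unfold rel
    rw [ov_out]
    · simp
    · rintro ⟨c', hc'⟩
      apply h
      refine ⟨c', ?_⟩
      funext i
      have := congrFun hc' i
      rw [this]
      simp

/-- unnormalised correlation -/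
noncomputable def corS {K N : ℕ} (S : Finset (Finset (Fin d → Fin N))) (j : Fin K → Fin N)
    (X Y : Pat d K) : ℝ :=
  ∑ σ : Equiv.Perm (Fin N), ∑ A : Pat d N, ind S (rel σ (ov j A X)) * ind S (rel σ (ov j A Y))

lemma corS_comp {K N : ℕ} (S : Finset (Finset (Fin d → Fin N))) (j : Fin K → Fin N)
    (hj : Function.Injective j) (τ : Equiv.Perm (Fin N)) (X Y : Pat d K) :
    corS S (fun v => τ (j v)) X Y = corS S j X Y := by
  unfold corS
  rw [← Equiv.sum_comp (Equiv.mulLeft τ)
    (fun σ => ∑ A : Pat d N, ind S (rel σ (ov (fun v => τ (j v)) A X)) *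
      ind S (rel σ (ov (fun v => τ (j v)) A Y)))]
  apply Finset.sum_congr rfl
  intro σ _
  rw [← Equiv.sum_comp (relEquiv τ)
    (fun A : Pat d N => ind S (rel σ (ov j A X)) * ind S (rel σ (ov j A Y)))]
  apply Finset.sum_congr rfl
  intro A _
  simp only [Equiv.coe_mulLeft]
  rw [ov_rel j hj, ov_rel j hj, rel_rel, rel_rel]
  have : τ⁻¹ * (τ * σ) = σ := by group
  rw [this]
  rfl

lemma exists_perm {K N : ℕ} (j j' : Fin K → Fin N) (hj : Function.Injective j)
    (hj' : Function.Injective j') : ∃ τ : Equiv.Perm (Fin N), ∀ v, τ (j v) = j' v := by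
  have e : {x // x ∈ Set.range j} ≃ {x // x ∈ Set.range j'} :=
    (Equiv.ofInjective j hj).symm.trans (Equiv.ofInjective j' hj')
  classical
  let e' : {x // x ∈ Set.range j} ≃ {x // x ∈ Set.range j'} :=
    (Equiv.ofInjective j hj).symm.trans (Equiv.ofInjective j' hj')
  refine ⟨e'.extendSubtype, ?_⟩
  intro v
  rw [Equiv.extendSubtype_apply_of_mem e' (j v) ⟨v, rfl⟩]
  have : (Equiv.ofInjective j hj).symm ⟨j v, ⟨v, rfl⟩⟩ = v := by
    rw [Equiv.symm_apply_eq]
    rfl
  change ((Equiv.ofInjective j' hj') ((Equiv.ofInjective j hj).symm ⟨j v, ⟨v, rfl⟩⟩) : Fin N) = _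
  rw [this]
  rfl

lemma corS_indep {K N : ℕ} (S : Finset (Finset (Fin d → Fin N))) (j j' : Fin K → Fin N)
    (hj : Function.Injective j) (hj' : Function.Injective j') (X Y : Pat d K) :
    corS S j X Y = corS S j' X Y := by
  obtain ⟨τ, hτ⟩ := exists_perm j j' hj hj'
  have : j' = fun v => τ (j v) := funext (fun v => (hτ v).symm)
  rw [this, corS_comp S j hj]

/-- the main estimate: vertices outside the range of `ι` may be dropped -/
lemma corS_ext {K K' N m : ℕ} (S : Finset (Finset (Fin d → Fin N))) (ι : Fin K → Fin K')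
    (hι : Function.Injective ι) (X Y : Pat d K')
    (hXY : ∀ c : Fin d → Fin K', (¬ ∃ c' : Fin d → Fin K, c = ι ∘ c') → X c = Y c)
    (hm : K' * (m + 1) ≤ N) (j : Fin K → Fin N) (hj : Function.Injective j)
    (j' : Fin K' → Fin N) (hj' : Function.Injective j') :
    (m * corS S j' X Y - m * corS S j (fun c => X (ι ∘ c)) (fun c => Y (ι ∘ c))) ^ 2 ≤
      m * 2 ^ (K' ^ d) * ((N.factorial : ℝ) * 2 ^ (N ^ d)) ^ 2 := by
  classical
  -- embeddings
  have hK : ∀ v : Fin K', ∀ a ≤ m, K' * a + (v : ℕ) < N := by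
    intro v a ha
    have : K' * a + K' ≤ N := by
      calc K' * a + K' = K' * (a + 1) := by ring
        _ ≤ K' * (m + 1) := Nat.mul_le_mul_left _ (by omega)
        _ ≤ N := hm
    have := v.2
    omega
  let J : Fin m → Fin K' → Fin N := fun i v =>
    if v ∈ Set.range ι then ⟨K' * 0 + (v : ℕ), hK v 0 (by omega)⟩
    else ⟨K' * (i + 1) + (v : ℕ), hK v (i + 1) (by omega)⟩
  let j₀ : Fin K → Fin N := fun v => ⟨K' * 0 + (ι v : ℕ), hK (ι v) 0 (by omega)⟩
  have hJι : ∀ i v, J i (ι v) = j₀ v := by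
    intro i v
    simp only [J, j₀, Set.mem_range_self, if_true]
  have hJeq : ∀ i i' v v', J i v = J i' v' → v = v' ∧ (i = i' ∨ v ∈ Set.range ι) := by
    intro i i' v v' h
    have h1 := congrArg Fin.val h
    simp only [J] at h1
    have hv := v.2
    have hv' := v'.2
    by_cases ha : v ∈ Set.range ι <;> by_cases hb : v' ∈ Set.range ι
    · simp only [ha, hb, if_true] at h1
      exact ⟨Fin.ext (by omega), Or.inr ha⟩
    · exfalso
      simp only [ha, hb, if_true, if_false] at h1
      have : K' * (i' + 1) = K' * i' + K' := by ring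
      omega
    · exfalso
      simp only [ha, hb, if_true, if_false] at h1
      have : K' * ((i : ℕ) + 1) = K' * i + K' := by ring
      omega
    · simp only [ha, hb, if_false] at h1
      have h2 : ((i : ℕ) + 1) = i' + 1 := by
        have : (K' * ((i : ℕ) + 1) + (v : ℕ)) / K' = (K' * ((i' : ℕ) + 1) + (v' : ℕ)) / K' :=
          congrArg (· / K') h1
        rw [Nat.mul_add_div (by omega), Nat.mul_add_div (by omega), Nat.div_eq_of_lt hv,
          Nat.div_eq_of_lt hv'] at this
        simpa using this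
      rw [h2] at h1
      exact ⟨Fin.ext (by omega), Or.inl (Fin.ext (by omega))⟩
  have hJinj : ∀ i, Function.Injective (J i) := fun i v v' h => (hJeq i i v v' h).1
  have hj₀ : Function.Injective j₀ := by
    intro v v' h
    have h1 := congrArg Fin.val h
    simp only [j₀] at h1
    exact hι (Fin.ext (by omega))
  -- windows
  let W : Fin m → Finset (Fin d → Fin N) := fun i =>
    (univ.image (fun c' : Fin d → Fin K' => (fun a => J i (c' a)))) \
      (univ.image (fun c' : Fin d → Fin K => (fun a => j₀ (c' a))))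
  let B : Fin m → (Fin d → Fin N) → Bool := fun i => ov (J i) (fun _ => false) X
  have hW : ∀ i i', i ≠ i' → Disjoint (W i) (W i') := by
    intro i i' hne
    rw [Finset.disjoint_left]
    intro c hc hc'
    simp only [W, Finset.mem_sdiff, Finset.mem_image, Finset.mem_univ, true_and] at hc hc'
    obtain ⟨⟨c₁, rfl⟩, hc2⟩ := hc
    obtain ⟨⟨c₂, hc₂⟩, _⟩ := hc'
    apply hc2
    have h3 : ∀ a, c₁ a ∈ Set.range ι := by
      intro a
      have h4 := congrFun hc₂ a
      obtain ⟨h5, h6⟩ := hJeq i i' _ _ h4.symm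
      exact h6.resolve_left hne
    choose f hf using h3
    refine ⟨f, ?_⟩
    funext a
    rw [← hJι i (f a), hf a]
  have hWc : ∀ i, (W i).card ≤ K' ^ d := by
    intro i
    calc (W i).card ≤ (univ.image (fun c' : Fin d → Fin K' => (fun a => J i (c' a)))).card :=
          Finset.card_le_card Finset.sdiff_subset
      _ ≤ (univ : Finset (Fin d → Fin K')).card := Finset.card_image_le
      _ = K' ^ d := by simp
  -- key identity
  have key : ∀ (i : Fin m) (A : Pat d N) (Z : Pat d K'),
      (∀ c : Fin d → Fin K', (¬ ∃ c' : Fin d → Fin K, c = ι ∘ c') → X c = Z c) →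
      ov (J i) A Z = ov j₀ (ovw (W i) (B i) A) (fun c => Z (ι ∘ c)) := by
    intro i A Z hZ
    funext c
    by_cases h1 : ∃ c' : Fin d → Fin K, (fun a => j₀ (c' a)) = c
    · obtain ⟨c', rfl⟩ := h1
      rw [ov_in j₀ hj₀]
      have : (fun a => j₀ (c' a)) = (fun a => J i ((ι ∘ c') a)) := by
        funext a
        simp only [Function.comp, hJι]
      rw [this, ov_in (J i) (hJinj i)]
    · rw [ov_out j₀ _ _ c h1]
      by_cases h2 : ∃ c' : Fin d → Fin K', (fun a => J i (c' a)) = c
      · obtain ⟨c', rfl⟩ := h2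
        rw [ov_in (J i) (hJinj i)]
        have hc : (fun a => J i (c' a)) ∈ W i := by
          simp only [W, Finset.mem_sdiff, Finset.mem_image, Finset.mem_univ, true_and]
          exact ⟨⟨c', rfl⟩, h1⟩
        unfold ovw
        rw [if_pos hc]
        simp only [B]
        rw [ov_in (J i) (hJinj i)]
        symm
        apply hZ
        rintro ⟨c'', rfl⟩
        apply h1
        refine ⟨c'', ?_⟩
        funext a
        simp only [Function.comp, hJι]
      · rw [ov_out (J i) _ _ c h2]
        have hc : c ∉ W i := by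
          simp only [W, Finset.mem_sdiff, Finset.mem_image, Finset.mem_univ, true_and]
          rintro ⟨h3, _⟩
          exact h2 h3
        unfold ovw
        rw [if_neg hc]
  have hq : ∀ σ : Equiv.Perm (Fin N),
      (∑ i : Fin m, ∑ A : Pat d N, ind S (rel σ (ov (J i) A X)) * ind S (rel σ (ov (J i) A Y)) -
        m * ∑ A : Pat d N, ind S (rel σ (ov j₀ A (fun c => X (ι ∘ c)))) *
          ind S (rel σ (ov j₀ A (fun c => Y (ι ∘ c))))) ^ 2 ≤
      m * 2 ^ (K' ^ d) * (2 ^ (N ^ d)) ^ 2 := by
    intro σ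
    have := quasi m (K' ^ d) W B hW hWc
      (fun A => ind S (rel σ (ov j₀ A (fun c => X (ι ∘ c)))) *
          ind S (rel σ (ov j₀ A (fun c => Y (ι ∘ c)))))
      (fun A => mul_nonneg (ind_nonneg _ _) (ind_nonneg _ _))
      (fun A => mul_le_one₀ (ind_le_one _ _) (ind_nonneg _ _) (ind_le_one _ _))
    have hcard : Fintype.card (Fin d → Fin N) = N ^ d := by simp
    rw [hcard] at this
    convert this using 3
    apply Finset.sum_congr rfl
    intro i _
    apply Finset.sum_congr rfl
    intro A _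
    rw [key i A X (fun _ _ => rfl), key i A Y hXY]
  -- sum over permutations
  have h1 : m * corS S j' X Y = ∑ i : Fin m, corS S (J i) X Y := by
    rw [Finset.sum_congr rfl (fun i _ => corS_indep S (J i) j' (hJinj i) hj' X Y)]
    simp
  rw [h1, corS_indep S j j₀ hj hj₀]
  have h2 : ∑ i : Fin m, corS S (J i) X Y -
      m * corS S j₀ (fun c => X (ι ∘ c)) (fun c => Y (ι ∘ c)) =
      ∑ σ : Equiv.Perm (Fin N),
      (∑ i : Fin m, ∑ A : Pat d N, ind S (rel σ (ov (J i) A X)) * ind S (rel σ (ov (J i) A Y)) -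
        m * ∑ A : Pat d N, ind S (rel σ (ov j₀ A (fun c => X (ι ∘ c)))) *
          ind S (rel σ (ov j₀ A (fun c => Y (ι ∘ c))))) := by
    unfold corS
    rw [Finset.sum_comm, Finset.mul_sum, ← Finset.sum_sub_distrib]
  rw [h2]
  calc _ ≤ (Fintype.card (Equiv.Perm (Fin N)) : ℝ) * ∑ σ : Equiv.Perm (Fin N),
      (∑ i : Fin m, ∑ A : Pat d N, ind S (rel σ (ov (J i) A X)) * ind S (rel σ (ov (J i) A Y)) -
        m * ∑ A : Pat d N, ind S (rel σ (ov j₀ A (fun c => X (ι ∘ c)))) *
          ind S (rel σ (ov j₀ A (fun c => Y (ι ∘ c))))) ^ 2 := by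
        have := @sq_sum_le_card_mul_sum_sq (Equiv.Perm (Fin N)) ℝ _ _ _ _ univ
          (fun σ => (∑ i : Fin m, ∑ A : Pat d N, ind S (rel σ (ov (J i) A X)) * ind S (rel σ (ov (J i) A Y)) -
        m * ∑ A : Pat d N, ind S (rel σ (ov j₀ A (fun c => X (ι ∘ c)))) *
          ind S (rel σ (ov j₀ A (fun c => Y (ι ∘ c))))))
        simpa using this
    _ ≤ (Fintype.card (Equiv.Perm (Fin N)) : ℝ) * ∑ σ : Equiv.Perm (Fin N),
        (m * 2 ^ (K' ^ d) * (2 ^ (N ^ d)) ^ 2 : ℝ) := by
        apply mul_le_mul_of_nonneg_left _ (by positivity)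
        exact Finset.sum_le_sum (fun σ _ => hq σ)
    _ = _ := by
        rw [Finset.sum_const, Finset.card_univ, Fintype.card_perm, Fintype.card_fin]
        simp only [nsmul_eq_mul]
        ring

end Pool.Agent.Lib.MP_90b327_co
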