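import Mathlib
import Pool.Agent.Lib.MP_90b327_co.Interface
import Pool.Agent.Lib.MP_90b327_co.Ultra
import Pool.Agent.Lib.MP_90b327_co.Random
set_option autoImplicit false
namespace Pool.Agent.Lib.MP_90b327_co
open Finset Filter Topology

variable {d : ℕ}

lemma corS_symm {K N : ℕ} (S : Finset (Finset (Fin d → Fin N))) (j : Fin K → Fin N)
    (X Y : Pat d K) : corS S j X Y = corS S j Y X := by
  unfold corS
  apply Finset.sum_congr rfl
  intro σ _
  apply Finset.sum_congr rfl
  intro A _
  ring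

lemma corS_nonneg {K N : ℕ} (S : Finset (Finset (Fin d → Fin N))) (j : Fin K → Fin N)
    (X Y : Pat d K) : 0 ≤ corS S j X Y := by
  unfold corS
  apply Finset.sum_nonneg
  intro σ _
  apply Finset.sum_nonneg
  intro A _
  exact mul_nonneg (ind_nonneg _ _) (ind_nonneg _ _)

/-- the normalisation -/
noncomputable def nrm (d N : ℕ) : ℝ := (N.factorial : ℝ) * 2 ^ (N ^ d)

lemma nrm_pos (d N : ℕ) : 0 < nrm d N := by
  unfold nrm
  positivity

lemma sum_one_eq (d N : ℕ) : ∑ _σ : Equiv.Perm (Fin N), ∑ _A : Pat d N, (1:ℝ) = nrm d N := by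
  unfold nrm
  simp [Fintype.card_perm]

lemma corS_le {K N : ℕ} (S : Finset (Finset (Fin d → Fin N))) (j : Fin K → Fin N)
    (X Y : Pat d K) : corS S j X Y ≤ nrm d N := by
  rw [← sum_one_eq]
  unfold corS
  apply Finset.sum_le_sum
  intro σ _
  apply Finset.sum_le_sum
  intro A _
  exact mul_le_one₀ (ind_le_one _ _) (ind_nonneg _ _) (ind_le_one _ _)

lemma corS_psd {K N n : ℕ} (S : Finset (Finset (Fin d → Fin N))) (j : Fin K → Fin N)
    (X : Fin n → Pat d K) (a : Fin n → ℝ) (a₀ : ℝ) :
    0 ≤ a₀ ^ 2 * nrm d N + 2 * a₀ * (∑ i, a i * corS S j (X i) (X i)) +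
      ∑ i, ∑ l, a i * a l * corS S j (X i) (X l) := by
  have h1 : 0 ≤ ∑ σ : Equiv.Perm (Fin N), ∑ A : Pat d N,
      (a₀ + ∑ i, a i * ind S (rel σ (ov j A (X i)))) ^ 2 := by
    apply Finset.sum_nonneg
    intro σ _
    apply Finset.sum_nonneg
    intro A _
    positivity
  have h2 : ∀ (σ : Equiv.Perm (Fin N)) (A : Pat d N),
      (a₀ + ∑ i, a i * ind S (rel σ (ov j A (X i)))) ^ 2 =
      a₀ ^ 2 * 1 + 2 * a₀ * (∑ i, a i * (ind S (rel σ (ov j A (X i))) * ind S (rel σ (ov j A (X i))))) +
      ∑ i, ∑ l, a i * a l * (ind S (rel σ (ov j A (X i))) * ind S (rel σ (ov j A (X l)))) := by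
    intro σ A
    have e1 : (∑ i, a i * ind S (rel σ (ov j A (X i)))) ^ 2 =
        ∑ i, ∑ l, a i * a l * (ind S (rel σ (ov j A (X i))) * ind S (rel σ (ov j A (X l)))) := by
      rw [sq, Finset.sum_mul_sum]
      apply Finset.sum_congr rfl
      intro i _
      apply Finset.sum_congr rfl
      intro l _
      ring
    have e2 : (∑ i, a i * (ind S (rel σ (ov j A (X i))) * ind S (rel σ (ov j A (X i))))) =
        ∑ i, a i * ind S (rel σ (ov j A (X i))) := by
      apply Finset.sum_congr rfl
      intro i _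
      rw [ind_mul_self]
    rw [← e1, e2]
    ring
  have h3 : ∑ σ : Equiv.Perm (Fin N), ∑ A : Pat d N,
      (a₀ + ∑ i, a i * ind S (rel σ (ov j A (X i)))) ^ 2 =
      a₀ ^ 2 * nrm d N + 2 * a₀ * (∑ i, a i * corS S j (X i) (X i)) +
      ∑ i, ∑ l, a i * a l * corS S j (X i) (X l) := by
    have e1 : ∑ i, a i * corS S j (X i) (X i) = ∑ σ : Equiv.Perm (Fin N), ∑ A : Pat d N,
        (∑ i, a i * (ind S (rel σ (ov j A (X i))) * ind S (rel σ (ov j A (X i))))) := by
      unfold corS
      simp_rw [Finset.mul_sum]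
      rw [Finset.sum_comm]
      apply Finset.sum_congr rfl
      intro σ _
      rw [Finset.sum_comm]
    have e2 : ∑ i, ∑ l, a i * a l * corS S j (X i) (X l) =
        ∑ σ : Equiv.Perm (Fin N), ∑ A : Pat d N, ∑ i, ∑ l,
          a i * a l * (ind S (rel σ (ov j A (X i))) * ind S (rel σ (ov j A (X l)))) := by
      unfold corS
      simp_rw [Finset.mul_sum]
      calc _ = ∑ i, ∑ σ : Equiv.Perm (Fin N), ∑ l, ∑ A : Pat d N,
          a i * a l * (ind S (rel σ (ov j A (X i))) * ind S (rel σ (ov j A (X l)))) := by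
            apply Finset.sum_congr rfl
            intro i _
            rw [Finset.sum_comm]
        _ = ∑ σ : Equiv.Perm (Fin N), ∑ i, ∑ l, ∑ A : Pat d N,
          a i * a l * (ind S (rel σ (ov j A (X i))) * ind S (rel σ (ov j A (X l)))) :=
            Finset.sum_comm
        _ = _ := by
            apply Finset.sum_congr rfl
            intro σ _
            calc _ = ∑ i, ∑ A : Pat d N, ∑ l,
                a i * a l * (ind S (rel σ (ov j A (X i))) * ind S (rel σ (ov j A (X l)))) := by
                  apply Finset.sum_congr rfl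
                  intro i _
                  rw [Finset.sum_comm]
              _ = _ := Finset.sum_comm
    have e3 : ∑ σ : Equiv.Perm (Fin N), ∑ A : Pat d N,
        (a₀ + ∑ i, a i * ind S (rel σ (ov j A (X i)))) ^ 2 =
        ∑ σ : Equiv.Perm (Fin N), ∑ A : Pat d N, (a₀ ^ 2 * 1 + 2 * a₀ *
          (∑ i, a i * (ind S (rel σ (ov j A (X i))) * ind S (rel σ (ov j A (X i))))) +
          ∑ i, ∑ l, a i * a l * (ind S (rel σ (ov j A (X i))) * ind S (rel σ (ov j A (X l))))) :=
      Finset.sum_congr rfl (fun σ _ => Finset.sum_congr rfl (fun A _ => h2 σ A))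
    rw [e1, e2, ← sum_one_eq, e3]
    generalize (fun (σ : Equiv.Perm (Fin N)) (A : Pat d N) =>
      (∑ i, a i * (ind S (rel σ (ov j A (X i))) * ind S (rel σ (ov j A (X i)))))) = u
    simp only [Finset.sum_add_distrib, ← Finset.mul_sum]
  rw [← h3]
  exact h1

lemma corS_bad {K N : ℕ} (S : Finset (Finset (Fin d → Fin N))) (hS : ¬ Good d N S)
    (j : Fin K → Fin N) (hj : Function.Injective j) (X Y : Pat d K) (γ : Finset (Fin K))
    (hγ : γ.Nonempty) (h1 : ∀ c : Fin d → Fin K, (∀ i, c i ∈ γ) → X c = false)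
    (h2 : ∀ c : Fin d → Fin K, (∀ i, c i ∈ γ) → Y c = true)
    (h3 : ∀ c : Fin d → Fin K, ¬ (∀ i, c i ∈ γ) → Y c = X c) : corS S j X Y = 0 := by
  unfold corS
  apply Finset.sum_eq_zero
  intro σ _
  apply Finset.sum_eq_zero
  intro A _
  by_contra hne
  apply hS
  have hX : toSet (rel σ (ov j A X)) ∈ S := by
    by_contra h
    apply hne
    unfold ind
    rw [if_neg h, zero_mul]
  have hY : toSet (rel σ (ov j A Y)) ∈ S := by
    by_contra h
    apply hne
    unfold ind
    rw [if_neg h, mul_zero]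
  let γ' : Finset (Fin N) := γ.image (fun v => σ⁻¹ (j v))
  have hγ' : γ'.Nonempty := hγ.image _
  have hcell : ∀ c : Fin d → Fin N, (∀ i, c i ∈ γ') ↔
      ∃ c' : Fin d → Fin K, (∀ i, c' i ∈ γ) ∧ (fun i => j (c' i)) = (fun i => σ (c i)) := by
    intro c
    constructor
    · intro h
      have : ∀ i, ∃ v ∈ γ, σ⁻¹ (j v) = c i := by
        intro i
        exact Finset.mem_image.mp (h i)
      choose f hf1 hf2 using this
      refine ⟨f, hf1, ?_⟩
      funext i
      rw [← hf2 i]
      simp
    · rintro ⟨c', hc1, hc2⟩ i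
      apply Finset.mem_image.mpr
      refine ⟨c' i, hc1 i, ?_⟩
      have := congrFun hc2 i
      rw [this]
      simp
  refine ⟨_, hX, γ', hγ', ?_, ?_⟩
  · rw [Finset.disjoint_left]
    intro c hc hc'
    rw [mem_toSet] at hc
    rw [Fintype.mem_piFinset] at hc'
    obtain ⟨c', hc1, hc2⟩ := (hcell c).mp hc'
    unfold rel at hc
    rw [← hc2, ov_in j hj, h1 c' hc1] at hc
    exact absurd hc (by simp)
  · convert hY using 1
    ext c
    rw [Finset.mem_union, mem_toSet, mem_toSet, Fintype.mem_piFinset]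
    by_cases hc : ∀ i, c i ∈ γ'
    · obtain ⟨c', hc1, hc2⟩ := (hcell c).mp hc
      have : rel σ (ov j A Y) c = true := by
        unfold rel
        rw [← hc2, ov_in j hj, h2 c' hc1]
      simp [hc, this]
    · have : rel σ (ov j A Y) c = rel σ (ov j A X) c := by
        unfold rel
        by_cases h4 : ∃ c' : Fin d → Fin K, (fun i => j (c' i)) = (fun i => σ (c i))
        · obtain ⟨c', hc'⟩ := h4
          rw [← hc', ov_in j hj, ov_in j hj]
          apply h3
          intro h5
          apply hc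
          exact (hcell c).mpr ⟨c', h5, hc'⟩
        · rw [ov_out _ _ _ _ h4, ov_out _ _ _ _ h4]
      rw [this]
      simp [hc]

lemma corS_zero {N : ℕ} (hd : 1 ≤ d) (S : Finset (Finset (Fin d → Fin N))) (j : Fin 0 → Fin N)
    (X : Pat d 0) : corS S j X X = N.factorial * (S.card : ℝ) := by
  have h0 : ∀ A : Pat d N, ov j A X = A := by
    intro A
    funext c
    apply ov_out
    rintro ⟨c', _⟩
    exact (c' ⟨0, by omega⟩).elim0
  have h1 : ∑ A : Pat d N, ind S A = (S.card : ℝ) := by
    unfold ind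
    rw [Finset.sum_ite, Finset.sum_const_zero, add_zero, Finset.sum_const, nsmul_eq_mul, mul_one]
    congr 1
    apply Finset.card_bij (fun A _ => toSet A)
    · intro A hA
      exact (Finset.mem_filter.mp hA).2
    · intro A _ B _ h
      funext c
      have : c ∈ toSet A ↔ c ∈ toSet B := by rw [h]
      rw [mem_toSet, mem_toSet] at this
      cases ha : A c <;> cases hb : B c <;> simp_all
    · intro T hT
      refine ⟨fun c => decide (c ∈ T), ?_, ?_⟩
      · rw [Finset.mem_filter]
        refine ⟨Finset.mem_univ _, ?_⟩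
        have : toSet (fun c => decide (c ∈ T)) = T := by
          ext c
          rw [mem_toSet]
          simp
        rw [this]
        exact hT
      · ext c
        rw [mem_toSet]
        simp
  unfold corS
  calc _ = ∑ σ : Equiv.Perm (Fin N), ∑ A : Pat d N, ind S A := by
        apply Finset.sum_congr rfl
        intro σ _
        rw [← Equiv.sum_comp (relEquiv σ) (fun A : Pat d N => ind S A)]
        apply Finset.sum_congr rfl
        intro A _
        rw [h0, ind_mul_self]
        rfl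
    _ = _ := by
        rw [h1]
        simp [Fintype.card_perm]

/-- normalised correlation -/
noncomputable def cor (S : ∀ N, Finset (Finset (Fin d → Fin N))) (K : ℕ) (X Y : Pat d K) (N : ℕ) : ℝ :=
  if h : K ≤ N then corS (S N) (Fin.castLE h) X Y / nrm d N else 0

lemma cor_nonneg (S : ∀ N, Finset (Finset (Fin d → Fin N))) (K : ℕ) (X Y : Pat d K) (N : ℕ) :
    0 ≤ cor S K X Y N := by
  unfold cor
  split_ifs with h
  · exact div_nonneg (corS_nonneg _ _ _ _) (nrm_pos d N).le
  · exact le_rfl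

lemma cor_le (S : ∀ N, Finset (Finset (Fin d → Fin N))) (K : ℕ) (X Y : Pat d K) (N : ℕ) :
    cor S K X Y N ≤ 1 := by
  unfold cor
  split_ifs with h
  · exact (div_le_one (nrm_pos d N)).mpr (corS_le _ _ _ _)
  · norm_num

lemma cor_ext (S : ∀ N, Finset (Finset (Fin d → Fin N))) (K K' : ℕ) (ι : Fin K → Fin K')
    (hι : Function.Injective ι) (X Y : Pat d K')
    (hXY : ∀ c : Fin d → Fin K', (¬ ∃ c' : Fin d → Fin K, c = ι ∘ c') → X c = Y c)
    (m N : ℕ) (hm : 1 ≤ m) (hN : K' * (m + 1) ≤ N) :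
    (cor S K' X Y N - cor S K (fun c => X (ι ∘ c)) (fun c => Y (ι ∘ c)) N) ^ 2 ≤
      2 ^ (K' ^ d) / m := by
  have hK' : K' ≤ N := by nlinarith
  have hKK : K ≤ K' := by
    have := Fintype.card_le_of_injective ι hι
    simpa using this
  have hK : K ≤ N := hKK.trans hK'
  unfold cor
  rw [dif_pos hK', dif_pos hK]
  have h := corS_ext (S N) ι hι X Y hXY hN (Fin.castLE hK) (Fin.castLE_injective hK)
    (Fin.castLE hK') (Fin.castLE_injective hK')
  have hD : (0:ℝ) < nrm d N := nrm_pos d N
  have hm' : (0:ℝ) < m := by exact_mod_cast hm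
  change _ ≤ (m:ℝ) * 2 ^ (K' ^ d) * (nrm d N) ^ 2 at h
  set a := corS (S N) (Fin.castLE hK') X Y
  set b := corS (S N) (Fin.castLE hK) (fun c => X (ι ∘ c)) (fun c => Y (ι ∘ c))
  set D := nrm d N
  rw [← sub_div, div_pow, div_le_div_iff₀ (by positivity) hm']
  have h2 : (m:ℝ) ^ 2 * (a - b) ^ 2 ≤ m * 2 ^ (K' ^ d) * D ^ 2 := by
    calc (m:ℝ) ^ 2 * (a - b) ^ 2 = (m * a - m * b) ^ 2 := by ring
      _ ≤ _ := h
  have h3 : (m:ℝ) * ((a - b) ^ 2 * m) ≤ m * (2 ^ (K' ^ d) * D ^ 2) := by
    calc (m:ℝ) * ((a - b) ^ 2 * m) = (m:ℝ) ^ 2 * (a - b) ^ 2 := by ring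
      _ ≤ m * 2 ^ (K' ^ d) * D ^ 2 := h2
      _ = _ := by ring
  exact le_of_mul_le_mul_left h3 hm'

/-- Part I: bad families of density bounded below have a limit object. -/
theorem exists_limFun (d : ℕ) (hd : 1 ≤ d) (δ₀ : ℝ)
    (h : ∀ N : ℕ, ∃ S : Finset (Finset (Fin d → Fin N)), (S.card : ℝ) > δ₀ * 2 ^ (N ^ d) ∧
      ¬ Good d N S) : ∃ δ : ℝ, δ₀ ≤ δ ∧ Nonempty (LimFun d δ) := by
  choose S hS1 hS2 using h
  let p : Ultrafilter ℕ := hyperfilter ℕ
  have hlarge : ∀ M : ℕ, ∀ᶠ N in (p : Filter ℕ), M ≤ N := by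
    intro M
    exact Nat.hyperfilter_le_atTop (eventually_ge_atTop M)
  have hex : ∀ (K : ℕ) (X Y : Pat d K), ∃ a : ℝ, Tendsto (cor S K X Y) p (𝓝 a) := fun K X Y =>
    exists_limit p _ 1 (cor_nonneg S K X Y) (cor_le S K X Y)
  choose G hG using hex
  have hext : ∀ (K K' : ℕ) (ι : Fin K → Fin K'), Function.Injective ι → ∀ X Y : Pat d K',
    (∀ c : Fin d → Fin K', (¬ ∃ c' : Fin d → Fin K, c = ι ∘ c') → X c = Y c) →
      G K' X Y = G K (fun c => X (ι ∘ c)) (fun c => Y (ι ∘ c)) := by
    intro K K' ι hι X Y hXY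
    have h1 : ∀ m : ℕ, 1 ≤ m →
        (G K' X Y - G K (fun c => X (ι ∘ c)) (fun c => Y (ι ∘ c))) ^ 2 ≤ 2 ^ (K' ^ d) / m := by
      intro m hm
      have ht : Tendsto (fun N => (cor S K' X Y N -
          cor S K (fun c => X (ι ∘ c)) (fun c => Y (ι ∘ c)) N) ^ 2) p
          (𝓝 ((G K' X Y - G K (fun c => X (ι ∘ c)) (fun c => Y (ι ∘ c))) ^ 2)) :=
        ((hG _ _ _).sub (hG _ _ _)).pow 2
      apply le_of_tendsto ht
      filter_upwards [hlarge (K' * (m + 1))] with N hN
      exact cor_ext S K K' ι hι X Y hXY m N hm hN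
    have h2 : (G K' X Y - G K (fun c => X (ι ∘ c)) (fun c => Y (ι ∘ c))) ^ 2 ≤ 0 := by
      have ht : Tendsto (fun m : ℕ => (2:ℝ) ^ (K' ^ d) / m) atTop (𝓝 0) :=
        tendsto_const_div_atTop_nhds_zero_nat _
      apply ge_of_tendsto ht
      filter_upwards [eventually_ge_atTop 1] with m hm
      exact h1 m hm
    have h3 := pow_eq_zero_iff (two_ne_zero) |>.mp (le_antisymm h2 (sq_nonneg _))
    linarith
  have hempty : ∀ (X Y : Pat d 0), X = Y := by
    intro X Y
    funext c
    exact (c ⟨0, by omega⟩).elim0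
  let X₀ : Pat d 0 := fun _ => false
  have hdiag : ∀ K (X : Pat d K), G K X X = G 0 X₀ X₀ := by
    intro K X
    rw [hext 0 K (fun v => v.elim0) (fun v => v.elim0) X X (fun _ _ => rfl)]
    rw [hempty (fun c => X ((fun v => v.elim0) ∘ c)) X₀]
  refine ⟨G 0 X₀ X₀, ?_, ⟨?_⟩⟩
  · apply ge_of_tendsto (hG 0 X₀ X₀)
    filter_upwards with N
    unfold cor
    rw [dif_pos (Nat.zero_le N), corS_zero hd]
    unfold nrm
    have h1 : (0:ℝ) < N.factorial := by exact_mod_cast Nat.factorial_pos N
    rw [mul_div_mul_left _ _ h1.ne', le_div_iff₀ (by positivity)]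
    exact (hS1 N).le
  · refine ⟨G, ?_, ?_, hdiag, hext, ?_, ?_⟩
    · intro K X Y
      refine tendsto_nhds_unique (hG K X Y) ?_
      have : cor S K X Y = cor S K Y X := by
        funext N
        unfold cor
        split_ifs with h
        · rw [corS_symm]
        · rfl
      rw [this]
      exact hG K Y X
    · intro K X Y
      exact ge_of_tendsto (hG K X Y) (Eventually.of_forall (cor_nonneg S K X Y))
    · intro K n X a a₀
      have h1 : ∀ᶠ N in (p : Filter ℕ), 0 ≤ a₀ ^ 2 + 2 * a₀ * (∑ i, a i * cor S K (X i) (X i) N) +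
          ∑ i, ∑ l, a i * a l * cor S K (X i) (X l) N := by
        filter_upwards [hlarge K] with N hN
        have := corS_psd (S N) (Fin.castLE hN) X a a₀
        have hD := nrm_pos d N
        have h2 : a₀ ^ 2 + 2 * a₀ * (∑ i, a i * cor S K (X i) (X i) N) +
          ∑ i, ∑ l, a i * a l * cor S K (X i) (X l) N =
          (a₀ ^ 2 * nrm d N + 2 * a₀ * (∑ i, a i * corS (S N) (Fin.castLE hN) (X i) (X i)) +
      ∑ i, ∑ l, a i * a l * corS (S N) (Fin.castLE hN) (X i) (X l)) / nrm d N := by
          unfold cor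
          simp only [dif_pos hN]
          rw [add_div, add_div, mul_div_cancel_right₀ _ hD.ne', mul_div_assoc, Finset.sum_div,
            Finset.sum_div]
          congr 1
          · congr 2
            apply Finset.sum_congr rfl
            intro i _
            rw [mul_div_assoc]
          · apply Finset.sum_congr rfl
            intro i _
            rw [Finset.sum_div]
            apply Finset.sum_congr rfl
            intro l _
            rw [mul_div_assoc]
        rw [h2]
        exact div_nonneg this hD.le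
      have h2 : Tendsto (fun N => a₀ ^ 2 + 2 * a₀ * (∑ i, a i * cor S K (X i) (X i) N) +
          ∑ i, ∑ l, a i * a l * cor S K (X i) (X l) N) p
          (𝓝 (a₀ ^ 2 + 2 * a₀ * (∑ i, a i * G K (X i) (X i)) +
          ∑ i, ∑ l, a i * a l * G K (X i) (X l))) := by
        apply Tendsto.add
        · apply Tendsto.add tendsto_const_nhds
          apply Tendsto.const_mul
          apply tendsto_finsetSum
          intro i _
          exact (hG _ _ _).const_mul _
        · apply tendsto_finsetSum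
          intro i _
          apply tendsto_finsetSum
          intro l _
          exact (hG _ _ _).const_mul _
      have h3 := ge_of_tendsto h2 h1
      have h4 : (∑ i, a i * G K (X i) (X i)) = (∑ i, a i) * G 0 X₀ X₀ := by
        rw [Finset.sum_mul]
        apply Finset.sum_congr rfl
        intro i _
        rw [hdiag]
      rw [h4, ← mul_assoc] at h3
      exact h3
    · intro K X Y γ hγ h1 h2 h3
      refine tendsto_nhds_unique (hG K X Y) ?_
      have : cor S K X Y = fun _ => 0 := by
        funext N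
        unfold cor
        split_ifs with h
        · rw [corS_bad (S N) (hS2 N) (Fin.castLE h) (Fin.castLE_injective h) X Y γ hγ h1 h2 h3]
          simp
        · rfl
      rw [this]
      exact tendsto_const_nhds

end Pool.Agent.Lib.MP_90b327_co
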