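import Mathlib
import Pool.Agent.Lib.MP_90b327_co.Interface
import Pool.Agent.Lib.MP_90b327_co.Ultra

/-!
Part II: the bound on the density of a `LimFun`.
-/

set_option autoImplicit false

namespace Pool.Agent.Lib.MP_90b327_co

open Filter Topology Finset

variable {d : ℕ} {δ : ℝ}

/-- The pair correlation on an arbitrary finite vertex type. -/
noncomputable def LimFun.GV (L : LimFun d δ) (V : Type) [Fintype V] (X Y : (Fin d → V) → Bool) : ℝ :=
  L.G (Fintype.card V) (fun c => X ((Fintype.equivFin V).symm ∘ c))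
    (fun c => Y ((Fintype.equivFin V).symm ∘ c))

lemma LimFun.GV_symm (L : LimFun d δ) (V : Type) [Fintype V] (X Y : (Fin d → V) → Bool) :
    L.GV V X Y = L.GV V Y X := L.symm _ _ _

lemma LimFun.GV_nonneg (L : LimFun d δ) (V : Type) [Fintype V] (X Y : (Fin d → V) → Bool) :
    0 ≤ L.GV V X Y := L.nonneg _ _ _

lemma LimFun.GV_diag (L : LimFun d δ) (V : Type) [Fintype V] (X : (Fin d → V) → Bool) :
    L.GV V X X = δ := L.diag _ _

lemma LimFun.GV_ext (L : LimFun d δ) {V V' : Type} [Fintype V] [Fintype V'] (ι : V → V')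
    (hι : Function.Injective ι) (X Y : (Fin d → V') → Bool)
    (h : ∀ c : Fin d → V', (∃ i, c i ∉ Set.range ι) → X c = Y c) :
    L.GV V' X Y = L.GV V (fun c => X (ι ∘ c)) (fun c => Y (ι ∘ c)) := by
  unfold LimFun.GV
  rw [L.ext (Fintype.card V) (Fintype.card V')
    (fun j => Fintype.equivFin V' (ι ((Fintype.equivFin V).symm j)))]
  · congr 1
    · funext c
      congr 1
      funext i
      simp
    · funext c
      congr 1
      funext i
      simp
  · intro a b hab
    simpa using hι ((Fintype.equivFin V').injective hab)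
  · intro c hc
    apply h
    by_contra hcon
    push Not at hcon
    apply hc
    choose f hf using hcon
    refine ⟨fun i => Fintype.equivFin V (f i), ?_⟩
    funext i
    simp only [Function.comp, Equiv.symm_apply_apply]
    have := hf i
    simp only [Function.comp] at this
    rw [this]
    simp

lemma LimFun.GV_psd (L : LimFun d δ) (V : Type) [Fintype V] {J : Type} [Fintype J]
    (X : J → (Fin d → V) → Bool) (a : J → ℝ) (a₀ : ℝ) :
    0 ≤ a₀ ^ 2 + 2 * a₀ * (∑ i, a i) * δ + ∑ i, ∑ j, a i * a j * L.GV V (X i) (X j) := by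
  have := L.psd (Fintype.card V) (Fintype.card J)
    (fun i c => X ((Fintype.equivFin J).symm i) ((Fintype.equivFin V).symm ∘ c))
    (fun i => a ((Fintype.equivFin J).symm i)) a₀
  have e1 : ∑ i, a ((Fintype.equivFin J).symm i) = ∑ i, a i :=
    Equiv.sum_comp (Fintype.equivFin J).symm a
  rw [e1] at this
  have e2 : ∑ i, ∑ j, a ((Fintype.equivFin J).symm i) * a ((Fintype.equivFin J).symm j) *
      L.G (Fintype.card V) (fun c => X ((Fintype.equivFin J).symm i) ((Fintype.equivFin V).symm ∘ c))
        (fun c => X ((Fintype.equivFin J).symm j) ((Fintype.equivFin V).symm ∘ c)) =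
      ∑ i, ∑ j, a i * a j * L.GV V (X i) (X j) := by
    rw [← Equiv.sum_comp (Fintype.equivFin J).symm (fun i => ∑ j, a i * a j * L.GV V (X i) (X j))]
    apply Finset.sum_congr rfl
    intro i _
    rw [← Equiv.sum_comp (Fintype.equivFin J).symm
      (fun j => a ((Fintype.equivFin J).symm i) * a j * L.GV V (X ((Fintype.equivFin J).symm i)) (X j))]
    rfl
  rw [e2] at this
  exact this

lemma LimFun.GV_le (L : LimFun d δ) (V : Type) [Fintype V] (X Y : (Fin d → V) → Bool) :
    L.GV V X Y ≤ δ := by
  have := L.GV_psd V (J := Bool) (fun b => if b then X else Y) (fun b => if b then 1 else -1) 0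
  simp only [Fintype.sum_bool, L.GV_diag] at this
  have hs := L.GV_symm V X Y
  simp at this
  linarith

lemma LimFun.GV_bad (L : LimFun d δ) (V : Type) [Fintype V] (X Y : (Fin d → V) → Bool)
    (γ : V → Prop) (hγ : ∃ v, γ v)
    (hX : ∀ c : Fin d → V, (∀ i, γ (c i)) → X c = false)
    (hY : ∀ c : Fin d → V, (∀ i, γ (c i)) → Y c = true)
    (hXY : ∀ c : Fin d → V, ¬ (∀ i, γ (c i)) → Y c = X c) : L.GV V X Y = 0 := by
  classical
  unfold LimFun.GV
  obtain ⟨v, hv⟩ := hγ
  refine L.bad _ _ _ (Finset.univ.filter fun j => γ ((Fintype.equivFin V).symm j)) ?_ ?_ ?_ ?_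
  · exact ⟨Fintype.equivFin V v, by simp [hv]⟩
  · intro c hc
    apply hX
    intro i
    simpa using hc i
  · intro c hc
    apply hY
    intro i
    simpa using hc i
  · intro c hc
    apply hXY
    intro h
    apply hc
    intro i
    simpa using h i

/-- collapse the fresh vertices -/
def collapse (V W : Type) : V ⊕ W → Option V := Sum.elim some (fun _ => none)

/-- number of fresh coordinates of a type -/
def nn {V : Type} (τ : Fin d → Option V) : ℕ := (Finset.univ.filter fun i => τ i = none).card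

/-- the pattern of a scheme -/
def pat {V : Type} (T : (Fin d → Option V) → Bool) (W : Type) : (Fin d → V ⊕ W) → Bool :=
  fun c => T (collapse V W ∘ c)

/-- the restriction of a scheme to the old cells -/
def base {V : Type} (T : (Fin d → Option V) → Bool) : (Fin d → V) → Bool :=
  fun c => T (some ∘ c)

/-- `T2` on the old cells, `T1` on the new ones -/
def Ty {V : Type} (T1 T2 : (Fin d → Option V) → Bool) : (Fin d → Option V) → Bool :=
  fun τ => if (∀ i, (τ i).isSome = true) then T2 τ else T1 τ

/-- old or among the first `s` fresh vertices -/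
def inside {V : Type} {M : ℕ} (s : ℕ) : V ⊕ Fin M → Bool :=
  Sum.elim (fun _ => true) (fun j => decide (j.val < s))

/-- `T2` on the cells on old vertices and the first `s` fresh ones, `T1` on the others -/
def wpat {V : Type} (T1 T2 : (Fin d → Option V) → Bool) (M s : ℕ) : (Fin d → V ⊕ Fin M) → Bool :=
  fun c => if (∀ i, inside s (c i) = true) then T2 (collapse V _ ∘ c) else T1 (collapse V _ ∘ c)

/-- collapse twice -/
def col (V W : Type) : Option (V ⊕ W) → Option V := fun o => o.bind (collapse V W)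

/-- the first scheme of the derived pair -/
def T1' {V : Type} (T1 T2 : (Fin d → Option V) → Bool) (W : Type) :
    (Fin d → Option (V ⊕ W)) → Bool :=
  fun τ => if (∀ i, (τ i).all Sum.isLeft = true) then T2 (col V W ∘ τ) else T1 (col V W ∘ τ)

/-- the second scheme of the derived pair -/
def T2' {V : Type} (T2 : (Fin d → Option V) → Bool) (W : Type) :
    (Fin d → Option (V ⊕ W)) → Bool :=
  fun τ => T2 (col V W ∘ τ)

/-- inclusion of the first `s` fresh vertices -/
def incl {V : Type} {s M : ℕ} (h : s ≤ M) : V ⊕ Fin s → V ⊕ Fin M := Sum.map id (Fin.castLE h)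

lemma incl_injective {V : Type} {s M : ℕ} (h : s ≤ M) :
    Function.Injective (incl h : V ⊕ Fin s → V ⊕ Fin M) :=
  Function.Injective.sumMap Function.injective_id (Fin.castLE_injective h)

lemma inside_incl {V : Type} {s M : ℕ} (h : s ≤ M) (x : V ⊕ Fin s) :
    inside s (incl h x : V ⊕ Fin M) = true := by
  rcases x with v | j
  · rfl
  · simp [inside, incl]

lemma mem_range_incl {V : Type} {s M : ℕ} (h : s ≤ M) (x : V ⊕ Fin M) :
    x ∈ Set.range (incl h) ↔ inside s x = true := by
  constructor
  · rintro ⟨y, rfl⟩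
    exact inside_incl h y
  · intro hx
    rcases x with v | j
    · exact ⟨Sum.inl v, rfl⟩
    · have hj : j.val < s := by simpa [inside] using hx
      exact ⟨Sum.inr ⟨j.val, hj⟩, rfl⟩

lemma collapse_incl {V : Type} {s M : ℕ} (h : s ≤ M) (x : V ⊕ Fin s) :
    collapse V (Fin M) (incl h x) = collapse V (Fin s) x := by
  rcases x with v | j <;> rfl

lemma collapse_incl_comp {V : Type} {s M : ℕ} (h : s ≤ M) (c : Fin d → V ⊕ Fin s) :
    collapse V (Fin M) ∘ (incl h ∘ c) = collapse V (Fin s) ∘ c := by
  funext i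
  exact collapse_incl h (c i)

lemma LimFun.corr_x_w (L : LimFun d δ) {V : Type} [Fintype V] (T1 T2 : (Fin d → Option V) → Bool)
    {s M : ℕ} (h : s ≤ M) :
    L.GV (V ⊕ Fin M) (pat T1 _) (wpat T1 T2 M s) = L.GV (V ⊕ Fin s) (pat T1 _) (pat T2 _) := by
  rw [L.GV_ext (incl h) (incl_injective h)]
  · congr 1
    · funext c
      simp only [pat, collapse_incl_comp]
    · funext c
      simp only [wpat, pat]
      rw [if_pos (show ∀ i, inside s ((incl h ∘ c) i : V ⊕ Fin M) = true from
        fun i => inside_incl h (c i)), collapse_incl_comp]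
  · intro c hc
    obtain ⟨i, hi⟩ := hc
    rw [mem_range_incl] at hi
    simp only [wpat, pat]
    rw [if_neg (fun hall => hi (hall i))]

lemma isSome_collapse {V W : Type} (x : V ⊕ W) : (collapse V W x).isSome = x.isLeft := by
  rcases x with v | w <;> rfl

lemma LimFun.corr_y_w (L : LimFun d δ) {V : Type} [Fintype V] (T1 T2 : (Fin d → Option V) → Bool)
    {s M : ℕ} (h : s ≤ M) :
    L.GV (V ⊕ Fin M) (pat (Ty T1 T2) _) (wpat T1 T2 M s) =
      L.GV (V ⊕ Fin s) (pat (Ty T1 T2) _) (pat T2 _) := by
  rw [L.GV_ext (incl h) (incl_injective h)]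
  · congr 1
    · funext c
      simp only [pat, collapse_incl_comp]
    · funext c
      simp only [wpat, pat]
      rw [if_pos (show ∀ i, inside s ((incl h ∘ c) i : V ⊕ Fin M) = true from
        fun i => inside_incl h (c i)), collapse_incl_comp]
  · intro c hc
    obtain ⟨i, hi⟩ := hc
    rw [mem_range_incl] at hi
    simp only [wpat, pat, Ty]
    rw [if_neg (show ¬ ∀ i, inside s (c i) = true from fun hall => hi (hall i)), if_neg]
    intro hall
    have h2 := hall i
    simp only [Function.comp, isSome_collapse] at h2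
    rcases hci : c i with v | j
    · rw [hci] at hi
      exact hi rfl
    · rw [hci] at h2
      simp at h2

lemma LimFun.corr_x_y (L : LimFun d δ) {V : Type} [Fintype V] (T1 T2 : (Fin d → Option V) → Bool)
    (M : ℕ) :
    L.GV (V ⊕ Fin M) (pat T1 _) (pat (Ty T1 T2) _) = L.GV V (base T1) (base T2) := by
  rw [L.GV_ext (Sum.inl : V → V ⊕ Fin M) Sum.inl_injective]
  · congr 1
    funext c
    simp only [pat, base, Ty]
    rw [if_pos]
    · rfl
    · intro i
      rfl
  · intro c hc
    obtain ⟨i, hi⟩ := hc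
    simp only [pat, Ty]
    rw [if_neg]
    intro hall
    have h2 := hall i
    simp only [Function.comp, isSome_collapse] at h2
    rcases hci : c i with v | j
    · exact hi ⟨v, hci.symm⟩
    · rw [hci] at h2
      simp at h2

/-- the vertex map for the pair correlation of two nested sets -/
def incl2 {V : Type} {e s' M : ℕ} (h : e + s' ≤ M) : (V ⊕ Fin e) ⊕ Fin s' → V ⊕ Fin M :=
  Sum.elim (Sum.elim Sum.inl (fun j => Sum.inr ⟨s' + j.val, by omega⟩))
    (fun j => Sum.inr ⟨j.val, by omega⟩)

lemma incl2_injective {V : Type} {e s' M : ℕ} (h : e + s' ≤ M) :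
    Function.Injective (incl2 h : (V ⊕ Fin e) ⊕ Fin s' → V ⊕ Fin M) := by
  rintro ((v | j) | j) ((v' | j') | j') hxy <;>
    simp only [incl2, Sum.elim_inl, Sum.elim_inr, Sum.inl.injEq, Sum.inr.injEq, Fin.mk.injEq,
      reduceCtorEq] at hxy
  · rw [hxy]
  · congr 2
    apply Fin.ext
    omega
  · omega
  · omega
  · congr 1
    apply Fin.ext
    omega

lemma mem_range_incl2 {V : Type} {e s' M : ℕ} (h : e + s' ≤ M) (x : V ⊕ Fin M)
    (hx : inside (e + s') x = true) : x ∈ Set.range (incl2 (V := V) h) := by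
  rcases x with v | j
  · exact ⟨Sum.inl (Sum.inl v), rfl⟩
  · have hj : j.val < e + s' := by simpa [inside] using hx
    by_cases hj' : j.val < s'
    · exact ⟨Sum.inr ⟨j.val, hj'⟩, rfl⟩
    · refine ⟨Sum.inl (Sum.inr ⟨j.val - s', by omega⟩), ?_⟩
      simp only [incl2, Sum.elim_inl, Sum.elim_inr]
      congr 1
      apply Fin.ext
      simp only
      omega

lemma inside_incl2_big {V : Type} {e s' M : ℕ} (h : e + s' ≤ M) (x : (V ⊕ Fin e) ⊕ Fin s') :
    inside (e + s') (incl2 h x : V ⊕ Fin M) = true := by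
  rcases x with (v | j) | j
  · rfl
  · simp only [inside, incl2, Sum.elim_inl, Sum.elim_inr, decide_eq_true_eq]
    omega
  · simp only [inside, incl2, Sum.elim_inr, decide_eq_true_eq]
    omega

lemma inside_incl2_small {V : Type} {e s' M : ℕ} (h : e + s' ≤ M) (x : (V ⊕ Fin e) ⊕ Fin s') :
    inside s' (incl2 h x : V ⊕ Fin M) = (collapse (V ⊕ Fin e) (Fin s') x).all Sum.isLeft := by
  rcases x with (v | j) | j
  · rfl
  · simp [inside, incl2, collapse]
  · simp [inside, incl2, collapse]

lemma collapse_incl2 {V : Type} {e s' M : ℕ} (h : e + s' ≤ M) (x : (V ⊕ Fin e) ⊕ Fin s') :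
    collapse V (Fin M) (incl2 h x) = col V (Fin e) (collapse (V ⊕ Fin e) (Fin s') x) := by
  rcases x with (v | j) | j <;> rfl

lemma LimFun.corr_w_w (L : LimFun d δ) {V : Type} [Fintype V] (T1 T2 : (Fin d → Option V) → Bool)
    {e s' M : ℕ} (h : e + s' ≤ M) :
    L.GV (V ⊕ Fin M) (wpat T1 T2 M s') (wpat T1 T2 M (e + s')) =
      L.GV ((V ⊕ Fin e) ⊕ Fin s') (pat (T1' T1 T2 (Fin e)) _) (pat (T2' T2 (Fin e)) _) := by
  rw [L.GV_ext (incl2 h) (incl2_injective h)]
  · congr 1
    · funext c
      simp only [wpat, pat, T1']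
      have e1 : (∀ i, inside s' ((incl2 h ∘ c) i : V ⊕ Fin M) = true) ↔
          (∀ i, (((collapse (V ⊕ Fin e) (Fin s')) ∘ c) i).all Sum.isLeft = true) := by
        apply forall_congr'
        intro i
        simp only [Function.comp]
        rw [inside_incl2_small]
      have e2 : collapse V (Fin M) ∘ (incl2 h ∘ c) =
          col V (Fin e) ∘ (collapse (V ⊕ Fin e) (Fin s') ∘ c) := by
        funext i
        exact collapse_incl2 h (c i)
      rw [e2]
      by_cases hc : ∀ i, inside s' ((incl2 h ∘ c) i : V ⊕ Fin M) = true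
      · rw [if_pos hc, if_pos (e1.mp hc)]
      · rw [if_neg hc, if_neg (fun h' => hc (e1.mpr h'))]
    · funext c
      simp only [wpat, pat, T2']
      rw [if_pos (show ∀ i, inside (e + s') ((incl2 h ∘ c) i : V ⊕ Fin M) = true from
        fun i => inside_incl2_big h (c i))]
      congr 1
      funext i
      exact collapse_incl2 h (c i)
  · intro c hc
    obtain ⟨i, hi⟩ := hc
    have hin : ¬ inside (e + s') (c i) = true := fun hin => hi (mem_range_incl2 h _ hin)
    have hin' : ¬ inside s' (c i) = true := by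
      intro h'
      apply hin
      rcases hci : c i with v | j
      · rfl
      · rw [hci] at h'
        simp only [inside, Sum.elim_inr, decide_eq_true_eq] at h' ⊢
        omega
    simp only [wpat]
    rw [if_neg (show ¬ ∀ i, inside s' (c i) = true from fun hall => hin' (hall i)),
      if_neg (show ¬ ∀ i, inside (e + s') (c i) = true from fun hall => hin (hall i))]

lemma base_T1' {V : Type} (T1 T2 : (Fin d → Option V) → Bool) (W : Type) :
    base (T1' T1 T2 W) = pat (Ty T1 T2) W := by
  funext c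
  simp only [base, T1', pat, Ty]
  have e1 : (∀ i, ((some ∘ c) i).all Sum.isLeft = true) ↔
      (∀ i, ((collapse V W ∘ c) i).isSome = true) := by
    apply forall_congr'
    intro i
    simp only [Function.comp, isSome_collapse, Option.all_some]
  have e2 : col V W ∘ (some ∘ c) = collapse V W ∘ c := by
    funext i
    rfl
  rw [e2]
  by_cases hc : ∀ i, ((some ∘ c) i).all Sum.isLeft = true
  · rw [if_pos hc, if_pos (e1.mp hc)]
  · rw [if_neg hc, if_neg (fun h' => hc (e1.mpr h'))]

lemma base_T2' {V : Type} (T2 : (Fin d → Option V) → Bool) (W : Type) :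
    base (T2' T2 W) = pat T2 W := by
  funext c
  rfl

lemma agree_derived {V : Type} (T1 T2 : (Fin d → Option V) → Bool) (W : Type) (k : ℕ)
    (h : ∀ τ : Fin d → Option V, k + 1 < nn τ → T1 τ = T2 τ) (τ : Fin d → Option (V ⊕ W))
    (hτ : k < nn τ) : T1' T1 T2 W τ = T2' T2 W τ := by
  simp only [T1', T2']
  by_cases hc : ∀ i, (τ i).all Sum.isLeft = true
  · rw [if_pos hc]
  · rw [if_neg hc]
    apply h
    push Not at hc
    obtain ⟨i, hi⟩ := hc
    have hi2 : τ i ≠ none := by
      intro h0
      rw [h0] at hi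
      simp at hi
    have hi3 : (col V W ∘ τ) i = none := by
      simp only [Function.comp, col]
      rcases hti : τ i with _ | x
      · rfl
      · rw [hti] at hi
        rcases x with v | w
        · simp at hi
        · rfl
    refine lt_of_le_of_lt (Nat.succ_le_of_lt hτ) ?_
    unfold nn
    apply Finset.card_lt_card
    rw [Finset.ssubset_iff_of_subset]
    · refine ⟨i, ?_, ?_⟩
      · rw [Finset.mem_filter_univ]
        exact hi3
      · rw [Finset.mem_filter_univ]
        exact hi2
    · intro j hj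
      rw [Finset.mem_filter_univ] at hj ⊢
      simp only [Function.comp, hj, col]
      rfl

/-- the quadratic form for `r x + q y - (1/N) ∑ w` -/
lemma LimFun.quad (L : LimFun d δ) {W : Type} [Fintype W] (x y : (Fin d → W) → Bool) (n : ℕ)
    (w : Fin (n + 1) → (Fin d → W) → Bool) (r q u : ℝ) :
    0 ≤ r ^ 2 * δ + 2 * (r * q) * L.GV W x y + q ^ 2 * δ - 2 * (r * u) * ∑ l, L.GV W x (w l)
      - 2 * (q * u) * ∑ l, L.GV W y (w l) + u ^ 2 * ∑ l, ∑ l', L.GV W (w l) (w l') := by
  have h := L.GV_psd W (J := Option (Option (Fin (n + 1))))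
    (fun i => match i with
      | none => x
      | some none => y
      | some (some l) => w l)
    (fun i => match i with
      | none => r
      | some none => q
      | some (some _) => -u) 0
  simp only [Fintype.sum_option] at h
  have e1 : ∑ l, r * -u * L.GV W x (w l) = -(r * u) * ∑ l, L.GV W x (w l) := by
    rw [Finset.mul_sum]
    apply Finset.sum_congr rfl
    intro l _
    ring
  have e2 : ∑ l, q * -u * L.GV W y (w l) = -(q * u) * ∑ l, L.GV W y (w l) := by
    rw [Finset.mul_sum]
    apply Finset.sum_congr rfl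
    intro l _
    ring
  have e3 : ∑ l, (-u * r * L.GV W (w l) x + (-u * q * L.GV W (w l) y +
      ∑ l', -u * -u * L.GV W (w l) (w l'))) =
      -(r * u) * ∑ l, L.GV W x (w l) + (-(q * u) * ∑ l, L.GV W y (w l) +
        u ^ 2 * ∑ l, ∑ l', L.GV W (w l) (w l')) := by
    rw [Finset.sum_add_distrib, Finset.sum_add_distrib, Finset.mul_sum, Finset.mul_sum,
      Finset.mul_sum]
    congr 1
    · apply Finset.sum_congr rfl
      intro l _
      rw [L.GV_symm W (w l) x]
      ring
    · congr 1
      · apply Finset.sum_congr rfl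
        intro l _
        rw [L.GV_symm W (w l) y]
        ring
      · apply Finset.sum_congr rfl
        intro l _
        rw [Finset.mul_sum]
        apply Finset.sum_congr rfl
        intro l' _
        ring
  rw [e1, e2, e3, L.GV_diag, L.GV_diag, L.GV_symm W y x] at h
  linarith

/-- bound for the double sum of correlations when off-diagonal correlations are at most `U` -/
lemma double_sum_le (n : ℕ) (F : Fin (n + 1) → Fin (n + 1) → ℝ) (δ U : ℝ) (hδ : ∀ l, F l l = δ)
    (hU0 : 0 ≤ U) (hU : ∀ l l', l ≠ l' → F l l' ≤ U) :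
    (1 / (n + 1 : ℝ)) ^ 2 * ∑ l, ∑ l', F l l' ≤ δ / (n + 1) + U := by
  have hN : (0 : ℝ) < n + 1 := by positivity
  have h1 : ∑ l, ∑ l', F l l' ≤ ∑ l : Fin (n + 1), ∑ l' : Fin (n + 1), ((if l = l' then δ else 0) + U) := by
    apply Finset.sum_le_sum
    intro l _
    apply Finset.sum_le_sum
    intro l' _
    by_cases h : l = l'
    · subst h
      rw [hδ, if_pos rfl]
      linarith
    · rw [if_neg h, zero_add]
      exact hU l l' h
  have h2 : ∑ l : Fin (n + 1), ∑ l' : Fin (n + 1), ((if l = l' then δ else 0) + U) =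
      (n + 1) * δ + (n + 1) ^ 2 * U := by
    simp only [Finset.sum_add_distrib, Finset.sum_ite_eq, Finset.mem_univ, if_true,
      Finset.sum_const, Finset.card_univ, Fintype.card_fin, nsmul_eq_mul]
    push_cast
    ring
  have h3 : (1 / (n + 1 : ℝ)) ^ 2 * ∑ l, ∑ l', F l l' ≤
      (1 / (n + 1 : ℝ)) ^ 2 * ((n + 1) * δ + (n + 1) ^ 2 * U) :=
    mul_le_mul_of_nonneg_left (h1.trans h2.le) (by positivity)
  refine h3.trans (le_of_eq ?_)
  field_simp

lemma LimFun.delta_nonneg (L : LimFun d δ) : 0 ≤ δ := by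
  have := L.nonneg 0 (fun _ => true) (fun _ => true)
  rwa [L.diag] at this

lemma final_arith (r q δ G0 gs ts η κ a' b' D S U : ℝ) (hr : r = 1 - q) (hr1 : 1 / 2 ≤ r)
    (hκ : 0 < κ) (hquad : 0 ≤ r ^ 2 * δ + 2 * (r * q) * G0 + q ^ 2 * δ - 2 * r * a' - 2 * q * b' + S)
    (hC : S ≤ D + U) (hD : D ≤ κ / 2) (hU : U = 2 * q * ts + (1 - 2 * q) * δ + η)
    (h1 : 2 * r * (gs - η) ≤ 2 * r * a') (h2 : 2 * q * (ts - η) ≤ 2 * q * b') (hη : η = κ / 6) :
    gs ≤ q * G0 + r * δ + κ := by
  have e1 : r ^ 2 * δ + q ^ 2 * δ + (1 - 2 * q) * δ = 2 * r ^ 2 * δ := by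
    rw [hr]; ring
  have e2 : 2 * r * η + 2 * q * η = 2 * η := by rw [hr]; ring
  have h3 : 2 * r * gs ≤ 2 * (r * q) * G0 + 2 * r ^ 2 * δ + κ / 2 + 3 * η := by
    rw [hU] at hC
    linarith
  have h5 : κ ≤ 2 * r * κ := by nlinarith
  have h4 : 2 * r * gs ≤ 2 * r * (q * G0 + r * δ + κ) := by
    have e3 : 2 * r * (q * G0 + r * δ + κ) = 2 * (r * q) * G0 + 2 * r ^ 2 * δ + 2 * r * κ := by ring
    rw [e3]
    linarith
  exact le_of_mul_le_mul_left h4 (by linarith)

lemma final_arith2 (lam δ c κ D S : ℝ)
    (h : 0 ≤ lam ^ 2 + 2 * lam * (-lam + -1) * δ + (-lam * -lam * δ + 0 + S))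
    (hC : S ≤ D + (c * δ + κ / 2)) (hD : D ≤ κ / 2) :
    0 ≤ lam ^ 2 * (1 - δ) - 2 * lam * δ + c * δ + κ := by
  have e : lam ^ 2 + 2 * lam * (-lam + -1) * δ + (-lam * -lam * δ + 0 + S) =
    lam ^ 2 * (1 - δ) - 2 * lam * δ + S := by ring
  rw [e] at h
  linarith

theorem LimFun.claim (L : LimFun d δ) (p : Ultrafilter ℕ+)
    (hp : ∀ A : ℕ+ → Prop, (∀ᶠ m in (p : Filter ℕ+), A m) ↔
      ∀ᶠ a in (p : Filter ℕ+), ∀ᶠ m in (p : Filter ℕ+), A (a + m)) (k : ℕ) :
    ∀ (V : Type) [Fintype V] (T1 T2 : (Fin d → Option V) → Bool),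
      (∀ τ, k < nn τ → T1 τ = T2 τ) → ∀ ε : ℝ, 0 < ε → ∀ᶠ m : ℕ+ in (p : Filter ℕ+),
        L.GV (V ⊕ Fin (m : ℕ)) (pat T1 _) (pat T2 _) ≤
          (1 / 2 : ℝ) ^ k * L.GV V (base T1) (base T2) + (1 - (1 / 2 : ℝ) ^ k) * δ + ε := by
  have hδ0 := L.delta_nonneg
  induction k with
  | zero =>
    intro V _ T1 T2 hT ε hε
    filter_upwards with m
    rw [L.GV_ext (Sum.inl : V → V ⊕ Fin (m : ℕ)) Sum.inl_injective]
    · have : L.GV V (fun c => pat T1 (Fin (m : ℕ)) (Sum.inl ∘ c))
        (fun c => pat T2 (Fin (m : ℕ)) (Sum.inl ∘ c)) = L.GV V (base T1) (base T2) := rfl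
      rw [this]
      simp only [pow_zero, one_mul, sub_self, zero_mul, add_zero]
      linarith
    · intro c hc
      obtain ⟨i, hi⟩ := hc
      apply hT
      unfold nn
      rw [Finset.card_pos]
      refine ⟨i, ?_⟩
      rw [Finset.mem_filter_univ]
      simp only [Function.comp]
      rcases hci : c i with v | j
      · exact absurd ⟨v, hci.symm⟩ hi
      · rfl
  | succ k ih =>
    intro V _ T1 T2 hT ε hε
    set q : ℝ := (1 / 2 : ℝ) ^ (k + 1) with hq
    have hq2 : (1 / 2 : ℝ) ^ k = 2 * q := by
      rw [hq, pow_succ]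
      ring
    have hq0 : 0 < q := by positivity
    have hq1 : 2 * q ≤ 1 := by
      rw [← hq2]
      exact pow_le_one₀ (by norm_num) (by norm_num)
    set r : ℝ := 1 - q with hr
    have hr1 : 1 / 2 ≤ r := by rw [hr]; linarith
    set G0 := L.GV V (base T1) (base T2) with hG0
    let g : ℕ+ → ℝ := fun m => L.GV (V ⊕ Fin (m : ℕ)) (pat T1 _) (pat T2 _)
    let t : ℕ+ → ℝ := fun m => L.GV (V ⊕ Fin (m : ℕ)) (pat (Ty T1 T2) _) (pat T2 _)
    obtain ⟨gs, hgs⟩ := exists_limit p g δ (fun m => L.GV_nonneg _ _ _) (fun m => L.GV_le _ _ _)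
    obtain ⟨ts, hts⟩ := exists_limit p t δ (fun m => L.GV_nonneg _ _ _) (fun m => L.GV_le _ _ _)
    have hts0 : 0 ≤ ts := ge_of_tendsto hts (Eventually.of_forall fun m => L.GV_nonneg _ _ _)
    -- the main inequality
    have main : gs ≤ q * G0 + r * δ := by
      apply le_of_forall_pos_le_add
      intro κ hκ
      -- choose η and n
      set η : ℝ := κ / 6 with hη
      have hη0 : 0 < η := by positivity
      obtain ⟨n, hn⟩ := exists_nat_gt (2 * δ / κ)
      have hN : (0 : ℝ) < n + 1 := by positivity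
      have hδN : δ / (n + 1) ≤ κ / 2 := by
        rw [div_le_iff₀ hN]
        rw [div_lt_iff₀ hκ] at hn
        nlinarith
      set U : ℝ := 2 * q * ts + (1 - 2 * q) * δ + η with hU
      have hU0 : 0 ≤ U := by
        have h1 : 0 ≤ 2 * q * ts := by positivity
        have h2 : 0 ≤ (1 - 2 * q) * δ := mul_nonneg (by linarith) hδ0
        linarith
      have hP : ∀ᶠ m in (p : Filter ℕ+), gs - η < g m ∧ ts - η < t m :=
        (hgs.eventually (lt_mem_nhds (by linarith))).and
          (hts.eventually (lt_mem_nhds (by linarith)))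
      have hQ : ∀ᶠ e : ℕ+ in (p : Filter ℕ+), ∀ᶠ m : ℕ+ in (p : Filter ℕ+),
          L.GV ((V ⊕ Fin (e : ℕ)) ⊕ Fin (m : ℕ)) (pat (T1' T1 T2 _) _) (pat (T2' T2 _) _) ≤ U := by
        have h1 : ∀ᶠ e in (p : Filter ℕ+), t e < ts + η / 2 :=
          hts.eventually (gt_mem_nhds (by linarith))
        filter_upwards [h1] with e he
        have h2 := ih (V ⊕ Fin (e : ℕ)) (T1' T1 T2 _) (T2' T2 _)
          (fun τ hτ => agree_derived T1 T2 _ k hT τ hτ) (η / 2) (by positivity)
        filter_upwards [h2] with m hm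
        refine hm.trans ?_
        rw [base_T1', base_T2', hq2]
        have h3 : 2 * q * L.GV (V ⊕ Fin (e : ℕ)) (pat (Ty T1 T2) _) (pat T2 _) ≤
            2 * q * (ts + η / 2) := mul_le_mul_of_nonneg_left he.le (by positivity)
        rw [hU]
        nlinarith
      obtain ⟨s, -, hs1, hs2, -⟩ := exists_sizes p hp _ _ hP hQ n (fun _ => True)
        (fun _ _ => True) (Eventually.of_forall fun _ => trivial)
        (Eventually.of_forall fun _ => Eventually.of_forall fun _ => trivial)
      have hle : ∀ l ≤ n, (s l : ℕ) ≤ (s 0 : ℕ) := by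
        intro l hl
        rcases Nat.eq_zero_or_pos l with rfl | hpos
        · exact le_rfl
        · obtain ⟨e, he, -⟩ := hs2 0 l hpos hl
          rw [he]
          simp
      let w : Fin (n + 1) → (Fin d → V ⊕ Fin (s 0 : ℕ)) → Bool :=
        fun l => wpat T1 T2 (s 0 : ℕ) (s l : ℕ)
      have hquad := L.quad (pat T1 (Fin (s 0 : ℕ))) (pat (Ty T1 T2) (Fin (s 0 : ℕ))) n w r q
        (1 / (n + 1 : ℝ))
      rw [L.corr_x_y T1 T2] at hquad
      -- lower bounds for the first two sums
      have hA : (n + 1 : ℝ) * (gs - η) ≤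
          ∑ l, L.GV (V ⊕ Fin (s 0 : ℕ)) (pat T1 (Fin (s 0 : ℕ))) (w l) := by
        have : ∑ _l : Fin (n + 1), (gs - η) = (n + 1 : ℝ) * (gs - η) := by
          rw [Finset.sum_const, Finset.card_univ, Fintype.card_fin, nsmul_eq_mul]
          push_cast
          ring
        rw [← this]
        apply Finset.sum_le_sum
        intro l _
        have hl : (l : ℕ) ≤ n := Nat.lt_succ_iff.mp l.2
        rw [show w l = wpat T1 T2 (s 0 : ℕ) (s l : ℕ) from rfl, L.corr_x_w T1 T2 (hle l hl)]
        exact (hs1 l hl).1.le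
      have hB : (n + 1 : ℝ) * (ts - η) ≤
          ∑ l, L.GV (V ⊕ Fin (s 0 : ℕ)) (pat (Ty T1 T2) (Fin (s 0 : ℕ))) (w l) := by
        have : ∑ _l : Fin (n + 1), (ts - η) = (n + 1 : ℝ) * (ts - η) := by
          rw [Finset.sum_const, Finset.card_univ, Fintype.card_fin, nsmul_eq_mul]
          push_cast
          ring
        rw [← this]
        apply Finset.sum_le_sum
        intro l _
        have hl : (l : ℕ) ≤ n := Nat.lt_succ_iff.mp l.2
        rw [show w l = wpat T1 T2 (s 0 : ℕ) (s l : ℕ) from rfl, L.corr_y_w T1 T2 (hle l hl)]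
        exact (hs1 l hl).2.le
      have hww : ∀ l l' : Fin (n + 1), l < l' → L.GV (V ⊕ Fin (s 0 : ℕ)) (w l') (w l) ≤ U := by
        intro l l' hll
        have hl' : (l' : ℕ) ≤ n := Nat.lt_succ_iff.mp l'.2
        have hl : (l : ℕ) ≤ n := Nat.lt_succ_iff.mp l.2
        obtain ⟨e, he, heQ⟩ := hs2 l l' hll hl'
        have he' : (s l : ℕ) = (e : ℕ) + (s l' : ℕ) := by rw [he]; simp
        have hM : (e : ℕ) + (s l' : ℕ) ≤ (s 0 : ℕ) := by rw [← he']; exact hle l hl
        have hcw := L.corr_w_w T1 T2 (V := V) hM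
        rw [show w l = wpat T1 T2 (s 0 : ℕ) (s l : ℕ) from rfl,
          show w l' = wpat T1 T2 (s 0 : ℕ) (s l' : ℕ) from rfl, he', hcw]
        exact heQ
      have hC := double_sum_le n (fun l l' => L.GV (V ⊕ Fin (s 0 : ℕ)) (w l) (w l')) δ U
        (fun l => L.GV_diag _ _) hU0 (by
          intro l l' hll
          rcases lt_or_gt_of_ne hll with h | h
          · rw [L.GV_symm]
            exact hww l l' h
          · exact hww l' l h)
      have hA' : gs - η ≤ (1 / (n + 1 : ℝ)) *
          ∑ l, L.GV (V ⊕ Fin (s 0 : ℕ)) (pat T1 (Fin (s 0 : ℕ))) (w l) := by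
        rw [one_div, ← div_eq_inv_mul, le_div_iff₀ hN]
        linarith
      have hB' : ts - η ≤ (1 / (n + 1 : ℝ)) *
          ∑ l, L.GV (V ⊕ Fin (s 0 : ℕ)) (pat (Ty T1 T2) (Fin (s 0 : ℕ))) (w l) := by
        rw [one_div, ← div_eq_inv_mul, le_div_iff₀ hN]
        linarith
      set SA := ∑ l, L.GV (V ⊕ Fin (s 0 : ℕ)) (pat T1 (Fin (s 0 : ℕ))) (w l) with hSA
      set SB := ∑ l, L.GV (V ⊕ Fin (s 0 : ℕ)) (pat (Ty T1 T2) (Fin (s 0 : ℕ))) (w l) with hSB
      set a' := (1 / (n + 1 : ℝ)) * SA with ha'
      set b' := (1 / (n + 1 : ℝ)) * SB with hb'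
      have hq' : 2 * (r * (1 / (n + 1 : ℝ))) * SA = 2 * r * a' := by rw [ha']; ring
      have hq'' : 2 * (q * (1 / (n + 1 : ℝ))) * SB = 2 * q * b' := by rw [hb']; ring
      rw [hq', hq''] at hquad
      have h1 : 2 * r * (gs - η) ≤ 2 * r * a' := mul_le_mul_of_nonneg_left hA' (by linarith)
      have h2 : 2 * q * (ts - η) ≤ 2 * q * b' := mul_le_mul_of_nonneg_left hB' (by linarith)
      have hrq : q = 1 - r := by rw [hr]; ring
      exact final_arith r q δ G0 gs ts η κ a' b' (δ / (n + 1))
        ((1 / (n + 1 : ℝ)) ^ 2 * ∑ l, ∑ l', L.GV (V ⊕ Fin (s 0 : ℕ)) (w l) (w l')) U hr hr1 hκ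
        hquad hC hδN hU h1 h2 hη
    have := hgs.eventually (gt_mem_nhds (show gs < q * G0 + r * δ + ε by linarith))
    filter_upwards [this] with m hm
    exact hm.le

/-- The bound on the density. -/
theorem LimFun.bound (L : LimFun d δ) (hd : 1 ≤ d) :
    δ ≤ (1 - δ) * (1 - (1 / 2 : ℝ) ^ (d - 1)) := by
  obtain ⟨p, hp⟩ := exists_idempotent
  have hδ0 := L.delta_nonneg
  set c : ℝ := 1 - (1 / 2 : ℝ) ^ (d - 1) with hc
  have hc0 : 0 ≤ c := by
    rw [hc]
    have : (1 / 2 : ℝ) ^ (d - 1) ≤ 1 := pow_le_one₀ (by norm_num) (by norm_num)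
    linarith
  -- for every real number
  have key : ∀ lam : ℝ, 0 ≤ lam ^ 2 * (1 - δ) - 2 * lam * δ + c * δ := by
    intro lam
    apply le_of_forall_pos_le_add
    intro κ hκ
    obtain ⟨n, hn⟩ := exists_nat_gt (2 * δ / κ)
    have hN : (0 : ℝ) < n + 1 := by positivity
    have hδN : δ / (n + 1) ≤ κ / 2 := by
      rw [div_le_iff₀ hN]
      rw [div_lt_iff₀ hκ] at hn
      nlinarith
    have hQ : ∀ᶠ e : ℕ+ in (p : Filter ℕ+), ∀ᶠ m : ℕ+ in (p : Filter ℕ+),
        L.GV (Fin (e : ℕ) ⊕ Fin (m : ℕ)) (pat (fun τ => decide (∀ i, τ i = none)) _)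
          (pat (fun _ => true) _) ≤ c * δ + κ / 2 := by
      filter_upwards with e
      have h2 := L.claim p hp (d - 1) (Fin (e : ℕ)) (fun τ => decide (∀ i, τ i = none))
        (fun _ => true) (by
          intro τ hτ
          simp only [decide_eq_true_eq]
          have hcard : nn τ = d := by
            have h1 : nn τ ≤ d := by
              unfold nn
              calc _ ≤ (Finset.univ : Finset (Fin d)).card := Finset.card_le_card (Finset.filter_subset _ _)
                _ = d := by simp
            omega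
          unfold nn at hcard
          have h3 : (Finset.univ.filter fun i => τ i = none) = Finset.univ := by
            apply Finset.eq_univ_of_card
            rw [hcard, Fintype.card_fin]
          intro i
          have : i ∈ (Finset.univ.filter fun i => τ i = none) := by rw [h3]; exact Finset.mem_univ i
          rwa [Finset.mem_filter_univ] at this) (κ / 2) (by positivity)
      filter_upwards [h2] with m hm
      refine hm.trans ?_
      have h0 : L.GV (Fin (e : ℕ)) (base fun τ => decide (∀ i, τ i = none))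
          (base fun _ => true) = 0 := by
        apply L.GV_bad _ _ _ (fun _ => True) ⟨⟨0, e.2⟩, trivial⟩
        · intro c' _
          simp only [base, decide_eq_false_iff_not, not_forall]
          exact ⟨⟨0, hd⟩, by simp⟩
        · intro c' _
          rfl
        · intro c' hc'
          exact absurd (fun _ => trivial) hc'
      rw [h0, mul_zero, zero_add]
    obtain ⟨s, -, -, hs2, -⟩ := exists_sizes p hp (fun _ => True) _
        (Eventually.of_forall fun _ => trivial) hQ n (fun _ => True)
        (fun _ _ => True) (Eventually.of_forall fun _ => trivial)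
        (Eventually.of_forall fun _ => Eventually.of_forall fun _ => trivial)
    have hle : ∀ l ≤ n, (s l : ℕ) ≤ (s 0 : ℕ) := by
      intro l hl
      rcases Nat.eq_zero_or_pos l with rfl | hpos
      · exact le_rfl
      · obtain ⟨e, he, -⟩ := hs2 0 l hpos hl
        rw [he]
        simp
    let M : ℕ := (s 0 : ℕ)
    let w : Fin (n + 1) → (Fin d → Fin M) → Bool :=
      fun l c => decide (∀ i, (c i).val < (s l : ℕ))
    let x : (Fin d → Fin M) → Bool := fun _ => false
    have hxw : ∀ l, L.GV (Fin M) x (w l) = 0 := by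
      intro l
      apply L.GV_bad _ _ _ (fun v => v.val < (s l : ℕ))
      · exact ⟨⟨0, (s 0).2⟩, (s l).2⟩
      · intro c' _
        rfl
      · intro c' hc'
        simpa [w] using hc'
      · intro c' hc'
        simp only [w, x, decide_eq_false_iff_not]
        exact hc'
    have hww : ∀ l l' : Fin (n + 1), l < l' → L.GV (Fin M) (w l') (w l) ≤ c * δ + κ / 2 := by
      intro l l' hll
      have hl' : (l' : ℕ) ≤ n := Nat.lt_succ_iff.mp l'.2
      have hl : (l : ℕ) ≤ n := Nat.lt_succ_iff.mp l.2
      obtain ⟨e, he, heQ⟩ := hs2 l l' hll hl'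
      have he' : (s l : ℕ) = (e : ℕ) + (s l' : ℕ) := by rw [he]; simp
      have hM : (e : ℕ) + (s l' : ℕ) ≤ M := by rw [← he']; exact hle l hl
      let ι : Fin (e : ℕ) ⊕ Fin (s l' : ℕ) → Fin M :=
        Sum.elim (fun j => ⟨(s l' : ℕ) + j.val, by omega⟩) (fun j => ⟨j.val, by omega⟩)
      have hι : Function.Injective ι := by
        rintro (a | a) (b | b) hab
        · simp only [ι, Sum.elim_inl, Fin.mk.injEq] at hab
          congr 1
          apply Fin.ext
          omega
        · simp only [ι, Sum.elim_inl, Sum.elim_inr, Fin.mk.injEq] at hab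
          omega
        · simp only [ι, Sum.elim_inl, Sum.elim_inr, Fin.mk.injEq] at hab
          omega
        · simp only [ι, Sum.elim_inr, Fin.mk.injEq] at hab
          congr 1
          apply Fin.ext
          omega
      rw [L.GV_ext ι hι]
      · refine le_trans (le_of_eq ?_) heQ
        congr 1
        · funext c'
          simp only [w, pat, Function.comp]
          apply decide_eq_decide.mpr
          apply forall_congr'
          intro i
          rcases c' i with a | a
          · simp [ι, collapse]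
          · simp [ι, collapse]
        · funext c'
          simp only [w, pat, Function.comp, decide_eq_true_eq]
          intro i
          rcases c' i with a | a
          · simp only [ι, Sum.elim_inl]
            omega
          · simp only [ι, Sum.elim_inr]
            omega
      · intro c' hc'
        obtain ⟨i, hi⟩ := hc'
        have hbig : ¬ ((c' i).val < (s l : ℕ)) := by
          intro hlt
          apply hi
          by_cases h2 : (c' i).val < (s l' : ℕ)
          · exact ⟨Sum.inr ⟨(c' i).val, h2⟩, rfl⟩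
          · refine ⟨Sum.inl ⟨(c' i).val - (s l' : ℕ), by omega⟩, ?_⟩
            apply Fin.ext
            simp only [ι, Sum.elim_inl]
            omega
        have h1 : w l c' = false := by
          simp only [w, decide_eq_false_iff_not, not_forall]
          exact ⟨i, hbig⟩
        have h2 : w l' c' = false := by
          simp only [w, decide_eq_false_iff_not, not_forall]
          exact ⟨i, by omega⟩
        rw [h1, h2]
    have hC := double_sum_le n (fun l l' => L.GV (Fin M) (w l) (w l')) δ (c * δ + κ / 2)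
      (fun l => L.GV_diag _ _) (by positivity) (by
        intro l l' hll
        rcases lt_or_gt_of_ne hll with h | h
        · rw [L.GV_symm]
          exact hww l l' h
        · exact hww l' l h)
    -- the quadratic form
    have h := L.GV_psd (Fin M) (J := Option (Fin (n + 1)))
      (fun i => match i with
        | none => x
        | some l => w l)
      (fun i => match i with
        | none => -lam
        | some _ => -(1 / (n + 1 : ℝ))) lam
    simp only [Fintype.sum_option] at h
    have e1 : ∑ l : Fin (n + 1), -lam * -(1 / (n + 1 : ℝ)) * L.GV (Fin M) x (w l) = 0 := by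
      apply Finset.sum_eq_zero
      intro l _
      rw [hxw l, mul_zero]
    have e2 : ∑ l : Fin (n + 1), (-(1 / (n + 1 : ℝ)) * -lam * L.GV (Fin M) (w l) x +
        ∑ l', -(1 / (n + 1 : ℝ)) * -(1 / (n + 1 : ℝ)) * L.GV (Fin M) (w l) (w l')) =
        (1 / (n + 1 : ℝ)) ^ 2 * ∑ l, ∑ l', L.GV (Fin M) (w l) (w l') := by
      rw [Finset.mul_sum]
      apply Finset.sum_congr rfl
      intro l _
      rw [L.GV_symm _ (w l) x, hxw l, mul_zero, zero_add, Finset.mul_sum]
      apply Finset.sum_congr rfl
      intro l' _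
      ring
    have e3 : ∑ _l : Fin (n + 1), -(1 / (n + 1 : ℝ)) = -1 := by
      rw [Finset.sum_const, Finset.card_univ, Fintype.card_fin, nsmul_eq_mul]
      push_cast
      field_simp
    rw [e1, e2, e3, L.GV_diag] at h
    exact final_arith2 lam δ c κ _ _ h hC hδN
  -- deduce
  rcases eq_or_lt_of_le hδ0 with h0 | h0
  · rw [← h0]
    simpa using hc0
  · have hlt : δ < 1 := by
      by_contra hge
      push Not at hge
      have := key c
      have h2 : c ^ 2 * (1 - δ) ≤ 0 := mul_nonpos_of_nonneg_of_nonpos (by positivity) (by linarith)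
      -- use a large lam
      have h3 := key (c + 1)
      have h4 : (c + 1) ^ 2 * (1 - δ) ≤ 0 :=
        mul_nonpos_of_nonneg_of_nonpos (by positivity) (by linarith)
      nlinarith
    have h1 := key (δ / (1 - δ))
    have hpos : 0 < 1 - δ := by linarith
    have h2 : (δ / (1 - δ)) ^ 2 * (1 - δ) - 2 * (δ / (1 - δ)) * δ + c * δ =
        (c * (1 - δ) - δ) * δ / (1 - δ) := by
      field_simp
      ring
    rw [h2] at h1
    have h3 : 0 ≤ (c * (1 - δ) - δ) * δ := by
      by_contra hneg
      push Not at hneg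
      have := div_neg_of_neg_of_pos hneg hpos
      linarith
    have h4 : 0 ≤ c * (1 - δ) - δ := by
      by_contra hneg
      push Not at hneg
      have := mul_neg_of_neg_of_pos hneg h0
      linarith
    linarith

end Pool.Agent.Lib.MP_90b327_co
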