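import Mathlib
import Pool.Agent.Lib.MP_90b327_co.Interface
import Pool.Agent.Lib.MP_90b327_co.Limit
import Pool.Agent.Lib.MP_90b327_co.Abstract

/-!
The conclusion of the restricted density polynomial Hales-Jewett conjecture holds for every
density `δ > (2^(d-1) - 1) / (2^d - 1)`.
-/

set_option autoImplicit false

namespace Pool.Agent.Lib.MP_90b327_co.DensityThreshold

open Pool.Agent.Lib.MP_90b327_co

/-- For every `d ≥ 1` and every `δ > (2^(d-1) - 1) / (2^d - 1)` there is `N` such that every family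
of more than `δ * 2^(N^d)` subsets of `[N]^d` contains a set `A` and `A ∪ γ^d` for some non-empty
`γ ⊆ [N]` with `A` disjoint from `γ^d`. -/
theorem result :
    ∀ d : ℕ, 1 ≤ d → ∀ δ : ℝ, ((2 : ℝ) ^ (d - 1) - 1) / ((2 : ℝ) ^ d - 1) < δ →
      ∃ N : ℕ, ∀ S : Finset (Finset (Fin d → Fin N)),
        (S.card : ℝ) > δ * (2 : ℝ) ^ (N ^ d) →
          ∃ A ∈ S, ∃ γ : Finset (Fin N), γ.Nonempty ∧
            Disjoint A (Fintype.piFinset (fun _ : Fin d => γ)) ∧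
            A ∪ Fintype.piFinset (fun _ : Fin d => γ) ∈ S := by
  intro d hd δ₀ hδ₀
  by_contra hcon
  push Not at hcon
  have h : ∀ N : ℕ, ∃ S : Finset (Finset (Fin d → Fin N)),
      (S.card : ℝ) > δ₀ * 2 ^ (N ^ d) ∧ ¬ Good d N S := by
    intro N
    obtain ⟨S, hS, hS'⟩ := hcon N
    refine ⟨S, hS, ?_⟩
    rintro ⟨A, hA, γ, hγ, h1, h2⟩
    exact hS' A hA γ hγ h1 h2
  obtain ⟨δ, hδ, ⟨L⟩⟩ := exists_limFun d hd δ₀ h
  have hb := L.bound hd
  have h2 : (2 : ℝ) ^ d = 2 * 2 ^ (d - 1) := by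
    rw [← pow_succ']
    congr 1
    omega
  have h3 : (1 : ℝ) ≤ 2 ^ (d - 1) := one_le_pow₀ (by norm_num)
  have h4 : (1 / 2 : ℝ) ^ (d - 1) * 2 ^ (d - 1) = 1 := by
    rw [← mul_pow]
    norm_num
  rw [h2, div_lt_iff₀ (by linarith)] at hδ₀
  have h5 : δ * 2 ^ (d - 1) ≤ (1 - δ) * (2 ^ (d - 1) - 1) := by
    calc δ * 2 ^ (d - 1) ≤ ((1 - δ) * (1 - (1 / 2 : ℝ) ^ (d - 1))) * 2 ^ (d - 1) :=
          mul_le_mul_of_nonneg_right hb (by linarith)
      _ = (1 - δ) * (2 ^ (d - 1) - (1 / 2 : ℝ) ^ (d - 1) * 2 ^ (d - 1)) := by ring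
      _ = _ := by rw [h4]
  have h6 : δ * (2 * 2 ^ (d - 1) - 1) ≤ 2 ^ (d - 1) - 1 := by linarith
  have h7 : δ₀ * (2 * 2 ^ (d - 1) - 1) ≤ δ * (2 * 2 ^ (d - 1) - 1) :=
    mul_le_mul_of_nonneg_right hδ (by linarith)
  linarith

end Pool.Agent.Lib.MP_90b327_co.DensityThreshold
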