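import Mathlib
import Pool.Agent.Lib.MP_90b327_co.Interface
import Pool.Agent.Lib.MP_90b327_co.Random
import Pool.Agent.Lib.MP_90b327_co.Limit

set_option autoImplicit false

namespace Pool.Agent.Lib.MP_90b327_co

open Finset

variable {d : ℕ}

/-- The family of patterns realised in `S` is bad. -/
lemma realised_bad {K N : ℕ} (S : Finset (Finset (Fin d → Fin N))) (hS : ¬ Good d N S)
    (j : Fin K → Fin N) (hj : Function.Injective j) (σ : Equiv.Perm (Fin N)) (A : Pat d N) :
    ¬ Good d K (univ.filter (fun T : Finset (Fin d → Fin K) =>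
      ind S (rel σ (ov j A (fun c => decide (c ∈ T)))) = 1)) := by
  rintro ⟨T, hT, γ, hγ, h1, h2⟩
  rw [Finset.mem_filter] at hT h2
  have hT := hT.2
  have hT2 := h2.2
  set X : Pat d K := fun c => decide (c ∈ T) with hX
  set Y : Pat d K := fun c => decide (c ∈ T ∪ Fintype.piFinset (fun _ : Fin d => γ)) with hY
  have h0 : corS S j X Y = 0 := by
    apply corS_bad S hS j hj X Y γ hγ
    · intro c hc
      rw [hX]
      simp only [decide_eq_false_iff_not]
      intro hcT
      exact (Finset.disjoint_left.mp h1 hcT) (Fintype.mem_piFinset.mpr hc)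
    · intro c hc
      rw [hY]
      simp only [decide_eq_true_eq, Finset.mem_union]
      exact Or.inr (Fintype.mem_piFinset.mpr hc)
    · intro c hc
      rw [hY, hX]
      simp only [Finset.mem_union, Fintype.mem_piFinset]
      simp [hc]
  unfold corS at h0
  have h3 : ∑ A' : Pat d N, ind S (rel σ (ov j A' X)) * ind S (rel σ (ov j A' Y)) = 0 := by
    have := (Finset.sum_eq_zero_iff_of_nonneg (s := (univ : Finset (Equiv.Perm (Fin N))))
      (f := fun σ => ∑ A' : Pat d N, ind S (rel σ (ov j A' X)) * ind S (rel σ (ov j A' Y)))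
      (fun σ _ => Finset.sum_nonneg (fun A' _ => mul_nonneg (ind_nonneg _ _) (ind_nonneg _ _)))).mp h0
    exact this σ (Finset.mem_univ _)
  have h4 : ind S (rel σ (ov j A X)) * ind S (rel σ (ov j A Y)) = 0 := by
    have := (Finset.sum_eq_zero_iff_of_nonneg (s := (univ : Finset (Pat d N)))
      (f := fun A' => ind S (rel σ (ov j A' X)) * ind S (rel σ (ov j A' Y)))
      (fun A' _ => mul_nonneg (ind_nonneg _ _) (ind_nonneg _ _))).mp h3
    exact this A (Finset.mem_univ _)
  rw [hT, hT2] at h4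
  norm_num at h4

lemma transfer (hd : 1 ≤ d) (K : ℕ) (w : Finset (Fin d → Fin K) → ℝ) (hw : ∀ X, 0 ≤ w X)
    (hw1 : ∑ X, w X = 1) (δ : ℝ)
    (h : ∀ T : Finset (Finset (Fin d → Fin K)), δ < ∑ X ∈ T, w X → Good d K T)
    (m : ℕ) (hm : 1 ≤ m) (N : ℕ) (hN : K * (m + 1) ≤ N)
    (S : Finset (Finset (Fin d → Fin N))) (hS : ¬ Good d N S) :
    (S.card : ℝ) ≤ (δ + Real.sqrt (2 ^ (K ^ d) / m)) * 2 ^ (N ^ d) := by
  classical
  have hKN : K ≤ N := by nlinarith
  set j : Fin K → Fin N := Fin.castLE hKN with hj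
  have hjinj : Function.Injective j := Fin.castLE_injective hKN
  set P : Finset (Fin d → Fin K) → Pat d K := fun T c => decide (c ∈ T) with hP
  have hD : 0 < nrm d N := nrm_pos d N
  have hm' : (0 : ℝ) < m := by exact_mod_cast hm
  -- each pattern is realised with almost the right frequency
  have h1 : ∀ X : Finset (Fin d → Fin K),
      (N.factorial : ℝ) * S.card - Real.sqrt (2 ^ (K ^ d) / m) * nrm d N ≤ corS S j (P X) (P X) := by
    intro X
    have h2 := corS_ext (m := m) S (fun v : Fin 0 => (v.elim0 : Fin K)) (fun v => v.elim0) (P X) (P X)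
      (fun _ _ => rfl) hN (fun v => v.elim0) (fun v => v.elim0) j hjinj
    rw [corS_zero hd] at h2
    have h3 : ((m : ℝ) * ((N.factorial : ℝ) * S.card - corS S j (P X) (P X))) ^ 2 ≤
        (m * (Real.sqrt (2 ^ (K ^ d) / m) * nrm d N)) ^ 2 := by
      calc ((m : ℝ) * ((N.factorial : ℝ) * S.card - corS S j (P X) (P X))) ^ 2
          = (m * corS S j (P X) (P X) - m * ((N.factorial : ℝ) * S.card)) ^ 2 := by ring
        _ ≤ m * 2 ^ (K ^ d) * ((N.factorial : ℝ) * 2 ^ (N ^ d)) ^ 2 := h2
        _ = (m * (Real.sqrt (2 ^ (K ^ d) / m) * nrm d N)) ^ 2 := by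
          have e5 : Real.sqrt (2 ^ (K ^ d) / m) ^ 2 = 2 ^ (K ^ d) / m := Real.sq_sqrt (by positivity)
          have e6 : (m : ℝ) ^ 2 * (2 ^ (K ^ d) / m) = m * 2 ^ (K ^ d) := by
            field_simp
          calc (m : ℝ) * 2 ^ (K ^ d) * ((N.factorial : ℝ) * 2 ^ (N ^ d)) ^ 2
              = ((m : ℝ) ^ 2 * (2 ^ (K ^ d) / m)) * (nrm d N) ^ 2 := by
                rw [e6]
                rfl
            _ = (m : ℝ) ^ 2 * (Real.sqrt (2 ^ (K ^ d) / m) ^ 2) * (nrm d N) ^ 2 := by rw [e5]
            _ = _ := by ring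
    have h4 := abs_le_of_sq_le_sq' h3 (by positivity)
    have h5 := h4.2
    have h6 := le_of_mul_le_mul_left h5 hm'
    linarith
  -- sum with weights
  have h2 : ∑ X, w X * corS S j (P X) (P X) ≤ δ * nrm d N := by
    have e1 : ∑ X, w X * corS S j (P X) (P X) =
        ∑ σ : Equiv.Perm (Fin N), ∑ A : Pat d N, ∑ X, w X * ind S (rel σ (ov j A (P X))) := by
      unfold corS
      simp_rw [Finset.mul_sum, ind_mul_self]
      rw [Finset.sum_comm]
      apply Finset.sum_congr rfl
      intro σ _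
      rw [Finset.sum_comm]
    rw [e1, ← sum_one_eq, Finset.mul_sum]
    apply Finset.sum_le_sum
    intro σ _
    rw [Finset.mul_sum]
    apply Finset.sum_le_sum
    intro A _
    rw [mul_one]
    have e2 : ∑ X, w X * ind S (rel σ (ov j A (P X))) =
        ∑ X ∈ univ.filter (fun T : Finset (Fin d → Fin K) => ind S (rel σ (ov j A (P T))) = 1), w X := by
      rw [Finset.sum_filter]
      apply Finset.sum_congr rfl
      intro X _
      split_ifs with hX
      · rw [hX, mul_one]
      · have : ind S (rel σ (ov j A (P X))) = 0 := by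
          unfold ind at hX ⊢
          split_ifs at hX ⊢ with h7
          · exact absurd rfl hX
          · rfl
        rw [this, mul_zero]
    rw [e2]
    by_contra hcon
    push Not at hcon
    exact realised_bad S hS j hjinj σ A (h _ hcon)
  have h3 : (N.factorial : ℝ) * S.card - Real.sqrt (2 ^ (K ^ d) / m) * nrm d N ≤ δ * nrm d N := by
    calc (N.factorial : ℝ) * S.card - Real.sqrt (2 ^ (K ^ d) / m) * nrm d N
        = ∑ X, w X * ((N.factorial : ℝ) * S.card - Real.sqrt (2 ^ (K ^ d) / m) * nrm d N) := by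
          rw [← Finset.sum_mul, hw1, one_mul]
      _ ≤ ∑ X, w X * corS S j (P X) (P X) :=
          Finset.sum_le_sum (fun X _ => mul_le_mul_of_nonneg_left (h1 X) (hw X))
      _ ≤ _ := h2
  have hf : (0 : ℝ) < N.factorial := by exact_mod_cast Nat.factorial_pos N
  have h4 : (N.factorial : ℝ) * S.card ≤
      N.factorial * ((δ + Real.sqrt (2 ^ (K ^ d) / m)) * 2 ^ (N ^ d)) := by
    have : nrm d N = N.factorial * 2 ^ (N ^ d) := rfl
    rw [this] at h3
    linarith
  exact le_of_mul_le_mul_left h4 hf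

end Pool.Agent.Lib.MP_90b327_co
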