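import Mathlib
import Pool.Agent.Lib.MP_90b327_co.Interface
import Pool.Agent.Lib.MP_90b327_co.Transfer
set_option autoImplicit false
namespace Pool.Agent.Lib.MP_90b327_co
open Finset

/-- bit `i` of the `t`-th word of the binary reflected Gray code -/
def gbit (t i : ℕ) : Bool := xor (t.testBit i) (t.testBit (i + 1))

lemma gbit_succ (k i : ℕ) (b : ℕ) (hb : b < 2) : gbit (2 * k + b) (i + 1) = gbit k i := by
  unfold gbit
  rw [Nat.testBit_succ, Nat.testBit_succ]
  have : (2 * k + b) / 2 = k := by omega
  rw [this]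

lemma gbit_zero (k b : ℕ) (hb : b < 2) : gbit (2 * k + b) 0 = decide ((k + b) % 2 = 1) := by
  unfold gbit
  rw [Nat.testBit_succ, Nat.testBit_zero, Nat.testBit_zero]
  have h1 : (2 * k + b) / 2 = k := by omega
  have h2 : (2 * k + b) % 2 = b % 2 := by omega
  rw [h1, h2]
  rcases Nat.mod_two_eq_zero_or_one k with hk | hk <;> interval_cases b <;>
    simp [hk, Nat.add_mod]

/-- the `t`-th word contains `s` -/
def sup (s : Finset ℕ) (t : ℕ) : Prop := ∀ i ∈ s, gbit t i = true

instance (s : Finset ℕ) (t : ℕ) : Decidable (sup s t) := by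
  unfold sup
  infer_instance

/-- number of words before the `t`-th one which contain `s` -/
def cnt (s : Finset ℕ) (t : ℕ) : ℕ := ((range t).filter (sup s)).card

lemma cnt_succ (s : Finset ℕ) (t : ℕ) : cnt s (t + 1) = cnt s t + if sup s t then 1 else 0 := by
  unfold cnt
  rw [Finset.range_add_one, Finset.filter_insert]
  split_ifs with h
  · rw [Finset.card_insert_of_notMem (by simp)]
  · rfl

/-- shift of a set of positions -/
def shift (s : Finset ℕ) : Finset ℕ := (s.erase 0).image Nat.pred

lemma mem_shift (s : Finset ℕ) (i : ℕ) : i ∈ shift s ↔ i + 1 ∈ s := by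
  unfold shift
  rw [Finset.mem_image]
  constructor
  · rintro ⟨j, hj, rfl⟩
    rw [Finset.mem_erase] at hj
    have : j.pred + 1 = j := Nat.succ_pred_eq_of_ne_zero hj.1
    rw [this]
    exact hj.2
  · intro h
    exact ⟨i + 1, Finset.mem_erase.mpr ⟨by omega, h⟩, rfl⟩

lemma sup_zero_notMem (s : Finset ℕ) (h0 : 0 ∉ s) (k b : ℕ) (hb : b < 2) :
    sup s (2 * k + b) ↔ sup (shift s) k := by
  unfold sup
  constructor
  · intro h i hi
    rw [mem_shift] at hi
    rw [← gbit_succ k i b hb]
    exact h _ hi
  · intro h i hi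
    rcases i with _ | i
    · exact absurd hi h0
    · rw [gbit_succ k i b hb]
      exact h i ((mem_shift s i).mpr hi)

lemma sup_zero_mem (s : Finset ℕ) (h0 : 0 ∈ s) (k b : ℕ) (hb : b < 2) :
    sup s (2 * k + b) ↔ (sup (shift s) k ∧ (k + b) % 2 = 1) := by
  unfold sup
  constructor
  · intro h
    refine ⟨?_, ?_⟩
    · intro i hi
      rw [mem_shift] at hi
      rw [← gbit_succ k i b hb]
      exact h _ hi
    · have := h 0 h0
      rw [gbit_zero k b hb] at this
      simpa using this
  · rintro ⟨h, h1⟩ i hi
    rcases i with _ | i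
    · rw [gbit_zero k b hb]
      simpa using h1
    · rw [gbit_succ k i b hb]
      exact h i ((mem_shift s i).mpr hi)

lemma cnt_zero_notMem (s : Finset ℕ) (h0 : 0 ∉ s) (k : ℕ) : cnt s (2 * k) = 2 * cnt (shift s) k := by
  induction k with
  | zero => rfl
  | succ k ih =>
    have e : 2 * (k + 1) = 2 * k + 1 + 1 := by ring
    rw [e, cnt_succ, cnt_succ, ih, cnt_succ]
    have h1 := sup_zero_notMem s h0 k 0 (by norm_num)
    have h2 := sup_zero_notMem s h0 k 1 (by norm_num)
    rw [add_zero] at h1
    by_cases h : sup (shift s) k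
    · rw [if_pos (h1.mpr h), if_pos (h2.mpr h), if_pos h]
      ring
    · rw [if_neg (fun h' => h (h1.mp h')), if_neg (fun h' => h (h2.mp h')), if_neg h]
      ring

lemma cnt_zero_mem (s : Finset ℕ) (h0 : 0 ∈ s) (k : ℕ) : cnt s (2 * k) = cnt (shift s) k := by
  induction k with
  | zero => rfl
  | succ k ih =>
    have e : 2 * (k + 1) = 2 * k + 1 + 1 := by ring
    rw [e, cnt_succ, cnt_succ, ih, cnt_succ]
    have h1 := sup_zero_mem s h0 k 0 (by norm_num)
    have h2 := sup_zero_mem s h0 k 1 (by norm_num)
    rw [add_zero] at h1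
    by_cases h : sup (shift s) k
    · rw [if_pos h]
      rcases Nat.mod_two_eq_zero_or_one k with hk | hk
      · rw [if_neg, if_pos]
        · exact h2.mpr ⟨h, by omega⟩
        · intro h'
          have := (h1.mp h').2
          omega
      · rw [if_pos, if_neg]
        · intro h'
          have := (h2.mp h').2
          omega
        · exact h1.mpr ⟨h, by omega⟩
    · rw [if_neg (fun h' => h (h1.mp h').1), if_neg (fun h' => h (h2.mp h').1), if_neg h]

/-- the words containing `s` alternate in parity -/
lemma alternate (n : ℕ) : ∀ s : Finset ℕ, s ⊆ range n →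
    ∃ a : ℕ, ∀ t, sup s t → (cnt s t + t) % 2 = a % 2 := by
  induction n with
  | zero =>
    intro s hs
    have : s = ∅ := by simpa using hs
    subst this
    refine ⟨0, ?_⟩
    intro t _
    have : cnt ∅ t = t := by
      unfold cnt
      rw [Finset.filter_true_of_mem]
      · simp
      · intro x _ i hi
        simp at hi
    rw [this]
    omega
  | succ n ih =>
    intro s hs
    have hs' : shift s ⊆ range n := by
      intro i hi
      rw [mem_shift] at hi
      have := Finset.mem_range.mp (hs hi)
      exact Finset.mem_range.mpr (by omega)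
    obtain ⟨a, ha⟩ := ih (shift s) hs'
    by_cases h0 : 0 ∈ s
    · refine ⟨a + 1, ?_⟩
      intro t ht
      obtain ⟨k, b, hb, rfl⟩ : ∃ k b, b < 2 ∧ t = 2 * k + b := ⟨t / 2, t % 2, by omega, by omega⟩
      have h1 := (sup_zero_mem s h0 k b hb).mp ht
      have h2 := ha k h1.1
      have h3 := cnt_zero_mem s h0 k
      interval_cases b
      · rw [add_zero, h3]
        have := h1.2
        omega
      · have h4 : ¬ sup s (2 * k) := by
          intro h'
          have := ((sup_zero_mem s h0 k 0 (by norm_num)).mp (by rw [add_zero]; exact h')).2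
          have := h1.2
          omega
        rw [cnt_succ, if_neg h4, h3]
        have := h1.2
        omega
    · refine ⟨0, ?_⟩
      intro t ht
      obtain ⟨k, b, hb, rfl⟩ : ∃ k b, b < 2 ∧ t = 2 * k + b := ⟨t / 2, t % 2, by omega, by omega⟩
      have h1 := (sup_zero_notMem s h0 k b hb).mp ht
      have h3 := cnt_zero_notMem s h0 k
      interval_cases b
      · rw [add_zero, h3]
        omega
      · have h4 : sup s (2 * k) := by
          have := (sup_zero_notMem s h0 k 0 (by norm_num)).mpr h1
          rw [add_zero] at this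
          exact this
        rw [cnt_succ, if_pos h4, h3]
        omega

lemma cnt_even (n : ℕ) : ∀ s : Finset ℕ, s ⊆ range n → s ≠ range n → cnt s (2 ^ n) % 2 = 0 := by
  induction n with
  | zero =>
    intro s hs hne
    exfalso
    apply hne
    have : s = ∅ := by simpa using hs
    rw [this]
    rfl
  | succ n ih =>
    intro s hs hne
    have hs' : shift s ⊆ range n := by
      intro i hi
      rw [mem_shift] at hi
      have := Finset.mem_range.mp (hs hi)
      exact Finset.mem_range.mpr (by omega)
    rw [pow_succ, mul_comm]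
    by_cases h0 : 0 ∈ s
    · rw [cnt_zero_mem s h0]
      apply ih _ hs'
      intro h
      apply hne
      apply Finset.Subset.antisymm hs
      intro i hi
      rcases i with _ | i
      · exact h0
      · rw [← mem_shift, h]
        have := Finset.mem_range.mp hi
        exact Finset.mem_range.mpr (by omega)
    · rw [cnt_zero_notMem s h0]
      omega

lemma exists_gbit (n : ℕ) : ∀ t : ℕ, 0 < t → t < 2 ^ n → ∃ i < n, gbit t i = true := by
  induction n with
  | zero =>
    intro t h1 h2
    simp at h2
    omega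
  | succ n ih =>
    intro t h1 h2
    obtain ⟨k, b, hb, rfl⟩ : ∃ k b, b < 2 ∧ t = 2 * k + b := ⟨t / 2, t % 2, by omega, by omega⟩
    rw [pow_succ] at h2
    rcases Nat.eq_zero_or_pos k with hk | hk
    · subst hk
      refine ⟨0, by omega, ?_⟩
      rw [gbit_zero 0 b hb]
      have : b = 1 := by omega
      simp [this]
    · obtain ⟨i, hi, hi'⟩ := ih k hk (by omega)
      refine ⟨i + 1, by omega, ?_⟩
      rw [gbit_succ k i b hb]
      exact hi'

/-- the set of coordinates of a cell -/
def supp {d : ℕ} (c : Fin d → Fin (d + 1)) : Finset ℕ := univ.image (fun i => (c i : ℕ))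

lemma supp_subset {d : ℕ} (c : Fin d → Fin (d + 1)) : supp c ⊆ range (d + 1) := by
  intro i hi
  unfold supp at hi
  rw [Finset.mem_image] at hi
  obtain ⟨j, _, rfl⟩ := hi
  exact Finset.mem_range.mpr (c j).2

lemma supp_ne {d : ℕ} (c : Fin d → Fin (d + 1)) : supp c ≠ range (d + 1) := by
  intro h
  have h1 : (supp c).card ≤ d := by
    unfold supp
    calc _ ≤ (univ : Finset (Fin d)).card := Finset.card_image_le
      _ = d := by simp
  rw [h, Finset.card_range] at h1
  omega

/-- the set coded by the `t`-th word -/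
def gset (d t : ℕ) : Finset (Fin (d + 1)) := univ.filter (fun v => gbit t v = true)

lemma mem_gset (d t : ℕ) (v : Fin (d + 1)) : v ∈ gset d t ↔ gbit t v = true := by
  unfold gset
  simp

lemma sup_supp {d : ℕ} (c : Fin d → Fin (d + 1)) (t : ℕ) :
    sup (supp c) t ↔ c ∈ Fintype.piFinset (fun _ : Fin d => gset d t) := by
  rw [Fintype.mem_piFinset]
  unfold sup supp
  constructor
  · intro h i
    rw [mem_gset]
    exact h _ (Finset.mem_image.mpr ⟨i, Finset.mem_univ _, rfl⟩)
  · intro h i hi
    obtain ⟨j, _, rfl⟩ := Finset.mem_image.mp hi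
    exact (mem_gset d t _).mp (h j)

/-- The closed walk of good pairs of length `2^(d+1) - 1`. -/
lemma closed_walk (d : ℕ) (hd : 1 ≤ d) : ∃ X : ℕ → Finset (Fin d → Fin (d + 1)),
    X (2 ^ (d + 1) - 1) = X 0 ∧
    ∀ t, t < 2 ^ (d + 1) - 1 → ∃ γ : Finset (Fin (d + 1)), γ.Nonempty ∧
      ((Disjoint (X t) (Fintype.piFinset (fun _ : Fin d => γ)) ∧
        X t ∪ Fintype.piFinset (fun _ : Fin d => γ) = X (t + 1)) ∨
       (Disjoint (X (t + 1)) (Fintype.piFinset (fun _ : Fin d => γ)) ∧
        X (t + 1) ∪ Fintype.piFinset (fun _ : Fin d => γ) = X t)) := by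
  have h := fun c : Fin d → Fin (d + 1) => alternate (d + 1) (supp c) (supp_subset c)
  choose a ha using h
  have hpow : 1 ≤ 2 ^ (d + 1) := Nat.one_le_two_pow
  refine ⟨fun t => univ.filter (fun c => (cnt (supp c) (t + 1) + a c + 1) % 2 = 1), ?_, ?_⟩
  · ext c
    rw [Finset.mem_filter, Finset.mem_filter]
    have h1 := cnt_even (d + 1) (supp c) (supp_subset c) (supp_ne c)
    have e : 2 ^ (d + 1) - 1 + 1 = 2 ^ (d + 1) := by omega
    have h2 : cnt (supp c) (0 + 1) = 0 := by
      rw [cnt_succ, if_neg]
      · rfl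
      · intro h3
        have h4 := h3 (c ⟨0, by omega⟩) (Finset.mem_image.mpr ⟨⟨0, by omega⟩, Finset.mem_univ _, rfl⟩)
        unfold gbit at h4
        simp at h4
    rw [e, h2]
    simp only [Finset.mem_univ, true_and]
    omega
  · intro t ht
    obtain ⟨i, hi, hi'⟩ := exists_gbit (d + 1) (t + 1) (by omega) (by omega)
    refine ⟨gset d (t + 1), ⟨⟨i, hi⟩, (mem_gset d (t + 1) _).mpr hi'⟩, ?_⟩
    have hstep : ∀ c : Fin d → Fin (d + 1), sup (supp c) (t + 1) →
        cnt (supp c) (t + 1 + 1) = cnt (supp c) (t + 1) + 1 ∧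
        (cnt (supp c) (t + 1) + (t + 1)) % 2 = a c % 2 := by
      intro c hc
      refine ⟨?_, ha c (t + 1) hc⟩
      rw [cnt_succ, if_pos hc]
    have hstay : ∀ c : Fin d → Fin (d + 1), ¬ sup (supp c) (t + 1) →
        cnt (supp c) (t + 1 + 1) = cnt (supp c) (t + 1) := by
      intro c hc
      rw [cnt_succ, if_neg hc, add_zero]
    rcases Nat.mod_two_eq_zero_or_one (t + 1) with hpar | hpar
    · right
      refine ⟨?_, ?_⟩
      · rw [Finset.disjoint_left]
        intro c hc hc'
        rw [Finset.mem_filter] at hc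
        rw [← sup_supp] at hc'
        obtain ⟨h1, h2⟩ := hstep c hc'
        rw [h1] at hc
        have := hc.2
        omega
      · ext c
        rw [Finset.mem_union, ← sup_supp, Finset.mem_filter, Finset.mem_filter]
        simp only [Finset.mem_univ, true_and]
        by_cases hc : sup (supp c) (t + 1)
        · obtain ⟨h1, h2⟩ := hstep c hc
          constructor
          · intro _
            omega
          · intro _
            exact Or.inr hc
        · rw [hstay c hc]
          simp [hc]
    · left
      refine ⟨?_, ?_⟩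
      · rw [Finset.disjoint_left]
        intro c hc hc'
        rw [Finset.mem_filter] at hc
        rw [← sup_supp] at hc'
        obtain ⟨h1, h2⟩ := hstep c hc'
        have := hc.2
        omega
      · ext c
        rw [Finset.mem_union, ← sup_supp, Finset.mem_filter, Finset.mem_filter]
        simp only [Finset.mem_univ, true_and]
        by_cases hc : sup (supp c) (t + 1)
        · obtain ⟨h1, h2⟩ := hstep c hc
          constructor
          · intro _
            rw [h1]
            omega
          · intro _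
            exact Or.inr hc
        · rw [hstay c hc]
          simp [hc]

/-- weights of a closed walk of odd length -/
lemma walk_weights {d K L : ℕ} (hL : L % 2 = 1) (X : ℕ → Finset (Fin d → Fin K))
    (h0 : X L = X 0)
    (h : ∀ t, t < L → ∃ γ : Finset (Fin K), γ.Nonempty ∧
      ((Disjoint (X t) (Fintype.piFinset (fun _ : Fin d => γ)) ∧
        X t ∪ Fintype.piFinset (fun _ : Fin d => γ) = X (t + 1)) ∨
       (Disjoint (X (t + 1)) (Fintype.piFinset (fun _ : Fin d => γ)) ∧
        X (t + 1) ∪ Fintype.piFinset (fun _ : Fin d => γ) = X t))) :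
    ∃ w : Finset (Fin d → Fin K) → ℝ, (∀ Y, 0 ≤ w Y) ∧ ∑ Y, w Y = 1 ∧
      ∀ T : Finset (Finset (Fin d → Fin K)), ((L : ℝ) - 1) / (2 * L) < ∑ Y ∈ T, w Y → Good d K T := by
  classical
  have hLpos : (0 : ℝ) < L := by
    have : 0 < L := by omega
    exact_mod_cast this
  have hsum : ∀ T : Finset (Finset (Fin d → Fin K)),
      ∑ Y ∈ T, (((range L).filter (fun t => X t = Y)).card : ℝ) / L =
      (((range L).filter (fun t => X t ∈ T)).card : ℝ) / L := by
    intro T
    rw [← Finset.sum_div]
    congr 1
    rw [← Nat.cast_sum]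
    congr 1
    rw [Finset.card_eq_sum_card_fiberwise (f := X) (t := T)]
    · apply Finset.sum_congr rfl
      intro Y hY
      congr 1
      ext t
      simp only [Finset.mem_filter, Finset.mem_range]
      constructor
      · rintro ⟨h1, rfl⟩
        exact ⟨⟨h1, hY⟩, rfl⟩
      · rintro ⟨⟨h1, _⟩, h2⟩
        exact ⟨h1, h2⟩
    · intro t ht
      exact (Finset.mem_filter.mp ht).2
  refine ⟨fun Y => (((range L).filter (fun t => X t = Y)).card : ℝ) / L, fun Y => by positivity,
    ?_, ?_⟩
  · rw [hsum univ]
    simp only [Finset.mem_univ, Finset.filter_true, Finset.card_range]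
    exact div_self hLpos.ne'
  · intro T hT
    rw [hsum T] at hT
    by_contra hbad
    let f : ℕ → ℕ := fun t => if X t ∈ T then 1 else 0
    have hf : ∀ t, t < L → f t + f (t + 1) ≤ 1 := by
      intro t ht
      by_contra hcon
      have h1 : X t ∈ T ∧ X (t + 1) ∈ T := by
        simp only [f] at hcon
        split_ifs at hcon with h1 h2 h2
        · exact ⟨h1, h2⟩
        · omega
        · omega
        · omega
      apply hbad
      obtain ⟨γ, hγ, ⟨h2, h3⟩ | ⟨h2, h3⟩⟩ := h t ht
      · exact ⟨X t, h1.1, γ, hγ, h2, by rw [h3]; exact h1.2⟩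
      · exact ⟨X (t + 1), h1.2, γ, hγ, h2, by rw [h3]; exact h1.1⟩
    have hcard : ((range L).filter (fun t => X t ∈ T)).card = ∑ t ∈ range L, f t := by
      rw [Finset.card_filter]
    have hshift : ∑ t ∈ range L, f (t + 1) = ∑ t ∈ range L, f t := by
      have h1 := Finset.sum_range_succ f L
      have h2 := Finset.sum_range_succ' f L
      have h3 : f L = f 0 := by
        simp only [f]
        rw [h0]
      omega
    have h2 : 2 * ∑ t ∈ range L, f t ≤ L := by
      calc 2 * ∑ t ∈ range L, f t = ∑ t ∈ range L, (f t + f (t + 1)) := by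
            rw [Finset.sum_add_distrib, hshift]
            ring
        _ ≤ ∑ t ∈ range L, 1 := Finset.sum_le_sum (fun t ht => hf t (Finset.mem_range.mp ht))
        _ = L := by simp
    have h3 : 2 * ∑ t ∈ range L, f t + 1 ≤ L := by omega
    rw [hcard] at hT
    have h4 : 2 * ((∑ t ∈ range L, f t : ℕ) : ℝ) + 1 ≤ L := by exact_mod_cast h3
    rw [div_lt_div_iff₀ (by positivity) hLpos] at hT
    nlinarith

end Pool.Agent.Lib.MP_90b327_co
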