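import Mathlib
import Pool.Agent.Lib.MP_90b327_co.Interface
import Pool.Agent.Lib.MP_90b327_co.Transfer
import Pool.Agent.Lib.MP_90b327_co.Gray

/-!
An explicit, polynomial bound for `N(d, δ)` when `δ > (2^d - 1) / (2^(d+1) - 1)`.
-/

set_option autoImplicit false

namespace Pool.Agent.Lib.MP_90b327_co.ExplicitBound

open Pool.Agent.Lib.MP_90b327_co

/-- For `d ≥ 1`, `ε > 0` and `N ≥ (d+1) * (2^((d+1)^d) / ε^2 + 2)`, every family of more than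
`((2^d - 1) / (2^(d+1) - 1) + ε) * 2^(N^d)` subsets of `[N]^d` contains `A` and `A ∪ γ^d` for some
non-empty `γ ⊆ [N]` with `A` disjoint from `γ^d`. -/
theorem explicit_bound (d : ℕ) (hd : 1 ≤ d) (ε : ℝ) (hε : 0 < ε) (N : ℕ)
    (hN : ((d : ℝ) + 1) * (2 ^ ((d + 1) ^ d) / ε ^ 2 + 2) ≤ N)
    (S : Finset (Finset (Fin d → Fin N)))
    (hS : (S.card : ℝ) >
      (((2 : ℝ) ^ d - 1) / ((2 : ℝ) ^ (d + 1) - 1) + ε) * (2 : ℝ) ^ (N ^ d)) :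
      ∃ A ∈ S, ∃ γ : Finset (Fin N), γ.Nonempty ∧
        Disjoint A (Fintype.piFinset (fun _ : Fin d => γ)) ∧
        A ∪ Fintype.piFinset (fun _ : Fin d => γ) ∈ S := by
  by_contra hcon
  have hbad : ¬ Good d N S := hcon
  have hpow : 1 ≤ 2 ^ (d + 1) := Nat.one_le_two_pow
  obtain ⟨X, hX0, hX⟩ := closed_walk d hd
  have hodd : (2 ^ (d + 1) - 1) % 2 = 1 := by
    have : 2 ^ (d + 1) = 2 * 2 ^ d := by rw [pow_succ]; ring
    omega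
  obtain ⟨w, hw, hw1, hT⟩ := walk_weights hodd X hX0 hX
  have hL : ((2 ^ (d + 1) - 1 : ℕ) : ℝ) = (2 : ℝ) ^ (d + 1) - 1 := by
    rw [Nat.cast_sub hpow]
    norm_num
  have hδ : (((2 ^ (d + 1) - 1 : ℕ) : ℝ) - 1) / (2 * ((2 ^ (d + 1) - 1 : ℕ) : ℝ)) =
      ((2 : ℝ) ^ d - 1) / ((2 : ℝ) ^ (d + 1) - 1) := by
    rw [hL]
    have h1 : (2 : ℝ) ^ (d + 1) - 1 - 1 = 2 * ((2 : ℝ) ^ d - 1) := by
      rw [pow_succ]
      ring
    rw [h1, mul_div_mul_left _ _ (by norm_num)]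
  rw [hδ] at hT
  set m : ℕ := ⌈(2 : ℝ) ^ ((d + 1) ^ d) / ε ^ 2⌉₊ with hm
  have hpos : (0 : ℝ) < (2 : ℝ) ^ ((d + 1) ^ d) / ε ^ 2 := by positivity
  have hm1 : 1 ≤ m := Nat.one_le_iff_ne_zero.mpr (Nat.ceil_pos.mpr hpos).ne'
  have hmle : (2 : ℝ) ^ ((d + 1) ^ d) / ε ^ 2 ≤ m := Nat.le_ceil _
  have hmlt : (m : ℝ) < (2 : ℝ) ^ ((d + 1) ^ d) / ε ^ 2 + 1 := Nat.ceil_lt_add_one hpos.le
  have hKm : (d + 1) * (m + 1) ≤ N := by
    have : ((d : ℝ) + 1) * ((m : ℝ) + 1) ≤ N := by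
      refine le_trans ?_ hN
      apply mul_le_mul_of_nonneg_left _ (by positivity)
      linarith
    exact_mod_cast this
  have h1 := transfer hd (d + 1) w hw hw1 _ hT m hm1 N hKm S hbad
  have hm' : (0 : ℝ) < m := by exact_mod_cast hm1
  have h2 : Real.sqrt (2 ^ ((d + 1) ^ d) / m) ≤ ε := by
    rw [Real.sqrt_le_left hε.le, div_le_iff₀ hm']
    rw [div_le_iff₀ (by positivity)] at hmle
    linarith
  have h3 : (((2 : ℝ) ^ d - 1) / ((2 : ℝ) ^ (d + 1) - 1) + Real.sqrt (2 ^ ((d + 1) ^ d) / m)) *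
      (2 : ℝ) ^ (N ^ d) ≤
      (((2 : ℝ) ^ d - 1) / ((2 : ℝ) ^ (d + 1) - 1) + ε) * (2 : ℝ) ^ (N ^ d) := by
    apply mul_le_mul_of_nonneg_right _ (by positivity)
    linarith
  linarith

end Pool.Agent.Lib.MP_90b327_co.ExplicitBound
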