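import Mathlib

set_option autoImplicit false

namespace Pool.Agent.Lib.MP_90b327_co.H38

open Finset

/-- `F` is `k`-local: `F A` is a sum over the vertex sets `K` with at most `k` elements of an
arbitrary function of `K` and of the part of `A` inside `K^d`. -/
def IsLocal {d N : ℕ} {G : Type} [AddCommGroup G] (k : ℕ) (F : Finset (Fin d → Fin N) → G) : Prop :=
  ∃ φ : Finset (Fin N) → Finset (Fin d → Fin N) → G,
    ∀ A, F A = ∑ K ∈ univ.filter (fun K : Finset (Fin N) => K.card ≤ k),
      φ K (A.filter (fun c => ∀ i, c i ∈ K))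

/-- The number of pairs `(A, c)` with `A` in the family `T` and `A ∆ {c}` not in `T`. -/
def boundary {d N : ℕ} (T : Finset (Finset (Fin d → Fin N))) : ℕ :=
  ∑ c : Fin d → Fin N, (T.filter (fun A => symmDiff A {c} ∉ T)).card

end Pool.Agent.Lib.MP_90b327_co.H38
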