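import Mathlib

set_option autoImplicit false

/-! Set polynomials with values in a finite abelian group vanish at a non-empty set. -/

namespace Pool.Agent.Lib.MP_90b327_co.H38

open Finset

variable {α : Type} [DecidableEq α]

/-- `P` has degree at most `k` on the subsets of `s`. -/
def DegLE {G : Type} [AddCommGroup G] : ℕ → Finset α → (Finset α → G) → Prop
  | 0, s, P => ∀ g ⊆ s, P g = P ∅
  | k + 1, s, P => ∀ h ⊆ s, DegLE k (s \ h) (fun g => P (h ∪ g) - P g)

namespace DegLE

variable {G : Type} [AddCommGroup G]

lemma congr : ∀ (k : ℕ) {s : Finset α} {P Q : Finset α → G}, (∀ g ⊆ s, P g = Q g) →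
    DegLE k s P → DegLE k s Q
  | 0, s, P, Q, h, hP => fun g hg => by rw [← h g hg, ← h ∅ (empty_subset _)]; exact hP g hg
  | k + 1, s, P, Q, h, hP => fun e he => by
      refine congr k ?_ (hP e he)
      intro g hg
      have hg' : g ⊆ s := hg.trans sdiff_subset
      show P (e ∪ g) - P g = Q (e ∪ g) - Q g
      rw [h g hg', h (e ∪ g) (union_subset he hg')]

lemma const : ∀ (k : ℕ) (s : Finset α) (c : G), DegLE k s (fun _ => c)
  | 0, _, _ => fun _ _ => rfl
  | k + 1, s, c => fun e _ => by
      refine congr k ?_ (const k (s \ e) (0 : G))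
      intro g _
      simp

lemma mono : ∀ (k : ℕ) {s s' : Finset α} {P : Finset α → G}, s' ⊆ s → DegLE k s P → DegLE k s' P
  | 0, _, _, _, h, hP => fun g hg => hP g (hg.trans h)
  | k + 1, _, _, _, h, hP => fun e he =>
      mono k (sdiff_subset_sdiff h (Subset.refl e)) (hP e (he.trans h))

lemma add : ∀ (k : ℕ) {s : Finset α} {P Q : Finset α → G}, DegLE k s P → DegLE k s Q →
    DegLE k s (fun g => P g + Q g)
  | 0, _, _, _, hP, hQ => fun g hg => by
      show _ + _ = _ + _
      rw [hP g hg, hQ g hg]
  | k + 1, _, _, _, hP, hQ => fun e he => by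
      refine congr k ?_ (add k (hP e he) (hQ e he))
      intro g _
      show (_ - _) + (_ - _) = (_ + _) - (_ + _)
      abel

lemma sub_const : ∀ (k : ℕ) {s : Finset α} {P : Finset α → G} (c : G), DegLE k s P →
    DegLE k s (fun g => P g - c)
  | 0, _, _, _, hP => fun g hg => by
      show _ - _ = _ - _
      rw [hP g hg]
  | k + 1, _, _, _, hP => fun e he => by
      refine congr k ?_ (hP e he)
      intro g _
      show (_ - _) = (_ - _) - (_ - _)
      abel

lemma sum {ι : Type} (k : ℕ) {s : Finset α} (I : Finset ι) (P : ι → Finset α → G)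
    (h : ∀ i ∈ I, DegLE k s (P i)) : DegLE k s (fun g => ∑ i ∈ I, P i g) := by
  classical
  induction I using Finset.induction_on with
  | empty => simpa using const k s (0 : G)
  | insert a I ha ih =>
    have h1 := ih (fun i hi => h i (mem_insert_of_mem hi))
    have h2 := h a (mem_insert_self a I)
    refine congr k ?_ (add k h2 h1)
    intro g _
    rw [sum_insert ha]

lemma pi {ι : Type} : ∀ (k : ℕ) {s : Finset α} (P : ι → Finset α → G),
    (∀ i, DegLE k s (P i)) → DegLE k s (fun g i => P i g)
  | 0, _, _, h => fun g hg => funext fun i => h i g hg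
  | k + 1, _, _, h => fun e he => by
      refine congr k ?_ (pi k _ (fun i => h i e he))
      intro g _
      rfl

/-- a function of `g ∩ K` with `K.card ≤ k` has degree at most `k` -/
lemma inter : ∀ (k : ℕ) (s K : Finset α) (ψ : Finset α → G), K.card ≤ k →
    DegLE k s (fun g => ψ (g ∩ K))
  | 0, s, K, ψ, hK => fun g _ => by
      have : K = ∅ := by simpa using hK
      subst this
      simp
  | k + 1, s, K, ψ, hK => fun e he => by
      by_cases hd : Disjoint e K
      · refine congr k ?_ (const k (s \ e) (0 : G))
        intro g _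
        have : (e ∪ g) ∩ K = g ∩ K := by
          rw [union_inter_distrib_right, disjoint_iff_inter_eq_empty.mp hd, empty_union]
        show (0 : G) = ψ ((e ∪ g) ∩ K) - ψ (g ∩ K)
        rw [this, sub_self]
      · have hcard : (K \ e).card ≤ k := by
          have h1 : (K \ e).card < K.card := by
            apply card_lt_card
            refine ⟨sdiff_subset, fun hsub => hd ?_⟩
            rw [disjoint_left]
            intro a ha haK
            exact (mem_sdiff.mp (hsub haK)).2 ha
          omega
        refine congr k ?_ (inter k (s \ e) (K \ e)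
          (fun x => ψ ((e ∩ K) ∪ x) - ψ x) hcard)
        intro g hg
        have h1 : g ∩ (K \ e) = g ∩ K := by
          ext a
          simp only [mem_inter, mem_sdiff]
          constructor
          · rintro ⟨h1, h2, _⟩
            exact ⟨h1, h2⟩
          · rintro ⟨h1, h2⟩
            exact ⟨h1, h2, (mem_sdiff.mp (hg h1)).2⟩
        show ψ ((e ∩ K) ∪ (g ∩ (K \ e))) - ψ (g ∩ (K \ e)) = ψ ((e ∪ g) ∩ K) - ψ (g ∩ K)
        rw [h1, union_inter_distrib_right]

end DegLE

/-- One non-empty zero. -/
theorem exists_zero : ∀ k q : ℕ, ∃ m : ℕ, ∀ (α : Type) [DecidableEq α] (G : Type)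
    [AddCommGroup G] [Fintype G], Fintype.card G ≤ q → ∀ (s : Finset α), m ≤ s.card →
      ∀ P : Finset α → G, DegLE k s P → P ∅ = 0 → ∃ g ⊆ s, g.Nonempty ∧ P g = 0 := by
  intro k
  induction k with
  | zero =>
    intro q
    refine ⟨1, ?_⟩
    intro α _ G _ _ _ s hs P hP h0
    refine ⟨s, Subset.refl s, card_pos.mp (by omega), ?_⟩
    rw [hP s (Subset.refl s), h0]
  | succ k ih =>
    intro q
    -- additive sequences
    have key : ∀ i : ℕ, ∃ m : ℕ, ∀ (α : Type) [DecidableEq α] (G : Type) [AddCommGroup G]
        [Fintype G], Fintype.card G ≤ q → ∀ (s : Finset α), m ≤ s.card → ∀ P : Finset α → G,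
          DegLE (k + 1) s P → P ∅ = 0 → ∃ f : ℕ → Finset α,
            (∀ j < i, f j ⊆ s ∧ (f j).Nonempty) ∧
            ∀ I ⊆ range i, P (I.biUnion f) = ∑ j ∈ I, P (f j) := by
      intro i
      induction i with
      | zero =>
        refine ⟨0, ?_⟩
        intro α _ G _ _ _ s _ P _ h0
        refine ⟨fun _ => ∅, by simp, ?_⟩
        intro I hI
        have : I = ∅ := by simpa using hI
        subst this
        simpa using h0
      | succ i ihi =>
        obtain ⟨m₁, hm₁⟩ := ihi
        obtain ⟨m₂, hm₂⟩ := ih (q ^ (2 ^ i))
        refine ⟨m₁ + m₂, ?_⟩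
        intro α _ G _ _ hG s hs P hP h0
        obtain ⟨s₁, hs₁, hs₁c⟩ := exists_subset_card_eq (show m₁ ≤ s.card by omega)
        obtain ⟨f, hf, hadd⟩ := hm₁ α G hG s₁ hs₁c.ge P (hP.mono (k + 1) hs₁) h0
        have hs₂c : m₂ ≤ (s \ s₁).card := by
          rw [card_sdiff_of_subset hs₁]; omega
        set Q : Finset α → ((range i).powerset → G) := fun g I =>
          (P (I.1.biUnion f ∪ g) - P g) - P (I.1.biUnion f) with hQ
        have hunion : ∀ I : (range i).powerset, I.1.biUnion f ⊆ s₁ := by
          rintro ⟨I, hI⟩
          rw [biUnion_subset]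
          intro j hj
          exact (hf j (mem_range.mp (mem_powerset.mp hI hj))).1
        have hQdeg : DegLE k (s \ s₁) Q := by
          apply DegLE.pi
          intro I
          apply DegLE.sub_const
          have h1 := hP (I.1.biUnion f) ((hunion I).trans hs₁)
          exact DegLE.mono k (sdiff_subset_sdiff (Subset.refl s) (hunion I)) h1
        have hQ0 : Q ∅ = 0 := by
          funext I
          simp [hQ, h0]
        have hcard : Fintype.card ((range i).powerset → G) ≤ q ^ (2 ^ i) := by
          rw [Fintype.card_fun, Fintype.card_coe, card_powerset, card_range]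
          gcongr
        obtain ⟨g, hg, hgne, hgQ⟩ := hm₂ α ((range i).powerset → G) hcard (s \ s₁) hs₂c Q hQdeg hQ0
        refine ⟨Function.update f i g, ?_, ?_⟩
        · intro j hj
          by_cases hji : j = i
          · subst hji
            rw [Function.update_self]
            exact ⟨hg.trans sdiff_subset, hgne⟩
          · rw [Function.update_of_ne hji]
            have := hf j (by omega)
            exact ⟨this.1.trans hs₁, this.2⟩
        · have hup : ∀ J ⊆ range i, J.biUnion (Function.update f i g) = J.biUnion f ∧
              ∑ j ∈ J, P (Function.update f i g j) = ∑ j ∈ J, P (f j) := by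
            intro J hJ
            have hne : ∀ j ∈ J, Function.update f i g j = f j := by
              intro j hj
              apply Function.update_of_ne
              have := mem_range.mp (hJ hj)
              omega
            refine ⟨biUnion_congr rfl hne, sum_congr rfl (fun j hj => by rw [hne j hj])⟩
          intro I hI
          by_cases hiI : i ∈ I
          · set J := I.erase i with hJ
            have hJr : J ⊆ range i := by
              intro j hj
              rw [hJ, mem_erase] at hj
              have := mem_range.mp (hI hj.2)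
              rw [mem_range]; omega
            have hIJ : I = insert i J := (insert_erase hiI).symm
            have hiJ : i ∉ J := by simp [hJ]
            obtain ⟨h1, h2⟩ := hup J hJr
            rw [hIJ, biUnion_insert, sum_insert hiJ, Function.update_self, h1, h2]
            have h3 := congrFun hgQ ⟨J, mem_powerset.mpr hJr⟩
            simp only [hQ, Pi.zero_apply] at h3
            have h4 := hadd J hJr
            rw [union_comm, sub_eq_zero.mp h3 |> sub_eq_iff_eq_add.mp, h4, add_comm]
          · have hIr : I ⊆ range i := by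
              intro j hj
              have := mem_range.mp (hI hj)
              rw [mem_range]
              have : j ≠ i := fun h => hiI (h ▸ hj)
              omega
            obtain ⟨h1, h2⟩ := hup I hIr
            rw [h1, h2]
            exact hadd I hIr
    obtain ⟨m, hm⟩ := key q
    refine ⟨m, ?_⟩
    intro α _ G _ _ hG s hs P hP h0
    obtain ⟨f, hf, hadd⟩ := hm α G hG s hs P hP h0
    -- pigeonhole on partial sums
    have hpig : ∃ a b : Fin (q + 1), a ≠ b ∧
        (∑ j ∈ range a.1, P (f j)) = ∑ j ∈ range b.1, P (f j) := by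
      apply Fintype.exists_ne_map_eq_of_card_lt (fun a : Fin (q + 1) => ∑ j ∈ range a.1, P (f j))
      rw [Fintype.card_fin]; omega
    obtain ⟨a, b, hab, heq⟩ := hpig
    have hmain : ∀ a b : ℕ, a < b → b ≤ q → (∑ j ∈ range a, P (f j)) = ∑ j ∈ range b, P (f j) →
        ∃ g ⊆ s, g.Nonempty ∧ P g = 0 := by
      intro a b hab hbq heq
      refine ⟨(Ico a b).biUnion f, ?_, ?_, ?_⟩
      · rw [biUnion_subset]
        intro j hj
        exact (hf j (by rw [mem_Ico] at hj; omega)).1
      · obtain ⟨x, hx⟩ := (hf a (by omega)).2
        exact ⟨x, mem_biUnion.mpr ⟨a, by simpa using hab, hx⟩⟩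
      · rw [hadd (Ico a b) (by intro j hj; rw [mem_Ico] at hj; rw [mem_range]; omega)]
        rw [sum_Ico_eq_sub _ hab.le, heq, sub_self]
    rcases lt_or_gt_of_ne (fun h => hab (Fin.ext h) : a.1 ≠ b.1) with h | h
    · exact hmain a b h (by omega) heq
    · exact hmain b a h (by omega) heq.symm

end Pool.Agent.Lib.MP_90b327_co.H38
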