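import Mathlib
import Pool.Agent.Lib.MP_90b327_co.Interface
import Pool.Agent.Lib.MP_90b327_co.H38Poly
import Pool.Agent.Lib.MP_90b327_co.H38Defs

set_option autoImplicit false

namespace Pool.Agent.Lib.MP_90b327_co.H38

open Finset

section abstract

variable {C : Type} [Fintype C] [DecidableEq C]

/-- sets meeting each of many disjoint small sets are rare -/
lemma card_meet {ι : Type} [DecidableEq ι] (c : ℕ) (D : ι → Finset C) (I : Finset ι)
    (hD : ∀ i ∈ I, (D i).card ≤ c) (hdisj : ∀ i ∈ I, ∀ j ∈ I, i ≠ j → Disjoint (D i) (D j)) :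
    ((univ.filter (fun A : Finset C => ∀ i ∈ I, ¬ Disjoint A (D i))).card : ℝ) ≤
      (1 - 1 / 2 ^ c) ^ I.card * 2 ^ Fintype.card C := by
  induction I using Finset.induction_on with
  | empty => simp
  | insert a I ha ih =>
    have ih' := ih (fun i hi => hD i (mem_insert_of_mem hi))
      (fun i hi j hj => hdisj i (mem_insert_of_mem hi) j (mem_insert_of_mem hj))
    set Z := univ.filter (fun A : Finset C => ∀ i ∈ I, ¬ Disjoint A (D i)) with hZ
    have hsplit : (univ.filter (fun A : Finset C => ∀ i ∈ insert a I, ¬ Disjoint A (D i))).card +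
        (Z.filter (fun A => Disjoint A (D a))).card = Z.card := by
      rw [add_comm, ← card_filter_add_card_filter_not (s := Z) (fun A => Disjoint A (D a))]
      congr 1
      congr 1
      ext A
      simp only [hZ, mem_filter, mem_univ, true_and, mem_insert, forall_eq_or_imp]
      exact and_comm
    have hfib : Z.card ≤ 2 ^ c * (Z.filter (fun A => Disjoint A (D a))).card := by
      have h1 : Z.card ≤ 2 ^ c * (Z.image (fun A => A \ D a)).card := by
        apply card_le_mul_card_image
        intro B _
        calc (Z.filter (fun A => A \ D a = B)).card ≤ ((D a).powerset).card := by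
              refine card_le_card_of_injOn (fun A => A ∩ D a) ?_ ?_
              · intro A _
                simp only [coe_powerset, Set.mem_preimage, Set.mem_powerset_iff, coe_subset]
                exact inter_subset_right
              · intro A hA A' hA' h
                rw [mem_coe, mem_filter] at hA hA'
                simp only at h
                rw [← sdiff_union_inter A (D a), ← sdiff_union_inter A' (D a), hA.2, hA'.2, h]
          _ ≤ 2 ^ c := by
              rw [card_powerset]
              exact Nat.pow_le_pow_right (by norm_num) (hD a (mem_insert_self a I))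
      refine h1.trans (Nat.mul_le_mul_left _ (card_le_card ?_))
      intro B hB
      rw [mem_image] at hB
      obtain ⟨A, hA, rfl⟩ := hB
      rw [hZ, mem_filter] at hA
      rw [mem_filter, hZ, mem_filter]
      refine ⟨⟨mem_univ _, ?_⟩, sdiff_disjoint⟩
      intro i hi
      have h2 := hA.2 i hi
      have hne : i ≠ a := fun h => ha (h ▸ hi)
      have h3 := hdisj i (mem_insert_of_mem hi) a (mem_insert_self a I) hne
      rw [not_disjoint_iff] at h2 ⊢
      obtain ⟨x, hxA, hxD⟩ := h2
      exact ⟨x, mem_sdiff.mpr ⟨hxA, fun h => disjoint_left.mp h3 hxD h⟩, hxD⟩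
    have h4 : (Z.card : ℝ) ≤ 2 ^ c * ((Z.filter (fun A => Disjoint A (D a))).card : ℝ) := by
      exact_mod_cast hfib
    have h5 : ((univ.filter (fun A : Finset C => ∀ i ∈ insert a I, ¬ Disjoint A (D i))).card : ℝ) +
        ((Z.filter (fun A => Disjoint A (D a))).card : ℝ) = Z.card := by exact_mod_cast hsplit
    have hp : (0 : ℝ) < 2 ^ c := by positivity
    have h6 : (Z.card : ℝ) / 2 ^ c ≤ ((Z.filter (fun A => Disjoint A (D a))).card : ℝ) := by
      rw [div_le_iff₀ hp]; linarith
    have h7 : (0 : ℝ) ≤ 1 - 1 / 2 ^ c := by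
      rw [sub_nonneg, div_le_one hp]
      exact one_le_pow₀ (by norm_num)
    rw [card_insert_of_notMem ha, pow_succ]
    calc _ = (Z.card : ℝ) - ((Z.filter (fun A => Disjoint A (D a))).card : ℝ) := by linarith
      _ ≤ Z.card - Z.card / 2 ^ c := by linarith
      _ = (1 - 1 / 2 ^ c) * Z.card := by ring
      _ ≤ (1 - 1 / 2 ^ c) * ((1 - 1 / 2 ^ c) ^ I.card * 2 ^ Fintype.card C) := by gcongr
      _ = _ := by ring

/-- pairs where the membership in `T` changes at the cell `c` -/
def bd (T : Finset (Finset C)) (c : C) : ℕ := (T.filter (fun A => symmDiff A {c} ∉ T)).card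

lemma card_change_one (T : Finset (Finset C)) (c : C) :
    (univ.filter (fun A : Finset C => c ∉ A ∧ ¬ (A ∈ T ↔ insert c A ∈ T))).card ≤ bd T c := by
  classical
  have hsd : ∀ A : Finset C, c ∉ A → symmDiff A {c} = insert c A := by
    intro A hA
    ext x
    simp only [mem_symmDiff, mem_singleton, mem_insert]
    constructor
    · rintro (⟨h1, h2⟩ | ⟨h1, h2⟩)
      · exact Or.inr h1
      · exact Or.inl h1
    · rintro (h1 | h1)
      · exact Or.inr ⟨h1, h1 ▸ hA⟩
      · exact Or.inl ⟨h1, fun h => hA (h ▸ h1)⟩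
  have hsd' : ∀ A : Finset C, c ∉ A → symmDiff (insert c A) {c} = A := by
    intro A hA
    rw [← hsd A hA, symmDiff_assoc, symmDiff_self, symmDiff_bot]
  refine card_le_card_of_injOn (fun A => if A ∈ T then A else insert c A) ?_ ?_
  · intro A hA
    rw [mem_coe, mem_filter] at hA
    obtain ⟨_, hc, hne⟩ := hA
    simp only
    rw [mem_coe, mem_filter]
    by_cases hAT : A ∈ T
    · rw [if_pos hAT]
      refine ⟨hAT, ?_⟩
      rw [hsd A hc]
      intro h
      exact hne ⟨fun _ => h, fun _ => hAT⟩
    · rw [if_neg hAT]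
      have h1 : insert c A ∈ T := by
        by_contra h
        exact hne ⟨fun h' => absurd h' hAT, fun h' => absurd h' h⟩
      refine ⟨h1, ?_⟩
      rw [hsd' A hc]
      exact hAT
  · intro A hA A' hA' h
    rw [mem_coe, mem_filter] at hA hA'
    obtain ⟨_, hc, hne⟩ := hA
    obtain ⟨_, hc', hne'⟩ := hA'
    simp only at h
    split_ifs at h with h1 h2 h2
    · exact h
    · exfalso
      apply hc
      rw [h]; exact mem_insert_self _ _
    · exfalso
      apply hc'
      rw [← h]; exact mem_insert_self _ _
    · have := congrArg (fun B => erase B c) h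
      simpa [erase_insert hc, erase_insert hc'] using this

lemma card_change (T : Finset (Finset C)) (D : Finset C) :
    (univ.filter (fun A : Finset C => Disjoint A D ∧ ¬ (A ∈ T ↔ A ∪ D ∈ T))).card ≤
      ∑ c ∈ D, bd T c := by
  classical
  induction D using Finset.induction_on with
  | empty => simp
  | insert c D hc ih =>
    rw [sum_insert hc]
    set P := univ.filter (fun A : Finset C => Disjoint A D ∧ ¬ (A ∈ T ↔ A ∪ D ∈ T)) with hP
    set Q := univ.filter (fun A : Finset C => (c ∉ A ∧ Disjoint A D) ∧
      ¬ (A ∪ D ∈ T ↔ insert c (A ∪ D) ∈ T)) with hQ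
    have hQc : Q.card ≤ bd T c := by
      refine le_trans ?_ (card_change_one T c)
      refine card_le_card_of_injOn (fun A => A ∪ D) ?_ ?_
      · intro A hA
        rw [mem_coe, hQ, mem_filter] at hA
        rw [mem_coe, mem_filter]
        refine ⟨mem_univ _, ?_, hA.2.2⟩
        rw [mem_union]
        rintro (h | h)
        · exact hA.2.1.1 h
        · exact hc h
      · intro A hA A' hA' h
        rw [mem_coe, hQ, mem_filter] at hA hA'
        have h1 : A = (A ∪ D) \ D := by
          rw [union_sdiff_right, sdiff_eq_self_of_disjoint hA.2.1.2]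
        have h2 : A' = (A' ∪ D) \ D := by
          rw [union_sdiff_right, sdiff_eq_self_of_disjoint hA'.2.1.2]
        simp only at h
        rw [h1, h2, h]
    have hsub : univ.filter (fun A : Finset C => Disjoint A (insert c D) ∧
        ¬ (A ∈ T ↔ A ∪ insert c D ∈ T)) ⊆ P ∪ Q := by
      intro A hA
      rw [mem_filter] at hA
      obtain ⟨_, hd, hne⟩ := hA
      rw [disjoint_insert_right] at hd
      rw [union_insert] at hne
      rw [mem_union]
      by_cases h : (A ∈ T ↔ A ∪ D ∈ T)
      · right
        rw [hQ, mem_filter]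
        exact ⟨mem_univ _, hd, fun h' => hne (h.trans h')⟩
      · left
        rw [hP, mem_filter]
        exact ⟨mem_univ _, hd.2, h⟩
    calc _ ≤ (P ∪ Q).card := card_le_card hsub
      _ ≤ P.card + Q.card := card_union_le _ _
      _ ≤ _ := by rw [add_comm]; exact add_le_add hQc ih

end abstract

section windows

variable {d N : ℕ}

lemma boundary_eq (T : Finset (Finset (Fin d → Fin N))) : boundary T = ∑ c, bd T c := rfl

/-- the power `γ^d` -/
abbrev cube (d : ℕ) {N : ℕ} (γ : Finset (Fin N)) : Finset (Fin d → Fin N) :=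
  Fintype.piFinset (fun _ : Fin d => γ)

lemma mem_cube {γ : Finset (Fin N)} {c : Fin d → Fin N} : c ∈ cube d γ ↔ ∀ i, c i ∈ γ :=
  Fintype.mem_piFinset

lemma cube_empty (hd : 1 ≤ d) : cube d (∅ : Finset (Fin N)) = ∅ := by
  ext c
  rw [mem_cube]
  simp only [notMem_empty, iff_false, not_forall]
  exact ⟨⟨0, hd⟩, not_false⟩

lemma cube_mono {γ γ' : Finset (Fin N)} (h : γ ⊆ γ') : cube d γ ⊆ cube d γ' := by
  intro c hc
  rw [mem_cube] at hc ⊢
  exact fun i => h (hc i)

lemma cube_card (γ : Finset (Fin N)) : (cube d γ).card = γ.card ^ d := by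
  rw [Fintype.card_piFinset]
  simp

lemma cube_disjoint (hd : 1 ≤ d) {γ γ' : Finset (Fin N)} (h : Disjoint γ γ') :
    Disjoint (cube d γ) (cube d γ') := by
  rw [disjoint_left]
  intro c hc hc'
  rw [mem_cube] at hc hc'
  exact disjoint_left.mp h (hc ⟨0, hd⟩) (hc' ⟨0, hd⟩)

/-- along a cube, a local function is a set polynomial -/
lemma local_degLE {G : Type} [AddCommGroup G] {k : ℕ} {F : Finset (Fin d → Fin N) → G}
    (hF : IsLocal k F) (A : Finset (Fin d → Fin N)) (s : Finset (Fin N)) :
    DegLE k s (fun g => F (A ∪ cube d g) - F A) := by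
  obtain ⟨φ, hφ⟩ := hF
  refine DegLE.sub_const (G := G) k _ ?_
  refine DegLE.congr k (P := fun g => ∑ K ∈ univ.filter (fun K : Finset (Fin N) => K.card ≤ k),
    (fun x : Finset (Fin N) => φ K (A.filter (fun c => ∀ i, c i ∈ K) ∪ cube d x)) (g ∩ K)) ?_ ?_
  · intro g _
    rw [hφ]
    refine sum_congr rfl (fun K _ => ?_)
    show φ K (A.filter (fun c => ∀ i, c i ∈ K) ∪ cube d (g ∩ K)) = _
    congr 1
    rw [filter_union]
    congr 1
    ext c
    rw [mem_filter, mem_cube, mem_cube]
    constructor
    · intro h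
      exact ⟨fun i => (mem_inter.mp (h i)).1, fun i => (mem_inter.mp (h i)).2⟩
    · rintro ⟨h1, h2⟩ i
      exact mem_inter.mpr ⟨h1 i, h2 i⟩
  · refine DegLE.sum (G := G) k _ (fun (K : Finset (Fin N)) (g : Finset (Fin N)) =>
      (fun x : Finset (Fin N) => φ K (A.filter (fun c => ∀ i, c i ∈ K) ∪ cube d x)) (g ∩ K)) ?_
    intro K hK
    exact DegLE.inter (G := G) k s K
      (fun x : Finset (Fin N) => φ K (A.filter (fun c => ∀ i, c i ∈ K) ∪ cube d x))
      (mem_filter.mp hK).2

end windows

end Pool.Agent.Lib.MP_90b327_co.H38
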