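import Mathlib
import Pool.Agent.Lib.MP_90b327_co.H38Count

set_option autoImplicit false

namespace Pool.Agent.Lib.MP_90b327_co.H38

open Finset

/-- the counting step, for a given system of windows -/
lemma good_of_windows {d N k m W q : ℕ} (hd : 1 ≤ d) {G : Type} [AddCommGroup G] [Fintype G]
    (hG : Fintype.card G ≤ q)
    (hzero : ∀ (G : Type) [AddCommGroup G] [Fintype G], Fintype.card G ≤ q →
      ∀ (s : Finset (Fin N)), m ≤ s.card → ∀ P : Finset (Fin N) → G, DegLE k s P →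
        P ∅ = 0 → ∃ g ⊆ s, g.Nonempty ∧ P g = 0)
    {F : Finset (Fin d → Fin N) → G} (hF : IsLocal k F)
    (T : G → Finset (Finset (Fin d → Fin N))) (S : Finset (Finset (Fin d → Fin N)))
    (X : Fin W → Finset (Fin N)) (hXc : ∀ i, (X i).card = m)
    (hXd : ∀ i j, i ≠ j → Disjoint (X i) (X j)) (β : ℝ)
    (hβ : ((∑ v : G, ∑ i : Fin W, ∑ c ∈ cube d (X i), bd (T v) c : ℕ) : ℝ) ≤ β)
    (hS : (1 - 1 / 2 ^ (m ^ d)) ^ W * 2 ^ (N ^ d) + W * 2 ^ m *
      ((symmDiff S (univ.filter (fun A => A ∈ T (F A)))).card : ℝ) + 2 ^ m * β < S.card) :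
    Good d N S := by
  classical
  set Z := symmDiff S (univ.filter (fun A => A ∈ T (F A))) with hZ
  set B1 := univ.filter (fun A : Finset (Fin d → Fin N) =>
    ∀ i ∈ (univ : Finset (Fin W)), ¬ Disjoint A (cube d (X i))) with hB1
  set B2 := (univ : Finset (Fin W)).biUnion (fun i => (X i).powerset.biUnion (fun g =>
    univ.filter (fun A : Finset (Fin d → Fin N) => Disjoint A (cube d g) ∧ A ∪ cube d g ∈ Z)))
    with hB2
  set B3 := (univ : Finset (Fin W)).biUnion (fun i => (X i).powerset.biUnion (fun g =>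
    (univ : Finset G).biUnion (fun v => univ.filter (fun A : Finset (Fin d → Fin N) =>
      Disjoint A (cube d g) ∧ ¬ (A ∈ T v ↔ A ∪ cube d g ∈ T v))))) with hB3
  have hcellcard : Fintype.card (Fin d → Fin N) = N ^ d := by simp
  have h1 : (B1.card : ℝ) ≤ (1 - 1 / 2 ^ (m ^ d)) ^ W * 2 ^ (N ^ d) := by
    have := card_meet (m ^ d) (fun i : Fin W => cube d (X i)) univ
      (fun i _ => by rw [cube_card, hXc i])
      (fun i _ j _ hij => cube_disjoint hd (hXd i j hij))
    rw [hcellcard, card_univ, Fintype.card_fin] at this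
    convert this
  have h2 : (B2.card : ℝ) ≤ W * 2 ^ m * (Z.card : ℝ) := by
    have hnat : B2.card ≤ W * (2 ^ m * Z.card) := by
      refine (card_biUnion_le).trans ?_
      have : ∀ i ∈ (univ : Finset (Fin W)), ((X i).powerset.biUnion (fun g =>
          univ.filter (fun A : Finset (Fin d → Fin N) => Disjoint A (cube d g) ∧
            A ∪ cube d g ∈ Z))).card ≤ 2 ^ m * Z.card := by
        intro i _
        refine (card_biUnion_le_card_mul _ _ Z.card ?_).trans ?_
        · intro g _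
          refine card_le_card_of_injOn (fun A => A ∪ cube d g) ?_ ?_
          · intro A hA
            rw [mem_coe, mem_filter] at hA
            exact hA.2.2
          · intro A hA A' hA' h
            rw [mem_coe, mem_filter] at hA hA'
            have e1 : A = (A ∪ cube d g) \ cube d g := by
              rw [union_sdiff_right, sdiff_eq_self_of_disjoint hA.2.1]
            have e2 : A' = (A' ∪ cube d g) \ cube d g := by
              rw [union_sdiff_right, sdiff_eq_self_of_disjoint hA'.2.1]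
            simp only at h
            rw [e1, e2, h]
        · rw [card_powerset, hXc i]
      refine (sum_le_card_nsmul _ _ _ this).trans ?_
      rw [card_univ, Fintype.card_fin, smul_eq_mul]
    have : (B2.card : ℝ) ≤ W * (2 ^ m * (Z.card : ℝ)) := by exact_mod_cast hnat
    linarith
  have h3 : (B3.card : ℝ) ≤ 2 ^ m * β := by
    have hnat : B3.card ≤ ∑ i : Fin W, 2 ^ m * ∑ v : G, ∑ c ∈ cube d (X i), bd (T v) c := by
      refine (card_biUnion_le).trans (sum_le_sum (fun i _ => ?_))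
      refine (card_biUnion_le_card_mul _ _ (∑ v : G, ∑ c ∈ cube d (X i), bd (T v) c) ?_).trans ?_
      · intro g hg
        refine (card_biUnion_le).trans (sum_le_sum (fun v _ => ?_))
        refine (card_change (T v) (cube d g)).trans ?_
        exact sum_le_sum_of_subset (cube_mono (mem_powerset.mp hg))
      · rw [card_powerset, hXc i]
    have hsw : ∑ i : Fin W, 2 ^ m * ∑ v : G, ∑ c ∈ cube d (X i), bd (T v) c =
        2 ^ m * ∑ v : G, ∑ i : Fin W, ∑ c ∈ cube d (X i), bd (T v) c := by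
      rw [← mul_sum, sum_comm]
    rw [hsw] at hnat
    have h4 : (B3.card : ℝ) ≤
        ((2 ^ m * ∑ v : G, ∑ i : Fin W, ∑ c ∈ cube d (X i), bd (T v) c : ℕ) : ℝ) := by
      exact_mod_cast hnat
    rw [Nat.cast_mul] at h4
    refine h4.trans ?_
    rw [Nat.cast_pow, Nat.cast_ofNat]
    exact mul_le_mul_of_nonneg_left hβ (by positivity)
  -- find `A`
  have hex : ∃ A ∈ S, A ∉ B1 ∪ (B2 ∪ B3) := by
    by_contra hcon
    push Not at hcon
    have h5 : S.card ≤ (B1 ∪ (B2 ∪ B3)).card := card_le_card hcon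
    have h6 : (B1 ∪ (B2 ∪ B3)).card ≤ B1.card + (B2.card + B3.card) :=
      (card_union_le _ _).trans (Nat.add_le_add_left (card_union_le _ _) _)
    have h7 : (S.card : ℝ) ≤ (B1.card : ℝ) + ((B2.card : ℝ) + B3.card) := by
      exact_mod_cast h5.trans h6
    linarith
  obtain ⟨A, hAS, hAB⟩ := hex
  rw [mem_union, mem_union, not_or, not_or] at hAB
  obtain ⟨hA1, hA2, hA3⟩ := hAB
  rw [hB1, mem_filter] at hA1
  push Not at hA1
  obtain ⟨i, _, hi⟩ := hA1 (mem_univ A)
  have hA2' : ∀ g ⊆ X i, A ∪ cube d g ∉ Z := by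
    intro g hg hmem
    apply hA2
    rw [hB2, mem_biUnion]
    refine ⟨i, mem_univ _, mem_biUnion.mpr ⟨g, mem_powerset.mpr hg, mem_filter.mpr
      ⟨mem_univ _, ?_, hmem⟩⟩⟩
    exact hi.mono_right (cube_mono hg)
  have hA3' : ∀ g ⊆ X i, ∀ v, (A ∈ T v ↔ A ∪ cube d g ∈ T v) := by
    intro g hg v
    by_contra hmem
    apply hA3
    rw [hB3, mem_biUnion]
    refine ⟨i, mem_univ _, mem_biUnion.mpr ⟨g, mem_powerset.mpr hg, mem_biUnion.mpr
      ⟨v, mem_univ _, mem_filter.mpr ⟨mem_univ _, ?_, hmem⟩⟩⟩⟩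
    exact hi.mono_right (cube_mono hg)
  have hAT : A ∈ T (F A) := by
    have h8 := hA2' ∅ (empty_subset _)
    rw [cube_empty hd, union_empty, hZ, mem_symmDiff] at h8
    by_contra h9
    apply h8
    left
    refine ⟨hAS, ?_⟩
    rw [mem_filter]
    exact fun h => h9 h.2
  obtain ⟨g, hg, hgne, hgz⟩ := hzero G hG (X i) (hXc i).ge (fun g => F (A ∪ cube d g) - F A)
    (local_degLE hF A (X i)) (by simp [cube_empty hd])
  refine ⟨A, hAS, g, hgne, hi.mono_right (cube_mono hg), ?_⟩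
  show A ∪ cube d g ∈ S
  have hFA : F (A ∪ cube d g) = F A := sub_eq_zero.mp hgz
  have h9 := hA2' g hg
  rw [hZ, mem_symmDiff] at h9
  by_contra h10
  apply h9
  right
  refine ⟨?_, h10⟩
  rw [mem_filter]
  refine ⟨mem_univ _, ?_⟩
  rw [hFA]
  exact (hA3' g hg (F A)).mp hAT

theorem structured (d k q : ℕ) (hd : 1 ≤ d) (δ : ℝ) (hδ : 0 < δ) :
    ∃ ε : ℝ, 0 < ε ∧ ∃ N₀ : ℕ, ∀ N ≥ N₀, ∀ (G : Type) [AddCommGroup G] [Fintype G],
      Fintype.card G ≤ q → ∀ F : Finset (Fin d → Fin N) → G, IsLocal k F →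
        ∀ T : G → Finset (Finset (Fin d → Fin N)),
          (∀ v, (boundary (T v) : ℝ) ≤ ε * N * 2 ^ (N ^ d)) →
            ∀ S : Finset (Finset (Fin d → Fin N)),
              ((symmDiff S (univ.filter (fun A => A ∈ T (F A)))).card : ℝ) ≤
                ε * 2 ^ (N ^ d) → (S.card : ℝ) > δ * 2 ^ (N ^ d) → Good d N S := by
  classical
  obtain ⟨m₀, hm₀⟩ := exists_zero k q
  set m : ℕ := m₀ + 1 with hm
  obtain ⟨W₀, hW₀⟩ := exists_pow_lt_of_lt_one (show (0 : ℝ) < δ / 4 by positivity)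
    (show (1 : ℝ) - 1 / 2 ^ (m ^ d) < 1 by
      have : (0 : ℝ) < 1 / 2 ^ (m ^ d) := by positivity
      linarith)
  set W : ℕ := W₀ + 1 with hW
  have hp0 : (0 : ℝ) ≤ 1 - 1 / 2 ^ (m ^ d) := by
    rw [sub_nonneg, div_le_one (by positivity)]
    exact one_le_pow₀ (by norm_num)
  have hp1 : (1 : ℝ) - 1 / 2 ^ (m ^ d) ≤ 1 := by
    have : (0 : ℝ) < 1 / 2 ^ (m ^ d) := by positivity
    linarith
  have hWlt : (1 - 1 / 2 ^ (m ^ d) : ℝ) ^ W < δ / 4 := by
    rw [hW, pow_succ]
    calc _ ≤ (1 - 1 / 2 ^ (m ^ d) : ℝ) ^ W₀ * 1 := by gcongr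
      _ < δ / 4 := by rw [mul_one]; exact hW₀
  set ε : ℝ := δ / (4 * (W * 2 ^ m * (1 + 2 * q * m))) with hε
  have hWpos : (0 : ℝ) < W := by rw [hW]; positivity
  have hmpos : (0 : ℝ) < m := by rw [hm]; positivity
  have hden : (0 : ℝ) < 4 * (W * 2 ^ m * (1 + 2 * q * m)) := by positivity
  have hεpos : 0 < ε := by rw [hε]; positivity
  have hεeq : ε * (W * 2 ^ m * (1 + 2 * q * m)) = δ / 4 := by
    rw [hε]; field_simp
  refine ⟨ε, hεpos, m * W, ?_⟩
  intro N hN G _ _ hG F hF T hT S hZ hS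
  set L : ℕ := N / (W * m) with hL
  have hWm : 0 < W * m := by positivity
  have hL1 : 1 ≤ L := by
    rw [hL, Nat.one_le_div_iff hWm, mul_comm]; exact hN
  have hLN : L * (W * m) ≤ N := Nat.div_mul_le_self _ _
  have hNL : (N : ℝ) ≤ L * (2 * (W * m)) := by
    have h1 : N < (W * m) * (L + 1) := Nat.lt_mul_div_succ N hWm
    have h2 : (W * m) * (L + 1) ≤ L * (2 * (W * m)) := by nlinarith
    exact_mod_cast (h1.le.trans h2)
  -- the windows
  have hcardE : Fintype.card ((Fin L × Fin W) × Fin m) ≤ Fintype.card (Fin N) := by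
    simp only [Fintype.card_prod, Fintype.card_fin]
    rw [mul_assoc]; exact hLN
  obtain ⟨e⟩ := Function.Embedding.nonempty_of_card_le hcardE
  set X : Fin L → Fin W → Finset (Fin N) := fun l i =>
    univ.map ⟨fun a : Fin m => e ((l, i), a), fun a b h => by
      have := e.injective h
      exact (Prod.mk.inj this).2⟩ with hX
  have hXc : ∀ l i, (X l i).card = m := by
    intro l i
    rw [hX, card_map, card_univ, Fintype.card_fin]
  have hXd : ∀ l i l' i', (l, i) ≠ (l', i') → Disjoint (X l i) (X l' i') := by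
    intro l i l' i' hne
    rw [disjoint_left]
    intro x hx hx'
    rw [hX] at hx hx'
    simp only [mem_map, mem_univ, true_and] at hx hx'
    obtain ⟨a, rfl⟩ := hx
    obtain ⟨b, hb⟩ := hx'
    have := e.injective hb
    exact hne (Prod.mk.inj this).1.symm
  -- choice of the group of windows
  have htot : ∑ l : Fin L, ∑ v : G, ∑ i : Fin W, ∑ c ∈ cube d (X l i), bd (T v) c ≤
      ∑ v : G, boundary (T v) := by
    rw [sum_comm]
    refine sum_le_sum (fun v _ => ?_)
    rw [boundary_eq, ← Fintype.sum_prod_type' (f := fun (l : Fin L) (i : Fin W) =>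
      ∑ c ∈ cube d (X l i), bd (T v) c)]
    rw [← sum_biUnion]
    · exact sum_le_sum_of_subset (subset_univ _)
    · rintro ⟨l, i⟩ _ ⟨l', i'⟩ _ hne
      exact cube_disjoint hd (hXd l i l' i' hne)
  have hboundary : ((∑ v : G, boundary (T v) : ℕ) : ℝ) ≤ q * (ε * N * 2 ^ (N ^ d)) := by
    push_cast
    refine (sum_le_card_nsmul _ _ _ (fun v _ => hT v)).trans ?_
    rw [nsmul_eq_mul, card_univ]
    have : (Fintype.card G : ℝ) ≤ q := by exact_mod_cast hG
    gcongr
  obtain ⟨l, hl⟩ : ∃ l : Fin L, ((∑ v : G, ∑ i : Fin W, ∑ c ∈ cube d (X l i), bd (T v) c : ℕ) : ℝ) ≤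
      q * ε * (2 * (W * m)) * 2 ^ (N ^ d) := by
    by_contra hcon
    push Not at hcon
    have h1 : (L : ℝ) * (q * ε * (2 * (W * m)) * 2 ^ (N ^ d)) <
        ((∑ l : Fin L, ∑ v : G, ∑ i : Fin W, ∑ c ∈ cube d (X l i), bd (T v) c : ℕ) : ℝ) := by
      rw [Nat.cast_sum]
      have h2 := sum_lt_sum_of_nonempty (s := (univ : Finset (Fin L)))
        ⟨⟨0, by omega⟩, mem_univ _⟩ (fun l _ => hcon l)
      refine lt_of_le_of_lt (le_of_eq ?_) h2
      rw [sum_const, card_univ, Fintype.card_fin, nsmul_eq_mul]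
    have h2 : ((∑ l : Fin L, ∑ v : G, ∑ i : Fin W, ∑ c ∈ cube d (X l i), bd (T v) c : ℕ) : ℝ) ≤
        ((∑ v : G, boundary (T v) : ℕ) : ℝ) := by exact_mod_cast htot
    have h3 : (q : ℝ) * (ε * N * 2 ^ (N ^ d)) ≤ q * (ε * (L * (2 * (W * m))) * 2 ^ (N ^ d)) := by
      gcongr
    linarith
  refine good_of_windows (m := m) (q := q) hd hG ?_ hF T S (X l) (hXc l) ?_ _ hl ?_
  · intro G' _ _ hG' s hs P hP h0
    exact hm₀ (Fin N) G' hG' s (by omega) P hP h0
  · intro i j hij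
    exact hXd l i l j (fun h => hij (Prod.mk.inj h).2)
  · have hpow : (0 : ℝ) < 2 ^ (N ^ d) := by positivity
    have e1 : (1 - 1 / 2 ^ (m ^ d) : ℝ) ^ W * 2 ^ (N ^ d) ≤ δ / 4 * 2 ^ (N ^ d) := by gcongr
    have e2 : (W : ℝ) * 2 ^ m *
        ((symmDiff S (univ.filter (fun A => A ∈ T (F A)))).card : ℝ) ≤
        W * 2 ^ m * (ε * 2 ^ (N ^ d)) := by gcongr
    have e3 : (W : ℝ) * 2 ^ m * (ε * 2 ^ (N ^ d)) +
        2 ^ m * (q * ε * (2 * (W * m)) * 2 ^ (N ^ d)) = δ / 4 * 2 ^ (N ^ d) := by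
      rw [← hεeq]; ring
    nlinarith

end Pool.Agent.Lib.MP_90b327_co.H38
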