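import Mathlib
import Pool.Agent.Lib.MP_90b327_co.Interface
set_option autoImplicit false
namespace Pool.Agent.Lib.MP_90b327_co
open Finset

/-- the cells of `γ^d` -/
abbrev sqr (d : ℕ) {N : ℕ} (γ : Finset (Fin N)) : Finset (Fin d → Fin N) :=
  Fintype.piFinset (fun _ : Fin d => γ)

lemma card_sqr (d : ℕ) {N : ℕ} (γ : Finset (Fin N)) : (sqr d γ).card = γ.card ^ d := by
  simp [sqr, Fintype.card_piFinset]

lemma card_avoid (d : ℕ) {N : ℕ} (γ : Finset (Fin N)) :
    (univ.filter (fun A : Finset (Fin d → Fin N) => Disjoint A (sqr d γ))).card =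
      2 ^ (N ^ d - γ.card ^ d) := by
  have : univ.filter (fun A : Finset (Fin d → Fin N) => Disjoint A (sqr d γ)) =
      ((sqr d γ)ᶜ).powerset := by
    ext A
    rw [Finset.mem_filter, Finset.mem_powerset]
    simp only [Finset.mem_univ, true_and]
    rw [Finset.disjoint_left]
    constructor
    · intro h c hc
      rw [Finset.mem_compl]
      exact h hc
    · intro h c hc
      exact Finset.mem_compl.mp (h hc)
  rw [this, Finset.card_powerset, Finset.card_compl, card_sqr]
  simp

/-- the sets of cells which meet every square with `M` vertices -/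
noncomputable def typical (d N M : ℕ) : Finset (Finset (Fin d → Fin N)) := by
  classical
  exact univ.filter (fun A => ∀ γ : Finset (Fin N), γ.card = M → ¬ Disjoint A (sqr d γ))

lemma mem_typical {d N M : ℕ} (A : Finset (Fin d → Fin N)) :
    A ∈ typical d N M ↔ ∀ γ : Finset (Fin N), γ.card = M → ¬ Disjoint A (sqr d γ) := by
  unfold typical
  simp

lemma choose_bound (N M : ℕ) (h2 : 2 ≤ M) : 2 * N.choose M ≤ N ^ M := by
  have h := Nat.choose_le_pow_div (α := ℚ) M N
  have h3 : (2 : ℚ) ≤ M.factorial := by
    have : 2 ≤ M.factorial := by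
      calc 2 = Nat.factorial 2 := rfl
        _ ≤ M.factorial := Nat.factorial_le h2
    exact_mod_cast this
  have h4 : (2 : ℚ) * N.choose M ≤ N ^ M := by
    rw [le_div_iff₀ (by positivity)] at h
    have h5 : (N.choose M : ℚ) * 2 ≤ N.choose M * M.factorial :=
      mul_le_mul_of_nonneg_left h3 (Nat.cast_nonneg _)
    linarith
  exact_mod_cast h4

lemma card_typical (d N M : ℕ) (hd : 1 ≤ d) (h2 : 2 ≤ M) (hN : N ≤ 2 ^ (M ^ (d - 1))) :
    2 ^ (N ^ d) ≤ 2 * (typical d N M).card := by
  classical
  by_cases hMN : N < M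
  · have : typical d N M = univ := by
      ext A
      rw [mem_typical]
      simp only [Finset.mem_univ, iff_true]
      intro γ hγ
      have := Finset.card_le_univ γ
      rw [hγ, Fintype.card_fin] at this
      omega
    rw [this, Finset.card_univ, Fintype.card_finset]
    simp
  · push Not at hMN
    have h1 : (typical d N M)ᶜ ⊆ (powersetCard M (univ : Finset (Fin N))).biUnion
        (fun γ => univ.filter (fun A : Finset (Fin d → Fin N) => Disjoint A (sqr d γ))) := by
      intro A hA
      rw [Finset.mem_compl, mem_typical] at hA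
      push Not at hA
      obtain ⟨γ, hγ, hA⟩ := hA
      rw [Finset.mem_biUnion]
      exact ⟨γ, Finset.mem_powersetCard.mpr ⟨Finset.subset_univ _, hγ⟩,
        Finset.mem_filter.mpr ⟨Finset.mem_univ _, hA⟩⟩
    have h3 : ((typical d N M)ᶜ).card ≤ N.choose M * 2 ^ (N ^ d - M ^ d) := by
      calc ((typical d N M)ᶜ).card ≤ _ := Finset.card_le_card h1
        _ ≤ ∑ γ ∈ powersetCard M (univ : Finset (Fin N)),
            (univ.filter (fun A : Finset (Fin d → Fin N) => Disjoint A (sqr d γ))).card :=
            Finset.card_biUnion_le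
        _ = ∑ γ ∈ powersetCard M (univ : Finset (Fin N)), 2 ^ (N ^ d - M ^ d) := by
            apply Finset.sum_congr rfl
            intro γ hγ
            rw [card_avoid, (Finset.mem_powersetCard.mp hγ).2]
        _ = _ := by
            rw [Finset.sum_const, Finset.card_powersetCard, Finset.card_univ, Fintype.card_fin,
              smul_eq_mul]
    have h4 : M ^ d ≤ N ^ d := Nat.pow_le_pow_left hMN d
    have h5 : 2 * ((typical d N M)ᶜ).card ≤ 2 ^ (N ^ d) := by
      calc 2 * ((typical d N M)ᶜ).card ≤ 2 * (N.choose M * 2 ^ (N ^ d - M ^ d)) :=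
            Nat.mul_le_mul_left 2 h3
        _ = (2 * N.choose M) * 2 ^ (N ^ d - M ^ d) := by ring
        _ ≤ N ^ M * 2 ^ (N ^ d - M ^ d) := Nat.mul_le_mul_right _ (choose_bound N M h2)
        _ ≤ (2 ^ (M ^ (d - 1))) ^ M * 2 ^ (N ^ d - M ^ d) :=
            Nat.mul_le_mul_right _ (Nat.pow_le_pow_left hN M)
        _ = 2 ^ (M ^ d) * 2 ^ (N ^ d - M ^ d) := by
            congr 1
            rw [← pow_mul]
            congr 1
            have : d = (d - 1) + 1 := by omega
            conv_rhs => rw [this, pow_succ]
        _ = 2 ^ (N ^ d) := by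
            rw [← pow_add]
            congr 1
            omega
    have h6 : (typical d N M).card + ((typical d N M)ᶜ).card = 2 ^ (N ^ d) := by
      rw [Finset.card_add_card_compl, Fintype.card_finset]
      simp
    omega

/-- the cells whose coordinates other than the first are all equal -/
def diagCells (d N : ℕ) : Finset (Fin d → Fin N) :=
  univ.filter (fun c => ∀ i j : Fin d, (i : ℕ) ≠ 0 → (j : ℕ) ≠ 0 → c i = c j)

lemma card_sqr_inter (d N : ℕ) (hd : 2 ≤ d) (γ : Finset (Fin N)) :
    ((sqr d γ).filter (fun c => c ∈ diagCells d N)).card = γ.card ^ 2 := by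
  rw [sq, ← Finset.card_product]
  symm
  apply Finset.card_bij (fun (p : Fin N × Fin N) _ => fun i : Fin d => if (i : ℕ) = 0 then p.1 else p.2)
  · intro p hp
    rw [Finset.mem_product] at hp
    rw [Finset.mem_filter, diagCells, Finset.mem_filter]
    refine ⟨?_, Finset.mem_univ _, ?_⟩
    · rw [Fintype.mem_piFinset]
      intro i
      show (if (i : ℕ) = 0 then p.1 else p.2) ∈ γ
      split_ifs
      · exact hp.1
      · exact hp.2
    · intro i j hi hj
      show (if (i : ℕ) = 0 then p.1 else p.2) = (if (j : ℕ) = 0 then p.1 else p.2)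
      rw [if_neg hi, if_neg hj]
  · intro p _ q _ h
    have h1 := congrFun h ⟨0, by omega⟩
    have h2 := congrFun h ⟨1, by omega⟩
    simp at h1 h2
    exact Prod.ext h1 h2
  · intro c hc
    rw [Finset.mem_filter, diagCells, Finset.mem_filter] at hc
    obtain ⟨hc1, _, hc2⟩ := hc
    rw [Fintype.mem_piFinset] at hc1
    refine ⟨(c ⟨0, by omega⟩, c ⟨1, by omega⟩), ?_, ?_⟩
    · rw [Finset.mem_product]
      exact ⟨hc1 _, hc1 _⟩
    · funext i
      split_ifs with hi
      · exact congrArg c (Fin.ext hi.symm)
      · exact hc2 ⟨1, by omega⟩ i (by simp) hi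

/-- the statistic -/
def stat {d N : ℕ} (A : Finset (Fin d → Fin N)) : ℕ := (A.filter (fun c => c ∈ diagCells d N)).card

lemma stat_union {d N : ℕ} (hd : 2 ≤ d) (A : Finset (Fin d → Fin N)) (γ : Finset (Fin N))
    (h : Disjoint A (sqr d γ)) : stat (A ∪ sqr d γ) = stat A + γ.card ^ 2 := by
  unfold stat
  rw [Finset.filter_union, Finset.card_union_of_disjoint, card_sqr_inter d N hd]
  exact Finset.disjoint_filter_filter h

/-- numbers whose base `q` digits in even positions below `2 V` lie in `R` -/
def digs (q : ℕ) (R : Finset ℕ) (V : ℕ) : Finset ℕ :=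
  (range (q ^ (2 * V))).filter (fun n => ∀ v < V, (n / q ^ (2 * v)) % q ∈ R)

lemma card_digs (q : ℕ) (hq : 0 < q) (R : Finset ℕ) (hR : ∀ r ∈ R, r < q) (V : ℕ) :
    (digs q R V).card = (R.card * q) ^ V := by
  induction V with
  | zero =>
    unfold digs
    simp
  | succ V ih =>
    have h1 : (digs q R (V + 1)).card = ((R ×ˢ range q) ×ˢ digs q R V).card := by
      symm
      apply Finset.card_bij (fun p _ => p.1.1 + q * (p.1.2 + q * p.2))
      · rintro ⟨⟨r, c⟩, b⟩ hp
        rw [Finset.mem_product, Finset.mem_product, Finset.mem_range] at hp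
        obtain ⟨⟨hr, hc⟩, hb⟩ := hp
        dsimp only at hr hc hb ⊢
        unfold digs at hb ⊢
        rw [Finset.mem_filter, Finset.mem_range] at hb ⊢
        have hrq := hR r hr
        refine ⟨?_, ?_⟩
        · have e : q ^ (2 * (V + 1)) = q * (q * q ^ (2 * V)) := by ring
          rw [e]
          have h2 : c + q * b + 1 ≤ q * q ^ (2 * V) := by
            calc c + q * b + 1 ≤ q + q * b := by omega
              _ = q * (b + 1) := by ring
              _ ≤ q * q ^ (2 * V) := Nat.mul_le_mul_left q hb.1
          calc r + q * (c + q * b) < q + q * (c + q * b) := by omega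
            _ = q * (c + q * b + 1) := by ring
            _ ≤ _ := Nat.mul_le_mul_left q h2
        · intro v hv
          rcases v with _ | v
          · rw [Nat.mul_zero, pow_zero, Nat.div_one, Nat.add_mul_mod_self_left,
              Nat.mod_eq_of_lt hrq]
            exact hr
          · have e : q ^ (2 * (v + 1)) = q * (q * q ^ (2 * v)) := by ring
            rw [e, ← Nat.div_div_eq_div_mul, Nat.add_mul_div_left _ _ hq, Nat.div_eq_of_lt hrq,
              zero_add, ← Nat.div_div_eq_div_mul, Nat.add_mul_div_left _ _ hq,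
              Nat.div_eq_of_lt hc, zero_add]
            exact hb.2 v (by omega)
      · rintro ⟨⟨r, c⟩, b⟩ hp ⟨⟨r', c'⟩, b'⟩ hp' h
        rw [Finset.mem_product, Finset.mem_product, Finset.mem_range] at hp hp'
        obtain ⟨⟨hr, hc⟩, hb⟩ := hp
        obtain ⟨⟨hr', hc'⟩, hb'⟩ := hp'
        dsimp only at hr hc hb hr' hc' hb' h
        have hrq := hR r hr
        have hrq' := hR r' hr'
        have h1 : r = r' := by
          have := congrArg (· % q) h
          simpa [Nat.add_mul_mod_self_left, Nat.mod_eq_of_lt hrq, Nat.mod_eq_of_lt hrq'] using this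
        subst h1
        have h2 : c + q * b = c' + q * b' := by
          have := Nat.add_left_cancel h
          exact Nat.eq_of_mul_eq_mul_left hq this
        have h3 : c = c' := by
          have := congrArg (· % q) h2
          simpa [Nat.add_mul_mod_self_left, Nat.mod_eq_of_lt hc, Nat.mod_eq_of_lt hc'] using this
        subst h3
        have h4 : b = b' := Nat.eq_of_mul_eq_mul_left hq (Nat.add_left_cancel h2)
        subst h4
        rfl
      · intro n hn
        unfold digs at hn
        rw [Finset.mem_filter, Finset.mem_range] at hn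
        refine ⟨((n % q, n / q % q), n / q / q), ?_, ?_⟩
        · rw [Finset.mem_product, Finset.mem_product, Finset.mem_range]
          refine ⟨⟨?_, Nat.mod_lt _ hq⟩, ?_⟩
          · have := hn.2 0 (by omega)
            simpa using this
          · unfold digs
            rw [Finset.mem_filter, Finset.mem_range]
            refine ⟨?_, ?_⟩
            · rw [Nat.div_div_eq_div_mul, Nat.div_lt_iff_lt_mul (by positivity)]
              calc n < q ^ (2 * (V + 1)) := hn.1
                _ = q ^ (2 * V) * (q * q) := by ring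
            · intro v hv
              have := hn.2 (v + 1) (by omega)
              have e : q ^ (2 * (v + 1)) = q * q * q ^ (2 * v) := by ring
              rw [e, ← Nat.div_div_eq_div_mul, ← Nat.div_div_eq_div_mul] at this
              exact this
        · dsimp only
          rw [Nat.mod_add_div, Nat.mod_add_div]
    rw [h1, Finset.card_product, Finset.card_product, Finset.card_range, ih, pow_succ]
    ring

lemma digs_diff (q : ℕ) (hq : 2 ≤ q) (R : Finset ℕ)
    (hR : ∀ r ∈ R, ∀ u : ℕ, ¬ q ∣ u → (r + u ^ 2) % q ∉ R) (V n m : ℕ) (hm : 0 < m)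
    (hmV : m < q ^ V) (h1 : n % q ^ (2 * V) ∈ digs q R V) :
    (n + m ^ 2) % q ^ (2 * V) ∉ digs q R V := by
  intro h2
  obtain ⟨v, u, hu, rfl⟩ := Nat.exists_eq_pow_mul_and_not_dvd hm.ne' q (by omega)
  have hv : v < V := by
    by_contra hcon
    push Not at hcon
    have : q ^ V ≤ q ^ v * u := by
      calc q ^ V ≤ q ^ v := Nat.pow_le_pow_right (by omega) hcon
        _ ≤ q ^ v * u := Nat.le_mul_of_pos_right _ (Nat.pos_of_ne_zero (by rintro rfl; simp at hu))
    omega
  have hdig : ∀ x : ℕ, (x % q ^ (2 * V)) / q ^ (2 * v) % q = x / q ^ (2 * v) % q := by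
    intro x
    have e : q ^ (2 * V) = q ^ (2 * v) * (q * q ^ (2 * V - 2 * v - 1)) := by
      rw [← pow_succ', ← pow_add]
      congr 1
      omega
    rw [e, Nat.mod_mul_right_div_self, Nat.mod_mul_right_mod]
  unfold digs at h1 h2
  rw [Finset.mem_filter] at h1 h2
  have h3 := h1.2 v hv
  have h4 := h2.2 v hv
  rw [hdig] at h3 h4
  have e2 : (q ^ v * u) ^ 2 = q ^ (2 * v) * u ^ 2 := by
    rw [mul_pow, ← pow_mul, mul_comm v 2]
  rw [e2, Nat.add_mul_div_left _ _ (by positivity), Nat.add_mod] at h4
  have h5 := hR _ h3 u hu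
  rw [Nat.add_mod, Nat.mod_mod] at h5
  exact h5 h4

/-- bad families of density at least `(|R| / q)^V / 2` -/
lemma exists_bad (d : ℕ) (hd : 2 ≤ d) (q : ℕ) (hq : 2 ≤ q) (R : Finset ℕ) (hRq : ∀ r ∈ R, r < q)
    (hR : ∀ r ∈ R, ∀ u : ℕ, ¬ q ∣ u → (r + u ^ 2) % q ∉ R) (V : ℕ) (hV : 1 ≤ V) (N : ℕ)
    (hN : N ≤ 2 ^ ((q ^ V) ^ (d - 1))) :
    ∃ S : Finset (Finset (Fin d → Fin N)), ¬ Good d N S ∧
      R.card ^ V * 2 ^ (N ^ d) ≤ 2 * q ^ V * S.card := by
  classical
  set M := q ^ V with hM
  have hM2 : 2 ≤ M := by
    calc 2 ≤ q := hq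
      _ = q ^ 1 := (pow_one q).symm
      _ ≤ q ^ V := Nat.pow_le_pow_right (by omega) hV
  set Q := q ^ (2 * V) with hQ
  have hQpos : 0 < Q := by positivity
  set T := digs q R V with hT
  have hTsub : T ⊆ range Q := Finset.filter_subset _ _
  -- pigeonhole on the shift
  let F : ℕ → Finset (Finset (Fin d → Fin N)) := fun s =>
    (typical d N M).filter (fun A => (stat A + s) % Q ∈ T)
  have hsum : ∑ s ∈ range Q, (F s).card = T.card * (typical d N M).card := by
    simp only [F, Finset.card_filter]
    rw [Finset.sum_comm]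
    have h1 : ∀ A ∈ typical d N M, ∑ s ∈ range Q, (if (stat A + s) % Q ∈ T then 1 else 0) = T.card := by
      intro A _
      rw [← Finset.card_filter]
      apply Finset.card_bij (fun s _ => (stat A + s) % Q)
      · intro s hs
        exact (Finset.mem_filter.mp hs).2
      · intro s hs s' hs' h
        rw [Finset.mem_filter, Finset.mem_range] at hs hs'
        have h2 : stat A + s ≡ stat A + s' [MOD Q] := h
        have h3 := Nat.ModEq.add_left_cancel' _ h2
        unfold Nat.ModEq at h3
        rw [Nat.mod_eq_of_lt hs.1, Nat.mod_eq_of_lt hs'.1] at h3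
        exact h3
      · intro t ht
        have htQ := Finset.mem_range.mp (hTsub ht)
        refine ⟨(t + (Q - stat A % Q)) % Q, ?_, ?_⟩
        · rw [Finset.mem_filter, Finset.mem_range]
          refine ⟨Nat.mod_lt _ hQpos, ?_⟩
          have : (stat A + (t + (Q - stat A % Q)) % Q) % Q = t := by
            have h4 := Nat.mod_lt (stat A) hQpos
            rw [Nat.add_mod_mod]
            have h5 : stat A + (t + (Q - stat A % Q)) = t + Q * (stat A / Q + 1) := by
              have h6 := Nat.mod_add_div (stat A) Q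
              have h7 : Q * (stat A / Q + 1) = Q * (stat A / Q) + Q := by ring
              omega
            rw [h5, Nat.add_mul_mod_self_left, Nat.mod_eq_of_lt htQ]
          rw [this]
          exact ht
        · have h4 := Nat.mod_lt (stat A) hQpos
          rw [Nat.add_mod_mod]
          have h5 : stat A + (t + (Q - stat A % Q)) = t + Q * (stat A / Q + 1) := by
            have h6 := Nat.mod_add_div (stat A) Q
            have h7 : Q * (stat A / Q + 1) = Q * (stat A / Q) + Q := by ring
            omega
          rw [h5, Nat.add_mul_mod_self_left, Nat.mod_eq_of_lt htQ]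
    rw [Finset.sum_congr rfl h1, Finset.sum_const, smul_eq_mul, mul_comm]
  obtain ⟨s, _, hs⟩ : ∃ s ∈ range Q, T.card * (typical d N M).card ≤ Q * (F s).card := by
    by_contra hcon
    push Not at hcon
    have h1 : Q * ∑ s ∈ range Q, (F s).card < ∑ s ∈ range Q, T.card * (typical d N M).card := by
      rw [Finset.mul_sum]
      apply Finset.sum_lt_sum_of_nonempty
      · exact ⟨0, Finset.mem_range.mpr hQpos⟩
      · exact hcon
    rw [hsum, Finset.sum_const, Finset.card_range, smul_eq_mul] at h1
    exact lt_irrefl _ h1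
  refine ⟨F s, ?_, ?_⟩
  · rintro ⟨A, hA, γ, hγ, h1, h2⟩
    simp only [F] at hA h2
    rw [Finset.mem_filter] at hA h2
    obtain ⟨hA1, hA2⟩ := hA
    obtain ⟨_, hB2⟩ := h2
    have hcard : γ.card < M := by
      by_contra hcon
      push Not at hcon
      obtain ⟨γ', hγ', hc⟩ := Finset.exists_subset_card_eq hcon
      rw [mem_typical] at hA1
      apply hA1 γ' hc
      apply Finset.disjoint_of_subset_right _ h1
      intro c hc'
      rw [Fintype.mem_piFinset] at hc' ⊢
      exact fun i => hγ' (hc' i)
    have h3 : stat (A ∪ Fintype.piFinset (fun _ : Fin d => γ)) = stat A + γ.card ^ 2 :=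
      stat_union hd A γ h1
    rw [h3] at hB2
    have h4 := digs_diff q hq R hR V (stat A + s) γ.card hγ.card_pos hcard hA2
    apply h4
    have : stat A + s + γ.card ^ 2 = stat A + γ.card ^ 2 + s := by ring
    rw [this]
    exact hB2
  · have h1 := card_typical d N M (by omega) hM2 hN
    have h2 : T.card = (R.card * q) ^ V := card_digs q (by omega) R hRq V
    rw [h2] at hs
    have h3 : Q = q ^ V * q ^ V := by
      rw [hQ, two_mul, pow_add]
    rw [h3, mul_pow] at hs
    have h4 : q ^ V * (R.card ^ V * (typical d N M).card) ≤ q ^ V * (q ^ V * (F s).card) := by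
      calc q ^ V * (R.card ^ V * (typical d N M).card)
          = R.card ^ V * q ^ V * (typical d N M).card := by ring
        _ ≤ q ^ V * q ^ V * (F s).card := hs
        _ = _ := by ring
    have h5 := Nat.le_of_mul_le_mul_left h4 (by positivity)
    calc R.card ^ V * 2 ^ (N ^ d) ≤ R.card ^ V * (2 * (typical d N M).card) :=
          Nat.mul_le_mul_left _ h1
      _ = 2 * (R.card ^ V * (typical d N M).card) := by ring
      _ ≤ 2 * (q ^ V * (F s).card) := Nat.mul_le_mul_left 2 h5
      _ = _ := by ring

end Pool.Agent.Lib.MP_90b327_co
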