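import Mathlib
import Pool.Agent.Lib.MP_90b327_co.H38Poly

set_option autoImplicit false

/-! Chevalley-Warning-Olson for set polynomials with values in cyclic `p`-groups. -/

namespace Pool.Agent.Lib.MP_90b327_co.H38

open Finset

variable {α : Type} [DecidableEq α]

/-- `f` is a combination of the functions `T ⊆ g`, `T.card ≤ D`, on the subsets `g` of `s`. -/
def Low {R : Type} [AddCommGroup R] (s : Finset α) (D : ℕ) (f : Finset α → R) : Prop :=
  ∃ c : Finset α → R, ∀ g ⊆ s, f g = ∑ T ∈ g.powerset.filter (fun T => T.card ≤ D), c T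

/-- a set polynomial has Moebius coefficients supported on small sets -/
lemma low_of_degLE {G : Type} [AddCommGroup G] (k : ℕ) (s : Finset α) (P : Finset α → G)
    (h : DegLE k s P) : Low s k P := by
  induction s using Finset.induction_on generalizing k P with
  | empty =>
    refine ⟨fun _ => P ∅, ?_⟩
    intro g hg
    have : g = ∅ := by simpa using hg
    subst this
    rw [powerset_empty, filter_singleton, if_pos (by simp), sum_singleton]
  | insert x s hx ih =>
    rcases k with _ | k
    · refine ⟨fun _ => P ∅, ?_⟩
      intro g hg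
      rw [h g hg]
      have : g.powerset.filter (fun T => T.card ≤ 0) = {∅} := by
        ext T
        simp only [mem_filter, mem_powerset, Nat.le_zero, card_eq_zero, mem_singleton]
        constructor
        · exact fun h => h.2
        · rintro rfl
          exact ⟨empty_subset _, rfl⟩
      rw [this, sum_singleton]
    · obtain ⟨c₁, h₁⟩ := ih (k + 1) P (h.mono (k + 1) (subset_insert x s))
      have hD : DegLE k s (fun g => P ({x} ∪ g) - P g) := by
        have h2 := h {x} (by simp)
        have h3 : s ⊆ insert x s \ {x} := by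
          intro y hy
          rw [mem_sdiff, mem_insert, mem_singleton]
          exact ⟨Or.inr hy, fun h => hx (h ▸ hy)⟩
        exact DegLE.mono k h3 h2
      obtain ⟨c₂, h₂⟩ := ih k _ hD
      refine ⟨fun T => if x ∈ T then c₂ (T.erase x) else c₁ T, ?_⟩
      intro g hg
      by_cases hxg : x ∈ g
      · set g' := g.erase x with hg'
        have hgg : g = insert x g' := (insert_erase hxg).symm
        have hxg' : x ∉ g' := by simp [hg']
        have hg's : g' ⊆ s := by
          intro y hy
          have h1 : y ∈ g := mem_of_mem_erase hy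
          have h2 := hg h1
          rw [mem_insert] at h2
          rcases h2 with rfl | h2
          · exact absurd hy hxg'
          · exact h2
        have e1 := h₁ g' hg's
        have e2 := h₂ g' hg's
        simp only at e2
        have e3 : P g = (P ({x} ∪ g') - P g') + P g' := by
          rw [sub_add_cancel, hgg]; rfl
        rw [e3, e2, e1]
        have e4 : g.powerset.filter (fun T => T.card ≤ k + 1) =
            ((g'.powerset.filter (fun T => T.card ≤ k)).image (insert x)) ∪
              g'.powerset.filter (fun T => T.card ≤ k + 1) := by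
          ext T
          simp only [mem_filter, mem_powerset, mem_union, mem_image]
          constructor
          · rintro ⟨h1, h2⟩
            by_cases hT : x ∈ T
            · left
              refine ⟨T.erase x, ⟨?_, ?_⟩, insert_erase hT⟩
              · rw [hg']
                exact erase_subset_erase x h1
              · rw [card_erase_of_mem hT]; omega
            · right
              refine ⟨?_, h2⟩
              intro y hy
              rw [hg', mem_erase]
              exact ⟨fun h => hT (h ▸ hy), h1 hy⟩
          · rintro (⟨U, ⟨h1, h2⟩, rfl⟩ | ⟨h1, h2⟩)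
            · refine ⟨?_, (card_insert_le _ _).trans (by omega)⟩
              rw [hgg]
              exact insert_subset_insert x h1
            · exact ⟨h1.trans (erase_subset _ _), h2⟩
        have hdisj : Disjoint ((g'.powerset.filter (fun T => T.card ≤ k)).image (insert x))
            (g'.powerset.filter (fun T => T.card ≤ k + 1)) := by
          rw [disjoint_left]
          intro T hT hT'
          rw [mem_image] at hT
          obtain ⟨U, _, rfl⟩ := hT
          rw [mem_filter, mem_powerset] at hT'
          exact hxg' (hT'.1 (mem_insert_self x U))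
        rw [e4, sum_union hdisj]
        congr 1
        · rw [sum_image]
          · refine sum_congr rfl (fun U hU => ?_)
            rw [mem_filter, mem_powerset] at hU
            have hxU : x ∉ U := fun h => hxg' (hU.1 h)
            try simp only []
            rw [if_pos (mem_insert_self x U), erase_insert hxU]
          · intro U hU U' hU' he
            rw [mem_coe, mem_filter, mem_powerset] at hU hU'
            have hxU : x ∉ U := fun h => hxg' (hU.1 h)
            have hxU' : x ∉ U' := fun h => hxg' (hU'.1 h)
            have := congrArg (fun B => erase B x) he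
            simpa [erase_insert hxU, erase_insert hxU'] using this
        · refine sum_congr rfl (fun U hU => ?_)
          rw [mem_filter, mem_powerset] at hU
          have hxU : x ∉ U := fun h => hxg' (hU.1 h)
          try simp only []
          rw [if_neg hxU]
      · have hgs : g ⊆ s := by
          intro y hy
          have h2 := hg hy
          rw [mem_insert] at h2
          rcases h2 with rfl | h2
          · exact absurd hy hxg
          · exact h2
        rw [h₁ g hgs]
        refine sum_congr rfl (fun U hU => ?_)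
        rw [mem_filter, mem_powerset] at hU
        have hxU : x ∉ U := fun h => hxg (hU.1 h)
        try simp only []
        rw [if_neg hxU]

namespace Low

variable {R : Type} [CommRing R] {s : Finset α}

lemma congr {D : ℕ} {f f' : Finset α → R} (h : ∀ g ⊆ s, f g = f' g) (hf : Low s D f) :
    Low s D f' := by
  obtain ⟨c, hc⟩ := hf
  exact ⟨c, fun g hg => by rw [← h g hg, hc g hg]⟩

lemma mono {D D' : ℕ} (h : D ≤ D') {f : Finset α → R} (hf : Low s D f) : Low s D' f := by
  obtain ⟨c, hc⟩ := hf
  refine ⟨fun T => if T.card ≤ D then c T else 0, ?_⟩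
  intro g hg
  rw [hc g hg, sum_filter, sum_filter]
  refine sum_congr rfl (fun T _ => ?_)
  by_cases h1 : T.card ≤ D
  · rw [if_pos h1, if_pos (h1.trans h)]
    try rw [if_pos h1]
  · rw [if_neg h1]
    split_ifs <;> rfl

lemma add {D : ℕ} {f f' : Finset α → R} (hf : Low s D f) (hf' : Low s D f') :
    Low s D (fun g => f g + f' g) := by
  obtain ⟨c, hc⟩ := hf
  obtain ⟨c', hc'⟩ := hf'
  refine ⟨fun T => c T + c' T, ?_⟩
  intro g hg
  try simp only []
  rw [hc g hg, hc' g hg, sum_add_distrib]

lemma smul {D : ℕ} {f : Finset α → R} (a : R) (hf : Low s D f) :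
    Low s D (fun g => a * f g) := by
  obtain ⟨c, hc⟩ := hf
  refine ⟨fun T => a * c T, ?_⟩
  intro g hg
  try simp only []
  rw [hc g hg, mul_sum]

lemma zero (D : ℕ) : Low s D (fun _ => (0 : R)) := ⟨fun _ => 0, fun g _ => by simp⟩

lemma monomial {D : ℕ} (T : Finset α) (hT : T.card ≤ D) (a : R) :
    Low s D (fun g => if T ⊆ g then a else 0) := by
  refine ⟨fun U => if U = T then a else 0, ?_⟩
  intro g _
  rw [sum_ite_eq']
  show (if T ⊆ g then a else 0) = _
  by_cases h : T ⊆ g
  · rw [if_pos h, if_pos]
    rw [mem_filter, mem_powerset]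
    exact ⟨h, hT⟩
  · rw [if_neg h, if_neg]
    rw [mem_filter, mem_powerset]
    exact fun h' => h h'.1

lemma const (D : ℕ) (a : R) : Low s D (fun _ => a) := by
  refine congr ?_ (monomial (s := s) (D := D) ∅ (by simp) a)
  intro g _
  simp

lemma sum {ι : Type} {D : ℕ} (I : Finset ι) (f : ι → Finset α → R)
    (h : ∀ i ∈ I, Low s D (f i)) : Low s D (fun g => ∑ i ∈ I, f i g) := by
  classical
  induction I using Finset.induction_on with
  | empty => simpa using zero (s := s) (R := R) D
  | insert a I ha ih =>
    refine congr ?_ (add (h a (mem_insert_self a I)) (ih (fun i hi => h i (mem_insert_of_mem hi))))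
    intro g _
    try simp only []
    rw [sum_insert ha]

lemma mul {D D' : ℕ} {f f' : Finset α → R} (hf : Low s D f) (hf' : Low s D' f') :
    Low s (D + D') (fun g => f g * f' g) := by
  obtain ⟨c, hc⟩ := hf
  obtain ⟨c', hc'⟩ := hf'
  have h1 : Low s (D + D') (fun g => ∑ T ∈ s.powerset.filter (fun T => T.card ≤ D),
      ∑ T' ∈ s.powerset.filter (fun T => T.card ≤ D'),
        (if T ∪ T' ⊆ g then c T * c' T' else 0)) := by
    apply sum
    intro T hT
    apply sum
    intro T' hT'
    rw [mem_filter] at hT hT'
    exact monomial (T ∪ T') ((card_union_le _ _).trans (by omega)) _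
  refine congr ?_ h1
  intro g hg
  try simp only []
  have e1 : ∀ (E : ℕ) (b : Finset α → R), ∑ T ∈ g.powerset.filter (fun T => T.card ≤ E), b T =
      ∑ T ∈ s.powerset.filter (fun T => T.card ≤ E), if T ⊆ g then b T else 0 := by
    intro E b
    rw [← sum_filter]
    apply sum_congr _ (fun _ _ => rfl)
    ext T
    simp only [mem_filter, mem_powerset]
    constructor
    · rintro ⟨h1, h2⟩
      exact ⟨⟨h1.trans hg, h2⟩, h1⟩
    · rintro ⟨⟨_, h2⟩, h1⟩
      exact ⟨h1, h2⟩
  rw [hc g hg, hc' g hg, e1, e1, sum_mul_sum]
  refine sum_congr rfl (fun T _ => sum_congr rfl (fun T' _ => ?_))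
  by_cases h1 : T ⊆ g
  · by_cases h2 : T' ⊆ g
    · rw [if_pos (union_subset h1 h2), if_pos h1, if_pos h2]
    · rw [if_neg (fun h => h2 (subset_union_right.trans h)), if_neg h2, mul_zero]
  · rw [if_neg (fun h => h1 (subset_union_left.trans h)), if_neg h1, zero_mul]

lemma prod {ι : Type} (I : Finset ι) (D : ι → ℕ) (f : ι → Finset α → R)
    (h : ∀ i ∈ I, Low s (D i) (f i)) : Low s (∑ i ∈ I, D i) (fun g => ∏ i ∈ I, f i g) := by
  classical
  induction I using Finset.induction_on with
  | empty => simpa using const (s := s) 0 (1 : R)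
  | insert a I ha ih =>
    rw [sum_insert ha]
    refine congr ?_ (mul (h a (mem_insert_self a I)) (ih (fun i hi => h i (mem_insert_of_mem hi))))
    intro g _
    try simp only []
    rw [prod_insert ha]

/-- the alternating sum over all subsets vanishes below full degree -/
lemma alternating {D : ℕ} (hD : D < s.card) {f : Finset α → R} (hf : Low s D f) :
    ∑ g ∈ s.powerset, (-1 : R) ^ g.card * f g = 0 := by
  obtain ⟨c, hc⟩ := hf
  have e1 : ∑ g ∈ s.powerset, (-1 : R) ^ g.card * f g =
      ∑ T ∈ s.powerset.filter (fun T => T.card ≤ D),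
        c T * ∑ g ∈ s.powerset, (if T ⊆ g then (-1 : R) ^ g.card else 0) := by
    have e2 : ∀ g ∈ s.powerset, (-1 : R) ^ g.card * f g =
        ∑ T ∈ s.powerset.filter (fun T => T.card ≤ D), c T *
          (if T ⊆ g then (-1 : R) ^ g.card else 0) := by
      intro g hg
      rw [mem_powerset] at hg
      rw [hc g hg, mul_sum]
      have e3 : g.powerset.filter (fun T => T.card ≤ D) =
          (s.powerset.filter (fun T => T.card ≤ D)).filter (fun T => T ⊆ g) := by
        ext T
        simp only [mem_filter, mem_powerset]
        constructor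
        · rintro ⟨h1, h2⟩
          exact ⟨⟨h1.trans hg, h2⟩, h1⟩
        · rintro ⟨⟨_, h2⟩, h1⟩
          exact ⟨h1, h2⟩
      rw [e3, sum_filter]
      refine sum_congr rfl (fun T _ => ?_)
      split_ifs <;> ring
    rw [sum_congr rfl e2, sum_comm]
    refine sum_congr rfl (fun T _ => ?_)
    rw [mul_sum]
  rw [e1]
  apply sum_eq_zero
  intro T hT
  rw [mem_filter, mem_powerset] at hT
  obtain ⟨hTs, hTc⟩ := hT
  have e4 : ∑ g ∈ s.powerset, (if T ⊆ g then (-1 : R) ^ g.card else 0) =
      (-1 : R) ^ T.card * ∑ g ∈ (s \ T).powerset, (-1 : R) ^ g.card := by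
    rw [← sum_filter, mul_sum]
    symm
    apply sum_bij (fun g _ => T ∪ g)
    · intro g hg
      rw [mem_powerset] at hg
      rw [mem_filter, mem_powerset]
      exact ⟨union_subset hTs (hg.trans sdiff_subset), subset_union_left⟩
    · intro g hg g' hg' he
      rw [mem_powerset] at hg hg'
      have h1 : ∀ g ⊆ s \ T, (T ∪ g) \ T = g := by
        intro g hg
        rw [union_sdiff_left]
        exact sdiff_eq_self_of_disjoint (disjoint_of_subset_left hg sdiff_disjoint)
      rw [← h1 g hg, ← h1 g' hg', he]
    · intro g hg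
      rw [mem_filter, mem_powerset] at hg
      refine ⟨g \ T, ?_, ?_⟩
      · rw [mem_powerset]
        exact sdiff_subset_sdiff hg.1 (Subset.refl T)
      · exact union_sdiff_of_subset hg.2
    · intro g hg
      rw [mem_powerset] at hg
      rw [card_union_of_disjoint (disjoint_of_subset_right hg disjoint_sdiff), pow_add]
  have e5 : ∑ g ∈ (s \ T).powerset, (-1 : R) ^ g.card = 0 := by
    have h1 := Finset.sum_powerset_neg_one_pow_card (x := s \ T)
    have hne : s \ T ≠ ∅ := by
      intro h
      rw [sdiff_eq_empty_iff_subset] at h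
      have := card_le_card h
      omega
    rw [if_neg hne] at h1
    have h2 := congrArg (Int.cast : ℤ → R) h1
    push_cast at h2
    exact h2
  rw [e4, e5, mul_zero, mul_zero]

end Low

/-- binomial coefficients of a sum of monomials -/
lemma low_choose {p : ℕ} (s : Finset α) (k : ℕ) (I : Finset (Finset α)) (hI : ∀ T ∈ I, T.card ≤ k)
    (m : Finset α → ℕ) (j : ℕ) :
    Low s (k * j) (fun g => (((∑ T ∈ I, if T ⊆ g then m T else 0).choose j : ℕ) : ZMod p)) := by
  classical
  -- adding one token
  have step : ∀ (n : Finset α → ℕ), (∀ j, Low s (k * j) (fun g => ((n g).choose j : ZMod p))) →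
      ∀ T : Finset α, T.card ≤ k → ∀ j,
        Low s (k * j) (fun g => ((n g + if T ⊆ g then 1 else 0).choose j : ZMod p)) := by
    intro n hn T hT j
    rcases j with _ | j
    · refine Low.congr ?_ (Low.const (s := s) (k * 0) (1 : ZMod p))
      intro g _
      simp
    · have h1 := hn (j + 1)
      have h2 := (Low.monomial (s := s) (D := k) T hT (1 : ZMod p)).mul (hn j)
      have h3 := h1.add (h2.mono (D' := k * (j + 1)) (by ring_nf; omega))
      refine Low.congr ?_ h3
      intro g _
      try simp only []
      by_cases h : T ⊆ g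
      · rw [if_pos h, if_pos h, one_mul, Nat.choose_succ_succ' (n g) j]
        push_cast
        ring
      · rw [if_neg h, if_neg h, zero_mul, add_zero, add_zero]
  have steps : ∀ (n : Finset α → ℕ), (∀ j, Low s (k * j) (fun g => ((n g).choose j : ZMod p))) →
      ∀ T : Finset α, T.card ≤ k → ∀ (l j : ℕ),
        Low s (k * j) (fun g => ((n g + if T ⊆ g then l else 0).choose j : ZMod p)) := by
    intro n hn T hT l
    induction l with
    | zero =>
      intro j
      refine Low.congr ?_ (hn j)
      intro g _
      simp
    | succ l ih =>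
      intro j
      refine Low.congr ?_ (step (fun g => n g + if T ⊆ g then l else 0) ih T hT j)
      intro g _
      try simp only []
      congr 2
      split_ifs <;> ring
  revert j
  induction I using Finset.induction_on with
  | empty =>
    intro j
    refine Low.congr ?_ (Low.const (s := s) (k * j) (((0 : ℕ).choose j : ℕ) : ZMod p))
    intro g _
    simp
  | insert T I hT ih =>
    intro j
    have ih' := ih (fun U hU => hI U (mem_insert_of_mem hU))
    refine Low.congr ?_ (steps _ ih' T (hI T (mem_insert_self T I)) (m T) j)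
    intro g _
    try simp only []
    rw [sum_insert hT, add_comm]

/-- the alternating partial sum of binomials detects divisibility by `p ^ a` -/
lemma choose_detect {p : ℕ} (hp : p.Prime) (a n : ℕ) (h : ¬ p ^ a ∣ n) :
    ((∑ j ∈ range (p ^ a), (-1 : ℤ) ^ j * (n.choose j : ℤ) : ℤ) : ZMod p) = 0 := by
  have hn : n ≠ 0 := by
    rintro rfl
    exact h (dvd_zero _)
  obtain ⟨n', rfl⟩ := Nat.exists_eq_succ_of_ne_zero hn
  have hq : 0 < p ^ a := pow_pos hp.pos a
  obtain ⟨m, hm⟩ := Nat.exists_eq_succ_of_ne_zero hq.ne'
  rw [hm]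
  have h1' : ∑ j ∈ range (m + 1), (-1 : ℤ) ^ j * ((n' + 1).choose j : ℤ) =
      (-1) ^ m * ((n').choose m : ℤ) := Int.alternating_sum_range_choose_eq_choose
  rw [Nat.succ_eq_add_one, Nat.succ_eq_add_one, h1']
  have h2 : (n' + 1) * n'.choose m = (n' + 1).choose (m + 1) * (m + 1) := Nat.add_one_mul_choose_eq n' m
  have h3 : p ∣ n'.choose m := by
    by_contra hcon
    have hcop : Nat.Coprime (p ^ a) (n'.choose m) :=
      Nat.Coprime.pow_left a ((Nat.Prime.coprime_iff_not_dvd hp).mpr hcon)
    apply h
    have h4 : p ^ a ∣ (n' + 1) * n'.choose m := by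
      rw [h2]
      have : m + 1 = p ^ a := by rw [hm]
      rw [this]
      exact dvd_mul_left _ _
    exact hcop.dvd_of_dvd_mul_right h4
  have h4 : ((n'.choose m : ℕ) : ZMod p) = 0 := (ZMod.natCast_eq_zero_iff _ _).mpr h3
  push_cast
  rw [h4, mul_zero]

/-- Chevalley-Warning-Olson for set polynomials. -/
theorem exists_zero_prime {p : ℕ} (hp : p.Prime) {r : ℕ} (a k : Fin r → ℕ) (s : Finset α)
    (P : (i : Fin r) → Finset α → ZMod (p ^ a i)) (hdeg : ∀ i, DegLE (k i) s (P i))
    (h0 : ∀ i, P i ∅ = 0) (hs : ∑ i, k i * (p ^ a i - 1) < s.card) :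
    ∃ g ⊆ s, g.Nonempty ∧ ∀ i, P i g = 0 := by
  classical
  have : Fact p.Prime := ⟨hp⟩
  have : ∀ i, NeZero (p ^ a i) := fun i => ⟨(pow_pos hp.pos _).ne'⟩
  by_contra hcon
  push Not at hcon
  have hlow : ∀ i, ∃ n : Finset α → ℕ, (∀ g ⊆ s, ((n g : ℕ) : ZMod (p ^ a i)) = P i g) ∧
      n ∅ = 0 ∧ (∀ j, Low s (k i * j) (fun g => ((n g).choose j : ZMod p))) := by
    intro i
    obtain ⟨c, hc⟩ := low_of_degLE (k i) s (P i) (hdeg i)
    set I := s.powerset.filter (fun T => T.card ≤ k i) with hI
    refine ⟨fun g => ∑ T ∈ I, if T ⊆ g then (c T).val else 0, ?_, ?_, ?_⟩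
    · intro g hg
      rw [hc g hg]
      push_cast
      have e3 : g.powerset.filter (fun T => T.card ≤ k i) = I.filter (fun T => T ⊆ g) := by
        ext T
        simp only [hI, mem_filter, mem_powerset]
        constructor
        · rintro ⟨h1, h2⟩
          exact ⟨⟨h1.trans hg, h2⟩, h1⟩
        · rintro ⟨⟨_, h2⟩, h1⟩
          exact ⟨h1, h2⟩
      have e4 : ∑ T ∈ I.filter (fun T => T ⊆ g), c T = ∑ T ∈ I, if T ⊆ g then c T else 0 :=
        sum_filter _ _
      rw [e3, e4]
      refine sum_congr rfl (fun T _ => ?_)
      split_ifs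
      · exact ZMod.natCast_zmod_val (c T)
      · rfl
    · have hc0 : c ∅ = 0 := by
        have h1 := hc ∅ (empty_subset _)
        rw [h0 i, powerset_empty, filter_singleton, if_pos (by simp), sum_singleton] at h1
        exact h1.symm
      apply sum_eq_zero
      intro T _
      by_cases hT : T ⊆ ∅
      · rw [if_pos hT, subset_empty.mp hT, hc0, ZMod.val_zero]
      · rw [if_neg hT]
    · intro j
      exact low_choose s (k i) I (fun T hT => (mem_filter.mp hT).2) (fun T => (c T).val) j
  choose n hn hn0 hnlow using hlow
  set Gf : Finset α → ZMod p := fun g => ∏ i, ((∑ j ∈ range (p ^ a i),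
    (-1 : ℤ) ^ j * ((n i g).choose j : ℤ) : ℤ) : ZMod p) with hG
  have hGlow : Low s (∑ i, k i * (p ^ a i - 1)) Gf := by
    refine Low.prod univ (fun i => k i * (p ^ a i - 1)) _ ?_
    intro i _
    have h1 : Low s (k i * (p ^ a i - 1)) (fun g => ∑ j ∈ range (p ^ a i),
        ((-1 : ZMod p) ^ j) * ((n i g).choose j : ZMod p)) := by
      apply Low.sum
      intro j hj
      rw [mem_range] at hj
      apply Low.smul
      exact (hnlow i j).mono (Nat.mul_le_mul_left _ (by omega))
    refine Low.congr ?_ h1
    intro g _
    push_cast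
    rfl
  have hzero := hGlow.alternating hs
  have hG0 : Gf ∅ = 1 := by
    rw [hG]
    apply prod_eq_one
    intro i _
    rw [hn0 i]
    have h1 : ∑ j ∈ range (p ^ a i), (-1 : ℤ) ^ j * ((0 : ℕ).choose j : ℤ) = 1 := by
      rw [sum_eq_single 0]
      · simp
      · intro j _ hj
        rw [Nat.choose_eq_zero_of_lt (by omega)]
        simp
      · intro h
        exact absurd (mem_range.mpr (pow_pos hp.pos (a i))) h
    rw [h1]
    simp
  have hGne : ∀ g ∈ s.powerset, g ≠ ∅ → (-1 : ZMod p) ^ g.card * Gf g = 0 := by
    intro g hg hne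
    rw [mem_powerset] at hg
    obtain ⟨i, hi⟩ := hcon g hg (nonempty_iff_ne_empty.mpr hne)
    have h1 : ¬ p ^ a i ∣ n i g := by
      intro h
      apply hi
      rw [← hn i g hg]
      exact (ZMod.natCast_eq_zero_iff _ _).mpr h
    have h2 := choose_detect hp (a i) (n i g) h1
    have h3 : Gf g = 0 := by
      rw [hG]
      exact prod_eq_zero (mem_univ i) h2
    rw [h3, mul_zero]
  rw [sum_eq_single ∅ (fun g hg hne => hGne g hg hne) (by simp), hG0] at hzero
  simp at hzero

end Pool.Agent.Lib.MP_90b327_co.H38
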