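import Mathlib
import Pool.Agent.Lib.MP_90b327_co.H38Count

set_option autoImplicit false

/-! Greedy windows: few windows with `K` vertices, almost every `A` is empty on one of them. -/

namespace Pool.Agent.Lib.MP_90b327_co.H38

open Finset

section abstract

variable {C : Type} [Fintype C] [DecidableEq C]

lemma card_cond {ι : Type} [DecidableEq ι] (D : ι → Finset C) (I : Finset ι) (R B : Finset C)
    (hR : ∀ i ∈ I, Disjoint (D i) R) :
    2 ^ R.card * (univ.filter (fun A : Finset C => A ∩ R = B ∧ ∀ i ∈ I, ¬ Disjoint A (D i))).card ≤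
      (univ.filter (fun A : Finset C => ∀ i ∈ I, ¬ Disjoint A (D i))).card := by
  classical
  rw [← card_powerset, ← card_product]
  refine card_le_card_of_injOn (fun x => (x.2 \ R) ∪ x.1) ?_ ?_
  · rintro ⟨B', A⟩ hx
    rw [mem_coe, mem_product, mem_powerset, mem_filter] at hx
    obtain ⟨hB', _, hA, hm⟩ := hx
    rw [mem_coe, mem_filter]
    refine ⟨mem_univ _, fun i hi => ?_⟩
    obtain ⟨c, hc1, hc2⟩ := not_disjoint_iff.mp (hm i hi)
    rw [not_disjoint_iff]
    refine ⟨c, ?_, hc2⟩
    rw [mem_union, mem_sdiff]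
    exact Or.inl ⟨hc1, fun h => disjoint_left.mp (hR i hi) hc2 h⟩
  · rintro ⟨B', A⟩ hx ⟨B'', A'⟩ hx' h
    rw [mem_coe, mem_product, mem_powerset, mem_filter] at hx hx'
    obtain ⟨hB', _, hA, hm⟩ := hx
    obtain ⟨hB'', _, hA', hm'⟩ := hx'
    dsimp only at h hB' hB'' hA hA'
    have e1 : B' = B'' := by
      have h1 := congrArg (fun Z => Z ∩ R) h
      try simp only [] at h1
      rw [union_inter_distrib_right, union_inter_distrib_right, inter_eq_left.mpr hB',
        inter_eq_left.mpr hB'', disjoint_iff_inter_eq_empty.mp sdiff_disjoint,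
        disjoint_iff_inter_eq_empty.mp sdiff_disjoint, empty_union, empty_union] at h1
      exact h1
    have e2 : A \ R = A' \ R := by
      have h1 := congrArg (fun Z => Z \ R) h
      try simp only [] at h1
      rw [union_sdiff_distrib, union_sdiff_distrib, sdiff_eq_empty_iff_subset.mpr hB',
        sdiff_eq_empty_iff_subset.mpr hB'', union_empty, union_empty, Finset.sdiff_idem, Finset.sdiff_idem] at h1
      exact h1
    have e3 : A = A' := by
      rw [← sdiff_union_inter A R, ← sdiff_union_inter A' R, e2, hA, hA']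
    rw [e1, e3]

end abstract

section windows

variable {d N : ℕ}

/-- the `j`-th group of vertices -/
def grp (N G j : ℕ) : Finset (Fin N) := univ.filter (fun x => j * G ≤ x.1 ∧ x.1 < (j + 1) * G)

lemma card_grp {G j : ℕ} (h : (j + 1) * G ≤ N) : (grp N G j).card = G := by
  have : (grp N G j).card = (Ico (j * G) ((j + 1) * G)).card := by
    apply card_bij (fun x _ => x.1)
    · intro x hx
      rw [grp, mem_filter] at hx
      rw [mem_Ico]; exact hx.2
    · intro x _ y _ h
      exact Fin.ext h
    · intro y hy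
      rw [mem_Ico] at hy
      refine ⟨⟨y, by omega⟩, ?_, rfl⟩
      rw [grp, mem_filter]
      exact ⟨mem_univ _, hy⟩
  rw [this, Nat.card_Ico, add_mul, one_mul]
  omega

/-- windows with one vertex in each of the first `j` groups -/
def wins (N G : ℕ) : ℕ → Finset (Finset (Fin N))
  | 0 => {∅}
  | j + 1 => (wins N G j ×ˢ grp N G j).image (fun x => insert x.2 x.1)

lemma card_wins (N G j : ℕ) (h : j * G ≤ N) : (wins N G j).card ≤ G ^ j := by
  induction j with
  | zero => simp [wins]
  | succ j ih =>
    rw [wins]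
    refine card_image_le.trans ?_
    have h1 : j * G ≤ N := le_trans (Nat.mul_le_mul_right _ (Nat.le_succ j)) h
    rw [card_product, card_grp h, pow_succ]
    exact Nat.mul_le_mul_right _ (ih h1)

lemma lt_of_mem_wins {G : ℕ} : ∀ {j : ℕ} {X : Finset (Fin N)}, X ∈ wins N G j → ∀ x ∈ X, x.1 < j * G
  | 0, X, hX, x, hx => by
      rw [wins, mem_singleton] at hX
      subst hX
      exact absurd hx (notMem_empty _)
  | j + 1, X, hX, x, hx => by
      rw [wins, mem_image] at hX
      obtain ⟨⟨Y, y⟩, hY, rfl⟩ := hX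
      rw [mem_product] at hY
      dsimp only at hY hx
      rw [mem_insert] at hx
      rcases hx with rfl | hx
      · have := hY.2
        rw [grp, mem_filter] at this
        exact this.2.2
      · have := lt_of_mem_wins hY.1 x hx
        have h2 : j * G ≤ (j + 1) * G := Nat.mul_le_mul_right _ (Nat.le_succ j)
        omega

lemma card_of_mem_wins {G : ℕ} : ∀ {j : ℕ} {X : Finset (Fin N)}, X ∈ wins N G j → X.card = j
  | 0, X, hX => by
      rw [wins, mem_singleton] at hX
      subst hX
      rfl
  | j + 1, X, hX => by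
      rw [wins, mem_image] at hX
      obtain ⟨⟨Y, y⟩, hY, rfl⟩ := hX
      rw [mem_product] at hY
      dsimp only at hY ⊢
      have h1 : y ∉ Y := by
        intro h
        have h2 := lt_of_mem_wins hY.1 y h
        have h3 := hY.2
        rw [grp, mem_filter] at h3
        omega
      rw [card_insert_of_notMem h1, card_of_mem_wins hY.1]

lemma card_new {X : Finset (Fin N)} {x : Fin N} {K : ℕ} (hx : x ∉ X) (hX : X.card + 1 ≤ K) :
    (cube d (insert x X) \ cube d X).card ≤ d * K ^ (d - 1) := by
  -- every new cell has a coordinate equal to `x`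
  have h1 : cube d (insert x X) \ cube d X ⊆ (univ : Finset (Fin d)).biUnion (fun i =>
      (cube d (insert x X)).filter (fun c => c i = x)) := by
    intro c hc
    rw [mem_sdiff, mem_cube, mem_cube] at hc
    obtain ⟨hc1, hc2⟩ := hc
    push Not at hc2
    obtain ⟨i, hi⟩ := hc2
    rw [mem_biUnion]
    refine ⟨i, mem_univ _, ?_⟩
    rw [mem_filter, mem_cube]
    refine ⟨hc1, ?_⟩
    have := hc1 i
    rw [mem_insert] at this
    rcases this with h | h
    · exact h
    · exact absurd h hi
  have h2 : ∀ i : Fin d, ((cube d (insert x X)).filter (fun c => c i = x)).card ≤ K ^ (d - 1) := by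
    intro i
    have h3 : (cube d (insert x X)).filter (fun c => c i = x) =
        Fintype.piFinset (fun j : Fin d => if j = i then {x} else insert x X) := by
      ext c
      rw [mem_filter, mem_cube, Fintype.mem_piFinset]
      constructor
      · rintro ⟨h4, h5⟩ j
        by_cases hj : j = i
        · rw [if_pos hj, mem_singleton, hj, h5]
        · rw [if_neg hj]; exact h4 j
      · intro h4
        have h5 := h4 i
        rw [if_pos rfl, mem_singleton] at h5
        refine ⟨fun j => ?_, h5⟩
        by_cases hj : j = i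
        · rw [hj, h5]; exact mem_insert_self _ _
        · have := h4 j
          rw [if_neg hj] at this
          exact this
    rw [h3, Fintype.card_piFinset]
    have h4 : ∀ j : Fin d, (if j = i then ({x} : Finset (Fin N)) else insert x X).card =
        if j = i then 1 else (insert x X).card := by
      intro j
      split_ifs <;> simp
    rw [prod_congr rfl (fun j _ => h4 j), prod_ite, prod_const_one, one_mul, prod_const]
    have h5 : (univ.filter (fun j : Fin d => ¬ j = i)).card = d - 1 := by
      rw [filter_ne' univ i, card_erase_of_mem (mem_univ _), card_univ, Fintype.card_fin]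
    rw [h5]
    apply Nat.pow_le_pow_left
    rw [card_insert_of_notMem hx]
    exact hX
  calc _ ≤ _ := card_le_card h1
    _ ≤ ∑ i : Fin d, ((cube d (insert x X)).filter (fun c => c i = x)).card := card_biUnion_le
    _ ≤ ∑ i : Fin d, K ^ (d - 1) := sum_le_sum (fun i _ => h2 i)
    _ = _ := by rw [sum_const, card_univ, Fintype.card_fin, smul_eq_mul]

lemma step_wins (hd : 1 ≤ d) {K G D j : ℕ} (hj : j + 1 ≤ K) (hG : (j + 1) * G ≤ N)
    (hD : d * K ^ (d - 1) ≤ D) :
    ((univ.filter (fun A : Finset (Fin d → Fin N) => (∃ X ∈ wins N G j, Disjoint A (cube d X)) ∧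
      ∀ X ∈ wins N G (j + 1), ¬ Disjoint A (cube d X))).card : ℝ) ≤
        (1 - 1 / 2 ^ D) ^ G * 2 ^ (N ^ d) := by
  classical
  set R : Finset (Fin d → Fin N) := cube d (univ.filter (fun x : Fin N => x.1 < j * G)) with hR
  set Fc : Finset (Fin d → Fin N) → Finset (Fin N) := fun B =>
    if h : ∃ X ∈ wins N G j, Disjoint B (cube d X) then h.choose else ∅ with hFc
  have hsubR : ∀ X ∈ wins N G j, cube d X ⊆ R := by
    intro X hX
    apply cube_mono
    intro x hx
    rw [mem_filter]
    exact ⟨mem_univ _, lt_of_mem_wins hX x hx⟩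
  set Cx : Finset (Fin N) → Fin N → Finset (Fin d → Fin N) := fun X x =>
    cube d (insert x X) \ cube d X with hCx
  have hsub : univ.filter (fun A : Finset (Fin d → Fin N) =>
      (∃ X ∈ wins N G j, Disjoint A (cube d X)) ∧
        ∀ X ∈ wins N G (j + 1), ¬ Disjoint A (cube d X)) ⊆
      (R.powerset.filter (fun B => Fc B ∈ wins N G j)).biUnion (fun B =>
        univ.filter (fun A => A ∩ R = B ∧ ∀ x ∈ grp N G j, ¬ Disjoint A (Cx (Fc B) x))) := by
    intro A hA
    rw [mem_filter] at hA
    obtain ⟨_, ⟨X, hX, hXA⟩, hA2⟩ := hA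
    have hex : ∃ X ∈ wins N G j, Disjoint (A ∩ R) (cube d X) :=
      ⟨X, hX, disjoint_of_subset_left inter_subset_left hXA⟩
    have hF1 : Fc (A ∩ R) = hex.choose := by
      simp only [hFc]
      rw [dif_pos hex]
    have hF2 := hex.choose_spec
    rw [← hF1] at hF2
    have hAF : Disjoint A (cube d (Fc (A ∩ R))) := by
      rw [disjoint_left]
      intro c hc hc'
      exact disjoint_left.mp hF2.2 (mem_inter.mpr ⟨hc, hsubR _ hF2.1 hc'⟩) hc'
    rw [mem_biUnion]
    refine ⟨A ∩ R, mem_filter.mpr ⟨mem_powerset.mpr inter_subset_right, hF2.1⟩, ?_⟩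
    rw [mem_filter]
    refine ⟨mem_univ _, rfl, ?_⟩
    intro x hx hdis
    apply hA2 (insert x (Fc (A ∩ R)))
    · rw [wins, mem_image]
      exact ⟨(Fc (A ∩ R), x), mem_product.mpr ⟨hF2.1, hx⟩, rfl⟩
    · rw [disjoint_left]
      intro c hc hc'
      by_cases hcF : c ∈ cube d (Fc (A ∩ R))
      · exact disjoint_left.mp hAF hc hcF
      · exact disjoint_left.mp hdis hc (mem_sdiff.mpr ⟨hc', hcF⟩)
  have hcell : Fintype.card (Fin d → Fin N) = N ^ d := by simp
  have hbound : ∀ B ∈ R.powerset.filter (fun B => Fc B ∈ wins N G j),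
      (2 : ℝ) ^ R.card * ((univ.filter (fun A : Finset (Fin d → Fin N) => A ∩ R = B ∧
        ∀ x ∈ grp N G j, ¬ Disjoint A (Cx (Fc B) x))).card : ℝ) ≤
        (1 - 1 / 2 ^ D) ^ G * 2 ^ (N ^ d) := by
    intro B hB
    rw [mem_filter] at hB
    have hXw := hB.2
    have hlt : ∀ x ∈ grp N G j, x ∉ Fc B := by
      intro x hx hxF
      have h2 := lt_of_mem_wins hXw x hxF
      rw [grp, mem_filter] at hx
      omega
    have hdR : ∀ x ∈ grp N G j, Disjoint (Cx (Fc B) x) R := by
      intro x hx
      rw [disjoint_left]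
      intro c hc hcR
      have hc1 := mem_sdiff.mp hc
      rw [mem_cube, mem_cube] at hc1
      obtain ⟨hc1, hc2⟩ := hc1
      push Not at hc2
      obtain ⟨i, hi⟩ := hc2
      have h3 := hc1 i
      rw [mem_insert] at h3
      rcases h3 with h3 | h3
      · rw [hR, mem_cube] at hcR
        have h4 := hcR i
        rw [mem_filter, h3] at h4
        rw [grp, mem_filter] at hx
        omega
      · exact hi h3
    have h1 := card_cond (Cx (Fc B)) (grp N G j) R B hdR
    have h2 := card_meet D (Cx (Fc B)) (grp N G j) (fun x hx => by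
      refine (card_new (hlt x hx) (K := K) ?_).trans hD
      rw [card_of_mem_wins hXw]; exact hj) (by
      intro x hx y hy hxy
      rw [disjoint_left]
      intro c hc hc'
      have hc1 := mem_sdiff.mp hc
      have hc2 := mem_sdiff.mp hc'
      rw [mem_cube, mem_cube] at hc1 hc2
      have h3 := hc1.2
      push Not at h3
      obtain ⟨i, hi⟩ := h3
      have h4 := hc1.1 i
      have h5 := hc2.1 i
      rw [mem_insert] at h4 h5
      rcases h4 with h4 | h4
      · rcases h5 with h5 | h5
        · exact hxy (h4.symm.trans h5)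
        · exact hi h5
      · exact hi h4)
    rw [hcell, card_grp hG] at h2
    have h3 : ((2 ^ R.card * (univ.filter (fun A : Finset (Fin d → Fin N) => A ∩ R = B ∧
        ∀ x ∈ grp N G j, ¬ Disjoint A (Cx (Fc B) x))).card : ℕ) : ℝ) ≤
        ((univ.filter (fun A : Finset (Fin d → Fin N) =>
          ∀ x ∈ grp N G j, ¬ Disjoint A (Cx (Fc B) x))).card : ℝ) := by
      rw [Nat.cast_le]
      convert h1
    push_cast at h3
    refine h3.trans (le_trans (le_of_eq ?_) h2)
    congr!
  have hp : (0 : ℝ) < 2 ^ R.card := by positivity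
  have h6 : (0 : ℝ) ≤ (1 - 1 / 2 ^ D) ^ G * 2 ^ (N ^ d) := by
    apply mul_nonneg _ (by positivity)
    apply pow_nonneg
    rw [sub_nonneg, div_le_one (by positivity)]
    exact one_le_pow₀ (by norm_num)
  have h7 : ((univ.filter (fun A : Finset (Fin d → Fin N) =>
      (∃ X ∈ wins N G j, Disjoint A (cube d X)) ∧
        ∀ X ∈ wins N G (j + 1), ¬ Disjoint A (cube d X))).card : ℝ) ≤
      ∑ B ∈ R.powerset.filter (fun B => Fc B ∈ wins N G j),
        ((univ.filter (fun A : Finset (Fin d → Fin N) => A ∩ R = B ∧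
          ∀ x ∈ grp N G j, ¬ Disjoint A (Cx (Fc B) x))).card : ℝ) := by
    have := (card_le_card hsub).trans card_biUnion_le
    exact_mod_cast this
  refine h7.trans ?_
  have h8 : ∑ B ∈ R.powerset.filter (fun B => Fc B ∈ wins N G j),
        ((univ.filter (fun A : Finset (Fin d → Fin N) => A ∩ R = B ∧
          ∀ x ∈ grp N G j, ¬ Disjoint A (Cx (Fc B) x))).card : ℝ) ≤
      ∑ B ∈ R.powerset.filter (fun B => Fc B ∈ wins N G j),
        ((1 - 1 / 2 ^ D) ^ G * 2 ^ (N ^ d)) / 2 ^ R.card := by
    apply sum_le_sum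
    intro B hB
    rw [le_div_iff₀ hp]
    linarith [hbound B hB]
  refine h8.trans ?_
  rw [sum_const, nsmul_eq_mul]
  have h9 : ((R.powerset.filter (fun B => Fc B ∈ wins N G j)).card : ℝ) ≤ 2 ^ R.card := by
    have := card_filter_le R.powerset (fun B => Fc B ∈ wins N G j)
    rw [card_powerset] at this
    exact_mod_cast this
  have h10 : (0 : ℝ) ≤ (1 - 1 / 2 ^ D) ^ G * 2 ^ (N ^ d) / 2 ^ R.card := div_nonneg h6 hp.le
  refine (mul_le_mul_of_nonneg_right h9 h10).trans (le_of_eq ?_)
  exact mul_div_cancel₀ _ hp.ne'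

/-- almost every `A` is empty on one of the windows -/
theorem card_no_window (hd : 1 ≤ d) {K G D : ℕ} (hD : d * K ^ (d - 1) ≤ D) :
    ∀ j : ℕ, j ≤ K → j * G ≤ N →
    ((univ.filter (fun A : Finset (Fin d → Fin N) =>
      ∀ X ∈ wins N G j, ¬ Disjoint A (cube d X))).card : ℝ) ≤
        j * ((1 - 1 / 2 ^ D) ^ G * 2 ^ (N ^ d)) := by
  classical
  intro j
  induction j with
  | zero =>
    intro _ _
    have : univ.filter (fun A : Finset (Fin d → Fin N) =>
      ∀ X ∈ wins N G 0, ¬ Disjoint A (cube d X)) = ∅ := by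
      rw [filter_eq_empty_iff]
      intro A _ h
      apply h ∅ (by simp [wins])
      rw [cube_empty hd]
      exact disjoint_empty_right A
    rw [this]
    simp
  | succ j ih =>
    intro hjK hjN
    have h1 : j * G ≤ N := le_trans (Nat.mul_le_mul_right _ (Nat.le_succ j)) hjN
    have h2 := ih (by omega) h1
    have h3 := step_wins (N := N) hd hjK hjN hD
    have h4 : univ.filter (fun A : Finset (Fin d → Fin N) =>
        ∀ X ∈ wins N G (j + 1), ¬ Disjoint A (cube d X)) ⊆
        univ.filter (fun A : Finset (Fin d → Fin N) =>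
          ∀ X ∈ wins N G j, ¬ Disjoint A (cube d X)) ∪
        univ.filter (fun A : Finset (Fin d → Fin N) =>
          (∃ X ∈ wins N G j, Disjoint A (cube d X)) ∧
            ∀ X ∈ wins N G (j + 1), ¬ Disjoint A (cube d X)) := by
      intro A hA
      rw [mem_filter] at hA
      rw [mem_union, mem_filter, mem_filter]
      by_cases h : ∃ X ∈ wins N G j, Disjoint A (cube d X)
      · exact Or.inr ⟨mem_univ _, h, hA.2⟩
      · push Not at h
        exact Or.inl ⟨mem_univ _, h⟩
    have h5 := (card_le_card h4).trans (card_union_le _ _)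
    have h6 : ((univ.filter (fun A : Finset (Fin d → Fin N) =>
        ∀ X ∈ wins N G (j + 1), ¬ Disjoint A (cube d X))).card : ℝ) ≤
        ((univ.filter (fun A : Finset (Fin d → Fin N) =>
          ∀ X ∈ wins N G j, ¬ Disjoint A (cube d X))).card : ℝ) +
        ((univ.filter (fun A : Finset (Fin d → Fin N) =>
          (∃ X ∈ wins N G j, Disjoint A (cube d X)) ∧
            ∀ X ∈ wins N G (j + 1), ¬ Disjoint A (cube d X))).card : ℝ) := by
      exact_mod_cast h5
    push_cast
    linarith

end windows

end Pool.Agent.Lib.MP_90b327_co.H38
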