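import Mathlib
import Pool.Agent.Lib.MP_90b327_co.SF1
import Pool.Agent.Lib.MP_90b327_co.SF2

set_option autoImplicit false

/-! Families close to unions of level sets of local functions into `p`-groups are good. -/

namespace Pool.Agent.Lib.MP_90b327_co.H38

open Finset

variable {d N : ℕ}

/-- counting step -/
lemma good_of_wins (hd : 1 ≤ d) {p : ℕ} (hp : p.Prime) {r : ℕ} (a k : Fin r → ℕ)
    (F : (i : Fin r) → Finset (Fin d → Fin N) → ZMod (p ^ a i)) (hF : ∀ i, IsLocal (k i) (F i))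
    (K G D : ℕ) (hK : ∑ i, k i * (p ^ a i - 1) < K) (hKG : K * G ≤ N) (hD : d * K ^ (d - 1) ≤ D)
    (T : Finset (Finset (Fin d → Fin N)))
    (hT : ∀ A B, (∀ i, F i A = F i B) → (A ∈ T ↔ B ∈ T))
    (S : Finset (Finset (Fin d → Fin N)))
    (hS : (K : ℝ) * ((1 - 1 / 2 ^ D) ^ G * 2 ^ (N ^ d)) +
      (2 * G : ℝ) ^ K * ((symmDiff S T).card : ℝ) < S.card) : Good d N S := by
  classical
  set Z := symmDiff S T with hZ
  set B1 := univ.filter (fun A : Finset (Fin d → Fin N) =>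
    ∀ X ∈ wins N G K, ¬ Disjoint A (cube d X)) with hB1
  set B2 := (wins N G K).biUnion (fun X => X.powerset.biUnion (fun g =>
    univ.filter (fun A : Finset (Fin d → Fin N) => Disjoint A (cube d g) ∧ A ∪ cube d g ∈ Z)))
    with hB2
  have h1 : (B1.card : ℝ) ≤ K * ((1 - 1 / 2 ^ D) ^ G * 2 ^ (N ^ d)) := by
    have := card_no_window (N := N) hd (G := G) hD K le_rfl hKG
    convert this
  have h2 : (B2.card : ℝ) ≤ (2 * G : ℝ) ^ K * (Z.card : ℝ) := by
    have hnat : B2.card ≤ (wins N G K).card * (2 ^ K * Z.card) := by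
      refine card_biUnion_le_card_mul _ _ _ ?_
      intro X hX
      refine (card_biUnion_le_card_mul _ _ Z.card ?_).trans ?_
      · intro g _
        refine card_le_card_of_injOn (fun A => A ∪ cube d g) ?_ ?_
        · intro A hA
          rw [mem_coe, mem_filter] at hA
          exact hA.2.2
        · intro A hA A' hA' h
          rw [mem_coe, mem_filter] at hA hA'
          have e1 : A = (A ∪ cube d g) \ cube d g := by
            rw [union_sdiff_right, sdiff_eq_self_of_disjoint hA.2.1]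
          have e2 : A' = (A' ∪ cube d g) \ cube d g := by
            rw [union_sdiff_right, sdiff_eq_self_of_disjoint hA'.2.1]
          simp only at h
          rw [e1, e2, h]
      · rw [card_powerset, card_of_mem_wins hX]
    have h3 : (wins N G K).card * (2 ^ K * Z.card) ≤ G ^ K * (2 ^ K * Z.card) :=
      Nat.mul_le_mul_right _ (card_wins N G K hKG)
    have h4 : (B2.card : ℝ) ≤ ((G ^ K * (2 ^ K * Z.card) : ℕ) : ℝ) := by
      exact_mod_cast hnat.trans h3
    refine h4.trans (le_of_eq ?_)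
    push_cast
    rw [mul_pow]
    ring
  have hex : ∃ A ∈ S, A ∉ B1 ∪ B2 := by
    by_contra hcon
    push Not at hcon
    have h5 : S.card ≤ (B1 ∪ B2).card := card_le_card hcon
    have h6 : (B1 ∪ B2).card ≤ B1.card + B2.card := card_union_le _ _
    have h7 : (S.card : ℝ) ≤ (B1.card : ℝ) + B2.card := by
      exact_mod_cast h5.trans h6
    linarith
  obtain ⟨A, hAS, hAB⟩ := hex
  rw [mem_union, not_or] at hAB
  obtain ⟨hA1, hA2⟩ := hAB
  rw [hB1, mem_filter] at hA1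
  push Not at hA1
  obtain ⟨X, hX, hXA⟩ := hA1 (mem_univ A)
  have hA2' : ∀ g ⊆ X, A ∪ cube d g ∉ Z := by
    intro g hg hmem
    apply hA2
    rw [hB2, mem_biUnion]
    refine ⟨X, hX, mem_biUnion.mpr ⟨g, mem_powerset.mpr hg, mem_filter.mpr
      ⟨mem_univ _, ?_, hmem⟩⟩⟩
    exact hXA.mono_right (cube_mono hg)
  have hAT : A ∈ T := by
    have h8 := hA2' ∅ (empty_subset _)
    rw [cube_empty hd, union_empty, hZ, mem_symmDiff] at h8
    by_contra h9
    exact h8 (Or.inl ⟨hAS, h9⟩)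
  obtain ⟨g, hg, hgne, hgz⟩ := exists_zero_prime hp a k X
    (fun i g => F i (A ∪ cube d g) - F i A)
    (fun i => local_degLE (hF i) A X) (fun i => by simp [cube_empty hd])
    (by rw [card_of_mem_wins hX]; exact hK)
  refine ⟨A, hAS, g, hgne, hXA.mono_right (cube_mono hg), ?_⟩
  show A ∪ cube d g ∈ S
  have hFA : ∀ i, F i A = F i (A ∪ cube d g) := fun i => (sub_eq_zero.mp (hgz i)).symm
  have h9 := hA2' g hg
  rw [hZ, mem_symmDiff] at h9
  by_contra h10
  exact h9 (Or.inr ⟨(hT _ _ hFA).mp hAT, h10⟩)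

/-- numerical facts about the choice of the group size -/
lemma choice_of_G {K D N : ℕ} (hK : 1 ≤ K) (hKD : 2 * K ≤ D) (hN : 2 ^ (8 * D) ≤ N) {l : ℝ}
    (hl0 : 0 ≤ l) (hl : l ≤ √(N : ℝ)) : ∃ G : ℕ, K * G ≤ N ∧
      4 * (G : ℝ) ≤ 2 ^ (4 * D) * (1 + l) ∧
      (K : ℝ) * (1 - 1 / 2 ^ D) ^ G ≤ Real.exp (-l) / 4 := by
  set u : ℝ := 2 ^ D with hu
  have hu16 : (4 : ℝ) ≤ u := by
    have h1 : (2 : ℝ) ^ 2 ≤ 2 ^ D := pow_le_pow_right₀ (by norm_num) (by omega)
    rw [hu]; linarith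
  have hKu : (K : ℝ) ≤ u := by
    have h1 : K < 2 ^ K := Nat.lt_two_pow_self
    have h2 : 2 ^ K ≤ 2 ^ D := Nat.pow_le_pow_right (by norm_num) (by omega)
    have h3 : K ≤ 2 ^ D := by omega
    rw [hu]; exact_mod_cast h3
  have hK1 : (1 : ℝ) ≤ K := by exact_mod_cast hK
  have hlogK : Real.log K ≤ K - 1 := Real.log_le_sub_one_of_pos (by linarith)
  have hlogK0 : 0 ≤ Real.log K := Real.log_nonneg hK1
  set w : ℝ := u * (l + Real.log K + 2) with hw
  have hw0 : 0 ≤ w := by positivity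
  refine ⟨⌈w⌉₊, ?_, ?_, ?_⟩
  · have h1 : (⌈w⌉₊ : ℝ) < w + 1 := Nat.ceil_lt_add_one hw0
    have hN8 : u ^ 8 ≤ (N : ℝ) := by
      rw [hu, ← pow_mul, mul_comm D 8]
      exact_mod_cast hN
    have hsq : u ^ 4 ≤ √(N : ℝ) := by
      apply Real.le_sqrt_of_sq_le
      rw [← pow_mul]; exact hN8
    have hsqN : √(N : ℝ) * √(N : ℝ) = N := Real.mul_self_sqrt (Nat.cast_nonneg N)
    have h2 : (K : ℝ) * ⌈w⌉₊ ≤ N := by
      have h3 : (K : ℝ) * ⌈w⌉₊ ≤ u * (u * (√(N : ℝ) + u + 1) + 1) := by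
        have h4 : w ≤ u * (√(N : ℝ) + u + 1) := by
          rw [hw]
          apply mul_le_mul_of_nonneg_left _ (by linarith)
          linarith
        have h5 : (⌈w⌉₊ : ℝ) ≤ u * (√(N : ℝ) + u + 1) + 1 := by linarith
        exact mul_le_mul hKu h5 (by positivity) (by linarith)
      have h6 : u * (u * (√(N : ℝ) + u + 1) + 1) ≤ N := by
        have h7 : (4 : ℝ) ^ 2 ≤ u ^ 2 := pow_le_pow_left₀ (by norm_num) hu16 2
        have h8 : u ^ 2 ≤ u ^ 3 := pow_le_pow_right₀ (by linarith) (by norm_num)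
        have h9 : u ^ 3 ≤ u ^ 4 := pow_le_pow_right₀ (by linarith) (by norm_num)
        have h10 : u ≤ u ^ 2 := by nlinarith
        have hs0 : 0 ≤ √(N : ℝ) := Real.sqrt_nonneg _
        have h11 : u ^ 4 * √(N : ℝ) ≤ N := by
          calc u ^ 4 * √(N : ℝ) ≤ √(N : ℝ) * √(N : ℝ) := mul_le_mul_of_nonneg_right hsq hs0
            _ = N := hsqN
        have h12 : u ^ 2 * √(N : ℝ) * 16 ≤ u ^ 4 * √(N : ℝ) := by
          have : u ^ 4 = u ^ 2 * u ^ 2 := by ring
          rw [this]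
          nlinarith [mul_nonneg (by positivity : (0:ℝ) ≤ u ^ 2) hs0]
        have h13 : u ^ 2 ≤ u ^ 2 * √(N : ℝ) := by
          have : 1 ≤ √(N : ℝ) := by
            have : (1 : ℝ) ≤ u ^ 4 := one_le_pow₀ (by linarith)
            linarith
          nlinarith [sq_nonneg u]
        have h14 : u ^ 3 ≤ u ^ 2 * √(N : ℝ) := by
          have h15 : u ^ 3 = u ^ 2 * u := by ring
          rw [h15]
          apply mul_le_mul_of_nonneg_left _ (sq_nonneg u)
          have : u ≤ u ^ 4 := le_trans h10 (le_trans h8 h9)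
          linarith
        have h16 : u * (u * (√(N : ℝ) + u + 1) + 1) = u ^ 2 * √(N : ℝ) + u ^ 3 + u ^ 2 + u := by
          ring
        rw [h16]
        linarith
      exact h3.trans h6
    exact_mod_cast h2
  · have h1 : (⌈w⌉₊ : ℝ) < w + 1 := Nat.ceil_lt_add_one hw0
    have h2 : (2 : ℝ) ^ (4 * D) = u * u ^ 3 := by
      rw [hu, ← pow_succ', ← pow_mul, mul_comm 4 D]
    have h3 : 4 * ((K : ℝ) + 2) ≤ u ^ 3 := by
      nlinarith [mul_le_mul hu16 hu16 (by norm_num) (by linarith : (0:ℝ) ≤ u)]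
    have h4 : w + 1 ≤ u * ((1 + l) * (K + 2)) := by
      rw [hw]
      have h5 : l + Real.log K + 2 + 1 ≤ (1 + l) * (K + 2) := by
        nlinarith
      have h6 : u * (l + Real.log K + 2) + 1 ≤ u * (l + Real.log K + 2 + 1) := by
        have : u * (l + Real.log K + 2 + 1) = u * (l + Real.log K + 2) + u := by ring
        rw [this]; linarith
      exact h6.trans (mul_le_mul_of_nonneg_left h5 (by linarith))
    rw [h2]
    have h7 : 4 * (u * ((1 + l) * (K + 2))) ≤ u * u ^ 3 * (1 + l) := by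
      have h8 : 4 * (u * ((1 + l) * ((K : ℝ) + 2))) = u * (4 * ((K : ℝ) + 2)) * (1 + l) := by ring
      rw [h8]
      apply mul_le_mul_of_nonneg_right _ (by linarith)
      exact mul_le_mul_of_nonneg_left h3 (by linarith)
    linarith
  · have hpos : 0 < u := by linarith
    have h1 : w ≤ ⌈w⌉₊ := Nat.le_ceil w
    have h2 : (1 - 1 / u) ≤ Real.exp (-(1 / u)) := by
      have := Real.add_one_le_exp (-(1 / u))
      linarith
    have h3 : (0 : ℝ) ≤ 1 - 1 / u := by
      rw [sub_nonneg, div_le_one hpos]; linarith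
    have h4 : (1 - 1 / u) ^ ⌈w⌉₊ ≤ Real.exp (-(l + Real.log K + 2)) := by
      calc (1 - 1 / u) ^ ⌈w⌉₊ ≤ Real.exp (-(1 / u)) ^ ⌈w⌉₊ := pow_le_pow_left₀ h3 h2 _
        _ = Real.exp (⌈w⌉₊ * (-(1 / u))) := by rw [← Real.exp_nat_mul]
        _ ≤ Real.exp (-(l + Real.log K + 2)) := by
            apply Real.exp_le_exp.mpr
            have h5 : (l + Real.log K + 2) ≤ ⌈w⌉₊ * (1 / u) := by
              rw [mul_one_div, le_div_iff₀ hpos]
              rw [hw] at h1
              linarith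
            linarith
    have h5 : (K : ℝ) * Real.exp (-(l + Real.log K + 2)) = Real.exp (-l) * Real.exp (-2) := by
      have h6 : (K : ℝ) = Real.exp (Real.log K) := (Real.exp_log (by linarith)).symm
      nth_rewrite 1 [h6]
      rw [← Real.exp_add, ← Real.exp_add]
      congr 1
      ring
    have h6 : Real.exp (-2) ≤ 1 / 4 := by
      rw [Real.exp_neg, inv_eq_one_div]
      apply one_div_le_one_div_of_le (by norm_num)
      have h7 : (2 : ℝ) ≤ Real.exp 1 := by
        have := Real.add_one_le_exp (1 : ℝ)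
        linarith
      have h8 : Real.exp 2 = Real.exp 1 * Real.exp 1 := by
        rw [← Real.exp_add]; norm_num
      rw [h8]
      nlinarith
    calc (K : ℝ) * (1 - 1 / u) ^ ⌈w⌉₊ ≤ K * Real.exp (-(l + Real.log K + 2)) :=
          mul_le_mul_of_nonneg_left h4 (by linarith)
      _ = Real.exp (-l) * Real.exp (-2) := h5
      _ ≤ Real.exp (-l) * (1 / 4) := mul_le_mul_of_nonneg_left h6 (Real.exp_pos _).le
      _ = _ := by ring

/-- Part (a). -/
theorem part_a (hd : 2 ≤ d) {p : ℕ} (hp : p.Prime) {r : ℕ} (a k : Fin r → ℕ)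
    (F : (i : Fin r) → Finset (Fin d → Fin N) → ZMod (p ^ a i)) (hF : ∀ i, IsLocal (k i) (F i))
    (K : ℕ) (hK : ∑ i, k i * (p ^ a i - 1) < K) (hN : 2 ^ (8 * d * K ^ (d - 1)) ≤ N)
    (T : Finset (Finset (Fin d → Fin N)))
    (hT : ∀ A B, (∀ i, F i A = F i B) → (A ∈ T ↔ B ∈ T))
    (S : Finset (Finset (Fin d → Fin N))) (δ : ℝ) (hδ : Real.exp (-√(N : ℝ)) ≤ δ)
    (hS : δ * 2 ^ (N ^ d) ≤ S.card)
    (hclose : ((symmDiff S T).card : ℝ) *
      (2 ^ (4 * d * K ^ (d - 1)) * (1 + Real.log (1 / δ))) ^ K ≤ S.card) : Good d N S := by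
  have hδ0 : 0 < δ := lt_of_lt_of_le (Real.exp_pos _) hδ
  have hK1 : 1 ≤ K := by omega
  have hpw : (0 : ℝ) < 2 ^ (N ^ d) := by positivity
  have hScard : (S.card : ℝ) ≤ 2 ^ (N ^ d) := by
    have h1 : S.card ≤ Fintype.card (Finset (Fin d → Fin N)) := card_le_univ S
    rw [Fintype.card_finset] at h1
    have h2 : Fintype.card (Fin d → Fin N) = N ^ d := by simp
    rw [h2] at h1
    exact_mod_cast h1
  have hδ1 : δ ≤ 1 := by
    have := hS.trans hScard
    by_contra hcon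
    push Not at hcon
    nlinarith
  set l := Real.log (1 / δ) with hl
  have hl0 : 0 ≤ l := Real.log_nonneg (by rw [le_div_iff₀ hδ0]; linarith)
  have hl1 : l ≤ √(N : ℝ) := by
    rw [hl, one_div, Real.log_inv]
    have := Real.log_le_log (Real.exp_pos _) hδ
    rw [Real.log_exp] at this
    linarith
  have hexp : Real.exp (-l) = δ := by
    rw [hl, one_div, Real.log_inv, neg_neg, Real.exp_log hδ0]
  set D := d * K ^ (d - 1) with hD
  have hKD : 2 * K ≤ D := by
    rw [hD]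
    have h1 : K ≤ K ^ (d - 1) := by
      calc K = K ^ 1 := (pow_one K).symm
        _ ≤ K ^ (d - 1) := Nat.pow_le_pow_right hK1 (by omega)
    exact Nat.mul_le_mul hd h1
  have hND : 2 ^ (8 * D) ≤ N := by
    rw [hD, ← mul_assoc]; exact hN
  obtain ⟨G, hG1, hG2, hG3⟩ := choice_of_G hK1 hKD hND hl0 hl1
  refine good_of_wins (by omega) hp a k F hF K G D hK hG1 le_rfl T hT S ?_
  have hSpos : (0 : ℝ) < S.card := lt_of_lt_of_le (mul_pos hδ0 hpw) hS
  have h1 : (K : ℝ) * ((1 - 1 / 2 ^ D) ^ G * 2 ^ (N ^ d)) ≤ (S.card : ℝ) / 4 := by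
    have h2 : (K : ℝ) * ((1 - 1 / 2 ^ D) ^ G * 2 ^ (N ^ d)) =
        (K * (1 - 1 / 2 ^ D) ^ G) * 2 ^ (N ^ d) := by ring
    rw [h2]
    calc (K : ℝ) * (1 - 1 / 2 ^ D) ^ G * 2 ^ (N ^ d) ≤ Real.exp (-l) / 4 * 2 ^ (N ^ d) :=
          mul_le_mul_of_nonneg_right hG3 hpw.le
      _ = δ * 2 ^ (N ^ d) / 4 := by rw [hexp]; ring
      _ ≤ _ := by linarith
  have h3 : (2 * G : ℝ) ^ K * ((symmDiff S T).card : ℝ) ≤ (S.card : ℝ) / 2 := by
    have h4 : 2 * (2 * G : ℝ) ^ K ≤ (2 ^ (4 * D) * (1 + l)) ^ K := by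
      have h5 : (2 * (2 * G : ℝ)) ^ K ≤ (2 ^ (4 * D) * (1 + l)) ^ K := by
        apply pow_le_pow_left₀ (by positivity)
        linarith
      have h6 : (2 : ℝ) ≤ 2 ^ K := by
        calc (2 : ℝ) = 2 ^ 1 := (pow_one 2).symm
          _ ≤ 2 ^ K := pow_le_pow_right₀ (by norm_num) hK1
      rw [mul_pow] at h5
      have h7 : (0 : ℝ) ≤ (2 * G : ℝ) ^ K := by positivity
      nlinarith
    have h8 : ((symmDiff S T).card : ℝ) * (2 ^ (4 * D) * (1 + l)) ^ K ≤ S.card := by
      have h9 : 4 * D = 4 * d * K ^ (d - 1) := by rw [hD]; ring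
      rw [h9]; exact hclose
    have h10 : (0 : ℝ) ≤ ((symmDiff S T).card : ℝ) := Nat.cast_nonneg _
    have h11 := mul_le_mul_of_nonneg_left h4 h10
    linarith
  linarith

end Pool.Agent.Lib.MP_90b327_co.H38
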