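import Mathlib
import Pool.Agent.Lib.MP_90b327_co.Lower
import Pool.Agent.Lib.MP_90b327_co.H38Count

set_option autoImplicit false

/-! The complexity bound of `SF3.part_a` is sharp up to a constant factor. -/

namespace Pool.Agent.Lib.MP_90b327_co.H38

open Finset

variable {d N : ℕ}

/-- number of diagonal cells of `A` -/
def loops (A : Finset (Fin d → Fin N)) : ℕ := (univ.filter (fun x : Fin N => (fun _ => x) ∈ A)).card

lemma loops_union (hd : 1 ≤ d) (A : Finset (Fin d → Fin N)) (γ : Finset (Fin N))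
    (h : Disjoint A (cube d γ)) : loops (A ∪ cube d γ) = loops A + γ.card := by
  unfold loops
  have h1 : univ.filter (fun x : Fin N => (fun _ => x) ∈ A ∪ cube d γ) =
      univ.filter (fun x : Fin N => (fun _ : Fin d => x) ∈ A) ∪ γ := by
    ext x
    rw [mem_filter, mem_union, mem_union, mem_filter, mem_cube]
    constructor
    · rintro ⟨_, h | h⟩
      · exact Or.inl ⟨mem_univ _, h⟩
      · exact Or.inr (h ⟨0, hd⟩)
    · rintro (⟨_, h⟩ | h)
      · exact ⟨mem_univ _, Or.inl h⟩
      · exact ⟨mem_univ _, Or.inr (fun _ => h)⟩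
  rw [h1, card_union_of_disjoint]
  rw [disjoint_left]
  intro x hx hx'
  rw [mem_filter] at hx
  exact disjoint_left.mp h hx.2 (mem_cube.mpr (fun _ => hx'))

/-- few sets are empty on some window with `M` vertices -/
lemma card_not_typical (M : ℕ) :
    ((typical d N M)ᶜ).card * 2 ^ (M ^ d) ≤ N ^ M * 2 ^ (N ^ d) := by
  classical
  by_cases hMN : N < M
  · have : typical d N M = univ := by
      ext A
      rw [mem_typical]
      simp only [mem_univ, iff_true]
      intro γ hγ
      have := card_le_univ γ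
      rw [hγ, Fintype.card_fin] at this
      omega
    rw [this]
    simp
  · push Not at hMN
    have h1 : (typical d N M)ᶜ ⊆ (powersetCard M (univ : Finset (Fin N))).biUnion
        (fun γ => univ.filter (fun A : Finset (Fin d → Fin N) => Disjoint A (sqr d γ))) := by
      intro A hA
      rw [mem_compl, mem_typical] at hA
      push Not at hA
      obtain ⟨γ, hγ, hA⟩ := hA
      rw [mem_biUnion]
      exact ⟨γ, mem_powersetCard.mpr ⟨subset_univ _, hγ⟩, mem_filter.mpr ⟨mem_univ _, hA⟩⟩
    have h3 : ((typical d N M)ᶜ).card ≤ N.choose M * 2 ^ (N ^ d - M ^ d) := by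
      calc ((typical d N M)ᶜ).card ≤ _ := card_le_card h1
        _ ≤ ∑ γ ∈ powersetCard M (univ : Finset (Fin N)),
            (univ.filter (fun A : Finset (Fin d → Fin N) => Disjoint A (sqr d γ))).card :=
            card_biUnion_le
        _ = ∑ γ ∈ powersetCard M (univ : Finset (Fin N)), 2 ^ (N ^ d - M ^ d) := by
            apply sum_congr rfl
            intro γ hγ
            rw [card_avoid, (mem_powersetCard.mp hγ).2]
        _ = _ := by
            rw [sum_const, card_powersetCard, card_univ, Fintype.card_fin, smul_eq_mul]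
    have h4 : M ^ d ≤ N ^ d := Nat.pow_le_pow_left hMN d
    have h5 : N.choose M ≤ N ^ M := Nat.choose_le_pow N M
    calc ((typical d N M)ᶜ).card * 2 ^ (M ^ d)
        ≤ (N ^ M * 2 ^ (N ^ d - M ^ d)) * 2 ^ (M ^ d) :=
          Nat.mul_le_mul_right _ (h3.trans (Nat.mul_le_mul_right _ h5))
      _ = N ^ M * 2 ^ (N ^ d) := by
          rw [mul_assoc, ← pow_add]
          congr 2
          omega

/-- bad families very close to a level set of `loops` modulo `q` -/
lemma exists_bad_close (hd : 1 ≤ d) (q L : ℕ) (hq : 2 ≤ q) (hL : 1 ≤ L) (hN2 : 2 ≤ N)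
    (hN : N ^ (L + 1) ≤ 2 ^ (q ^ (d - 1))) :
    ∃ v : ℕ, ∃ S : Finset (Finset (Fin d → Fin N)), ¬ Good d N S ∧
      2 ^ (N ^ d) ≤ 2 * q * S.card ∧
      (symmDiff S (univ.filter (fun A => loops A % q = v))).card * N ^ (L * q) ≤ 2 ^ (N ^ d) := by
  classical
  set Tf : ℕ → Finset (Finset (Fin d → Fin N)) := fun v =>
    univ.filter (fun A => loops A % q = v) with hTf
  have hcell : Fintype.card (Finset (Fin d → Fin N)) = 2 ^ (N ^ d) := by
    rw [Fintype.card_finset]
    simp
  -- pigeonhole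
  obtain ⟨v, hv, hvc⟩ : ∃ v ∈ range q, 2 ^ (N ^ d) ≤ q * (Tf v).card := by
    by_contra hcon
    push Not at hcon
    have h1 : ∑ v ∈ range q, (Tf v).card = 2 ^ (N ^ d) := by
      rw [← hcell, ← card_univ]
      symm
      apply card_eq_sum_card_fiberwise
      intro A _
      exact mem_coe.mpr (mem_range.mpr (Nat.mod_lt _ (by omega)))
    have h2 : q * ∑ v ∈ range q, (Tf v).card < ∑ v ∈ range q, 2 ^ (N ^ d) := by
      rw [mul_sum]
      apply sum_lt_sum_of_nonempty ⟨0, mem_range.mpr (by omega)⟩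
      exact hcon
    rw [h1, sum_const, card_range, smul_eq_mul] at h2
    exact lt_irrefl _ h2
  set S := (Tf v).filter (fun A => A ∈ typical d N q) with hS
  have hdiff : symmDiff S (Tf v) ⊆ (typical d N q)ᶜ := by
    intro A hA
    rw [mem_symmDiff] at hA
    rw [mem_compl]
    intro hty
    rcases hA with ⟨h1, h2⟩ | ⟨h1, h2⟩
    · exact h2 (mem_filter.mp h1).1
    · exact h2 (mem_filter.mpr ⟨h1, hty⟩)
  have hclose : ((typical d N q)ᶜ).card * N ^ (L * q) ≤ 2 ^ (N ^ d) := by
    have h1 := card_not_typical (d := d) (N := N) q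
    have h2 : N ^ q * N ^ (L * q) ≤ 2 ^ (q ^ d) := by
      calc N ^ q * N ^ (L * q) = (N ^ (L + 1)) ^ q := by rw [← pow_add, ← pow_mul]; ring_nf
        _ ≤ (2 ^ (q ^ (d - 1))) ^ q := Nat.pow_le_pow_left hN q
        _ = 2 ^ (q ^ d) := by
            rw [← pow_mul, ← pow_succ]
            congr 2
            omega
    have h3 : (((typical d N q)ᶜ).card * N ^ (L * q)) * 2 ^ (q ^ d) ≤ 2 ^ (N ^ d) * 2 ^ (q ^ d) := by
      calc (((typical d N q)ᶜ).card * N ^ (L * q)) * 2 ^ (q ^ d)
          = (((typical d N q)ᶜ).card * 2 ^ (q ^ d)) * N ^ (L * q) := by ring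
        _ ≤ (N ^ q * 2 ^ (N ^ d)) * N ^ (L * q) := Nat.mul_le_mul_right _ h1
        _ = 2 ^ (N ^ d) * (N ^ q * N ^ (L * q)) := by ring
        _ ≤ _ := Nat.mul_le_mul_left _ h2
    exact Nat.le_of_mul_le_mul_right h3 (by positivity)
  refine ⟨v, S, ?_, ?_, ?_⟩
  · rintro ⟨A, hA, γ, hγ, h1, h2⟩
    rw [hS, mem_filter] at hA h2
    obtain ⟨hA1, hA2⟩ := hA
    obtain ⟨hB1, _⟩ := h2
    rw [hTf, mem_filter] at hA1 hB1
    have hcard : γ.card < q := by
      by_contra hcon
      push Not at hcon
      obtain ⟨γ', hγ', hc⟩ := exists_subset_card_eq hcon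
      rw [mem_typical] at hA2
      exact hA2 γ' hc (disjoint_of_subset_right (cube_mono hγ') h1)
    have h3 : loops (A ∪ cube d γ) = loops A + γ.card := loops_union hd A γ h1
    have h4 : (loops A + γ.card) % q = v := by rw [← h3]; exact hB1.2
    have h5 : loops A % q = v := hA1.2
    have h6 : (loops A + γ.card) ≡ loops A + 0 [MOD q] := by
      unfold Nat.ModEq
      rw [h4, add_zero, h5]
    have h7 := Nat.ModEq.add_left_cancel' _ h6
    have h8 : q ∣ γ.card := (Nat.modEq_zero_iff_dvd).mp h7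
    have h9 := Nat.le_of_dvd hγ.card_pos h8
    omega
  · have h1 : (Tf v).card ≤ S.card + ((typical d N q)ᶜ).card := by
      have h2 : Tf v ⊆ S ∪ (typical d N q)ᶜ := by
        intro A hA
        rw [mem_union, mem_compl]
        by_cases h : A ∈ typical d N q
        · exact Or.inl (mem_filter.mpr ⟨hA, h⟩)
        · exact Or.inr h
      exact (card_le_card h2).trans (card_union_le _ _)
    have h3 : 2 * q * ((typical d N q)ᶜ).card ≤ 2 ^ (N ^ d) := by
      have h4 : 2 * q ≤ N ^ (L * q) := by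
        have h5 : 2 ^ q ≤ N ^ (L * q) := by
          calc 2 ^ q ≤ N ^ q := Nat.pow_le_pow_left hN2 q
            _ ≤ N ^ (L * q) := Nat.pow_le_pow_right (by omega) (by nlinarith)
        have h6 : ∀ m : ℕ, 2 * (m + 2) ≤ 2 ^ (m + 2) := by
          intro m
          induction m with
          | zero => norm_num
          | succ m ih =>
            have : 2 ^ (m + 1 + 2) = 2 * 2 ^ (m + 2) := by ring
            rw [this]
            omega
        obtain ⟨m, rfl⟩ := Nat.exists_eq_add_of_le hq
        have := h6 m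
        rw [add_comm m 2] at this
        omega
      calc 2 * q * ((typical d N q)ᶜ).card ≤ N ^ (L * q) * ((typical d N q)ᶜ).card :=
            Nat.mul_le_mul_right _ h4
        _ = ((typical d N q)ᶜ).card * N ^ (L * q) := mul_comm _ _
        _ ≤ _ := hclose
    have h4 : 2 * 2 ^ (N ^ d) ≤ 2 * q * S.card + 2 ^ (N ^ d) := by
      calc 2 * 2 ^ (N ^ d) ≤ 2 * (q * (Tf v).card) := Nat.mul_le_mul_left 2 hvc
        _ ≤ 2 * (q * (S.card + ((typical d N q)ᶜ).card)) :=
            Nat.mul_le_mul_left 2 (Nat.mul_le_mul_left q h1)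
        _ = 2 * q * S.card + 2 * q * ((typical d N q)ᶜ).card := by ring
        _ ≤ _ := Nat.add_le_add_left h3 _
    omega
  · exact (Nat.mul_le_mul_right _ (card_le_card hdiff)).trans hclose

/-- Part (b). -/
theorem part_b (hd : 2 ≤ d) (p L : ℕ) (hp : 2 ≤ p) (hL : 1 ≤ L) (hN2 : 2 ≤ N) :
    ∃ t v : ℕ, (p ^ t : ℝ) ^ (d - 1) ≤ p ^ (d - 1) * (L + 1) * Real.logb 2 N ∧
      ∃ S : Finset (Finset (Fin d → Fin N)), ¬ Good d N S ∧
        2 ^ (N ^ d) ≤ 2 * p ^ t * S.card ∧
        (symmDiff S (univ.filter (fun A => loops A % p ^ t = v))).card * N ^ (L * p ^ t) ≤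
          2 ^ (N ^ d) := by
  classical
  have hex : ∃ t : ℕ, N ^ (L + 1) ≤ 2 ^ ((p ^ t) ^ (d - 1)) := by
    refine ⟨N ^ (L + 1), ?_⟩
    have h1 : N ^ (L + 1) ≤ 2 ^ (N ^ (L + 1)) := Nat.lt_two_pow_self.le
    refine h1.trans (Nat.pow_le_pow_right (by norm_num) ?_)
    calc N ^ (L + 1) ≤ 2 ^ (N ^ (L + 1)) := h1
      _ ≤ p ^ (N ^ (L + 1)) := Nat.pow_le_pow_left hp _
      _ = (p ^ (N ^ (L + 1))) ^ 1 := (pow_one _).symm
      _ ≤ (p ^ (N ^ (L + 1))) ^ (d - 1) := Nat.pow_le_pow_right (by positivity) (by omega)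
  set t := Nat.find hex with ht
  have hspec : N ^ (L + 1) ≤ 2 ^ ((p ^ t) ^ (d - 1)) := Nat.find_spec hex
  have ht0 : t ≠ 0 := by
    intro h0
    rw [h0] at hspec
    simp only [pow_zero, one_pow, pow_one] at hspec
    have : 2 ^ 2 ≤ N ^ (L + 1) := by
      calc 2 ^ 2 ≤ N ^ 2 := Nat.pow_le_pow_left hN2 2
        _ ≤ N ^ (L + 1) := Nat.pow_le_pow_right (by omega) (by omega)
    omega
  obtain ⟨t', ht'⟩ := Nat.exists_eq_succ_of_ne_zero ht0
  have hmin : 2 ^ ((p ^ t') ^ (d - 1)) < N ^ (L + 1) := by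
    have := Nat.find_min hex (m := t') (by omega)
    push Not at this
    exact this
  obtain ⟨v, S, h1, h2, h3⟩ := exists_bad_close (N := N) (d := d) (by omega) (p ^ t) L (by
    rw [ht', pow_succ]
    have : 1 ≤ p ^ t' := Nat.one_le_pow _ _ (by omega)
    nlinarith) hL hN2 hspec
  refine ⟨t, v, ?_, S, h1, h2, h3⟩
  have h4 : ((p : ℝ) ^ t') ^ (d - 1) ≤ (L + 1) * Real.logb 2 N := by
    have h5 : ((2 : ℝ) ^ ((p ^ t') ^ (d - 1) : ℕ)) ≤ (N : ℝ) ^ (L + 1) := by
      exact_mod_cast hmin.le
    have h6 := Real.logb_le_logb_of_le (b := 2) (by norm_num) (by positivity) h5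
    rw [Real.logb_pow, Real.logb_pow, Real.logb_self_eq_one (by norm_num), mul_one] at h6
    push_cast at h6
    exact h6
  calc (p ^ t : ℝ) ^ (d - 1) = p ^ (d - 1) * ((p : ℝ) ^ t') ^ (d - 1) := by
        rw [ht', Nat.succ_eq_add_one, pow_succ, mul_comm ((p : ℝ) ^ t') (p : ℝ), mul_pow]
    _ ≤ p ^ (d - 1) * ((L + 1) * Real.logb 2 N) := mul_le_mul_of_nonneg_left h4 (by positivity)
    _ = _ := by ring

/-- the number of diagonal cells modulo `m` is `1`-local -/
lemma isLocal_loops (hd : 1 ≤ d) (m : ℕ) :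
    IsLocal (N := N) (d := d) 1 (fun A => ((loops A : ℕ) : ZMod m)) := by
  classical
  refine ⟨fun K B => ((K.filter (fun x => (fun _ : Fin d => x) ∈ B)).card : ZMod m), ?_⟩
  intro A
  have h1 : ∀ K ∈ univ.filter (fun K : Finset (Fin N) => K.card ≤ 1),
      ((K.filter (fun x => (fun _ : Fin d => x) ∈ A.filter (fun c => ∀ i, c i ∈ K))).card : ZMod m) =
        ∑ x : Fin N, if K = {x} ∧ (fun _ : Fin d => x) ∈ A then 1 else 0 := by
    intro K hK
    rw [mem_filter] at hK
    rcases Nat.lt_or_ge K.card 1 with h | h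
    · have : K = ∅ := by
        rw [← card_eq_zero]; omega
      subst this
      rw [filter_empty, card_empty, Nat.cast_zero]
      symm
      apply sum_eq_zero
      intro x _
      rw [if_neg]
      rintro ⟨h, _⟩
      exact absurd h.symm (singleton_ne_empty x)
    · obtain ⟨y, rfl⟩ := card_eq_one.mp (le_antisymm hK.2 h)
      rw [sum_eq_single y]
      · by_cases hy : (fun _ : Fin d => y) ∈ A
        · rw [if_pos ⟨rfl, hy⟩, filter_singleton, if_pos, card_singleton, Nat.cast_one]
          rw [mem_filter]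
          exact ⟨hy, fun _ => mem_singleton_self y⟩
        · rw [if_neg (fun h => hy h.2), filter_singleton, if_neg, card_empty, Nat.cast_zero]
          rw [mem_filter]
          exact fun h => hy h.1
      · intro x _ hxy
        rw [if_neg]
        rintro ⟨h, _⟩
        exact hxy (singleton_injective h).symm
      · intro h
        exact absurd (mem_univ y) h
  show ((loops A : ℕ) : ZMod m) = _
  rw [sum_congr rfl h1, sum_comm]
  unfold loops
  rw [card_filter]
  push_cast
  refine sum_congr rfl (fun x _ => ?_)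
  rw [sum_eq_single {x}]
  · by_cases hx : (fun _ : Fin d => x) ∈ A
    · rw [if_pos hx, if_pos ⟨rfl, hx⟩]
    · rw [if_neg hx, if_neg (fun h => hx h.2)]
  · intro K _ hK
    rw [if_neg (fun h => hK h.1)]
  · intro h
    exfalso
    apply h
    rw [mem_filter]
    exact ⟨mem_univ _, by simp⟩

/-- polynomials in the cells are local -/
lemma isLocal_poly {m : ℕ} (P : MvPolynomial (Fin d → Fin N) (ZMod m)) :
    IsLocal (d * P.totalDegree)
      (fun A => MvPolynomial.eval (fun c => if c ∈ A then (1 : ZMod m) else 0) P) := by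
  classical
  set vert : ((Fin d → Fin N) →₀ ℕ) → Finset (Fin N) := fun e =>
    e.support.biUnion (fun c => univ.image c) with hvert
  refine ⟨fun K B => ∑ e ∈ P.support.filter (fun e => vert e = K),
    P.coeff e * ∏ c ∈ e.support, (if c ∈ B then (1 : ZMod m) else 0) ^ e c, ?_⟩
  intro A
  show MvPolynomial.eval (fun c => if c ∈ A then (1 : ZMod m) else 0) P = _
  rw [MvPolynomial.eval_eq]
  have h1 : ∀ K ∈ univ.filter (fun K : Finset (Fin N) => K.card ≤ d * P.totalDegree),
      (∑ e ∈ P.support.filter (fun e => vert e = K), P.coeff e *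
        ∏ c ∈ e.support, (if c ∈ A.filter (fun c => ∀ i, c i ∈ K) then (1 : ZMod m) else 0) ^ e c) =
      ∑ e ∈ P.support.filter (fun e => vert e = K), P.coeff e *
        ∏ c ∈ e.support, (if c ∈ A then (1 : ZMod m) else 0) ^ e c := by
    intro K _
    refine sum_congr rfl (fun e he => ?_)
    rw [mem_filter] at he
    congr 1
    refine prod_congr rfl (fun c hc => ?_)
    have h2 : ∀ i, c i ∈ K := by
      intro i
      rw [← he.2, hvert, mem_biUnion]
      exact ⟨c, hc, mem_image_of_mem c (mem_univ i)⟩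
    congr 1
    by_cases hcA : c ∈ A
    · rw [if_pos hcA, if_pos (mem_filter.mpr ⟨hcA, h2⟩)]
    · rw [if_neg hcA, if_neg (fun h => hcA (mem_filter.mp h).1)]
  rw [sum_congr rfl h1, ← sum_fiberwise_of_maps_to (s := P.support)
    (t := univ.filter (fun K : Finset (Fin N) => K.card ≤ d * P.totalDegree)) (g := vert)]
  intro e he
  rw [mem_filter]
  refine ⟨mem_univ _, ?_⟩
  calc (vert e).card ≤ e.support.card * d := by
        apply card_biUnion_le_card_mul
        intro c _
        refine card_image_le.trans ?_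
        rw [card_univ, Fintype.card_fin]
    _ ≤ P.totalDegree * d := by
        apply Nat.mul_le_mul_right
        refine le_trans ?_ (MvPolynomial.le_totalDegree he)
        rw [Finsupp.sum, card_eq_sum_ones]
        apply sum_le_sum
        intro c hc
        exact Nat.one_le_iff_ne_zero.mpr (Finsupp.mem_support_iff.mp hc)
    _ = _ := mul_comm _ _

end Pool.Agent.Lib.MP_90b327_co.H38
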