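import Pool.Agent.Lib.MP_90b327_co.SGDefs

/-!
# Module CLAIM: the main claim for a kernel which may be negative
-/

set_option autoImplicit false

namespace Pool.Agent.Lib.MP_90b327_co.SG

open Pool.Agent.Lib.MP_90b327_co Finset Filter Topology

variable {d : ℕ}

lemma Ker.G_le (K : Ker d) (V : Type) [Fintype V] (X Y : (Fin d → V) → Bool) :
    K.G V X Y ≤ K.D := by
  have := K.psd V Bool (fun b => if b then X else Y) (fun b => if b then 1 else -1)
  simp only [Fintype.sum_bool, K.diag] at this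
  have hs := K.symm V X Y
  simp only [if_true, Bool.false_eq_true, if_false] at this
  linarith

lemma Ker.neg_le_G (K : Ker d) (V : Type) [Fintype V] (X Y : (Fin d → V) → Bool) :
    -K.D ≤ K.G V X Y := by
  have := K.psd V Bool (fun b => if b then X else Y) (fun _ => 1)
  simp only [Fintype.sum_bool, K.diag] at this
  have hs := K.symm V X Y
  simp only [if_true, Bool.false_eq_true, if_false] at this
  linarith

lemma Ker.D_nonneg (K : Ker d) : 0 ≤ K.D := by
  have h1 := K.G_le Unit (fun _ => true) (fun _ => true)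
  have h2 := K.neg_le_G Unit (fun _ => true) (fun _ => true)
  linarith

lemma exists_limit' (p : Ultrafilter ℕ+) (f : ℕ+ → ℝ) (C : ℝ) (h0 : ∀ m, -C ≤ f m)
    (h1 : ∀ m, f m ≤ C) : ∃ a, Tendsto f p (𝓝 a) := by
  obtain ⟨a, ha⟩ := exists_limit p (fun m => f m + C) (2 * C) (fun m => by linarith [h0 m])
    (fun m => by linarith [h1 m])
  refine ⟨a - C, ?_⟩
  have := ha.sub_const C
  simpa using this

lemma Ker.corr_x_w (K : Ker d) {V : Type} [Fintype V] (T1 T2 : (Fin d → Option V) → Bool)
    {s M : ℕ} (h : s ≤ M) :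
    K.G (V ⊕ Fin M) (pat T1 _) (wpat T1 T2 M s) = K.G (V ⊕ Fin s) (pat T1 _) (pat T2 _) := by
  rw [K.ext _ _ (incl h) (incl_injective h)]
  · congr 1
    · funext c
      simp only [pat, collapse_incl_comp]
    · funext c
      simp only [wpat, pat]
      rw [if_pos (show ∀ i, inside s ((incl h ∘ c) i : V ⊕ Fin M) = true from
        fun i => inside_incl h (c i)), collapse_incl_comp]
  · intro c hc
    obtain ⟨i, hi⟩ := hc
    rw [mem_range_incl] at hi
    simp only [wpat, pat]
    rw [if_neg (fun hall => hi (hall i))]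

lemma Ker.corr_y_w (K : Ker d) {V : Type} [Fintype V] (T1 T2 : (Fin d → Option V) → Bool)
    {s M : ℕ} (h : s ≤ M) :
    K.G (V ⊕ Fin M) (pat (Ty T1 T2) _) (wpat T1 T2 M s) =
      K.G (V ⊕ Fin s) (pat (Ty T1 T2) _) (pat T2 _) := by
  rw [K.ext _ _ (incl h) (incl_injective h)]
  · congr 1
    · funext c
      simp only [pat, collapse_incl_comp]
    · funext c
      simp only [wpat, pat]
      rw [if_pos (show ∀ i, inside s ((incl h ∘ c) i : V ⊕ Fin M) = true from
        fun i => inside_incl h (c i)), collapse_incl_comp]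
  · intro c hc
    obtain ⟨i, hi⟩ := hc
    rw [mem_range_incl] at hi
    simp only [wpat, pat, Ty]
    rw [if_neg (show ¬ ∀ i, inside s (c i) = true from fun hall => hi (hall i)), if_neg]
    intro hall
    have h2 := hall i
    simp only [Function.comp, isSome_collapse] at h2
    rcases hci : c i with v | j
    · rw [hci] at hi
      exact hi rfl
    · rw [hci] at h2
      simp at h2

lemma Ker.corr_x_y (K : Ker d) {V : Type} [Fintype V] (T1 T2 : (Fin d → Option V) → Bool)
    (M : ℕ) :
    K.G (V ⊕ Fin M) (pat T1 _) (pat (Ty T1 T2) _) = K.G V (base T1) (base T2) := by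
  rw [K.ext _ _ (Sum.inl : V → V ⊕ Fin M) Sum.inl_injective]
  · congr 1
    funext c
    simp only [pat, base, Ty]
    rw [if_pos]
    · rfl
    · intro i
      rfl
  · intro c hc
    obtain ⟨i, hi⟩ := hc
    simp only [pat, Ty]
    rw [if_neg]
    intro hall
    have h2 := hall i
    simp only [Function.comp, isSome_collapse] at h2
    rcases hci : c i with v | j
    · exact hi ⟨v, hci.symm⟩
    · rw [hci] at h2
      simp at h2

lemma Ker.corr_w_w (K : Ker d) {V : Type} [Fintype V] (T1 T2 : (Fin d → Option V) → Bool)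
    {e s' M : ℕ} (h : e + s' ≤ M) :
    K.G (V ⊕ Fin M) (wpat T1 T2 M s') (wpat T1 T2 M (e + s')) =
      K.G ((V ⊕ Fin e) ⊕ Fin s') (pat (T1' T1 T2 (Fin e)) _) (pat (T2' T2 (Fin e)) _) := by
  rw [K.ext _ _ (incl2 h) (incl2_injective h)]
  · congr 1
    · funext c
      simp only [wpat, pat, T1']
      have e1 : (∀ i, inside s' ((incl2 h ∘ c) i : V ⊕ Fin M) = true) ↔
          (∀ i, (((collapse (V ⊕ Fin e) (Fin s')) ∘ c) i).all Sum.isLeft = true) := by
        apply forall_congr'
        intro i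
        simp only [Function.comp]
        rw [inside_incl2_small]
      have e2 : collapse V (Fin M) ∘ (incl2 h ∘ c) =
          col V (Fin e) ∘ (collapse (V ⊕ Fin e) (Fin s') ∘ c) := by
        funext i
        exact collapse_incl2 h (c i)
      rw [e2]
      by_cases hc : ∀ i, inside s' ((incl2 h ∘ c) i : V ⊕ Fin M) = true
      · rw [if_pos hc, if_pos (e1.mp hc)]
      · rw [if_neg hc, if_neg (fun h' => hc (e1.mpr h'))]
    · funext c
      simp only [wpat, pat, T2']
      rw [if_pos (show ∀ i, inside (e + s') ((incl2 h ∘ c) i : V ⊕ Fin M) = true from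
        fun i => inside_incl2_big h (c i))]
      congr 1
      funext i
      exact collapse_incl2 h (c i)
  · intro c hc
    obtain ⟨i, hi⟩ := hc
    have hin : ¬ inside (e + s') (c i) = true := fun hin => hi (mem_range_incl2 h _ hin)
    have hin' : ¬ inside s' (c i) = true := by
      intro h'
      apply hin
      rcases hci : c i with v | j
      · rfl
      · rw [hci] at h'
        simp only [inside, Sum.elim_inr, decide_eq_true_eq] at h' ⊢
        omega
    simp only [wpat]
    rw [if_neg (show ¬ ∀ i, inside s' (c i) = true from fun hall => hin' (hall i)),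
      if_neg (show ¬ ∀ i, inside (e + s') (c i) = true from fun hall => hin (hall i))]

/-- the quadratic form for `r x + q y - (1/N) ∑ w` -/
lemma Ker.quadf (K : Ker d) {W : Type} [Fintype W] (x y : (Fin d → W) → Bool) (n : ℕ)
    (w : Fin (n + 1) → (Fin d → W) → Bool) (r q u : ℝ) :
    0 ≤ r ^ 2 * K.D + 2 * (r * q) * K.G W x y + q ^ 2 * K.D - 2 * (r * u) * ∑ l, K.G W x (w l)
      - 2 * (q * u) * ∑ l, K.G W y (w l) + u ^ 2 * ∑ l, ∑ l', K.G W (w l) (w l') := by
  have h := K.psd W (Option (Option (Fin (n + 1))))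
    (fun i => match i with
      | none => x
      | some none => y
      | some (some l) => w l)
    (fun i => match i with
      | none => r
      | some none => q
      | some (some _) => -u)
  simp only [Fintype.sum_option] at h
  have e1 : ∑ l, r * -u * K.G W x (w l) = -(r * u) * ∑ l, K.G W x (w l) := by
    rw [Finset.mul_sum]
    apply Finset.sum_congr rfl
    intro l _
    ring
  have e2 : ∑ l, q * -u * K.G W y (w l) = -(q * u) * ∑ l, K.G W y (w l) := by
    rw [Finset.mul_sum]
    apply Finset.sum_congr rfl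
    intro l _
    ring
  have e3 : ∑ l, (-u * r * K.G W (w l) x + (-u * q * K.G W (w l) y +
      ∑ l', -u * -u * K.G W (w l) (w l'))) =
      -(r * u) * ∑ l, K.G W x (w l) + (-(q * u) * ∑ l, K.G W y (w l) +
        u ^ 2 * ∑ l, ∑ l', K.G W (w l) (w l')) := by
    rw [Finset.sum_add_distrib, Finset.sum_add_distrib, Finset.mul_sum, Finset.mul_sum,
      Finset.mul_sum]
    congr 1
    · apply Finset.sum_congr rfl
      intro l _
      rw [K.symm W (w l) x]
      ring
    · congr 1
      · apply Finset.sum_congr rfl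
        intro l _
        rw [K.symm W (w l) y]
        ring
      · apply Finset.sum_congr rfl
        intro l _
        rw [Finset.mul_sum]
        apply Finset.sum_congr rfl
        intro l' _
        ring
  rw [e1, e2, e3, K.diag, K.diag, K.symm W y x] at h
  linarith

/-- bound for the double sum of correlations when off-diagonal correlations are at most `U` -/
lemma double_sum_le' (n : ℕ) (F : Fin (n + 1) → Fin (n + 1) → ℝ) (δ U : ℝ) (hδ : ∀ l, F l l = δ)
    (hU0 : -δ ≤ U) (hU : ∀ l l', l ≠ l' → F l l' ≤ U) :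
    (1 / (n + 1 : ℝ)) ^ 2 * ∑ l, ∑ l', F l l' ≤ 2 * δ / (n + 1) + U := by
  have hN : (0 : ℝ) < n + 1 := by positivity
  have h1 : ∑ l, ∑ l', F l l' ≤
      ∑ l : Fin (n + 1), ∑ l' : Fin (n + 1), ((if l = l' then δ - U else 0) + U) := by
    apply Finset.sum_le_sum
    intro l _
    apply Finset.sum_le_sum
    intro l' _
    by_cases h : l = l'
    · subst h
      rw [hδ, if_pos rfl]
      linarith
    · rw [if_neg h, zero_add]
      exact hU l l' h
  have h2 : ∑ l : Fin (n + 1), ∑ l' : Fin (n + 1), ((if l = l' then δ - U else 0) + U) =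
      (n + 1) * (δ - U) + (n + 1) ^ 2 * U := by
    simp only [Finset.sum_add_distrib, Finset.sum_ite_eq, Finset.mem_univ, if_true,
      Finset.sum_const, Finset.card_univ, Fintype.card_fin, nsmul_eq_mul]
    push_cast
    ring
  have h3 : (1 / (n + 1 : ℝ)) ^ 2 * ∑ l, ∑ l', F l l' ≤
      (1 / (n + 1 : ℝ)) ^ 2 * ((n + 1) * (δ - U) + (n + 1) ^ 2 * U) :=
    mul_le_mul_of_nonneg_left (h1.trans h2.le) (by positivity)
  have h4 : (1 / (n + 1 : ℝ)) ^ 2 * ((n + 1) * (δ - U) + (n + 1) ^ 2 * U) =
      (δ - U) / (n + 1) + U := by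
    field_simp
  rw [h4] at h3
  have h5 : (δ - U) / (n + 1) ≤ 2 * δ / (n + 1) := by
    apply div_le_div_of_nonneg_right _ hN.le
    linarith
  linarith

theorem Ker.claim (K : Ker d) (p : Ultrafilter ℕ+)
    (hp : ∀ A : ℕ+ → Prop, (∀ᶠ m in (p : Filter ℕ+), A m) ↔
      ∀ᶠ a in (p : Filter ℕ+), ∀ᶠ m in (p : Filter ℕ+), A (a + m)) (k : ℕ) :
    ∀ (V : Type) [Fintype V] (T1 T2 : (Fin d → Option V) → Bool),
      (∀ τ, k < nn τ → T1 τ = T2 τ) → ∀ ε : ℝ, 0 < ε → ∀ᶠ m : ℕ+ in (p : Filter ℕ+),
        K.G (V ⊕ Fin (m : ℕ)) (pat T1 _) (pat T2 _) ≤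
          (1 / 2 : ℝ) ^ k * K.G V (base T1) (base T2) + (1 - (1 / 2 : ℝ) ^ k) * K.D + ε := by
  have hD0 := K.D_nonneg
  induction k with
  | zero =>
    intro V _ T1 T2 hT ε hε
    filter_upwards with m
    rw [K.ext _ _ (Sum.inl : V → V ⊕ Fin (m : ℕ)) Sum.inl_injective]
    · have : K.G V (fun c => pat T1 (Fin (m : ℕ)) (Sum.inl ∘ c))
        (fun c => pat T2 (Fin (m : ℕ)) (Sum.inl ∘ c)) = K.G V (base T1) (base T2) := rfl
      rw [this]
      simp only [pow_zero, one_mul, sub_self, zero_mul, add_zero]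
      linarith
    · intro c hc
      obtain ⟨i, hi⟩ := hc
      apply hT
      unfold nn
      rw [Finset.card_pos]
      refine ⟨i, ?_⟩
      rw [Finset.mem_filter_univ]
      simp only [Function.comp]
      rcases hci : c i with v | j
      · exact absurd ⟨v, hci.symm⟩ hi
      · rfl
  | succ k ih =>
    intro V _ T1 T2 hT ε hε
    set q : ℝ := (1 / 2 : ℝ) ^ (k + 1) with hq
    have hq2 : (1 / 2 : ℝ) ^ k = 2 * q := by
      rw [hq, pow_succ]
      ring
    have hq0 : 0 < q := by positivity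
    have hq1 : 2 * q ≤ 1 := by
      rw [← hq2]
      exact pow_le_one₀ (by norm_num) (by norm_num)
    set r : ℝ := 1 - q with hr
    have hr1 : 1 / 2 ≤ r := by rw [hr]; linarith
    set G0 := K.G V (base T1) (base T2) with hG0
    let g : ℕ+ → ℝ := fun m => K.G (V ⊕ Fin (m : ℕ)) (pat T1 _) (pat T2 _)
    let t : ℕ+ → ℝ := fun m => K.G (V ⊕ Fin (m : ℕ)) (pat (Ty T1 T2) _) (pat T2 _)
    obtain ⟨gs, hgs⟩ := exists_limit' p g K.D (fun m => K.neg_le_G _ _ _) (fun m => K.G_le _ _ _)
    obtain ⟨ts, hts⟩ := exists_limit' p t K.D (fun m => K.neg_le_G _ _ _) (fun m => K.G_le _ _ _)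
    have hts0 : -K.D ≤ ts := ge_of_tendsto hts (Eventually.of_forall fun m => K.neg_le_G _ _ _)
    -- the main inequality
    have main : gs ≤ q * G0 + r * K.D := by
      apply le_of_forall_pos_le_add
      intro κ hκ
      -- choose η and n
      set η : ℝ := κ / 6 with hη
      have hη0 : 0 < η := by positivity
      obtain ⟨n, hn⟩ := exists_nat_gt (4 * K.D / κ)
      have hN : (0 : ℝ) < n + 1 := by positivity
      have hDN : 2 * K.D / (n + 1) ≤ κ / 2 := by
        rw [div_le_iff₀ hN]
        rw [div_lt_iff₀ hκ] at hn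
        nlinarith
      set U : ℝ := 2 * q * ts + (1 - 2 * q) * K.D + η with hU
      have hU0 : -K.D ≤ U := by
        have h1 : 2 * q * (-K.D) ≤ 2 * q * ts := mul_le_mul_of_nonneg_left hts0 (by positivity)
        have h2 : 2 * q * K.D ≤ 1 * K.D := mul_le_mul_of_nonneg_right hq1 hD0
        rw [hU]
        nlinarith
      have hP : ∀ᶠ m in (p : Filter ℕ+), gs - η < g m ∧ ts - η < t m :=
        (hgs.eventually (lt_mem_nhds (by linarith))).and
          (hts.eventually (lt_mem_nhds (by linarith)))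
      have hQ : ∀ᶠ e : ℕ+ in (p : Filter ℕ+), ∀ᶠ m : ℕ+ in (p : Filter ℕ+),
          K.G ((V ⊕ Fin (e : ℕ)) ⊕ Fin (m : ℕ)) (pat (T1' T1 T2 _) _) (pat (T2' T2 _) _) ≤ U := by
        have h1 : ∀ᶠ e in (p : Filter ℕ+), t e < ts + η / 2 :=
          hts.eventually (gt_mem_nhds (by linarith))
        filter_upwards [h1] with e he
        have h2 := ih (V ⊕ Fin (e : ℕ)) (T1' T1 T2 _) (T2' T2 _)
          (fun τ hτ => agree_derived T1 T2 _ k hT τ hτ) (η / 2) (by positivity)
        filter_upwards [h2] with m hm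
        refine hm.trans ?_
        rw [base_T1', base_T2', hq2]
        have h3 : 2 * q * K.G (V ⊕ Fin (e : ℕ)) (pat (Ty T1 T2) _) (pat T2 _) ≤
            2 * q * (ts + η / 2) := mul_le_mul_of_nonneg_left he.le (by positivity)
        rw [hU]
        nlinarith
      obtain ⟨s, -, hs1, hs2, -⟩ := exists_sizes p hp _ _ hP hQ n (fun _ => True)
        (fun _ _ => True) (Eventually.of_forall fun _ => trivial)
        (Eventually.of_forall fun _ => Eventually.of_forall fun _ => trivial)
      have hle : ∀ l ≤ n, (s l : ℕ) ≤ (s 0 : ℕ) := by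
        intro l hl
        rcases Nat.eq_zero_or_pos l with rfl | hpos
        · exact le_rfl
        · obtain ⟨e, he, -⟩ := hs2 0 l hpos hl
          rw [he]
          simp
      let w : Fin (n + 1) → (Fin d → V ⊕ Fin (s 0 : ℕ)) → Bool :=
        fun l => wpat T1 T2 (s 0 : ℕ) (s l : ℕ)
      have hquad := K.quadf (pat T1 (Fin (s 0 : ℕ))) (pat (Ty T1 T2) (Fin (s 0 : ℕ))) n w r q
        (1 / (n + 1 : ℝ))
      rw [K.corr_x_y T1 T2] at hquad
      -- lower bounds for the first two sums
      have hA : (n + 1 : ℝ) * (gs - η) ≤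
          ∑ l, K.G (V ⊕ Fin (s 0 : ℕ)) (pat T1 (Fin (s 0 : ℕ))) (w l) := by
        have : ∑ _l : Fin (n + 1), (gs - η) = (n + 1 : ℝ) * (gs - η) := by
          rw [Finset.sum_const, Finset.card_univ, Fintype.card_fin, nsmul_eq_mul]
          push_cast
          ring
        rw [← this]
        apply Finset.sum_le_sum
        intro l _
        have hl : (l : ℕ) ≤ n := Nat.lt_succ_iff.mp l.2
        rw [show w l = wpat T1 T2 (s 0 : ℕ) (s l : ℕ) from rfl, K.corr_x_w T1 T2 (hle l hl)]
        exact (hs1 l hl).1.le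
      have hB : (n + 1 : ℝ) * (ts - η) ≤
          ∑ l, K.G (V ⊕ Fin (s 0 : ℕ)) (pat (Ty T1 T2) (Fin (s 0 : ℕ))) (w l) := by
        have : ∑ _l : Fin (n + 1), (ts - η) = (n + 1 : ℝ) * (ts - η) := by
          rw [Finset.sum_const, Finset.card_univ, Fintype.card_fin, nsmul_eq_mul]
          push_cast
          ring
        rw [← this]
        apply Finset.sum_le_sum
        intro l _
        have hl : (l : ℕ) ≤ n := Nat.lt_succ_iff.mp l.2
        rw [show w l = wpat T1 T2 (s 0 : ℕ) (s l : ℕ) from rfl, K.corr_y_w T1 T2 (hle l hl)]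
        exact (hs1 l hl).2.le
      have hww : ∀ l l' : Fin (n + 1), l < l' → K.G (V ⊕ Fin (s 0 : ℕ)) (w l') (w l) ≤ U := by
        intro l l' hll
        have hl' : (l' : ℕ) ≤ n := Nat.lt_succ_iff.mp l'.2
        have hl : (l : ℕ) ≤ n := Nat.lt_succ_iff.mp l.2
        obtain ⟨e, he, heQ⟩ := hs2 l l' hll hl'
        have he' : (s l : ℕ) = (e : ℕ) + (s l' : ℕ) := by rw [he]; simp
        have hM : (e : ℕ) + (s l' : ℕ) ≤ (s 0 : ℕ) := by rw [← he']; exact hle l hl
        have hcw := K.corr_w_w T1 T2 (V := V) hM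
        rw [show w l = wpat T1 T2 (s 0 : ℕ) (s l : ℕ) from rfl,
          show w l' = wpat T1 T2 (s 0 : ℕ) (s l' : ℕ) from rfl, he', hcw]
        exact heQ
      have hC := double_sum_le' n (fun l l' => K.G (V ⊕ Fin (s 0 : ℕ)) (w l) (w l')) K.D U
        (fun l => K.diag _ _) hU0 (by
          intro l l' hll
          rcases lt_or_gt_of_ne hll with h | h
          · rw [K.symm]
            exact hww l l' h
          · exact hww l' l h)
      have hA' : gs - η ≤ (1 / (n + 1 : ℝ)) *
          ∑ l, K.G (V ⊕ Fin (s 0 : ℕ)) (pat T1 (Fin (s 0 : ℕ))) (w l) := by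
        rw [one_div, ← div_eq_inv_mul, le_div_iff₀ hN]
        linarith
      have hB' : ts - η ≤ (1 / (n + 1 : ℝ)) *
          ∑ l, K.G (V ⊕ Fin (s 0 : ℕ)) (pat (Ty T1 T2) (Fin (s 0 : ℕ))) (w l) := by
        rw [one_div, ← div_eq_inv_mul, le_div_iff₀ hN]
        linarith
      set SA := ∑ l, K.G (V ⊕ Fin (s 0 : ℕ)) (pat T1 (Fin (s 0 : ℕ))) (w l) with hSA
      set SB := ∑ l, K.G (V ⊕ Fin (s 0 : ℕ)) (pat (Ty T1 T2) (Fin (s 0 : ℕ))) (w l) with hSB
      set a' := (1 / (n + 1 : ℝ)) * SA with ha'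
      set b' := (1 / (n + 1 : ℝ)) * SB with hb'
      have hq' : 2 * (r * (1 / (n + 1 : ℝ))) * SA = 2 * r * a' := by rw [ha']; ring
      have hq'' : 2 * (q * (1 / (n + 1 : ℝ))) * SB = 2 * q * b' := by rw [hb']; ring
      rw [hq', hq''] at hquad
      have h1 : 2 * r * (gs - η) ≤ 2 * r * a' := mul_le_mul_of_nonneg_left hA' (by linarith)
      have h2 : 2 * q * (ts - η) ≤ 2 * q * b' := mul_le_mul_of_nonneg_left hB' (by linarith)
      have hrq : q = 1 - r := by rw [hr]; ring
      exact final_arith r q K.D G0 gs ts η κ a' b' (2 * K.D / (n + 1))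
        ((1 / (n + 1 : ℝ)) ^ 2 * ∑ l, ∑ l', K.G (V ⊕ Fin (s 0 : ℕ)) (w l) (w l')) U hr hr1 hκ
        hquad hC hDN hU h1 h2 hη
    have := hgs.eventually (gt_mem_nhds (show gs < q * G0 + r * K.D + ε by linarith))
    filter_upwards [this] with m hm
    exact hm.le

end Pool.Agent.Lib.MP_90b327_co.SG
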