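import Mathlib
import Pool.Agent.Lib.MP_90b327_co.Interface
import Pool.Agent.Lib.MP_90b327_co.Ultra

/-!
The case `d = 2` below density `1/3`: the limit object carries, for every finite vertex set, a joint
law of the values of the family at all patterns on it; only the laws of pairs are compatible with
the passage to larger vertex sets.
-/

set_option autoImplicit false

namespace Pool.Agent.Lib.MP_90b327_co

open Filter Topology Finset

/-- the number `0` or `1` -/
noncomputable def bv (b : Bool) : ℝ := if b then 1 else 0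

lemma bv_zero_or_one (b : Bool) : bv b = 0 ∨ bv b = 1 := by
  cases b
  · left; rfl
  · right; rfl

lemma bv_nonneg (b : Bool) : 0 ≤ bv b := by
  rcases bv_zero_or_one b with h | h <;> simp [h]

lemma bv_mul_self (b : Bool) : bv b * bv b = bv b := by
  rcases bv_zero_or_one b with h | h <;> rw [h] <;> norm_num

/-- a bad pair of patterns -/
def BadPair {d : ℕ} {V : Type} (X Y : (Fin d → V) → Bool) : Prop :=
  ∃ γ : V → Prop, (∃ v, γ v) ∧ (∀ c : Fin d → V, (∀ i, γ (c i)) → X c = false) ∧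
    (∀ c : Fin d → V, (∀ i, γ (c i)) → Y c = true) ∧
    (∀ c : Fin d → V, ¬ (∀ i, γ (c i)) → Y c = X c)

/-- Joint limit laws of the indicator of a family at all patterns on `[K]^d`. -/
structure LimM (d : ℕ) (δ : ℝ) where
  w : (K : ℕ) → (Pat d K → Bool) → ℝ
  nonneg : ∀ K f, 0 ≤ w K f
  total : ∀ K, ∑ f, w K f = 1
  bad : ∀ K f (X Y : Pat d K), BadPair X Y → f X = true → f Y = true → w K f = 0
  dens : ∀ K (X : Pat d K), ∑ f, w K f * bv (f X) = δ
  ext : ∀ (K K' : ℕ) (ι : Fin K → Fin K'), Function.Injective ι → ∀ X Y : Pat d K',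
    (∀ c : Fin d → Fin K', (¬ ∃ c' : Fin d → Fin K, c = ι ∘ c') → X c = Y c) →
      ∑ f, w K' f * (bv (f X) * bv (f Y)) =
        ∑ f, w K f * (bv (f fun c => X (ι ∘ c)) * bv (f fun c => Y (ι ∘ c)))

variable {δ : ℝ}

/-- two-dimensional patterns on a vertex type -/
abbrev P2 (V : Type) : Type := V → V → Bool

/-- transport of a pattern to `Fin (card V)` -/
noncomputable def tr {V : Type} [Fintype V] (X : P2 V) : Pat 2 (Fintype.card V) :=
  fun c => X ((Fintype.equivFin V).symm (c 0)) ((Fintype.equivFin V).symm (c 1))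

/-- expectation of a functional of the values at the two-dimensional patterns on `V` -/
noncomputable def LimM.E (L : LimM 2 δ) (V : Type) [Fintype V] (φ : (P2 V → ℝ) → ℝ) : ℝ :=
  ∑ f : (Pat 2 (Fintype.card V) → Bool), L.w _ f * φ (fun X => bv (f (tr X)))

/-- `Y` is `X` together with a block `γ × γ` on which `X` is empty -/
def Bad2 {V : Type} (X Y : P2 V) : Prop :=
  ∃ γ : V → Prop, (∃ v, γ v) ∧ (∀ u v, γ u → γ v → X u v = false) ∧
    (∀ u v, γ u → γ v → Y u v = true) ∧ (∀ u v, ¬ (γ u ∧ γ v) → Y u v = X u v)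

/-- the values that occur -/
structure BadFree {V : Type} (F : P2 V → ℝ) : Prop where
  zero_or_one : ∀ X, F X = 0 ∨ F X = 1
  bad : ∀ X Y, Bad2 X Y → F X * F Y = 0

lemma BadFree.nonneg {V : Type} {F : P2 V → ℝ} (h : BadFree F) (X : P2 V) : 0 ≤ F X := by
  rcases h.zero_or_one X with h | h <;> simp [h]

lemma BadFree.le_one {V : Type} {F : P2 V → ℝ} (h : BadFree F) (X : P2 V) : F X ≤ 1 := by
  rcases h.zero_or_one X with h | h <;> simp [h]

lemma badPair_tr {V : Type} [Fintype V] {X Y : P2 V} (h : Bad2 X Y) :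
    BadPair (tr X) (tr Y) := by
  obtain ⟨γ, ⟨v, hv⟩, h1, h2, h3⟩ := h
  refine ⟨fun j => γ ((Fintype.equivFin V).symm j), ⟨Fintype.equivFin V v, by simpa using hv⟩,
    ?_, ?_, ?_⟩
  · intro c hc
    exact h1 _ _ (hc 0) (hc 1)
  · intro c hc
    exact h2 _ _ (hc 0) (hc 1)
  · intro c hc
    apply h3
    rintro ⟨h4, h5⟩
    apply hc
    intro i
    fin_cases i
    · exact h4
    · exact h5

lemma LimM.E_mono (L : LimM 2 δ) (V : Type) [Fintype V] (φ ψ : (P2 V → ℝ) → ℝ)
    (h : ∀ F, BadFree F → φ F ≤ ψ F) : L.E V φ ≤ L.E V ψ := by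
  unfold LimM.E
  apply Finset.sum_le_sum
  intro f _
  by_cases hf : BadFree (V := V) (fun X => bv (f (tr X)))
  · exact mul_le_mul_of_nonneg_left (h _ hf) (L.nonneg _ _)
  · have h0 : L.w _ f = 0 := by
      by_contra hne
      apply hf
      refine ⟨fun X => bv_zero_or_one _, ?_⟩
      intro X Y hXY
      by_contra h1
      apply hne
      apply L.bad _ f (tr X) (tr Y) (badPair_tr hXY)
      · by_contra h2
        rw [Bool.not_eq_true] at h2
        apply h1
        simp only [h2]
        simp [bv]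
      · by_contra h2
        rw [Bool.not_eq_true] at h2
        apply h1
        simp only [h2]
        simp [bv]
    rw [h0, zero_mul, zero_mul]

lemma LimM.E_congr (L : LimM 2 δ) (V : Type) [Fintype V] (φ ψ : (P2 V → ℝ) → ℝ)
    (h : ∀ F, BadFree F → φ F = ψ F) : L.E V φ = L.E V ψ :=
  le_antisymm (L.E_mono V _ _ fun F hF => (h F hF).le) (L.E_mono V _ _ fun F hF => (h F hF).ge)

lemma LimM.E_add (L : LimM 2 δ) (V : Type) [Fintype V] (φ ψ : (P2 V → ℝ) → ℝ) :
    L.E V (fun F => φ F + ψ F) = L.E V φ + L.E V ψ := by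
  unfold LimM.E
  rw [← Finset.sum_add_distrib]
  apply Finset.sum_congr rfl
  intro f _
  ring

lemma LimM.E_sub (L : LimM 2 δ) (V : Type) [Fintype V] (φ ψ : (P2 V → ℝ) → ℝ) :
    L.E V (fun F => φ F - ψ F) = L.E V φ - L.E V ψ := by
  unfold LimM.E
  rw [← Finset.sum_sub_distrib]
  apply Finset.sum_congr rfl
  intro f _
  ring

lemma LimM.E_mul (L : LimM 2 δ) (V : Type) [Fintype V] (r : ℝ) (φ : (P2 V → ℝ) → ℝ) :
    L.E V (fun F => r * φ F) = r * L.E V φ := by
  unfold LimM.E
  rw [Finset.mul_sum]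
  apply Finset.sum_congr rfl
  intro f _
  ring

lemma LimM.E_sum (L : LimM 2 δ) (V : Type) [Fintype V] {J : Type} (s : Finset J)
    (φ : J → (P2 V → ℝ) → ℝ) :
    L.E V (fun F => ∑ j ∈ s, φ j F) = ∑ j ∈ s, L.E V (φ j) := by
  unfold LimM.E
  rw [Finset.sum_comm]
  apply Finset.sum_congr rfl
  intro f _
  rw [Finset.mul_sum]

lemma LimM.E_const (L : LimM 2 δ) (V : Type) [Fintype V] (r : ℝ) : L.E V (fun _ => r) = r := by
  unfold LimM.E
  rw [← Finset.sum_mul, L.total, one_mul]

lemma LimM.E_val (L : LimM 2 δ) (V : Type) [Fintype V] (X : P2 V) :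
    L.E V (fun F => F X) = δ := L.dens _ _

lemma LimM.E_nonneg (L : LimM 2 δ) (V : Type) [Fintype V] (φ : (P2 V → ℝ) → ℝ)
    (h : ∀ F, BadFree F → 0 ≤ φ F) : 0 ≤ L.E V φ := by
  have := L.E_mono V (fun _ => 0) φ h
  rwa [L.E_const] at this

/-- pair correlations -/
noncomputable def LimM.G (L : LimM 2 δ) (V : Type) [Fintype V] (X Y : P2 V) : ℝ :=
  L.E V (fun F => F X * F Y)

lemma LimM.G_symm (L : LimM 2 δ) (V : Type) [Fintype V] (X Y : P2 V) : L.G V X Y = L.G V Y X := by
  unfold LimM.G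
  congr 1
  funext F
  ring

lemma LimM.G_self (L : LimM 2 δ) (V : Type) [Fintype V] (X : P2 V) : L.G V X X = δ := by
  refine Eq.trans ?_ (L.E_val V X)
  apply L.E_congr
  intro F hF
  rcases hF.zero_or_one X with h | h <;> rw [h] <;> norm_num

lemma LimM.G_nonneg (L : LimM 2 δ) (V : Type) [Fintype V] (X Y : P2 V) : 0 ≤ L.G V X Y :=
  L.E_nonneg V _ fun _ hF => mul_nonneg (hF.nonneg X) (hF.nonneg Y)

lemma LimM.G_le (L : LimM 2 δ) (V : Type) [Fintype V] (X Y : P2 V) : L.G V X Y ≤ δ := by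
  refine le_trans ?_ (L.E_val V X).le
  apply L.E_mono
  intro F hF
  exact mul_le_of_le_one_right (hF.nonneg X) (hF.le_one Y)

lemma LimM.G_bad (L : LimM 2 δ) (V : Type) [Fintype V] (X Y : P2 V) (h : Bad2 X Y) :
    L.G V X Y = 0 := by
  unfold LimM.G
  rw [L.E_congr V _ (fun _ => 0) (fun F hF => hF.bad X Y h), L.E_const]

lemma LimM.delta_nonneg (L : LimM 2 δ) : 0 ≤ δ := by
  have := L.G_nonneg Empty (fun _ _ => true) (fun _ _ => true)
  rwa [L.G_self] at this

lemma LimM.G_ext (L : LimM 2 δ) {V V' : Type} [Fintype V] [Fintype V'] (ι : V → V')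
    (hι : Function.Injective ι) (X Y : P2 V')
    (h : ∀ u v, ¬ (u ∈ Set.range ι ∧ v ∈ Set.range ι) → X u v = Y u v) :
    L.G V' X Y = L.G V (fun u v => X (ι u) (ι v)) (fun u v => Y (ι u) (ι v)) := by
  unfold LimM.G LimM.E
  rw [L.ext (Fintype.card V) (Fintype.card V')
    (fun j => Fintype.equivFin V' (ι ((Fintype.equivFin V).symm j)))]
  · apply Finset.sum_congr rfl
    intro f _
    have e1 : ∀ X : P2 V', (fun c => tr X ((fun j => Fintype.equivFin V'
        (ι ((Fintype.equivFin V).symm j))) ∘ c)) = tr (fun u v => X (ι u) (ι v)) := by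
      intro X
      funext c
      simp [tr]
    rw [e1, e1]
  · intro a b hab
    simpa using hι ((Fintype.equivFin V').injective hab)
  · intro c hc
    apply h
    rintro ⟨⟨u, hu⟩, ⟨v, hv⟩⟩
    apply hc
    refine ⟨fun i => Fintype.equivFin V (if i = 0 then u else v), ?_⟩
    funext i
    fin_cases i
    · simp [hu]
    · simp [hv]

/-- Correlation of two patterns made of two blocks: `P` and `Q` say on which of the four types of
cells the patterns are true (`true` stands for the first block). -/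
noncomputable def LimM.R (L : LimM 2 δ) (P Q : Bool → Bool → Bool) (m n : ℕ) : ℝ :=
  L.G (Fin m ⊕ Fin n) (fun u v => P u.isLeft v.isLeft) (fun u v => Q u.isLeft v.isLeft)

lemma LimM.G_block (L : LimM 2 δ) {V : Type} [Fintype V] {m n : ℕ} (ι : Fin m ⊕ Fin n → V)
    (hι : Function.Injective ι) (P Q : Bool → Bool → Bool) (X Y : P2 V)
    (hX : ∀ u v, X (ι u) (ι v) = P u.isLeft v.isLeft)
    (hY : ∀ u v, Y (ι u) (ι v) = Q u.isLeft v.isLeft)
    (h : ∀ u v, ¬ (u ∈ Set.range ι ∧ v ∈ Set.range ι) → X u v = Y u v) :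
    L.G V X Y = L.R P Q m n := by
  rw [L.G_ext ι hι X Y h]
  unfold LimM.R
  congr 1
  · funext u v
    exact hX u v
  · funext u v
    exact hY u v

/-- core, inside core plus increment (first block: increment, second block: core) -/
noncomputable def LimM.c (L : LimM 2 δ) (e s : ℕ) : ℝ :=
  L.R (fun a b => !a && !b) (fun _ _ => true) e s

/-- two blocks, inside the square of their union -/
noncomputable def LimM.t (L : LimM 2 δ) (e s : ℕ) : ℝ :=
  L.R (fun a b => a == b) (fun _ _ => true) e s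

/-- core, inside core plus both rectangles -/
noncomputable def LimM.t' (L : LimM 2 δ) (e s : ℕ) : ℝ :=
  L.R (fun a b => !a && !b) (fun a b => !(a && b)) e s

/-- two disjoint squares -/
noncomputable def LimM.b (L : LimM 2 δ) (e s : ℕ) : ℝ :=
  L.R (fun a b => a && b) (fun a b => !a && !b) e s

end Pool.Agent.Lib.MP_90b327_co
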