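import Mathlib
import Pool.Agent.Lib.MP_90b327_co.Abstract
import Pool.Agent.Lib.MP_90b327_co.T2Base

/-!
Square root gap for MP_90b327_co: definitions.
-/

set_option autoImplicit false

namespace Pool.Agent.Lib.MP_90b327_co.SG

open Pool.Agent.Lib.MP_90b327_co Finset

/-- A positive semidefinite kernel on patterns: all patterns have the same norm, and the
correlation of two patterns which agree outside an embedded vertex set only depends on their
traces on it. -/
structure Ker (d : ℕ) where
  D : ℝ
  G : (V : Type) → [Fintype V] → ((Fin d → V) → Bool) → ((Fin d → V) → Bool) → ℝ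
  symm : ∀ (V : Type) [Fintype V] (X Y : (Fin d → V) → Bool), G V X Y = G V Y X
  diag : ∀ (V : Type) [Fintype V] (X : (Fin d → V) → Bool), G V X X = D
  ext : ∀ (V V' : Type) [Fintype V] [Fintype V'] (ι : V → V'), Function.Injective ι →
    ∀ X Y : (Fin d → V') → Bool, (∀ c : Fin d → V', (∃ i, c i ∉ Set.range ι) → X c = Y c) →
      G V' X Y = G V (fun c => X (ι ∘ c)) (fun c => Y (ι ∘ c))
  psd : ∀ (V : Type) [Fintype V] (J : Type) [Fintype J] (X : J → (Fin d → V) → Bool) (a : J → ℝ),
    0 ≤ ∑ i, ∑ j, a i * a j * G V (X i) (X j)

/-- `n + 1` squares inside `[m]`; the centre of the star is the empty pattern. -/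
structure Star where
  n : ℕ
  m : ℕ
  s : Fin (n + 1) → ℕ

/-- The squares are non-empty and inside `[m]`. -/
def Star.Valid (C : Star) : Prop := ∀ l, 1 ≤ C.s l ∧ C.s l ≤ C.m

/-- the patterns of a star -/
def Star.pt (d : ℕ) (C : Star) : Option (Fin (C.n + 1)) → (Fin d → Fin C.m) → Bool
  | none, _ => false
  | some l, c => decide (∀ i, (c i).val < C.s l)

/-- signed weights: centre minus the mean of the leaves, halved -/
noncomputable def Star.co (C : Star) : Option (Fin (C.n + 1)) → ℝ
  | none => 1 / 2
  | some _ => -(1 / (2 * (C.n + 1 : ℝ)))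

/-- absolute weights -/
noncomputable def Star.ao (C : Star) : Option (Fin (C.n + 1)) → ℝ
  | none => 1 / 2
  | some _ => 1 / (2 * (C.n + 1 : ℝ))

/-- indices of a product of stars -/
def Idx : List Star → Type
  | [] => Unit
  | C :: L => Idx L × Option (Fin (C.n + 1))

instance instFintypeIdx : (L : List Star) → Fintype (Idx L)
  | [] => inferInstanceAs (Fintype Unit)
  | C :: L =>
    haveI := instFintypeIdx L
    inferInstanceAs (Fintype (Idx L × Option (Fin (C.n + 1))))

/-- signed weights on a product of stars -/
noncomputable def cw : (L : List Star) → Idx L → ℝ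
  | [], _ => 1
  | C :: L, u => cw L u.1 * C.co u.2

/-- absolute weights on a product of stars -/
noncomputable def aw : (L : List Star) → Idx L → ℝ
  | [], _ => 1
  | C :: L, u => aw L u.1 * C.ao u.2

/-- weighted sum of `S` over one of the two parity classes of a product of stars -/
noncomputable def dn : (L : List Star) → Bool → (Idx L → ℝ) → ℝ
  | [], b, S => if b then S () else 0
  | C :: L, b, S => 1 / 2 * dn L b (fun u => S (u, none)) +
      1 / (2 * (C.n + 1 : ℝ)) * ∑ l, dn L (!b) (fun u => S (u, some l))

/-- independence in a product of stars -/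
def Ind : (L : List Star) → (Idx L → ℝ) → Prop
  | [], _ => True
  | _ :: L, S => (∀ o, Ind L (fun u => S (u, o))) ∧ ∀ u l, S (u, none) * S (u, some l) = 0

/-- the energy of the signed sum over a star -/
noncomputable def Ker.quad {d : ℕ} (K : Ker d) (C : Star) : ℝ :=
  ∑ o, ∑ o', C.co o * C.co o' * K.G (Fin C.m) (C.pt d o) (C.pt d o')

/-- `X` on the cells of the first block, `Y` on the cells of the second one, nothing on the others -/
def glue {d : ℕ} {V W : Type} (X : (Fin d → V) → Bool) (Y : (Fin d → W) → Bool) :
    (Fin d → V ⊕ W) → Bool :=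
  fun c => if h : ∀ i, (c i).isLeft = true then X (fun i => (c i).getLeft (h i))
    else if h' : ∀ i, (c i).isRight = true then Y (fun i => (c i).getRight (h' i)) else false

/-- vertices of a product of stars -/
def TT : List Star → Type → Type
  | [], W => W
  | C :: L, W => TT L (Fin C.m ⊕ W)

instance instFintypeTT : (L : List Star) → (W : Type) → [Fintype W] → Fintype (TT L W)
  | [], W, h => h
  | C :: L, W, _ => instFintypeTT L (Fin C.m ⊕ W)

/-- patterns of a product of stars: disjoint union of the patterns of the stars and of `Y` -/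
def PP {d : ℕ} : (L : List Star) → {W : Type} → Idx L → ((Fin d → W) → Bool) →
    (Fin d → TT L W) → Bool
  | [], _, _, Y => Y
  | C :: L, _, u, Y => PP L u.1 (glue (C.pt d u.2) Y)

end Pool.Agent.Lib.MP_90b327_co.SG
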