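import Mathlib
import Pool.Agent.Lib.MP_90b327_co.SGDefs
import Pool.Agent.Lib.MP_90b327_co.SGClaim

/-!
Square root gap for MP_90b327_co: every kernel contracts under a suitable star.
-/

set_option autoImplicit false

namespace Pool.Agent.Lib.MP_90b327_co.SG

open Pool.Agent.Lib.MP_90b327_co Finset Filter Topology

variable {d : ℕ}

/-- the mean correlation of the centre with the leaves -/
noncomputable def Ker.cA (K : Ker d) (C : Star) : ℝ :=
  (1 / (C.n + 1 : ℝ)) * ∑ l, K.G (Fin C.m) (C.pt d none) (C.pt d (some l))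

/-- the mean correlation of two leaves -/
noncomputable def Ker.cB (K : Ker d) (C : Star) : ℝ :=
  (1 / (C.n + 1 : ℝ)) ^ 2 * ∑ l, ∑ l', K.G (Fin C.m) (C.pt d (some l)) (C.pt d (some l'))

lemma Ker.quad_eq (K : Ker d) (C : Star) :
    K.quad C = 1 / 4 * K.D - 1 / 2 * K.cA C + 1 / 4 * K.cB C := by
  unfold Ker.quad Ker.cA Ker.cB
  rw [Fintype.sum_option, Fintype.sum_option]
  simp only [Fintype.sum_option, Star.co]
  rw [Finset.sum_add_distrib, K.diag]
  have hN : (0 : ℝ) < C.n + 1 := by positivity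
  have e1 : ∑ l, 1 / 2 * -(1 / (2 * (C.n + 1 : ℝ))) *
      K.G (Fin C.m) (C.pt d none) (C.pt d (some l)) =
      -(1 / (4 * (C.n + 1 : ℝ))) * ∑ l, K.G (Fin C.m) (C.pt d none) (C.pt d (some l)) := by
    rw [Finset.mul_sum]
    apply Finset.sum_congr rfl
    intro l _
    field_simp
    ring
  have e2 : ∑ l, -(1 / (2 * (C.n + 1 : ℝ))) * (1 / 2) *
      K.G (Fin C.m) (C.pt d (some l)) (C.pt d none) =
      -(1 / (4 * (C.n + 1 : ℝ))) * ∑ l, K.G (Fin C.m) (C.pt d none) (C.pt d (some l)) := by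
    rw [Finset.mul_sum]
    apply Finset.sum_congr rfl
    intro l _
    rw [K.symm]
    field_simp
    ring
  have e3 : ∑ l, ∑ l', -(1 / (2 * (C.n + 1 : ℝ))) * -(1 / (2 * (C.n + 1 : ℝ))) *
      K.G (Fin C.m) (C.pt d (some l)) (C.pt d (some l')) =
      1 / 4 * ((1 / (C.n + 1 : ℝ)) ^ 2 *
        ∑ l, ∑ l', K.G (Fin C.m) (C.pt d (some l)) (C.pt d (some l'))) := by
    rw [← mul_assoc, Finset.mul_sum]
    apply Finset.sum_congr rfl
    intro l _
    rw [Finset.mul_sum]
    apply Finset.sum_congr rfl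
    intro l' _
    field_simp
    ring
  rw [e1, e2, e3]
  field_simp
  ring

lemma Ker.psd_AB (K : Ker d) (C : Star) (lam : ℝ) :
    0 ≤ K.cB C + 2 * lam * K.cA C + lam ^ 2 * K.D := by
  have h := K.psd (Fin C.m) (Option (Fin (C.n + 1))) (C.pt d)
    (fun o => match o with
      | none => lam
      | some _ => 1 / (C.n + 1 : ℝ))
  simp only [Fintype.sum_option] at h
  rw [Finset.sum_add_distrib, K.diag] at h
  have e1 : ∑ l, lam * (1 / (C.n + 1 : ℝ)) *
      K.G (Fin C.m) (C.pt d none) (C.pt d (some l)) = lam * K.cA C := by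
    unfold Ker.cA
    rw [← mul_assoc, Finset.mul_sum]
  have e2 : ∑ l, (1 / (C.n + 1 : ℝ)) * lam *
      K.G (Fin C.m) (C.pt d (some l)) (C.pt d none) = lam * K.cA C := by
    unfold Ker.cA
    rw [← mul_assoc, Finset.mul_sum]
    apply Finset.sum_congr rfl
    intro l _
    rw [K.symm]
    ring
  have e3 : ∑ l, ∑ l', (1 / (C.n + 1 : ℝ)) * (1 / (C.n + 1 : ℝ)) *
      K.G (Fin C.m) (C.pt d (some l)) (C.pt d (some l')) = K.cB C := by
    unfold Ker.cB
    rw [Finset.mul_sum]
    apply Finset.sum_congr rfl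
    intro l _
    rw [Finset.mul_sum]
    apply Finset.sum_congr rfl
    intro l' _
    ring
  rw [e1, e2, e3] at h
  linarith

lemma double_sum_le_con (n : ℕ) (F : Fin (n + 1) → Fin (n + 1) → ℝ) (δ U : ℝ)
    (hδ : ∀ l, F l l = δ) (hU0 : -δ ≤ U) (hU : ∀ l l', l ≠ l' → F l l' ≤ U) :
    (1 / (n + 1 : ℝ)) ^ 2 * ∑ l, ∑ l', F l l' ≤ 2 * δ / (n + 1) + U := by
  have h := double_sum_le n (fun l l' => F l l' + δ) (2 * δ) (U + δ)
    (fun l => by simp only [hδ]; ring) (by linarith) (fun l l' hll => by linarith [hU l l' hll])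
  have hN : (0 : ℝ) < n + 1 := by positivity
  have e : (1 / (n + 1 : ℝ)) ^ 2 * ∑ l : Fin (n + 1), ∑ l' : Fin (n + 1), (F l l' + δ) =
      (1 / (n + 1 : ℝ)) ^ 2 * ∑ l, ∑ l', F l l' + δ := by
    simp only [Finset.sum_add_distrib, Finset.sum_const, Finset.card_univ, Fintype.card_fin,
      nsmul_eq_mul, mul_add]
    congr 1
    push_cast
    field_simp
  rw [e] at h
  linarith

/-- correlation of the empty and the full pattern on `m` vertices -/
noncomputable def Ker.gam (K : Ker d) (m : ℕ) : ℝ := K.G (Fin m) (fun _ => false) (fun _ => true)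

lemma Ker.corr_center (K : Ker d) (C : Star) (hC : C.Valid) (l : Fin (C.n + 1)) :
    K.G (Fin C.m) (C.pt d none) (C.pt d (some l)) = K.gam (C.s l) := by
  unfold Ker.gam
  rw [K.ext (Fin (C.s l)) (Fin C.m) (Fin.castLE (hC l).2) (Fin.castLE_injective _)]
  · congr 1
    funext c
    simp only [Star.pt, Function.comp, decide_eq_true_eq]
    intro i
    simp
  · rintro c ⟨i, hi⟩
    simp only [Star.pt]
    symm
    rw [decide_eq_false_iff_not]
    intro hall
    apply hi
    exact ⟨⟨(c i).val, hall i⟩, by ext; simp⟩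

lemma Ker.corr_leaves (K : Ker d) {e a b M : ℕ} (hb : b = e + a) (hM : b ≤ M) :
    K.G (Fin M) (fun c => decide (∀ i, (c i).val < a)) (fun c => decide (∀ i, (c i).val < b)) =
      K.G (Fin e ⊕ Fin a) (pat (fun τ => decide (∀ i, τ i = none)) _) (pat (fun _ => true) _) := by
  let ι : Fin e ⊕ Fin a → Fin M :=
    Sum.elim (fun j => ⟨a + j.val, by omega⟩) (fun j => ⟨j.val, by omega⟩)
  have hι : Function.Injective ι := by
    rintro (x | x) (y | y) hab
    · simp only [ι, Sum.elim_inl, Fin.mk.injEq] at hab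
      congr 1
      apply Fin.ext
      omega
    · simp only [ι, Sum.elim_inl, Sum.elim_inr, Fin.mk.injEq] at hab
      omega
    · simp only [ι, Sum.elim_inl, Sum.elim_inr, Fin.mk.injEq] at hab
      omega
    · simp only [ι, Sum.elim_inr, Fin.mk.injEq] at hab
      congr 1
      apply Fin.ext
      omega
  rw [K.ext _ _ ι hι]
  · congr 1
    · funext c'
      simp only [pat, Function.comp]
      apply decide_eq_decide.mpr
      apply forall_congr'
      intro i
      rcases c' i with x | x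
      · simp [ι, collapse]
      · simp [ι, collapse]
    · funext c'
      simp only [pat, Function.comp, decide_eq_true_eq]
      intro i
      rcases c' i with x | x
      · simp only [ι, Sum.elim_inl]
        omega
      · simp only [ι, Sum.elim_inr]
        omega
  · rintro c' ⟨i, hi⟩
    have hbig : ¬ ((c' i).val < b) := by
      intro hlt
      apply hi
      by_cases h2 : (c' i).val < a
      · exact ⟨Sum.inr ⟨(c' i).val, h2⟩, rfl⟩
      · refine ⟨Sum.inl ⟨(c' i).val - a, by omega⟩, ?_⟩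
        apply Fin.ext
        simp only [ι, Sum.elim_inl]
        omega
    have h1 : decide (∀ i, (c' i).val < b) = false := by
      rw [decide_eq_false_iff_not, not_forall]
      exact ⟨i, hbig⟩
    have h2 : decide (∀ i, (c' i).val < a) = false := by
      rw [decide_eq_false_iff_not, not_forall]
      exact ⟨i, by omega⟩
    rw [h1, h2]

lemma Ker.sizes (K : Ker d) (hd : 1 ≤ d) (p : Ultrafilter ℕ+)
    (hp : ∀ A : ℕ+ → Prop, (∀ᶠ m in (p : Filter ℕ+), A m) ↔
      ∀ᶠ a in (p : Filter ℕ+), ∀ᶠ m in (p : Filter ℕ+), A (a + m)) (g : ℝ)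
    (hg : Tendsto (fun m : ℕ+ => K.gam m) p (𝓝 g)) (κ : ℝ) (hκ : 0 < κ) :
    ∃ C : Star, C.Valid ∧ g - κ ≤ K.cA C ∧ K.cA C ≤ g + κ ∧
      K.cB C ≤ (1 / 2 : ℝ) ^ (d - 1) * g + (1 - (1 / 2 : ℝ) ^ (d - 1)) * K.D + κ := by
  have hD := K.D_nonneg
  set ε : ℝ := (1 / 2 : ℝ) ^ (d - 1) with hε
  have hε0 : 0 < ε := by positivity
  have hε1 : ε ≤ 1 := pow_le_one₀ (by norm_num) (by norm_num)
  set η : ℝ := κ / 4 with hη
  have hη0 : 0 < η := by positivity
  obtain ⟨n, hn⟩ := exists_nat_gt (8 * K.D / κ)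
  have hN : (0 : ℝ) < n + 1 := by positivity
  have hDN : 2 * K.D / (n + 1) ≤ κ / 4 := by
    rw [div_le_iff₀ hN]
    rw [div_lt_iff₀ hκ] at hn
    nlinarith
  set U : ℝ := ε * (g + η) + (1 - ε) * K.D + η with hU
  have hgD : -K.D ≤ g :=
    ge_of_tendsto hg (Eventually.of_forall fun m => K.neg_le_G _ _ _)
  have hU0 : -K.D ≤ U := by
    rw [hU]
    nlinarith
  have hP : ∀ᶠ m : ℕ+ in (p : Filter ℕ+), g - η < K.gam m ∧ K.gam m < g + η :=
    (hg.eventually (lt_mem_nhds (by linarith))).and (hg.eventually (gt_mem_nhds (by linarith)))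
  have hQ : ∀ᶠ e : ℕ+ in (p : Filter ℕ+), ∀ᶠ m : ℕ+ in (p : Filter ℕ+),
      K.G (Fin (e : ℕ) ⊕ Fin (m : ℕ)) (pat (fun τ => decide (∀ i, τ i = none)) _)
        (pat (fun _ => true) _) ≤ U := by
    filter_upwards [hP] with e he
    have h2 := K.claim p hp (d - 1) (Fin (e : ℕ)) (fun τ => decide (∀ i, τ i = none))
      (fun _ => true) (by
        intro τ hτ
        simp only [decide_eq_true_eq]
        have hcard : nn τ = d := by
          have h1 : nn τ ≤ d := by
            unfold nn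
            calc _ ≤ (Finset.univ : Finset (Fin d)).card := Finset.card_le_card (Finset.filter_subset _ _)
              _ = d := by simp
          omega
        unfold nn at hcard
        have h3 : (Finset.univ.filter fun i => τ i = none) = Finset.univ := by
          apply Finset.eq_univ_of_card
          rw [hcard, Fintype.card_fin]
        intro i
        have : i ∈ (Finset.univ.filter fun i => τ i = none) := by rw [h3]; exact Finset.mem_univ i
        rwa [Finset.mem_filter_univ] at this) η hη0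
    filter_upwards [h2] with m hm
    refine hm.trans ?_
    have h0 : K.G (Fin (e : ℕ)) (base fun τ => decide (∀ i, τ i = none))
        (base fun _ => true) = K.gam e := by
      unfold Ker.gam
      congr 1
      funext c'
      simp only [base, decide_eq_false_iff_not, not_forall]
      exact ⟨⟨0, hd⟩, by simp⟩
    rw [h0, hU]
    have := mul_le_mul_of_nonneg_left he.2.le hε0.le
    linarith
  obtain ⟨s, -, hs1, hs2, -⟩ := exists_sizes p hp _ _ hP hQ n (fun _ => True)
      (fun _ _ => True) (Eventually.of_forall fun _ => trivial)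
      (Eventually.of_forall fun _ => Eventually.of_forall fun _ => trivial)
  have hle : ∀ l ≤ n, (s l : ℕ) ≤ (s 0 : ℕ) := by
    intro l hl
    rcases Nat.eq_zero_or_pos l with rfl | hpos
    · exact le_rfl
    · obtain ⟨e, he, -⟩ := hs2 0 l hpos hl
      rw [he]
      simp
  let C : Star := ⟨n, (s 0 : ℕ), fun l => (s l : ℕ)⟩
  have hC : C.Valid := fun l => ⟨(s l).2, hle l (Nat.lt_succ_iff.mp l.2)⟩
  have hsumc : ∀ x : ℝ, ∑ _l : Fin (n + 1), x = (n + 1 : ℝ) * x := by
    intro x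
    rw [Finset.sum_const, Finset.card_univ, Fintype.card_fin, nsmul_eq_mul]
    push_cast
    ring
  refine ⟨C, hC, ?_, ?_, ?_⟩
  · have h1 : (n + 1 : ℝ) * (g - κ) ≤ ∑ l, K.G (Fin C.m) (C.pt d none) (C.pt d (some l)) := by
      rw [← hsumc]
      apply Finset.sum_le_sum
      intro l _
      rw [K.corr_center C hC l]
      have := (hs1 l (Nat.lt_succ_iff.mp l.2)).1
      change g - κ ≤ K.gam (s l)
      linarith
    unfold Ker.cA
    change g - κ ≤ 1 / (n + 1 : ℝ) * _
    rw [one_div, ← div_eq_inv_mul, le_div_iff₀ hN]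
    linarith
  · have h1 : ∑ l, K.G (Fin C.m) (C.pt d none) (C.pt d (some l)) ≤ (n + 1 : ℝ) * (g + κ) := by
      rw [← hsumc]
      apply Finset.sum_le_sum
      intro l _
      rw [K.corr_center C hC l]
      have := (hs1 l (Nat.lt_succ_iff.mp l.2)).2
      change K.gam (s l) ≤ g + κ
      linarith
    unfold Ker.cA
    change 1 / (n + 1 : ℝ) * _ ≤ g + κ
    rw [one_div, ← div_eq_inv_mul, div_le_iff₀ hN]
    linarith
  · have hww : ∀ l l' : Fin (n + 1), l < l' →
        K.G (Fin C.m) (C.pt d (some l')) (C.pt d (some l)) ≤ U := by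
      intro l l' hll
      have hl' : (l' : ℕ) ≤ n := Nat.lt_succ_iff.mp l'.2
      have hl : (l : ℕ) ≤ n := Nat.lt_succ_iff.mp l.2
      obtain ⟨e, he, heQ⟩ := hs2 l l' hll hl'
      have he' : (s l : ℕ) = (e : ℕ) + (s l' : ℕ) := by rw [he]; simp
      have := K.corr_leaves (d := d) he' (hle l hl)
      change K.G (Fin (s 0 : ℕ)) (fun c => decide (∀ i, (c i).val < (s l' : ℕ)))
        (fun c => decide (∀ i, (c i).val < (s l : ℕ))) ≤ U
      rw [this]
      exact heQ
    have h := double_sum_le_con n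
      (fun l l' => K.G (Fin C.m) (C.pt d (some l)) (C.pt d (some l'))) K.D U
      (fun l => K.diag _ _) hU0 (by
        intro l l' hll
        rcases lt_or_gt_of_ne hll with h | h
        · rw [K.symm]
          exact hww l l' h
        · exact hww l' l h)
    unfold Ker.cB
    refine h.trans ?_
    rw [hU]
    have : ε * η ≤ η := mul_le_of_le_one_left hη0.le hε1
    nlinarith

lemma Ker.exists_gam_limit (K : Ker d) (p : Ultrafilter ℕ+) :
    ∃ g, Tendsto (fun m : ℕ+ => K.gam m) p (𝓝 g) := by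
  obtain ⟨a, ha⟩ := exists_limit p (fun m : ℕ+ => K.gam m + K.D) (2 * K.D)
    (fun m => by
      have := K.neg_le_G (Fin (m : ℕ)) (fun _ => false) (fun _ => true)
      unfold Ker.gam
      linarith)
    (fun m => by
      have := K.G_le (Fin (m : ℕ)) (fun _ => false) (fun _ => true)
      unfold Ker.gam
      linarith)
  refine ⟨a - K.D, ?_⟩
  have := ha.sub_const K.D
  simpa using this

lemma half_pow_pred (hd : 1 ≤ d) : (1 / 2 : ℝ) ^ (d - 1) = 2 * (1 / 2 : ℝ) ^ d := by
  obtain ⟨k, rfl⟩ : ∃ k, d = k + 1 := ⟨d - 1, by omega⟩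
  rw [Nat.add_sub_cancel, pow_succ]
  ring

lemma Ker.contract_aux (K : Ker d) (hd : 1 ≤ d) :
    ∃ g : ℝ, -(1 - 2 * (1 / 2 : ℝ) ^ d) * K.D ≤ g ∧
      ((∀ m : ℕ, 1 ≤ m → K.gam m = 0) → g = 0) ∧
      ∀ κ : ℝ, 0 < κ → ∃ C : Star, C.Valid ∧
        K.quad C ≤ 1 / 2 * (1 - (1 / 2 : ℝ) ^ d) * (K.D - g) + κ := by
  obtain ⟨p, hp⟩ := exists_idempotent
  obtain ⟨g, hg⟩ := K.exists_gam_limit p
  have hD := K.D_nonneg
  set h : ℝ := (1 / 2 : ℝ) ^ d with hh
  have hh0 : 0 < h := by positivity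
  have hh1 : h ≤ 1 / 2 := by
    rw [hh]
    calc (1 / 2 : ℝ) ^ d ≤ (1 / 2 : ℝ) ^ 1 := pow_le_pow_of_le_one (by norm_num) (by norm_num) hd
      _ = 1 / 2 := by norm_num
  have hs := K.sizes hd p hp g hg
  rw [half_pow_pred hd, ← hh] at hs
  refine ⟨g, ?_, ?_, ?_⟩
  · by_contra hcon
    push Not at hcon
    -- a small loss contradicts positivity
    set lam : ℝ := 1 - 2 * h with hlam
    have hlam0 : 0 ≤ lam := by linarith
    set t : ℝ := -lam * K.D - g with ht
    have ht0 : 0 < t := by linarith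
    obtain ⟨C, -, -, h2, h3⟩ := hs (t / 4) (by positivity)
    have h4 := K.psd_AB C lam
    have h5 : 2 * lam * K.cA C ≤ 2 * lam * (g + t / 4) :=
      mul_le_mul_of_nonneg_left h2 (by linarith)
    have h6 : g = -lam * K.D - t := by rw [ht]; ring
    have h7 : lam ≤ 1 := by linarith
    rw [h6] at h3 h5
    have h8 : 2 * h = 1 - lam := by rw [hlam]; ring
    rw [h8] at h3
    nlinarith
  · intro hbad
    refine tendsto_nhds_unique hg ?_
    apply (tendsto_const_nhds (x := (0 : ℝ))).congr'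
    filter_upwards with m
    exact (hbad m m.2).symm
  · intro κ hκ
    obtain ⟨C, hC, h1, -, h3⟩ := hs κ hκ
    refine ⟨C, hC, ?_⟩
    rw [K.quad_eq]
    linarith

theorem Ker.contract (K : Ker d) (hd : 1 ≤ d) (κ : ℝ) (hκ : 0 < κ) :
    ∃ C : Star, C.Valid ∧ K.quad C ≤ (1 - (1 / 2 : ℝ) ^ d) ^ 2 * K.D + κ := by
  obtain ⟨g, hg, -, hg2⟩ := K.contract_aux hd
  obtain ⟨C, hC, h⟩ := hg2 κ hκ
  refine ⟨C, hC, h.trans ?_⟩
  have hh1 : (1 / 2 : ℝ) ^ d ≤ 1 := pow_le_one₀ (by norm_num) (by norm_num)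
  have : 1 / 2 * (1 - (1 / 2 : ℝ) ^ d) * (K.D - g) ≤
      1 / 2 * (1 - (1 / 2 : ℝ) ^ d) * (K.D - -(1 - 2 * (1 / 2 : ℝ) ^ d) * K.D) := by
    apply mul_le_mul_of_nonneg_left _ (by linarith)
    linarith
  have e : 1 / 2 * (1 - (1 / 2 : ℝ) ^ d) * (K.D - -(1 - 2 * (1 / 2 : ℝ) ^ d) * K.D) =
      (1 - (1 / 2 : ℝ) ^ d) ^ 2 * K.D := by ring
  linarith

theorem Ker.contract_bad (K : Ker d) (hd : 1 ≤ d)
    (hbad : ∀ m : ℕ, 1 ≤ m → K.G (Fin m) (fun _ => false) (fun _ => true) = 0)
    (κ : ℝ) (hκ : 0 < κ) :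
    ∃ C : Star, C.Valid ∧ K.quad C ≤ 1 / 2 * (1 - (1 / 2 : ℝ) ^ d) * K.D + κ := by
  obtain ⟨g, -, hg1, hg2⟩ := K.contract_aux hd
  obtain ⟨C, hC, h⟩ := hg2 κ hκ
  refine ⟨C, hC, h.trans ?_⟩
  rw [hg1 hbad, sub_zero]

end Pool.Agent.Lib.MP_90b327_co.SG
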