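import Mathlib

/-!
# The final inequality
-/

set_option autoImplicit false

namespace Pool.Agent.Lib.MP_90b327_co.SG

open Finset Filter Topology

/-- the contradiction from the reduced inequality `x (9 - 4 √2) ≤ r (9 x - 4)` -/
lemma fin_aux {x r s : ℝ} (hx : 2.82 ≤ x) (hr : r * (x ^ 2 - 1) ≤ 0.36788 * x ^ 2)
    (hs : s < 1.41422) (h : x * (9 - 4 * s) ≤ r * (9 * x - 4)) : False := by
  have h1 : 0 < x := by linarith
  have h2 : 0 < x ^ 2 - 1 := by nlinarith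
  have h3 : 0 < 9 * x - 4 := by linarith
  have h4 : x * (9 - 4 * s) * (x ^ 2 - 1) ≤ 0.36788 * x ^ 2 * (9 * x - 4) := by
    calc x * (9 - 4 * s) * (x ^ 2 - 1) ≤ r * (9 * x - 4) * (x ^ 2 - 1) :=
          mul_le_mul_of_nonneg_right h h2.le
      _ = r * (x ^ 2 - 1) * (9 * x - 4) := by ring
      _ ≤ 0.36788 * x ^ 2 * (9 * x - 4) := mul_le_mul_of_nonneg_right hr h3.le
  have h5 : (9 - 4 * s) * (x ^ 2 - 1) ≤ 0.36788 * x * (9 * x - 4) := by
    have : x * ((9 - 4 * s) * (x ^ 2 - 1)) ≤ x * (0.36788 * x * (9 * x - 4)) := by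
      calc x * ((9 - 4 * s) * (x ^ 2 - 1)) = x * (9 - 4 * s) * (x ^ 2 - 1) := by ring
        _ ≤ _ := h4
        _ = x * (0.36788 * x * (9 * x - 4)) := by ring
    exact le_of_mul_le_mul_left this h1
  have h6 : (3.34312 : ℝ) * (x ^ 2 - 1) ≤ (9 - 4 * s) * (x ^ 2 - 1) :=
    mul_le_mul_of_nonneg_right (by linarith) h2.le
  nlinarith

theorem final_ineq (d : ℕ) (hd : 1 ≤ d) (δ : ℝ) (hδ : δ = 1 / 2 - 2 / (9 * Real.sqrt (2 ^ d)))
    (h : ∀ M : ℕ, 1 ≤ M → 1 / 4 - Real.sqrt M / 2 * (1 - 2 * δ) ≤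
      1 / 2 * (1 - (1 / 2 : ℝ) ^ d) ^ (2 * M - 1) * δ) : False := by
  obtain ⟨k, rfl⟩ : ∃ k, d = k + 1 := ⟨d - 1, by omega⟩
  have h1 := h (2 ^ k) Nat.one_le_two_pow
  have hexp : 2 * 2 ^ k - 1 = 2 ^ (k + 1) - 1 := by rw [pow_succ, mul_comm]
  rw [hexp] at h1
  push_cast at h1
  set y : ℝ := Real.sqrt (2 ^ k) with hy
  set s : ℝ := Real.sqrt 2 with hs
  set x : ℝ := Real.sqrt (2 ^ (k + 1)) with hx
  set r : ℝ := (1 - (1 / 2 : ℝ) ^ (k + 1)) ^ (2 ^ (k + 1) - 1) with hr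
  have hxy : x = s * y := by
    rw [hx, hs, hy, ← Real.sqrt_mul (by norm_num), pow_succ, mul_comm]
  have hs2 : s ^ 2 = 2 := Real.sq_sqrt (by norm_num)
  have hs0 : 0 < s := Real.sqrt_pos.mpr (by norm_num)
  have hy0 : 0 < y := Real.sqrt_pos.mpr (by positivity)
  have hx0 : 0 < x := Real.sqrt_pos.mpr (by positivity)
  have hx2 : x ^ 2 = 2 ^ (k + 1) := Real.sq_sqrt (by positivity)
  have hsl : 1.4142 < s := by
    by_contra hcon
    push Not at hcon
    nlinarith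
  have hsu : s < 1.41422 := by
    by_contra hcon
    push Not at hcon
    nlinarith
  -- the reduced inequality
  have h2 : x * (9 - 4 * s) ≤ r * (9 * x - 4) := by
    have e1 : y / 2 * (1 - 2 * δ) = s / 9 := by
      rw [hδ, hxy]
      field_simp
      nlinarith
    rw [e1, hδ] at h1
    have e2 : 1 / 2 * r * (1 / 2 - 2 / (9 * x)) = r * (9 * x - 4) / (36 * x) := by
      field_simp
      ring
    rw [e2, le_div_iff₀ (by positivity)] at h1
    nlinarith
  -- small cases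
  rcases Nat.lt_or_ge k 2 with hk | hk
  · interval_cases k
    · -- d = 1
      have hr1 : r = 1 / 2 := by rw [hr]; norm_num
      have hxs : x = s := by
        rw [hx, hs]; norm_num
      rw [hr1, hxs] at h2
      nlinarith
    · -- d = 2
      have hr1 : r = 27 / 64 := by rw [hr]; norm_num
      have hx4 : x = 2 := by
        have : x ^ 2 = 2 ^ 2 := by rw [hx2]
        exact (pow_left_inj₀ hx0.le (by norm_num) two_ne_zero).mp this
      rw [hr1, hx4] at h2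
      nlinarith
  · have hx8 : 8 ≤ x ^ 2 := by
      rw [hx2]
      have : (2 : ℝ) ^ 3 ≤ 2 ^ (k + 1) := pow_le_pow_right₀ (by norm_num) (by omega)
      linarith
    have hxl : 2.82 ≤ x := by
      by_contra hcon
      push Not at hcon
      nlinarith
    apply fin_aux hxl _ hsu h2
    -- `r (x² - 1) ≤ x² / e`
    have hN : (1 / 2 : ℝ) ^ (k + 1) = (x ^ 2)⁻¹ := by
      rw [hx2]
      simp
    have hz0 : 0 ≤ 1 - (x ^ 2)⁻¹ := by
      have : (x ^ 2)⁻¹ ≤ 1 := inv_le_one_of_one_le₀ (by linarith)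
      linarith
    have e1 : r * (1 - (x ^ 2)⁻¹) = (1 - (x ^ 2)⁻¹) ^ (2 ^ (k + 1)) := by
      rw [hr, hN, ← pow_succ, Nat.sub_add_cancel Nat.one_le_two_pow]
    have e2 : (1 - (x ^ 2)⁻¹) ^ (2 ^ (k + 1)) ≤ Real.exp (-1) := by
      have e3 : 1 - (x ^ 2)⁻¹ ≤ Real.exp (-(x ^ 2)⁻¹) := by
        have := Real.add_one_le_exp (-(x ^ 2)⁻¹)
        linarith
      calc (1 - (x ^ 2)⁻¹) ^ (2 ^ (k + 1)) ≤ (Real.exp (-(x ^ 2)⁻¹)) ^ (2 ^ (k + 1)) :=
            pow_le_pow_left₀ hz0 e3 _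
        _ = Real.exp (-1) := by
            rw [← Real.exp_nat_mul]
            congr 1
            push_cast
            rw [← hx2]
            field_simp
    have e4 : Real.exp (-1) ≤ 0.36788 := by
      have := Real.exp_neg_one_lt_d9
      linarith
    have e5 : r * (x ^ 2 - 1) = r * (1 - (x ^ 2)⁻¹) * x ^ 2 := by
      field_simp
    rw [e5, e1]
    apply mul_le_mul_of_nonneg_right (e2.trans e4) (by positivity)

end Pool.Agent.Lib.MP_90b327_co.SG
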