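import Mathlib

set_option autoImplicit false

/-!
# Isoperimetry in products of stars

A star has a centre (weight `1/2`) and `n + 1` leaves (weight `1/(2(n+1))` each). Let `S` be a set of
vertices of the product of `M ≥ 1` stars without two elements that differ in exactly one coordinate,
centre against leaf. If `T` is the density of `S` and `v` the difference of its densities in the
even and in the odd class, then `v ^ 2 ≥ 1/4 - √M (1/2 - T)`.
-/

namespace Pool.Agent.Lib.MP_90b327_co.StarIso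

open Finset

variable {n : ℕ}

/-- Weight on one star. -/
noncomputable def w1 (n : ℕ) : Option (Fin (n + 1)) → ℝ
  | none => 1 / 2
  | some _ => 1 / (2 * (n + 1))

/-- Sign on one star. -/
def s1 (n : ℕ) : Option (Fin (n + 1)) → ℝ
  | none => 1
  | some _ => -1

/-- The weight of a vertex of the product. -/
noncomputable def wt {M : ℕ} (u : Fin M → Option (Fin (n + 1))) : ℝ := ∏ l, w1 n (u l)

/-- The sign of a vertex of the product. -/
def sg {M : ℕ} (u : Fin M → Option (Fin (n + 1))) : ℝ := ∏ l, s1 n (u l)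

/-- Density. -/
noncomputable def TT {M : ℕ} (S : (Fin M → Option (Fin (n + 1))) → ℝ) : ℝ := ∑ u, wt u * S u

/-- Signed density. -/
noncomputable def VV {M : ℕ} (S : (Fin M → Option (Fin (n + 1))) → ℝ) : ℝ :=
  ∑ u, sg u * wt u * S u

lemma w1_nonneg (o : Option (Fin (n + 1))) : 0 ≤ w1 n o := by
  cases o <;> simp only [w1] <;> positivity

lemma wt_nonneg {M : ℕ} (u : Fin M → Option (Fin (n + 1))) : 0 ≤ wt u :=
  prod_nonneg fun l _ => w1_nonneg _

lemma sg_cases {M : ℕ} (u : Fin M → Option (Fin (n + 1))) : sg u = 1 ∨ sg u = -1 := by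
  unfold sg
  refine Finset.prod_induction (fun l => s1 n (u l)) (fun x => x = 1 ∨ x = -1) ?_ (Or.inl rfl) ?_
  · rintro a b (rfl | rfl) (rfl | rfl) <;> simp
  · intro l _
    cases u l
    · exact Or.inl rfl
    · exact Or.inr rfl

/-- Splitting of sums at the first coordinate. -/
lemma sum_cons {M : ℕ} (f : (Fin (M + 1) → Option (Fin (n + 1))) → ℝ) :
    ∑ u, f u = ∑ u, f (Fin.cons none u) + ∑ j : Fin (n + 1), ∑ u, f (Fin.cons (some j) u) := by
  rw [← (Fin.consEquiv (fun _ : Fin (M + 1) => Option (Fin (n + 1)))).sum_comp, Fintype.sum_prod_type,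
    Fintype.sum_option]
  rfl

lemma wt_cons {M : ℕ} (o : Option (Fin (n + 1))) (u : Fin M → Option (Fin (n + 1))) :
    wt (Fin.cons o u : Fin (M + 1) → Option (Fin (n + 1))) = w1 n o * wt u := by
  unfold wt
  rw [Fin.prod_univ_succ]
  simp

lemma sg_cons {M : ℕ} (o : Option (Fin (n + 1))) (u : Fin M → Option (Fin (n + 1))) :
    sg (Fin.cons o u : Fin (M + 1) → Option (Fin (n + 1))) = s1 n o * sg u := by
  unfold sg
  rw [Fin.prod_univ_succ]
  simp

/-- The average over the leaves. -/
noncomputable def av (n : ℕ) (f : Fin (n + 1) → ℝ) : ℝ := (∑ j, f j) / (n + 1)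

lemma TT_succ {M : ℕ} (S : (Fin (M + 1) → Option (Fin (n + 1))) → ℝ) :
    TT S = (TT (fun u => S (Fin.cons none u)) +
      av n fun j => TT fun u => S (Fin.cons (some j) u)) / 2 := by
  unfold TT av
  rw [sum_cons]
  simp only [wt_cons, w1, add_div]
  congr 1
  · rw [sum_div]
    exact sum_congr rfl fun u _ => by ring
  · rw [sum_div, sum_div]
    refine sum_congr rfl fun j _ => ?_
    rw [sum_div, sum_div]
    refine sum_congr rfl fun u _ => ?_
    field_simp

lemma VV_succ {M : ℕ} (S : (Fin (M + 1) → Option (Fin (n + 1))) → ℝ) :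
    VV S = (VV (fun u => S (Fin.cons none u)) -
      av n fun j => VV fun u => S (Fin.cons (some j) u)) / 2 := by
  unfold VV av
  rw [sum_cons]
  simp only [wt_cons, sg_cons, w1, s1]
  rw [sub_eq_add_neg, add_div]
  congr 1
  · rw [sum_div]
    exact sum_congr rfl fun u _ => by ring
  · rw [sum_div, ← sum_neg_distrib, sum_div]
    refine sum_congr rfl fun j _ => ?_
    rw [sum_div, ← sum_neg_distrib, sum_div]
    refine sum_congr rfl fun u _ => ?_
    field_simp

lemma sum_w1 : ∑ o, w1 n o = 1 := by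
  rw [Fintype.sum_option]
  simp only [w1, sum_const, card_univ, Fintype.card_fin, nsmul_eq_mul]
  push_cast
  field_simp
  ring

lemma TT_one {M : ℕ} : TT (fun _ : Fin M → Option (Fin (n + 1)) => (1 : ℝ)) = 1 := by
  induction M with
  | zero => simp [TT, wt]
  | succ M ih =>
    rw [TT_succ, ih]
    simp only [av, ih, sum_const, card_univ, Fintype.card_fin, nsmul_eq_mul]
    push_cast
    field_simp
    ring

lemma VV_one {M : ℕ} (hM : 1 ≤ M) : VV (fun _ : Fin M → Option (Fin (n + 1)) => (1 : ℝ)) = 0 := by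
  obtain ⟨M, rfl⟩ := Nat.exists_eq_add_of_le' hM
  rw [VV_succ]
  simp only [av, sum_const, card_univ, Fintype.card_fin, nsmul_eq_mul]
  push_cast
  field_simp
  ring

/-- Density in the even class. -/
noncomputable def PP {M : ℕ} (S : (Fin M → Option (Fin (n + 1))) → ℝ) : ℝ := TT S + VV S

/-- Density in the odd class. -/
noncomputable def QQ {M : ℕ} (S : (Fin M → Option (Fin (n + 1))) → ℝ) : ℝ := TT S - VV S

lemma PP_eq {M : ℕ} (S : (Fin M → Option (Fin (n + 1))) → ℝ) :
    PP S = ∑ u, (1 + sg u) * wt u * S u := by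
  unfold PP TT VV
  rw [← sum_add_distrib]
  exact sum_congr rfl fun u _ => by ring

lemma QQ_eq {M : ℕ} (S : (Fin M → Option (Fin (n + 1))) → ℝ) :
    QQ S = ∑ u, (1 - sg u) * wt u * S u := by
  unfold QQ TT VV
  rw [← sum_sub_distrib]
  exact sum_congr rfl fun u _ => by ring

lemma PP_mono {M : ℕ} {S S' : (Fin M → Option (Fin (n + 1))) → ℝ} (h : ∀ u, S u ≤ S' u) :
    PP S ≤ PP S' := by
  rw [PP_eq, PP_eq]
  refine sum_le_sum fun u _ => mul_le_mul_of_nonneg_left (h u) (mul_nonneg ?_ (wt_nonneg u))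
  rcases sg_cases u with h | h <;> rw [h] <;> norm_num

lemma QQ_mono {M : ℕ} {S S' : (Fin M → Option (Fin (n + 1))) → ℝ} (h : ∀ u, S u ≤ S' u) :
    QQ S ≤ QQ S' := by
  rw [QQ_eq, QQ_eq]
  refine sum_le_sum fun u _ => mul_le_mul_of_nonneg_left (h u) (mul_nonneg ?_ (wt_nonneg u))
  rcases sg_cases u with h | h <;> rw [h] <;> norm_num

lemma PP_one {M : ℕ} (hM : 1 ≤ M) : PP (fun _ : Fin M → Option (Fin (n + 1)) => (1 : ℝ)) = 1 := by
  rw [PP, TT_one, VV_one hM, add_zero]

lemma QQ_one {M : ℕ} (hM : 1 ≤ M) : QQ (fun _ : Fin M → Option (Fin (n + 1)) => (1 : ℝ)) = 1 := by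
  rw [QQ, TT_one, VV_one hM, sub_zero]

lemma PP_add {M : ℕ} (S S' : (Fin M → Option (Fin (n + 1))) → ℝ) :
    PP (fun u => S u + S' u) = PP S + PP S' := by
  rw [PP_eq, PP_eq, PP_eq, ← sum_add_distrib]
  exact sum_congr rfl fun u _ => by ring

lemma QQ_add {M : ℕ} (S S' : (Fin M → Option (Fin (n + 1))) → ℝ) :
    QQ (fun u => S u + S' u) = QQ S + QQ S' := by
  rw [QQ_eq, QQ_eq, QQ_eq, ← sum_add_distrib]
  exact sum_congr rfl fun u _ => by ring

lemma PP_zero {M : ℕ} : PP (fun _ : Fin M → Option (Fin (n + 1)) => (0 : ℝ)) = 0 := by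
  rw [PP_eq]; simp

lemma QQ_zero {M : ℕ} : QQ (fun _ : Fin M → Option (Fin (n + 1)) => (0 : ℝ)) = 0 := by
  rw [QQ_eq]; simp

lemma av_add (f g : Fin (n + 1) → ℝ) : av n (fun j => f j + g j) = av n f + av n g := by
  unfold av
  rw [sum_add_distrib, add_div]

lemma av_sub (f g : Fin (n + 1) → ℝ) : av n (fun j => f j - g j) = av n f - av n g := by
  unfold av
  rw [sum_sub_distrib, sub_div]

lemma av_mul (r : ℝ) (f : Fin (n + 1) → ℝ) : av n (fun j => r * f j) = r * av n f := by
  unfold av
  rw [← mul_sum, mul_div_assoc]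

lemma av_const (r : ℝ) : av n (fun _ => r) = r := by
  unfold av
  simp only [sum_const, card_univ, Fintype.card_fin, nsmul_eq_mul]
  push_cast
  field_simp

lemma av_mono {f g : Fin (n + 1) → ℝ} (h : ∀ j, f j ≤ g j) : av n f ≤ av n g := by
  unfold av
  exact div_le_div_of_nonneg_right (sum_le_sum fun j _ => h j) (by positivity)

lemma PP_succ {M : ℕ} (S : (Fin (M + 1) → Option (Fin (n + 1))) → ℝ) :
    PP S = (PP (fun u => S (Fin.cons none u)) +
      av n fun j => QQ fun u => S (Fin.cons (some j) u)) / 2 := by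
  unfold PP QQ
  rw [TT_succ, VV_succ, av_sub]
  ring

lemma QQ_succ {M : ℕ} (S : (Fin (M + 1) → Option (Fin (n + 1))) → ℝ) :
    QQ S = (QQ (fun u => S (Fin.cons none u)) +
      av n fun j => PP fun u => S (Fin.cons (some j) u)) / 2 := by
  unfold PP QQ
  rw [TT_succ, VV_succ, av_add]
  ring

/-- `S` is (the indicator of) an independent set. -/
structure Indep {M : ℕ} (S : (Fin M → Option (Fin (n + 1))) → ℝ) : Prop where
  zero_or_one : ∀ u, S u = 0 ∨ S u = 1
  ind : ∀ (u : Fin M → Option (Fin (n + 1))) (l : Fin M) (j : Fin (n + 1)), u l = none →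
    S u * S (Function.update u l (some j)) = 0

lemma Indep.section {M : ℕ} {S : (Fin (M + 1) → Option (Fin (n + 1))) → ℝ} (h : Indep S)
    (o : Option (Fin (n + 1))) : Indep (fun u => S (Fin.cons o u)) := by
  refine ⟨fun u => h.zero_or_one _, fun u l j hl => ?_⟩
  have := h.ind (Fin.cons o u) l.succ j (by simpa using hl)
  rwa [← Fin.cons_update] at this

lemma Indep.disj {M : ℕ} {S : (Fin (M + 1) → Option (Fin (n + 1))) → ℝ} (h : Indep S)
    (j : Fin (n + 1)) (u : Fin M → Option (Fin (n + 1))) :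
    S (Fin.cons none u) * S (Fin.cons (some j) u) = 0 := by
  have := h.ind (Fin.cons none u) 0 j (by simp)
  rwa [Fin.update_cons_zero] at this

lemma Indep.add_le {M : ℕ} {S : (Fin (M + 1) → Option (Fin (n + 1))) → ℝ} (h : Indep S)
    (j : Fin (n + 1)) (u : Fin M → Option (Fin (n + 1))) :
    S (Fin.cons none u) + S (Fin.cons (some j) u) ≤ 1 := by
  have h1 := h.disj j u
  rcases h.zero_or_one (Fin.cons none u) with h2 | h2 <;>
    rcases h.zero_or_one (Fin.cons (some j) u) with h3 | h3 <;> rw [h2, h3] at h1 ⊢ <;> norm_num at *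

lemma PP_nonneg {M : ℕ} {S : (Fin M → Option (Fin (n + 1))) → ℝ} (h : Indep S) : 0 ≤ PP S := by
  rw [← PP_zero (n := n) (M := M)]
  exact PP_mono fun u => by rcases h.zero_or_one u with h | h <;> rw [h] <;> norm_num

lemma QQ_nonneg {M : ℕ} {S : (Fin M → Option (Fin (n + 1))) → ℝ} (h : Indep S) : 0 ≤ QQ S := by
  rw [← QQ_zero (n := n) (M := M)]
  exact QQ_mono fun u => by rcases h.zero_or_one u with h | h <;> rw [h] <;> norm_num

/-- The algebraic identity behind the induction step. -/
lemma step_alg (a b : ℝ) (A B : Fin (n + 1) → ℝ) (hA : ∀ j, a + A j ≤ 1) (hB : ∀ j, b + B j ≤ 1) :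
    (a + av n B) / 2 * ((b + av n A) / 2) ≤
      (a * b + av n fun j => A j * B j) / 2 +
        (1 - (a + av n B) / 2 - (b + av n A) / 2) ^ 2 / 2 := by
  have hx : ∀ j, 0 ≤ (1 - a - A j) * (1 - b - B j) := fun j =>
    mul_nonneg (by linarith [hA j]) (by linarith [hB j])
  have h1 : 0 ≤ av n fun j => (1 - a - A j) * (1 - b - B j) := by
    rw [← av_const (n := n) 0]
    exact av_mono hx
  have h2 : (av n fun j => (1 - a - A j) * (1 - b - B j)) =
      (1 - a) * (1 - b) - (1 - a) * av n B - (1 - b) * av n A + av n fun j => A j * B j := by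
    rw [← av_mul, ← av_mul, ← av_const (n := n) ((1 - a) * (1 - b)), ← av_sub, ← av_sub, ← av_add]
    congr 1
    funext j
    ring
  rw [h2] at h1
  have hx2 : 0 ≤ (1 - a - b - (1 - a - av n A)) ^ 2 + (1 - a - b - (1 - b - av n B)) ^ 2 := by
    positivity
  have e : (a * b + av n fun j => A j * B j) / 2 + (1 - (a + av n B) / 2 - (b + av n A) / 2) ^ 2 / 2
      - (a + av n B) / 2 * ((b + av n A) / 2) =
      (((1 - a) * (1 - b) - (1 - a) * av n B - (1 - b) * av n A + av n fun j => A j * B j)) / 2 +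
      ((1 - a - b - (1 - a - av n A)) ^ 2 + (1 - a - b - (1 - b - av n B)) ^ 2) / 8 := by
    ring
  linarith

/-- The isoperimetric inequality: the product of the two densities. -/
theorem prod_le {M : ℕ} (hM : 1 ≤ M) (S : (Fin M → Option (Fin (n + 1))) → ℝ) (h : Indep S) :
    PP S + QQ S ≤ 1 ∧ PP S * QQ S ≤ (√M - 1) / 2 * (1 - PP S - QQ S) := by
  induction M, hM using Nat.le_induction with
  | base =>
    rw [PP_succ, QQ_succ]
    have e1 : ∀ F : (Fin 0 → Option (Fin (n + 1))) → ℝ, TT F = F Fin.elim0 := fun F => by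
      unfold TT wt
      rw [Fintype.sum_eq_single (Fin.elim0 : Fin 0 → Option (Fin (n + 1)))]
      · simp
      · intro x hx
        exact absurd (Subsingleton.elim _ _) hx
    have e2 : ∀ F : (Fin 0 → Option (Fin (n + 1))) → ℝ, VV F = F Fin.elim0 := fun F => by
      unfold VV wt sg
      rw [Fintype.sum_eq_single (Fin.elim0 : Fin 0 → Option (Fin (n + 1)))]
      · simp
      · intro x hx
        exact absurd (Subsingleton.elim _ _) hx
    simp only [PP, QQ, e1, e2]
    set a := S (Fin.cons none Fin.elim0) with ha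
    have h1 : ∀ j, a * S (Fin.cons (some j) Fin.elim0) = 0 := fun j => h.disj j _
    have h2 : ∀ j, a + S (Fin.cons (some j) Fin.elim0) ≤ 1 := fun j => h.add_le j _
    have h3 : a * av n (fun j => S (Fin.cons (some j) Fin.elim0)) = 0 := by
      rw [← av_mul, ← av_const (n := n) 0]
      congr 1
      funext j
      exact h1 j
    have h4 : a + av n (fun j => S (Fin.cons (some j) Fin.elim0)) ≤ 1 := by
      rw [← av_const (n := n) a, ← av_add, ← av_const (n := n) 1]
      exact av_mono fun j => h2 j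
    have h5 : av n (fun j => S (Fin.cons (some j) Fin.elim0) + S (Fin.cons (some j) Fin.elim0)) =
        2 * av n (fun j => S (Fin.cons (some j) Fin.elim0)) := by
      rw [av_add]; ring
    have h6 : av n (fun j => S (Fin.cons (some j) Fin.elim0) - S (Fin.cons (some j) Fin.elim0)) =
        0 := by
      rw [av_sub]; ring
    rw [h5, h6]
    refine ⟨by linarith, ?_⟩
    rw [Nat.cast_one, Real.sqrt_one]
    nlinarith
  | succ M hM ih =>
    set a := PP (fun u => S (Fin.cons none u)) with ha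
    set b := QQ (fun u => S (Fin.cons none u)) with hb
    set A : Fin (n + 1) → ℝ := fun j => PP fun u => S (Fin.cons (some j) u) with hA
    set B : Fin (n + 1) → ℝ := fun j => QQ fun u => S (Fin.cons (some j) u) with hB
    have eP : PP S = (a + av n B) / 2 := PP_succ S
    have eQ : QQ S = (b + av n A) / 2 := QQ_succ S
    obtain ⟨c1, c2⟩ := ih _ (h.section none)
    have hi : ∀ j, A j + B j ≤ 1 ∧ A j * B j ≤ (√M - 1) / 2 * (1 - A j - B j) := fun j =>
      ih _ (h.section (some j))
    have hA1 : ∀ j, a + A j ≤ 1 := fun j => by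
      rw [ha, hA, ← PP_add, ← PP_one (n := n) hM]
      exact PP_mono fun u => h.add_le j u
    have hB1 : ∀ j, b + B j ≤ 1 := fun j => by
      rw [hb, hB, ← QQ_add, ← QQ_one (n := n) hM]
      exact QQ_mono fun u => h.add_le j u
    have hP0 := PP_nonneg h
    have hQ0 := QQ_nonneg h
    have hav : av n A + av n B ≤ 1 := by
      rw [← av_add, ← av_const (n := n) 1]
      exact av_mono fun j => (hi j).1
    have h1 : PP S + QQ S ≤ 1 := by
      rw [eP, eQ]
      linarith
    refine ⟨h1, ?_⟩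
    have h2 : (av n fun j => A j * B j) ≤ (√M - 1) / 2 * (1 - av n A - av n B) := by
      have : (√M - 1) / 2 * (1 - av n A - av n B) =
          av n fun j => (√M - 1) / 2 * (1 - A j - B j) := by
        rw [av_mul, av_sub, av_sub, av_const]
      rw [this]
      exact av_mono fun j => (hi j).2
    have h3 := step_alg a b A B hA1 hB1
    rw [← eP, ← eQ] at h3
    -- `p q ≤ k E + E² / 2`
    set E := 1 - PP S - QQ S with hE
    have hE0 : 0 ≤ E := by linarith
    have h4 : PP S * QQ S ≤ (√M - 1) / 2 * E + E ^ 2 / 2 := by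
      have e3 : E = ((1 - a - b) + (1 - av n A - av n B)) / 2 := by
        rw [hE, eP, eQ]; ring
      have h6 : (a * b + av n fun j => A j * B j) / 2 ≤ (√M - 1) / 2 * E := by
        rw [e3]
        nlinarith
      linarith
    have h5 : PP S * QQ S ≤ (1 - E) ^ 2 / 4 := by
      have : 1 - E = PP S + QQ S := by rw [hE]; ring
      rw [this]
      nlinarith [sq_nonneg (PP S - QQ S)]
    -- the numbers
    have hM0 : (0 : ℝ) ≤ M := Nat.cast_nonneg M
    have hr0 : 0 ≤ √(M : ℝ) := Real.sqrt_nonneg _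
    have hs0 : 0 ≤ √((M + 1 : ℕ) : ℝ) := Real.sqrt_nonneg _
    have hr2 : √(M : ℝ) ^ 2 = M := Real.sq_sqrt hM0
    have hs2 : √((M + 1 : ℕ) : ℝ) ^ 2 = M + 1 := by
      rw [Real.sq_sqrt (Nat.cast_nonneg _)]; push_cast; ring
    set r := √(M : ℝ)
    set s := √((M + 1 : ℕ) : ℝ)
    have hrs : (s - r) * (s + r) = 1 := by linear_combination hs2 - hr2
    have hrs' : r ≤ s := Real.sqrt_le_sqrt (by push_cast; linarith)
    have hs1 : 1 ≤ s := by
      have : (1 : ℝ) = √1 := Real.sqrt_one.symm
      rw [this]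
      exact Real.sqrt_le_sqrt (by push_cast; linarith)
    have hsr : s - r ≤ 1 := by
      calc s - r = (s - r) * 1 := (mul_one _).symm
        _ ≤ (s - r) * (s + r) := mul_le_mul_of_nonneg_left (by linarith) (by linarith)
        _ = 1 := hrs
    rcases le_total E (s - r) with hc | hc
    · calc PP S * QQ S ≤ (r - 1) / 2 * E + E ^ 2 / 2 := h4
        _ ≤ (s - 1) / 2 * E := by nlinarith [mul_nonneg hE0 (sub_nonneg.2 hc)]
    · have hE1 : E ≤ 1 := by
        rw [hE]; linarith
      have h7 : (1 - E) ^ 2 ≤ 2 * (s - 1) * E := by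
        -- the function `(1 - E)² / E` decreases
        have h8 : (1 - (s - r)) ^ 2 = 2 * (s - 1) * (s - r) := by linear_combination -hrs
        have h9 : (1 - E) ^ 2 ≤ (1 - (s - r)) ^ 2 := by
          apply pow_le_pow_left₀ (by linarith)
          linarith
        calc (1 - E) ^ 2 ≤ (1 - (s - r)) ^ 2 := h9
          _ = 2 * (s - 1) * (s - r) := h8
          _ ≤ 2 * (s - 1) * E := mul_le_mul_of_nonneg_left hc (by linarith)
      linarith

/-- The isoperimetric inequality, final form. -/
theorem star_iso {M : ℕ} (hM : 1 ≤ M) (S : (Fin M → Option (Fin (n + 1))) → ℝ) (h : Indep S) :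
    1 / 4 - √M * (1 / 2 - TT S) ≤ VV S ^ 2 := by
  obtain ⟨h1, h2⟩ := prod_le hM S h
  have e1 : PP S + QQ S = 2 * TT S := by unfold PP QQ; ring
  have e2 : PP S * QQ S = TT S ^ 2 - VV S ^ 2 := by unfold PP QQ; ring
  have hs : 0 ≤ √(M : ℝ) := Real.sqrt_nonneg _
  have e3 : 1 - PP S - QQ S = 1 - 2 * TT S := by linarith
  rw [e2, e3] at h2
  nlinarith [sq_nonneg (1 - 2 * TT S)]

end Pool.Agent.Lib.MP_90b327_co.StarIso
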