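import Mathlib
import Pool.Agent.Lib.MP_90b327_co.SGDefs
import Pool.Agent.Lib.MP_90b327_co.StarIso

/-!
Square root gap for MP_90b327_co: isoperimetry in a product of stars (module ISO).
-/

set_option autoImplicit false

namespace Pool.Agent.Lib.MP_90b327_co.SG

open Pool.Agent.Lib.MP_90b327_co Finset
open Pool.Agent.Lib.MP_90b327_co.StarIso (av av_add av_sub av_mul av_const av_mono step_alg)

lemma dn_cons (C : Star) (L : List Star) (b : Bool) (S : Idx (C :: L) → ℝ) :
    dn (C :: L) b S = 1 / 2 * dn L b (fun u => S (u, none)) +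
      1 / (2 * (C.n + 1 : ℝ)) * ∑ l, dn L (!b) (fun u => S (u, some l)) := rfl

lemma dn_add (L : List Star) : ∀ (b : Bool) (S S' : Idx L → ℝ),
    dn L b (fun u => S u + S' u) = dn L b S + dn L b S' := by
  induction L with
  | nil => intro b S S'; cases b <;> simp [dn]
  | cons C L ih =>
    intro b S S'
    rw [dn_cons, dn_cons, dn_cons]
    have h1 := ih b (fun u => S (u, none)) (fun u => S' (u, none))
    have h2 : ∑ l : Fin (C.n + 1), dn L (!b) (fun u => S (u, some l) + S' (u, some l)) =
        ∑ l : Fin (C.n + 1), dn L (!b) (fun u => S (u, some l)) +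
          ∑ l : Fin (C.n + 1), dn L (!b) (fun u => S' (u, some l)) := by
      rw [← sum_add_distrib]
      exact sum_congr rfl fun l _ => ih _ _ _
    rw [h2]
    erw [h1]
    ring

lemma dn_mono (L : List Star) : ∀ (b : Bool) (S S' : Idx L → ℝ), (∀ u, S u ≤ S' u) →
    dn L b S ≤ dn L b S' := by
  induction L with
  | nil => intro b S S' h; cases b <;> simp [dn, h]
  | cons C L ih =>
    intro b S S' h
    rw [dn_cons, dn_cons]
    have h1 := ih b (fun u => S (u, none)) (fun u => S' (u, none)) (fun u => h _)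
    have h2 : ∑ l : Fin (C.n + 1), dn L (!b) (fun u => S (u, some l)) ≤
        ∑ l : Fin (C.n + 1), dn L (!b) (fun u => S' (u, some l)) :=
      sum_le_sum fun l _ => ih _ _ _ (fun u => h _)
    have h3 : (0 : ℝ) ≤ 1 / (2 * (C.n + 1 : ℝ)) := by positivity
    have h4 := mul_le_mul_of_nonneg_left h2 h3
    linarith

lemma dn_zero (L : List Star) : ∀ (b : Bool), dn L b (fun _ => 0) = 0 := by
  induction L with
  | nil => intro b; cases b <;> simp [dn]
  | cons C L ih =>
    intro b
    rw [dn_cons]
    simp [ih]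

lemma dn_one_sum (L : List Star) : dn L true (fun _ => 1) + dn L false (fun _ => 1) = 1 := by
  induction L with
  | nil => simp [dn]
  | cons C L ih =>
    rw [dn_cons, dn_cons]
    simp only [sum_const, card_univ, Fintype.card_fin, nsmul_eq_mul, Bool.not_true, Bool.not_false]
    push_cast
    have h : (C.n + 1 : ℝ) ≠ 0 := by positivity
    field_simp
    linarith

lemma dn_one (L : List Star) (hL : L ≠ []) : ∀ (b : Bool), dn L b (fun _ => 1) = 1 / 2 := by
  obtain ⟨C, L, rfl⟩ := List.exists_cons_of_ne_nil hL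
  intro b
  have h0 := dn_one_sum L
  rw [dn_cons]
  simp only [sum_const, card_univ, Fintype.card_fin, nsmul_eq_mul]
  push_cast
  have h : (C.n + 1 : ℝ) ≠ 0 := by positivity
  cases b
  · simp only [Bool.not_false]
    field_simp
    linarith
  · simp only [Bool.not_true]
    field_simp
    linarith

lemma dn_nonneg (L : List Star) (b : Bool) (S : Idx L → ℝ) (h : ∀ u, 0 ≤ S u) :
    0 ≤ dn L b S := by
  rw [← dn_zero L b]
  exact dn_mono L b _ _ h

lemma sum_cw (L : List Star) : ∀ S : Idx L → ℝ,
    ∑ u, cw L u * S u = dn L true S - dn L false S := by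
  induction L with
  | nil =>
    intro S
    have : ∑ u : Idx [], cw [] u * S u = cw [] () * S () := by
      exact Fintype.sum_unique (ι := Unit) (fun u => cw [] u * S u)
    rw [this]
    simp [cw, dn]
  | cons C L ih =>
    intro S
    rw [dn_cons, dn_cons]
    have h1 : ∑ u : Idx (C :: L), cw (C :: L) u * S u =
        ∑ u : Idx L, ∑ o : Option (Fin (C.n + 1)), cw L u * C.co o * S (u, o) :=
      Fintype.sum_prod_type (α₁ := Idx L) (α₂ := Option (Fin (C.n + 1)))
        (fun u => cw (C :: L) u * S u)
    rw [h1]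
    have h2 : ∀ u : Idx L, ∑ o : Option (Fin (C.n + 1)), cw L u * C.co o * S (u, o) =
        1 / 2 * (cw L u * S (u, none)) -
          1 / (2 * (C.n + 1 : ℝ)) * ∑ l : Fin (C.n + 1), cw L u * S (u, some l) := by
      intro u
      rw [Fintype.sum_option]
      simp only [Star.co]
      rw [mul_sum, sub_eq_add_neg, ← sum_neg_distrib]
      congr 1
      · ring
      · exact sum_congr rfl fun l _ => by ring
    rw [sum_congr rfl fun u _ => h2 u, sum_sub_distrib, ← mul_sum, ← mul_sum, sum_comm]
    rw [ih (fun u => S (u, none)), sum_congr rfl fun l _ => ih (fun u => S (u, some l)),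
      sum_sub_distrib]
    simp only [Bool.not_true, Bool.not_false]
    ring

lemma sum_awS (L : List Star) : ∀ S : Idx L → ℝ,
    ∑ u, aw L u * S u = dn L true S + dn L false S := by
  induction L with
  | nil =>
    intro S
    have : ∑ u : Idx [], aw [] u * S u = aw [] () * S () := by
      exact Fintype.sum_unique (ι := Unit) (fun u => aw [] u * S u)
    rw [this]
    simp [aw, dn]
  | cons C L ih =>
    intro S
    rw [dn_cons, dn_cons]
    have h1 : ∑ u : Idx (C :: L), aw (C :: L) u * S u =
        ∑ u : Idx L, ∑ o : Option (Fin (C.n + 1)), aw L u * C.ao o * S (u, o) :=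
      Fintype.sum_prod_type (α₁ := Idx L) (α₂ := Option (Fin (C.n + 1)))
        (fun u => aw (C :: L) u * S u)
    rw [h1]
    have h2 : ∀ u : Idx L, ∑ o : Option (Fin (C.n + 1)), aw L u * C.ao o * S (u, o) =
        1 / 2 * (aw L u * S (u, none)) +
          1 / (2 * (C.n + 1 : ℝ)) * ∑ l : Fin (C.n + 1), aw L u * S (u, some l) := by
      intro u
      rw [Fintype.sum_option]
      simp only [Star.ao]
      rw [mul_sum]
      congr 1
      · ring
      · exact sum_congr rfl fun l _ => by ring
    rw [sum_congr rfl fun u _ => h2 u, sum_add_distrib, ← mul_sum, ← mul_sum, sum_comm]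
    rw [ih (fun u => S (u, none)), sum_congr rfl fun l _ => ih (fun u => S (u, some l)),
      sum_add_distrib]
    simp only [Bool.not_true, Bool.not_false]
    ring

theorem sum_aw (L : List Star) : ∑ u, aw L u = 1 := by
  have h := sum_awS L (fun _ => 1)
  rw [dn_one_sum] at h
  simpa using h

lemma av_lin (n : ℕ) (k : ℝ) (A B : Fin (n + 1) → ℝ) :
    k * (1 - av n A - av n B) = av n fun j => k * (1 - A j - B j) := by
  rw [av_mul, av_sub, av_sub, av_const]

/-- The numbers of the induction step. -/
lemma num_step (M : ℕ) (E X : ℝ) (hE0 : 0 ≤ E) (hE1 : E ≤ 1)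
    (h4 : X ≤ (√(M : ℝ) - 1) / 2 * E + E ^ 2 / 2) (h5 : X ≤ (1 - E) ^ 2 / 4) :
    X ≤ (√((M + 1 : ℕ) : ℝ) - 1) / 2 * E := by
  have hM0 : (0 : ℝ) ≤ M := Nat.cast_nonneg M
  have hr0 : 0 ≤ √(M : ℝ) := Real.sqrt_nonneg _
  have hs0 : 0 ≤ √((M + 1 : ℕ) : ℝ) := Real.sqrt_nonneg _
  have hr2 : √(M : ℝ) ^ 2 = M := Real.sq_sqrt hM0
  have hs2 : √((M + 1 : ℕ) : ℝ) ^ 2 = M + 1 := by
    rw [Real.sq_sqrt (Nat.cast_nonneg _)]; push_cast; ring
  set r := √(M : ℝ)
  set s := √((M + 1 : ℕ) : ℝ)
  have hrs : (s - r) * (s + r) = 1 := by linear_combination hs2 - hr2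
  have hrs' : r ≤ s := Real.sqrt_le_sqrt (by push_cast; linarith)
  have hs1 : 1 ≤ s := by
    have : (1 : ℝ) = √1 := Real.sqrt_one.symm
    rw [this]
    exact Real.sqrt_le_sqrt (by push_cast; linarith)
  have hsr : s - r ≤ 1 := by
    calc s - r = (s - r) * 1 := (mul_one _).symm
      _ ≤ (s - r) * (s + r) := mul_le_mul_of_nonneg_left (by linarith) (by linarith)
      _ = 1 := hrs
  rcases le_total E (s - r) with hc | hc
  · calc X ≤ (r - 1) / 2 * E + E ^ 2 / 2 := h4
      _ ≤ (s - 1) / 2 * E := by nlinarith [mul_nonneg hE0 (sub_nonneg.2 hc)]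
  · have h7 : (1 - E) ^ 2 ≤ 2 * (s - 1) * E := by
      have h8 : (1 - (s - r)) ^ 2 = 2 * (s - 1) * (s - r) := by linear_combination -hrs
      have h9 : (1 - E) ^ 2 ≤ (1 - (s - r)) ^ 2 := by
        apply pow_le_pow_left₀ (by linarith)
        linarith
      calc (1 - E) ^ 2 ≤ (1 - (s - r)) ^ 2 := h9
        _ = 2 * (s - 1) * (s - r) := h8
        _ ≤ 2 * (s - 1) * E := mul_le_mul_of_nonneg_left hc (by linarith)
    linarith

theorem iso (L : List Star) (hL : L ≠ []) (S : Idx L → ℝ) (h01 : ∀ u, S u = 0 ∨ S u = 1)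
    (hS : Ind L S) :
    2 * dn L true S + 2 * dn L false S ≤ 1 ∧
      2 * dn L true S * (2 * dn L false S) ≤
        (Real.sqrt L.length - 1) / 2 * (1 - 2 * dn L true S - 2 * dn L false S) := by
  induction L with
  | nil => exact absurd rfl hL
  | cons C L ih =>
    have hnn : ∀ u, 0 ≤ S u := fun u => by rcases h01 u with h | h <;> rw [h] <;> norm_num
    have hadd : ∀ (l : Fin (C.n + 1)) (u : Idx L), S (u, none) + S (u, some l) ≤ 1 := by
      intro l u
      have h1 : S (u, none) * S (u, some l) = 0 := hS.2 u l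
      rcases h01 (u, none) with h2 | h2 <;> rcases h01 (u, some l) with h3 | h3 <;>
        rw [h2, h3] at h1 ⊢ <;> norm_num at *
    set a := 2 * dn L true (fun u => S (u, none)) with ha
    set b := 2 * dn L false (fun u => S (u, none)) with hb
    set A : Fin (C.n + 1) → ℝ := fun l => 2 * dn L true (fun u => S (u, some l)) with hA
    set B : Fin (C.n + 1) → ℝ := fun l => 2 * dn L false (fun u => S (u, some l)) with hB
    have hn : (C.n + 1 : ℝ) ≠ 0 := by positivity
    have eP : 2 * dn (C :: L) true S = (a + av C.n B) / 2 := by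
      rw [dn_cons, ha, hB]
      unfold av
      rw [← mul_sum]
      simp only [Bool.not_true]
      field_simp
    have eQ : 2 * dn (C :: L) false S = (b + av C.n A) / 2 := by
      rw [dn_cons, hb, hA]
      unfold av
      rw [← mul_sum]
      simp only [Bool.not_false]
      field_simp
    have hP0 : 0 ≤ 2 * dn (C :: L) true S := by
      have := dn_nonneg (C :: L) true S hnn
      linarith
    have hQ0 : 0 ≤ 2 * dn (C :: L) false S := by
      have := dn_nonneg (C :: L) false S hnn
      linarith
    by_cases hL0 : L = []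
    · subst hL0
      have e1 : a = 2 * S ((), none) := by rw [ha]; simp [dn]
      have e2 : b = 0 := by rw [hb]; simp [dn]
      have e3 : ∀ l, A l = 2 * S ((), some l) := fun l => by rw [hA]; simp [dn]
      have e4 : ∀ l, B l = 0 := fun l => by rw [hB]; simp [dn]
      have e5 : av C.n B = 0 := by
        rw [← av_const (n := C.n) 0]; congr 1; funext l; exact e4 l
      have h3 : a * av C.n A = 0 := by
        rw [← av_mul, ← av_const (n := C.n) 0]
        congr 1
        funext j
        rw [e1, e3]
        have h1 : S ((), none) * S ((), some j) = 0 := hS.2 () j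
        linear_combination 4 * h1
      have h4 : a + av C.n A ≤ 2 := by
        rw [← av_const (n := C.n) a, ← av_add, ← av_const (n := C.n) 2]
        refine av_mono fun j => ?_
        rw [e1, e3]
        have h1 : S ((), none) + S ((), some j) ≤ 1 := hadd j ()
        linarith
      rw [eP, eQ, e2, e5]
      refine ⟨by linarith, ?_⟩
      have : (((C :: ([] : List Star)).length : ℕ) : ℝ) = 1 := by simp
      rw [this, Real.sqrt_one]
      nlinarith
    · have hL1 : ∀ b, dn L b (fun _ => 1) = 1 / 2 := dn_one L hL0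
      obtain ⟨c1, c2⟩ := ih hL0 (fun u => S (u, none)) (fun u => h01 _) (hS.1 none)
      have hi : ∀ j, A j + B j ≤ 1 ∧ A j * B j ≤ (√(L.length : ℝ) - 1) / 2 * (1 - A j - B j) :=
        fun j => ih hL0 (fun u => S (u, some j)) (fun u => h01 _) (hS.1 (some j))
      have hA1 : ∀ j, a + A j ≤ 1 := fun j => by
        have h1 := dn_mono L true (fun u => S (u, none) + S (u, some j)) (fun _ => 1)
          (fun u => hadd j u)
        rw [hL1, dn_add] at h1
        rw [ha, hA]
        linarith
      have hB1 : ∀ j, b + B j ≤ 1 := fun j => by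
        have h1 := dn_mono L false (fun u => S (u, none) + S (u, some j)) (fun _ => 1)
          (fun u => hadd j u)
        rw [hL1, dn_add] at h1
        rw [hb, hB]
        linarith
      have hav : av C.n A + av C.n B ≤ 1 := by
        rw [← av_add, ← av_const (n := C.n) 1]
        exact av_mono fun j => (hi j).1
      have h1 : 2 * dn (C :: L) true S + 2 * dn (C :: L) false S ≤ 1 := by
        rw [eP, eQ]
        have := c1
        linarith
      refine ⟨h1, ?_⟩
      have h2 : (av C.n fun j => A j * B j) ≤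
          (√(L.length : ℝ) - 1) / 2 * (1 - av C.n A - av C.n B) := by
        rw [av_lin]
        exact av_mono fun j => (hi j).2
      have h3 := step_alg a b A B hA1 hB1
      rw [← eP, ← eQ] at h3
      set E := 1 - 2 * dn (C :: L) true S - 2 * dn (C :: L) false S with hE
      have hE0 : 0 ≤ E := by linarith
      have h4 : 2 * dn (C :: L) true S * (2 * dn (C :: L) false S) ≤
          (√(L.length : ℝ) - 1) / 2 * E + E ^ 2 / 2 := by
        have e3 : E = ((1 - a - b) + (1 - av C.n A - av C.n B)) / 2 := by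
          rw [hE, eP, eQ]; ring
        have h6 : (a * b + av C.n fun j => A j * B j) / 2 ≤ (√(L.length : ℝ) - 1) / 2 * E := by
          rw [e3]
          have c2' : a * b ≤ (√(L.length : ℝ) - 1) / 2 * (1 - a - b) := c2
          linarith
        linarith
      have h5 : 2 * dn (C :: L) true S * (2 * dn (C :: L) false S) ≤ (1 - E) ^ 2 / 4 := by
        have : 1 - E = 2 * dn (C :: L) true S + 2 * dn (C :: L) false S := by rw [hE]; ring
        rw [this]
        nlinarith [sq_nonneg (2 * dn (C :: L) true S - 2 * dn (C :: L) false S)]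
      have hE1 : E ≤ 1 := by rw [hE]; linarith
      exact num_step L.length E _ hE0 hE1 h4 h5

theorem iso_var (L : List Star) (hL : L ≠ []) (S : Idx L → ℝ) (h01 : ∀ u, S u = 0 ∨ S u = 1)
    (hS : Ind L S) :
    1 / 4 - Real.sqrt L.length / 2 * (1 - 2 * ∑ u, aw L u * S u) ≤ (∑ u, cw L u * S u) ^ 2 := by
  obtain ⟨_, h2⟩ := iso L hL S h01 hS
  rw [sum_awS, sum_cw]
  nlinarith

end Pool.Agent.Lib.MP_90b327_co.SG
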