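import Mathlib
import Pool.Agent.Lib.MP_90b327_co.SGDefs
import Pool.Agent.Lib.MP_90b327_co.SGContract

/-!
Square root gap for MP_90b327_co: iteration of the contraction over a product of stars.
-/

set_option autoImplicit false

namespace Pool.Agent.Lib.MP_90b327_co.SG

open Pool.Agent.Lib.MP_90b327_co Finset Filter Topology

variable {d : ℕ}

lemma cell_cases {V W : Type} (c : Fin d → V ⊕ W) :
    (∃ c' : Fin d → V, c = Sum.inl ∘ c') ∨ (∃ c' : Fin d → W, c = Sum.inr ∘ c') ∨
      (¬ (∀ i, (c i).isLeft = true) ∧ ¬ ∀ i, (c i).isRight = true) := by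
  by_cases h : ∀ i, (c i).isLeft = true
  · left
    refine ⟨fun i => (c i).getLeft (h i), ?_⟩
    funext i
    simp
  · by_cases h' : ∀ i, (c i).isRight = true
    · right
      left
      refine ⟨fun i => (c i).getRight (h' i), ?_⟩
      funext i
      simp
    · exact Or.inr (Or.inr ⟨h, h'⟩)

lemma glue_inl {V W : Type} (X : (Fin d → V) → Bool) (Y : (Fin d → W) → Bool) (c : Fin d → V) :
    glue X Y (Sum.inl ∘ c) = X c := by
  unfold glue
  rw [dif_pos (fun i => by simp)]
  rfl

lemma glue_inr (hd : 1 ≤ d) {V W : Type} (X : (Fin d → V) → Bool) (Y : (Fin d → W) → Bool)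
    (c : Fin d → W) : glue X Y (Sum.inr ∘ c) = Y c := by
  unfold glue
  rw [dif_neg, dif_pos (fun i => by simp)]
  · rfl
  · intro h
    have := h ⟨0, hd⟩
    simp at this

lemma glue_mixed {V W : Type} (X : (Fin d → V) → Bool) (Y : (Fin d → W) → Bool)
    (c : Fin d → V ⊕ W) (h : ¬ ∀ i, (c i).isLeft = true) (h' : ¬ ∀ i, (c i).isRight = true) :
    glue X Y c = false := by
  unfold glue
  rw [dif_neg h, dif_neg h']

lemma glue_congr_left {V W : Type} (X X' : (Fin d → V) → Bool) (Y : (Fin d → W) → Bool)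
    (c : Fin d → V ⊕ W) (h : ¬ ∀ i, (c i).isLeft = true) : glue X Y c = glue X' Y c := by
  unfold glue
  rw [dif_neg h, dif_neg h]

lemma glue_map (hd : 1 ≤ d) {V W W' : Type} (X : (Fin d → V) → Bool) (Y : (Fin d → W') → Bool)
    (ι : W → W') :
    (fun c => glue X Y (Sum.map id ι ∘ c)) = glue X (fun c => Y (ι ∘ c)) := by
  funext c
  rcases cell_cases c with ⟨c', rfl⟩ | ⟨c', rfl⟩ | ⟨h, h'⟩
  · rw [glue_inl]
    exact glue_inl X Y c'
  · rw [glue_inr hd]
    exact glue_inr hd X Y (ι ∘ c')
  · rw [glue_mixed _ _ _ h h']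
    apply glue_mixed
    · intro hall
      apply h
      intro i
      have := hall i
      simpa using this
    · intro hall
      apply h'
      intro i
      have := hall i
      simpa using this

lemma not_isLeft_of_not_range {V W : Type} (c : Fin d → V ⊕ W)
    (h : ∃ i, c i ∉ Set.range (Sum.inl : V → V ⊕ W)) : ¬ ∀ i, (c i).isLeft = true := by
  obtain ⟨i, hi⟩ := h
  intro hall
  apply hi
  have := hall i
  rcases hci : c i with v | w
  · exact ⟨v, rfl⟩
  · rw [hci] at this
    simp at this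

/-- the derived kernel: signed sum over a star -/
noncomputable def Ker.star (K : Ker d) (hd : 1 ≤ d) (C : Star) : Ker d where
  D := K.quad C
  G := fun V _ X Y => ∑ o, ∑ o', C.co o * C.co o' *
    K.G (Fin C.m ⊕ V) (glue (C.pt d o) X) (glue (C.pt d o') Y)
  symm := by
    intro V _ X Y
    rw [Finset.sum_comm]
    apply Finset.sum_congr rfl
    intro o _
    apply Finset.sum_congr rfl
    intro o' _
    rw [K.symm]
    ring
  diag := by
    intro V _ X
    unfold Ker.quad
    apply Finset.sum_congr rfl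
    intro o _
    apply Finset.sum_congr rfl
    intro o' _
    congr 1
    rw [K.ext (Fin C.m) (Fin C.m ⊕ V) Sum.inl Sum.inl_injective]
    · congr 1
      · funext c
        exact glue_inl _ _ c
      · funext c
        exact glue_inl _ _ c
    · intro c hc
      exact glue_congr_left _ _ _ c (not_isLeft_of_not_range c hc)
  ext := by
    intro V V' _ _ ι hι X Y hXY
    apply Finset.sum_congr rfl
    intro o _
    apply Finset.sum_congr rfl
    intro o' _
    congr 1
    rw [K.ext (Fin C.m ⊕ V) (Fin C.m ⊕ V') (Sum.map id ι)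
      (Function.Injective.sumMap Function.injective_id hι)]
    · rw [glue_map hd, glue_map hd]
    · rintro c ⟨i, hi⟩
      have hnl : ¬ ∀ i, (c i).isLeft = true := by
        intro hall
        apply hi
        have := hall i
        rcases hci : c i with v | w
        · exact ⟨Sum.inl v, rfl⟩
        · rw [hci] at this
          simp at this
      rcases cell_cases c with ⟨c', rfl⟩ | ⟨c', rfl⟩ | ⟨h, h'⟩
      · exact absurd (fun i => by simp) hnl
      · rw [glue_inr hd, glue_inr hd]
        apply hXY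
        refine ⟨i, ?_⟩
        rintro ⟨v, hv⟩
        apply hi
        exact ⟨Sum.inr v, by simp [hv]⟩
      · rw [glue_mixed _ _ _ h h', glue_mixed _ _ _ h h']
  psd := by
    intro V _ J _ X a
    have h := K.psd (Fin C.m ⊕ V) (J × Option (Fin (C.n + 1)))
      (fun q => glue (C.pt d q.2) (X q.1)) (fun q => a q.1 * C.co q.2)
    refine h.trans (le_of_eq ?_)
    rw [Fintype.sum_prod_type]
    apply Finset.sum_congr rfl
    intro i _
    simp_rw [Fintype.sum_prod_type, Finset.mul_sum]
    rw [Finset.sum_comm]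
    apply Finset.sum_congr rfl
    intro j _
    apply Finset.sum_congr rfl
    intro o _
    apply Finset.sum_congr rfl
    intro o' _
    ring

/-- the kernel after a list of stars -/
noncomputable def Ker.iter (K : Ker d) (hd : 1 ≤ d) : List Star → Ker d
  | [] => K
  | C :: L => (Ker.iter K hd L).star hd C

lemma Ker.iter_G (K : Ker d) (hd : 1 ≤ d) (L : List Star) :
    ∀ (W : Type) [Fintype W] (Y Z : (Fin d → W) → Bool), (K.iter hd L).G W Y Z =
      ∑ u, ∑ u', cw L u * cw L u' * K.G (TT L W) (PP L u Y) (PP L u' Z) := by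
  induction L with
  | nil =>
    intro W _ Y Z
    change K.G W Y Z = ∑ _u : Unit, ∑ _u' : Unit, (1 : ℝ) * 1 * K.G W Y Z
    simp
  | cons C L ih =>
    intro W _ Y Z
    change ∑ o, ∑ o', C.co o * C.co o' *
      (K.iter hd L).G (Fin C.m ⊕ W) (glue (C.pt d o) Y) (glue (C.pt d o') Z) =
      ∑ u : Idx L × Option (Fin (C.n + 1)), ∑ u' : Idx L × Option (Fin (C.n + 1)),
        (cw L u.1 * C.co u.2) * (cw L u'.1 * C.co u'.2) *
          K.G (TT L (Fin C.m ⊕ W)) (PP L u.1 (glue (C.pt d u.2) Y))
            (PP L u'.1 (glue (C.pt d u'.2) Z))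
    simp_rw [ih, Fintype.sum_prod_type_right, Finset.mul_sum]
    apply Finset.sum_congr rfl
    intro o _
    rw [Finset.sum_comm]
    apply Finset.sum_congr rfl
    intro u _
    apply Finset.sum_congr rfl
    intro o' _
    apply Finset.sum_congr rfl
    intro u' _
    ring

theorem Ker.chain (K : Ker d) (hd : 1 ≤ d)
    (hbad : ∀ m : ℕ, 1 ≤ m → K.G (Fin m) (fun _ => false) (fun _ => true) = 0) (M : ℕ) :
    ∀ κ : ℝ, 0 < κ → ∃ L : List Star, L.length = M + 1 ∧ (∀ C ∈ L, C.Valid) ∧
      (K.iter hd L).D ≤ 1 / 2 * (1 - (1 / 2 : ℝ) ^ d) ^ (2 * M + 1) * K.D + κ := by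
  have hh0 : 0 < (1 / 2 : ℝ) ^ d := by positivity
  have hh1 : (1 / 2 : ℝ) ^ d ≤ 1 := pow_le_one₀ (by norm_num) (by norm_num)
  induction M with
  | zero =>
    intro κ hκ
    obtain ⟨C, hC, h⟩ := K.contract_bad hd hbad κ hκ
    refine ⟨[C], rfl, by simpa using hC, ?_⟩
    change K.quad C ≤ _
    simpa using h
  | succ M ih =>
    intro κ hκ
    obtain ⟨L, hL1, hL2, hL3⟩ := ih (κ / 2) (by positivity)
    obtain ⟨C, hC, h⟩ := (K.iter hd L).contract hd (κ / 2) (by positivity)
    refine ⟨C :: L, by simp [hL1], ?_, ?_⟩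
    · intro C' hC'
      rcases List.mem_cons.mp hC' with rfl | h'
      · exact hC
      · exact hL2 C' h'
    · change (K.iter hd L).quad C ≤ _
      refine h.trans ?_
      have h1 : (1 - (1 / 2 : ℝ) ^ d) ^ 2 * (K.iter hd L).D ≤
          (1 - (1 / 2 : ℝ) ^ d) ^ 2 * (1 / 2 * (1 - (1 / 2 : ℝ) ^ d) ^ (2 * M + 1) * K.D + κ / 2) :=
        mul_le_mul_of_nonneg_left hL3 (by positivity)
      have h2 : (1 - (1 / 2 : ℝ) ^ d) ^ 2 ≤ 1 := pow_le_one₀ (by linarith) (by linarith)
      have h3 : (1 - (1 / 2 : ℝ) ^ d) ^ 2 * (κ / 2) ≤ κ / 2 :=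
        mul_le_of_le_one_left (by positivity) h2
      have e : 1 / 2 * (1 - (1 / 2 : ℝ) ^ d) ^ (2 * (M + 1) + 1) * K.D =
          (1 - (1 / 2 : ℝ) ^ d) ^ 2 * (1 / 2 * (1 - (1 / 2 : ℝ) ^ d) ^ (2 * M + 1) * K.D) := by
        rw [show 2 * (M + 1) + 1 = 2 + (2 * M + 1) by ring, pow_add]
        ring
      rw [e]
      linarith

/-! ### Bad pairs -/

lemma badPair_glue_right (hd : 1 ≤ d) {V W : Type} (A : (Fin d → V) → Bool)
    {X Y : (Fin d → W) → Bool} (h : BadPair X Y) : BadPair (glue A X) (glue A Y) := by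
  obtain ⟨γ, ⟨v, hv⟩, h1, h2, h3⟩ := h
  refine ⟨Sum.elim (fun _ => False) γ, ⟨Sum.inr v, hv⟩, ?_, ?_, ?_⟩
  · intro c hc
    rcases cell_cases c with ⟨c', rfl⟩ | ⟨c', rfl⟩ | ⟨h, h'⟩
    · exact (hc ⟨0, hd⟩).elim
    · rw [glue_inr hd]
      exact h1 c' hc
    · rw [glue_mixed _ _ _ h h']
  · intro c hc
    rcases cell_cases c with ⟨c', rfl⟩ | ⟨c', rfl⟩ | ⟨h, h'⟩
    · exact (hc ⟨0, hd⟩).elim
    · rw [glue_inr hd]
      exact h2 c' hc
    · exfalso
      apply h'
      intro i
      have := hc i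
      rcases hci : c i with v | w
      · rw [hci] at this
        exact this.elim
      · rfl
  · intro c hc
    rcases cell_cases c with ⟨c', rfl⟩ | ⟨c', rfl⟩ | ⟨h, h'⟩
    · rw [glue_inl, glue_inl]
    · rw [glue_inr hd, glue_inr hd]
      exact h3 c' hc
    · rw [glue_mixed _ _ _ h h', glue_mixed _ _ _ h h']

lemma badPair_glue_left {V W : Type} (A : (Fin d → W) → Bool)
    {X Y : (Fin d → V) → Bool} (h : BadPair X Y) : BadPair (glue X A) (glue Y A) := by
  obtain ⟨γ, ⟨v, hv⟩, h1, h2, h3⟩ := h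
  have hleft : ∀ c : Fin d → V ⊕ W, (∀ i, Sum.elim γ (fun _ => False) (c i)) →
      ∀ i, (c i).isLeft = true := by
    intro c hc i
    have := hc i
    rcases hci : c i with v | w
    · rfl
    · rw [hci] at this
      exact this.elim
  refine ⟨Sum.elim γ (fun _ => False), ⟨Sum.inl v, hv⟩, ?_, ?_, ?_⟩
  · intro c hc
    have h4 : c = Sum.inl ∘ (fun i => (c i).getLeft (hleft c hc i)) := by
      funext i
      simp
    rw [h4, glue_inl]
    apply h1
    intro i
    have := hc i
    rw [h4] at this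
    exact this
  · intro c hc
    have h4 : c = Sum.inl ∘ (fun i => (c i).getLeft (hleft c hc i)) := by
      funext i
      simp
    rw [h4, glue_inl]
    apply h2
    intro i
    have := hc i
    rw [h4] at this
    exact this
  · intro c hc
    by_cases h : ∀ i, (c i).isLeft = true
    · have h4 : c = Sum.inl ∘ (fun i => (c i).getLeft (h i)) := by
        funext i
        simp
      rw [h4, glue_inl, glue_inl]
      apply h3
      intro h5
      apply hc
      intro i
      rw [h4]
      exact h5 i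
    · exact glue_congr_left _ _ _ c h

lemma badPair_PP (hd : 1 ≤ d) (L : List Star) : ∀ {W : Type} (u : Idx L)
    {X Y : (Fin d → W) → Bool}, BadPair X Y → BadPair (PP L u X) (PP L u Y) := by
  induction L with
  | nil =>
    intro W u X Y h
    exact h
  | cons C L ih =>
    intro W u X Y h
    exact ih u.1 (badPair_glue_right hd _ h)

lemma Star.badPair (C : Star) (hC : C.Valid) (l : Fin (C.n + 1)) :
    BadPair (C.pt d none) (C.pt d (some l)) := by
  obtain ⟨h1, h2⟩ := hC l
  refine ⟨fun v => v.val < C.s l, ⟨⟨0, by omega⟩, by simp only; omega⟩, ?_, ?_, ?_⟩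
  · intro c _
    rfl
  · intro c hc
    simp only [Star.pt, decide_eq_true_eq]
    exact hc
  · intro c hc
    simp only [Star.pt, decide_eq_false_iff_not]
    exact hc

lemma ind_of_bad (hd : 1 ≤ d) (L : List Star) (hL : ∀ C ∈ L, C.Valid) :
    ∀ {W : Type} (Y : (Fin d → W) → Bool) (F : ((Fin d → TT L W) → Bool) → ℝ),
      (∀ X X', BadPair X X' → F X * F X' = 0) → Ind L (fun u => F (PP L u Y)) := by
  induction L with
  | nil =>
    intro W Y F _
    trivial
  | cons C L ih =>
    intro W Y F hF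
    refine ⟨?_, ?_⟩
    · intro o
      exact ih (fun C' hC' => hL C' (List.mem_cons_of_mem _ hC')) (glue (C.pt d o) Y) F hF
    · intro u l
      apply hF
      apply badPair_PP hd L u
      exact badPair_glue_left Y (C.badPair (hL C (List.mem_cons_self ..)) l)

end Pool.Agent.Lib.MP_90b327_co.SG
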