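import Mathlib
import Pool.Agent.Lib.MP_90b327_co.SGLink
import Pool.Agent.Lib.MP_90b327_co.SGIso
import Pool.Agent.Lib.MP_90b327_co.T2Base

/-!
Square root gap for MP_90b327_co: the inequality for the limit object.
-/

set_option autoImplicit false

namespace Pool.Agent.Lib.MP_90b327_co.SG

open Pool.Agent.Lib.MP_90b327_co Finset Filter Topology

variable {d : ℕ} {δ : ℝ}

/-- transport of a pattern to `Fin (card V)` -/
noncomputable def trd {V : Type} [Fintype V] (X : (Fin d → V) → Bool) : Pat d (Fintype.card V) :=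
  fun c => X ((Fintype.equivFin V).symm ∘ c)

lemma badPair_trd {V : Type} [Fintype V] {X Y : (Fin d → V) → Bool} (h : BadPair X Y) :
    BadPair (trd X) (trd Y) := by
  obtain ⟨γ, ⟨v, hv⟩, h1, h2, h3⟩ := h
  refine ⟨fun j => γ ((Fintype.equivFin V).symm j), ⟨Fintype.equivFin V v, by simpa using hv⟩,
    ?_, ?_, ?_⟩
  · intro c hc
    exact h1 _ hc
  · intro c hc
    exact h2 _ hc
  · intro c hc
    exact h3 _ hc

/-- the kernel of a limit object -/
noncomputable def ofLimM (L : LimM d δ) : Ker d where
  D := δ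
  G := fun V _ X Y => ∑ f, L.w (Fintype.card V) f * (bv (f (trd X)) * bv (f (trd Y)))
  symm := by
    intro V _ X Y
    apply Finset.sum_congr rfl
    intro f _
    ring
  diag := by
    intro V _ X
    refine Eq.trans ?_ (L.dens _ (trd X))
    apply Finset.sum_congr rfl
    intro f _
    rw [bv_mul_self]
  ext := by
    intro V V' _ _ ι hι X Y h
    rw [L.ext (Fintype.card V) (Fintype.card V')
      (fun j => Fintype.equivFin V' (ι ((Fintype.equivFin V).symm j)))]
    · apply Finset.sum_congr rfl
      intro f _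
      have e1 : ∀ X : (Fin d → V') → Bool, (fun c => trd X ((fun j => Fintype.equivFin V'
          (ι ((Fintype.equivFin V).symm j))) ∘ c)) = trd (fun c => X (ι ∘ c)) := by
        intro X
        funext c
        unfold trd
        congr 1
        funext i
        simp
      rw [e1, e1]
    · intro a b hab
      simpa using hι ((Fintype.equivFin V').injective hab)
    · intro c hc
      apply h
      by_contra hcon
      push Not at hcon
      apply hc
      choose f hf using hcon
      refine ⟨fun i => Fintype.equivFin V (f i), ?_⟩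
      funext i
      simp only [Function.comp, Equiv.symm_apply_apply]
      have := hf i
      simp only [Function.comp] at this
      rw [this]
      simp
  psd := by
    intro V _ J _ X a
    have h : ∑ i, ∑ j, a i * a j * ∑ f, L.w (Fintype.card V) f *
        (bv (f (trd (X i))) * bv (f (trd (X j)))) =
        ∑ f, L.w (Fintype.card V) f * (∑ i, a i * bv (f (trd (X i)))) ^ 2 := by
      simp_rw [Finset.mul_sum]
      have e1 : ∀ i, ∑ j, ∑ f, a i * a j * (L.w (Fintype.card V) f *
          (bv (f (trd (X i))) * bv (f (trd (X j))))) =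
          ∑ f, ∑ j, a i * a j * (L.w (Fintype.card V) f *
          (bv (f (trd (X i))) * bv (f (trd (X j))))) := fun i => Finset.sum_comm
      simp_rw [e1]
      rw [Finset.sum_comm]
      apply Finset.sum_congr rfl
      intro f _
      rw [sq, Finset.sum_mul_sum, Finset.mul_sum]
      apply Finset.sum_congr rfl
      intro i _
      rw [Finset.mul_sum]
      apply Finset.sum_congr rfl
      intro j _
      ring
    rw [h]
    apply Finset.sum_nonneg
    intro f _
    exact mul_nonneg (L.nonneg _ _) (sq_nonneg _)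

lemma ofLimM_bad (L : LimM d δ) (m : ℕ) (hm : 1 ≤ m) :
    (ofLimM L).G (Fin m) (fun _ => false) (fun _ => true) = 0 := by
  have hb : BadPair (fun _ : Fin d → Fin m => false) (fun _ => true) :=
    ⟨fun _ => True, ⟨⟨0, hm⟩, trivial⟩, fun _ _ => rfl, fun _ _ => rfl,
      fun c hc => absurd (fun _ => trivial) hc⟩
  have hb' := badPair_trd hb
  change ∑ f, _ = (0 : ℝ)
  apply Finset.sum_eq_zero
  intro f _
  by_cases h1 : f (trd (fun _ : Fin d → Fin m => false)) = true
  · by_cases h2 : f (trd (fun _ : Fin d → Fin m => true)) = true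
    · rw [L.bad _ f _ _ hb' h1 h2, zero_mul]
    · rw [Bool.not_eq_true] at h2
      rw [h2]
      simp [bv]
  · rw [Bool.not_eq_true] at h1
    rw [h1]
    simp [bv]

/-- The inequality for the limit object. -/
theorem LimM_ineq (L : LimM d δ) (hd : 1 ≤ d) (M : ℕ) (hM : 1 ≤ M) :
    1 / 4 - Real.sqrt M / 2 * (1 - 2 * δ) ≤ 1 / 2 * (1 - (1 / 2 : ℝ) ^ d) ^ (2 * M - 1) * δ := by
  apply le_of_forall_pos_le_add
  intro κ hκ
  obtain ⟨M, rfl⟩ : ∃ k, M = k + 1 := ⟨M - 1, by omega⟩
  obtain ⟨Ls, hlen, hval, hD⟩ := (ofLimM L).chain hd (ofLimM_bad L) M κ hκ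
  rw [show 2 * (M + 1) - 1 = 2 * M + 1 by omega]
  refine le_trans ?_ hD
  have hne : Ls ≠ [] := by
    intro h
    rw [h] at hlen
    simp at hlen
  -- the energy
  let Y : (Fin d → Empty) → Bool := fun _ => false
  have hdiag := ((ofLimM L).iter hd Ls).diag Empty Y
  rw [← hdiag, (ofLimM L).iter_G hd Ls Empty Y Y]
  set V : Type := TT Ls Empty with hV
  let S : (Pat d (Fintype.card V) → Bool) → Idx Ls → ℝ := fun f u => bv (f (trd (PP Ls u Y)))
  have e1 : ∑ u, ∑ u', cw Ls u * cw Ls u' *
      (ofLimM L).G V (PP Ls u Y) (PP Ls u' Y) =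
      ∑ f, L.w (Fintype.card V) f * (∑ u, cw Ls u * S f u) ^ 2 := by
    change ∑ u, ∑ u', cw Ls u * cw Ls u' * ∑ f, L.w (Fintype.card V) f * (S f u * S f u') = _
    simp_rw [Finset.mul_sum]
    have e1 : ∀ u, ∑ u', ∑ f, cw Ls u * cw Ls u' * (L.w (Fintype.card V) f *
        (S f u * S f u')) =
        ∑ f, ∑ u', cw Ls u * cw Ls u' * (L.w (Fintype.card V) f *
        (S f u * S f u')) := fun i => Finset.sum_comm
    simp_rw [e1]
    rw [Finset.sum_comm]
    apply Finset.sum_congr rfl
    intro f _
    rw [sq, Finset.sum_mul_sum, Finset.mul_sum]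
    apply Finset.sum_congr rfl
    intro i _
    rw [Finset.mul_sum]
    apply Finset.sum_congr rfl
    intro j _
    ring
  rw [e1]
  -- the pointwise bound
  have hpt : ∀ f, L.w (Fintype.card V) f * (1 / 4 - Real.sqrt (M + 1 : ℕ) / 2 *
      (1 - 2 * ∑ u, aw Ls u * S f u)) ≤ L.w (Fintype.card V) f * (∑ u, cw Ls u * S f u) ^ 2 := by
    intro f
    by_cases h0 : L.w (Fintype.card V) f = 0
    · rw [h0, zero_mul, zero_mul]
    · apply mul_le_mul_of_nonneg_left _ (L.nonneg _ _)
      rw [← hlen]
      apply iso_var Ls hne (S f) (fun u => bv_zero_or_one _)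
      apply ind_of_bad hd Ls hval Y (fun X => bv (f (trd X)))
      intro X X' hXX
      by_cases h1 : f (trd X) = true
      · by_cases h2 : f (trd X') = true
        · exact absurd (L.bad _ f _ _ (badPair_trd hXX) h1 h2) h0
        · rw [Bool.not_eq_true] at h2
          simp only [h2]
          simp [bv]
      · rw [Bool.not_eq_true] at h1
        simp only [h1]
        simp [bv]
  refine le_trans (le_of_eq ?_) (Finset.sum_le_sum fun f _ => hpt f)
  have e2 : ∑ f, L.w (Fintype.card V) f * ∑ u, aw Ls u * S f u = δ := by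
    simp_rw [Finset.mul_sum]
    rw [Finset.sum_comm]
    have e3 : ∀ u, ∑ f, L.w (Fintype.card V) f * (aw Ls u * S f u) = aw Ls u * δ := by
      intro u
      have h5 := congrArg (fun x => aw Ls u * x) (L.dens _ (trd (PP Ls u Y)))
      refine Eq.trans ?_ h5
      rw [Finset.mul_sum]
      apply Finset.sum_congr rfl
      intro f _
      ring
    simp_rw [e3]
    rw [← Finset.sum_mul, sum_aw, one_mul]
  have e4 : ∑ f, L.w (Fintype.card V) f * (1 / 4 - Real.sqrt (M + 1 : ℕ) / 2 *
      (1 - 2 * ∑ u, aw Ls u * S f u)) =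
      (1 / 4 - Real.sqrt (M + 1 : ℕ) / 2) * ∑ f, L.w (Fintype.card V) f +
        Real.sqrt (M + 1 : ℕ) * ∑ f, L.w (Fintype.card V) f * ∑ u, aw Ls u * S f u := by
    rw [Finset.mul_sum, Finset.mul_sum, ← Finset.sum_add_distrib]
    apply Finset.sum_congr rfl
    intro f _
    ring
  rw [e4, e2, L.total]
  ring

end Pool.Agent.Lib.MP_90b327_co.SG
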