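import Mathlib

/-!
Second moment lemma on the discrete cube `Ω → Bool`: overwriting one of `M` pairwise disjoint
small blocks of cells, chosen at random, hardly changes the average of a bounded function.
-/

set_option autoImplicit false

namespace Pool.Agent.Lib.MP_90b327_co.SM

open Finset

variable {Ω : Type} [Fintype Ω] [DecidableEq Ω]

/-- Overwrite the cells in `C` by `Z`. -/
def mix (C : Finset Ω) (Z A : Ω → Bool) : Ω → Bool := fun c => if c ∈ C then Z c else A c

lemma sum_update (c : Ω) (z : Bool) (h : (Ω → Bool) → ℝ) :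
    ∑ A, h (Function.update A c z) = 2 * ∑ A : Ω → Bool, (if A c = z then h A else 0) := by
  classical
  have h1 : ∑ A, h (Function.update A c z)
      = ∑ A : Ω → Bool, (if A c = z then h (Function.update A c z) else 0)
        + ∑ A : Ω → Bool, (if A c = z then 0 else h (Function.update A c z)) := by
    rw [← Finset.sum_add_distrib]
    refine Finset.sum_congr rfl fun A _ => ?_
    split_ifs <;> simp
  have h2 : ∑ A : Ω → Bool, (if A c = z then h (Function.update A c z) else 0)
      = ∑ A : Ω → Bool, (if A c = z then h A else 0) := by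
    refine Finset.sum_congr rfl fun A _ => ?_
    split_ifs with hz
    · rw [← hz, Function.update_eq_self]
    · rfl
  have h3 : ∑ A : Ω → Bool, (if A c = z then 0 else h (Function.update A c z))
      = ∑ A : Ω → Bool, (if A c = z then h A else 0) := by
    have hinv : Function.Involutive (fun A : Ω → Bool => Function.update A c (!(A c))) := by
      intro A
      funext x
      by_cases hx : x = c
      · subst hx; simp
      · simp [Function.update_of_ne hx]
    rw [← Equiv.sum_comp hinv.toPerm (fun A : Ω → Bool => if A c = z then h A else 0)]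
    refine Finset.sum_congr rfl fun A _ => ?_
    simp only [Function.Involutive.coe_toPerm, Function.update_self]
    by_cases hz : A c = z
    · have : ¬ ((!(A c)) = z) := by rw [hz]; cases z <;> simp
      simp [hz]
    · have : ((!(A c)) = z) := by cases hA : A c <;> cases z <;> simp_all
      simp [hz, this]
  rw [h1, h2, h3]; ring

omit [Fintype Ω] in
lemma mix_insert (C : Finset Ω) (c : Ω) (hc : c ∉ C) (Z A : Ω → Bool) :
    mix (insert c C) Z A = mix C Z (Function.update A c (Z c)) := by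
  funext x
  unfold mix
  by_cases hx : x = c
  · subst hx; simp [hc]
  · simp [hx]

lemma sum_mix (C : Finset Ω) (Z : Ω → Bool) (h : (Ω → Bool) → ℝ) :
    ∑ A, h (mix C Z A) = 2 ^ C.card * ∑ A : Ω → Bool, (if ∀ c ∈ C, A c = Z c then h A else 0) := by
  classical
  induction C using Finset.induction_on generalizing h with
  | empty =>
    have : ∀ A, mix (∅ : Finset Ω) Z A = A := fun A => by funext x; simp [mix]
    simp [this]
  | insert c C hc ih =>
    have e1 : ∑ A, h (mix (insert c C) Z A)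
        = ∑ A, (fun B => h (mix C Z B)) (Function.update A c (Z c)) :=
      Finset.sum_congr rfl fun A _ => by rw [mix_insert C c hc]
    rw [e1, sum_update c (Z c) (fun B => h (mix C Z B))]
    have e2 : ∑ A : Ω → Bool, (if A c = Z c then h (mix C Z A) else 0)
        = ∑ A : Ω → Bool, (fun B : Ω → Bool => if B c = Z c then h B else 0) (mix C Z A) :=
      Finset.sum_congr rfl fun A _ => by simp [mix, hc]
    have e3 := ih (fun B : Ω → Bool => if B c = Z c then h B else 0)
    rw [e2, e3, Finset.card_insert_of_notMem hc, ← mul_assoc, pow_succ']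
    congr 1
    refine Finset.sum_congr rfl fun A _ => ?_
    by_cases h1 : A c = Z c <;> by_cases h2 : ∀ x ∈ C, A x = Z x <;>
      simp [Finset.forall_mem_insert, h1, h2]

/-- Weight of the event that `A` shows `Z` on `C`. -/
noncomputable def wt (C : Finset Ω) (Z A : Ω → Bool) : ℝ :=
  if ∀ c ∈ C, A c = Z c then 2 ^ C.card else 0

lemma sum_mix' (C : Finset Ω) (Z : Ω → Bool) (h : (Ω → Bool) → ℝ) :
    ∑ A, h (mix C Z A) = ∑ A : Ω → Bool, wt C Z A * h A := by
  rw [sum_mix, Finset.mul_sum]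
  refine Finset.sum_congr rfl fun A _ => ?_
  unfold wt
  split_ifs <;> simp

lemma sum_wt (C : Finset Ω) (Z : Ω → Bool) :
    ∑ A : Ω → Bool, wt C Z A = ∑ _A : Ω → Bool, (1:ℝ) := by
  have := sum_mix' C Z (fun _ => (1:ℝ))
  simpa using this.symm

lemma sum_wt_sq (C : Finset Ω) (Z : Ω → Bool) :
    ∑ A : Ω → Bool, wt C Z A * wt C Z A = 2 ^ C.card * ∑ _A : Ω → Bool, (1:ℝ) := by
  rw [← sum_wt C Z, Finset.mul_sum]
  refine Finset.sum_congr rfl fun A _ => ?_
  unfold wt
  split_ifs <;> simp

lemma wt_mix_of_disjoint (C D : Finset Ω) (hd : Disjoint C D) (Z Y A : Ω → Bool) :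
    wt D Y (mix C Z A) = wt D Y A := by
  unfold wt
  have : (∀ c ∈ D, mix C Z A c = Y c) ↔ (∀ c ∈ D, A c = Y c) := by
    refine forall₂_congr fun c hc => ?_
    have : c ∉ C := fun h => (Finset.disjoint_left.mp hd h) hc
    simp [mix, this]
  simp only [this]

lemma sum_wt_mul_of_disjoint (C D : Finset Ω) (hd : Disjoint C D) (Z Y : Ω → Bool) :
    ∑ A : Ω → Bool, wt C Z A * wt D Y A = ∑ _A : Ω → Bool, (1:ℝ) := by
  rw [← sum_mix' C Z (fun A => wt D Y A)]
  simp only [wt_mix_of_disjoint C D hd]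
  exact sum_wt D Y

/-- The second moment bound. -/
theorem main {M : ℕ} (C : Fin M → Finset Ω) (Z : Fin M → Ω → Bool) (m : ℕ)
    (hm : ∀ j, (C j).card ≤ m) (hd : ∀ i j, i ≠ j → Disjoint (C i) (C j))
    (g : (Ω → Bool) → ℝ) (hg : ∀ A, |g A| ≤ 1) :
    (∑ j, ((∑ A, g (mix (C j) (Z j) A)) - ∑ A, g A)) ^ 2
      ≤ M * 2 ^ m * (Fintype.card (Ω → Bool) : ℝ) ^ 2 := by
  classical
  set T : ℝ := (Fintype.card (Ω → Bool) : ℝ) with hT
  have hT1 : ∑ _A : Ω → Bool, (1:ℝ) = T := by simp [hT]
  set D : (Ω → Bool) → ℝ := fun A => ∑ j, (wt (C j) (Z j) A - 1) with hD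
  have e1 : ∑ j, ((∑ A, g (mix (C j) (Z j) A)) - ∑ A, g A) = ∑ A, D A * g A := by
    simp only [sum_mix', hD, Finset.sum_mul]
    rw [Finset.sum_comm]
    refine Finset.sum_congr rfl fun j _ => ?_
    rw [← Finset.sum_sub_distrib]
    refine Finset.sum_congr rfl fun A _ => by ring
  have e2 : (∑ A, D A * g A) ^ 2 ≤ (∑ A, D A ^ 2) * ∑ A, g A ^ 2 :=
    Finset.sum_mul_sq_le_sq_mul_sq _ _ _
  have e3 : ∑ A, g A ^ 2 ≤ T := by
    rw [← hT1]
    refine Finset.sum_le_sum fun A _ => ?_
    have := hg A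
    rw [← sq_abs]
    nlinarith [abs_nonneg (g A)]
  have e4 : ∑ A, D A ^ 2 ≤ M * 2 ^ m * T := by
    have e5 : ∑ A, D A ^ 2 = ∑ i, ∑ j, ∑ A, (wt (C i) (Z i) A - 1) * (wt (C j) (Z j) A - 1) := by
      simp only [hD, sq, Finset.sum_mul_sum]
      rw [Finset.sum_comm]
      refine Finset.sum_congr rfl fun i _ => ?_
      rw [Finset.sum_comm]
    rw [e5]
    have e6 : ∀ i j, ∑ A, (wt (C i) (Z i) A - 1) * (wt (C j) (Z j) A - 1)
        = (∑ A, wt (C i) (Z i) A * wt (C j) (Z j) A) - T := by
      intro i j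
      have : ∀ A, (wt (C i) (Z i) A - 1) * (wt (C j) (Z j) A - 1)
        = wt (C i) (Z i) A * wt (C j) (Z j) A - wt (C i) (Z i) A - wt (C j) (Z j) A + 1 := by
        intro A; ring
      simp only [this, Finset.sum_add_distrib, Finset.sum_sub_distrib, sum_wt, hT1]
      ring
    have e7 : ∀ i, ∑ j, ∑ A, (wt (C i) (Z i) A - 1) * (wt (C j) (Z j) A - 1) ≤ 2 ^ m * T := by
      intro i
      rw [Finset.sum_eq_single i]
      · rw [e6, sum_wt_sq, hT1]
        have hp : (2:ℝ) ^ (C i).card ≤ 2 ^ m := pow_le_pow_right₀ (by norm_num) (hm i)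
        have hT0 : 0 ≤ T := by simp [hT]
        nlinarith
      · intro j _ hji
        rw [e6, sum_wt_mul_of_disjoint _ _ (hd i j (Ne.symm hji)), hT1, sub_self]
      · intro h; exact absurd (Finset.mem_univ _) h
    calc ∑ i, ∑ j, ∑ A, (wt (C i) (Z i) A - 1) * (wt (C j) (Z j) A - 1)
        ≤ ∑ _i : Fin M, (2:ℝ) ^ m * T := Finset.sum_le_sum fun i _ => e7 i
      _ = M * 2 ^ m * T := by simp; ring
  have hT0 : 0 ≤ T := by simp [hT]
  rw [e1]
  calc (∑ A, D A * g A) ^ 2 ≤ (∑ A, D A ^ 2) * ∑ A, g A ^ 2 := e2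
    _ ≤ (M * 2 ^ m * T) * T := by
        apply mul_le_mul e4 e3 (Finset.sum_nonneg fun A _ => sq_nonneg _)
        positivity
    _ = M * 2 ^ m * T ^ 2 := by ring

end Pool.Agent.Lib.MP_90b327_co.SM
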