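import Mathlib
import Pool.Agent.Lib.MP_90b327_co.Limit
import Pool.Agent.Lib.MP_90b327_co.T2Base

/-!
Existence of the joint limit laws, with density exactly the given one.
-/

set_option autoImplicit false

namespace Pool.Agent.Lib.MP_90b327_co

open Filter Topology Finset

variable {d : ℕ}

/-- the values of the family at all overwritten patterns -/
noncomputable def vals {K N : ℕ} (S : Finset (Finset (Fin d → Fin N))) (j : Fin K → Fin N)
    (σ : Equiv.Perm (Fin N)) (A : Pat d N) : Pat d K → Bool :=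
  fun X => decide (toSet (rel σ (ov j A X)) ∈ S)

lemma bv_vals {K N : ℕ} (S : Finset (Finset (Fin d → Fin N))) (j : Fin K → Fin N)
    (σ : Equiv.Perm (Fin N)) (A : Pat d N) (X : Pat d K) :
    bv (vals S j σ A X) = ind S (rel σ (ov j A X)) := by
  unfold bv vals ind
  by_cases h : toSet (rel σ (ov j A X)) ∈ S <;> simp [h]

/-- unnormalised weight of a value vector -/
noncomputable def wS {K N : ℕ} (S : Finset (Finset (Fin d → Fin N))) (j : Fin K → Fin N)
    (f : Pat d K → Bool) : ℝ :=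
  ∑ σ : Equiv.Perm (Fin N), ∑ A : Pat d N, if vals S j σ A = f then (1 : ℝ) else 0

lemma wS_nonneg {K N : ℕ} (S : Finset (Finset (Fin d → Fin N))) (j : Fin K → Fin N)
    (f : Pat d K → Bool) : 0 ≤ wS S j f := by
  unfold wS
  apply Finset.sum_nonneg
  intro σ _
  apply Finset.sum_nonneg
  intro A _
  split_ifs <;> norm_num

lemma wS_le {K N : ℕ} (S : Finset (Finset (Fin d → Fin N))) (j : Fin K → Fin N)
    (f : Pat d K → Bool) : wS S j f ≤ nrm d N := by
  rw [← sum_one_eq]
  unfold wS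
  apply Finset.sum_le_sum
  intro σ _
  apply Finset.sum_le_sum
  intro A _
  split_ifs <;> norm_num

lemma sum_wS {K N : ℕ} (S : Finset (Finset (Fin d → Fin N))) (j : Fin K → Fin N)
    (φ : (Pat d K → Bool) → ℝ) :
    ∑ f, wS S j f * φ f = ∑ σ : Equiv.Perm (Fin N), ∑ A : Pat d N, φ (vals S j σ A) := by
  unfold wS
  simp_rw [Finset.sum_mul]
  rw [Finset.sum_comm]
  apply Finset.sum_congr rfl
  intro σ _
  rw [Finset.sum_comm]
  apply Finset.sum_congr rfl
  intro A _
  simp [ite_mul]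

lemma wS_bad {K N : ℕ} (S : Finset (Finset (Fin d → Fin N))) (hS : ¬ Good d N S)
    (j : Fin K → Fin N) (hj : Function.Injective j) (X Y : Pat d K) (hXY : BadPair X Y)
    (f : Pat d K → Bool) (hX : f X = true) (hY : f Y = true) : wS S j f = 0 := by
  obtain ⟨γ, ⟨v, hv⟩, h1, h2, h3⟩ := hXY
  classical
  have h0 := corS_bad S hS j hj X Y (Finset.univ.filter fun v => γ v) ⟨v, by simpa using hv⟩
    (fun c hc => h1 c (by simpa using hc)) (fun c hc => h2 c (by simpa using hc))
    (fun c hc => h3 c (by simpa using hc))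
  unfold corS at h0
  have h4 : ∀ σ ∈ (Finset.univ : Finset (Equiv.Perm (Fin N))),
      ∑ A : Pat d N, ind S (rel σ (ov j A X)) * ind S (rel σ (ov j A Y)) = 0 := by
    apply (Finset.sum_eq_zero_iff_of_nonneg ?_).mp h0
    intro σ _
    apply Finset.sum_nonneg
    intro A _
    exact mul_nonneg (ind_nonneg _ _) (ind_nonneg _ _)
  unfold wS
  apply Finset.sum_eq_zero
  intro σ hσ
  apply Finset.sum_eq_zero
  intro A hA
  have h5 : ind S (rel σ (ov j A X)) * ind S (rel σ (ov j A Y)) = 0 := by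
    apply (Finset.sum_eq_zero_iff_of_nonneg ?_).mp (h4 σ hσ) A hA
    intro A _
    exact mul_nonneg (ind_nonneg _ _) (ind_nonneg _ _)
  rw [if_neg]
  intro h6
  rw [← bv_vals, ← bv_vals, h6, hX, hY] at h5
  simp [bv] at h5

/-- normalised weight -/
noncomputable def wN (S : ∀ N, Finset (Finset (Fin d → Fin N))) (K : ℕ) (f : Pat d K → Bool)
    (N : ℕ) : ℝ :=
  if h : K ≤ N then wS (S N) (Fin.castLE h) f / nrm d N else 0

lemma wN_nonneg (S : ∀ N, Finset (Finset (Fin d → Fin N))) (K : ℕ) (f : Pat d K → Bool) (N : ℕ) :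
    0 ≤ wN S K f N := by
  unfold wN
  split_ifs with h
  · exact div_nonneg (wS_nonneg _ _ _) (nrm_pos d N).le
  · exact le_rfl

lemma wN_le (S : ∀ N, Finset (Finset (Fin d → Fin N))) (K : ℕ) (f : Pat d K → Bool) (N : ℕ) :
    wN S K f N ≤ 1 := by
  unfold wN
  split_ifs with h
  · exact (div_le_one (nrm_pos d N)).mpr (wS_le _ _ _)
  · norm_num

lemma sum_wN_one (S : ∀ N, Finset (Finset (Fin d → Fin N))) (K N : ℕ) (h : K ≤ N) :
    ∑ f, wN S K f N = 1 := by
  unfold wN
  simp only [dif_pos h]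
  rw [← Finset.sum_div]
  have := sum_wS (S N) (Fin.castLE h) (fun _ => (1 : ℝ))
  simp only [mul_one] at this
  rw [this, sum_one_eq, div_self (nrm_pos d N).ne']

lemma sum_wN_cor (S : ∀ N, Finset (Finset (Fin d → Fin N))) (K N : ℕ) (h : K ≤ N)
    (X Y : Pat d K) : ∑ f, wN S K f N * (bv (f X) * bv (f Y)) = cor S K X Y N := by
  unfold wN cor
  simp only [dif_pos h]
  have := sum_wS (S N) (Fin.castLE h) (fun f => bv (f X) * bv (f Y))
  simp only [bv_vals] at this
  unfold corS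
  rw [← this, Finset.sum_div]
  apply Finset.sum_congr rfl
  intro f _
  ring

/-- Families of density above `δ₀` without a good pair for every `N` give joint limit laws of
density exactly `δ₀`. -/
theorem exists_limM (d : ℕ) (hd : 1 ≤ d) (δ₀ : ℝ) (h0 : 0 ≤ δ₀)
    (h : ∀ N : ℕ, ∃ S : Finset (Finset (Fin d → Fin N)), (S.card : ℝ) > δ₀ * 2 ^ (N ^ d) ∧
      ¬ Good d N S) : Nonempty (LimM d δ₀) := by
  -- subfamilies of the right size
  have h' : ∀ N : ℕ, ∃ S : Finset (Finset (Fin d → Fin N)),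
      (S.card : ℝ) = ⌈δ₀ * 2 ^ (N ^ d)⌉₊ ∧ ¬ Good d N S := by
    intro N
    obtain ⟨S, hS1, hS2⟩ := h N
    have h1 : ⌈δ₀ * 2 ^ (N ^ d)⌉₊ ≤ S.card := by
      rw [Nat.ceil_le]
      exact hS1.le
    obtain ⟨T, hT1, hT2⟩ := Finset.exists_subset_card_eq h1
    refine ⟨T, by rw [hT2], ?_⟩
    rintro ⟨A, hA, γ, hγ, h3, h4⟩
    exact hS2 ⟨A, hT1 hA, γ, hγ, h3, hT1 h4⟩
  choose S hS1 hS2 using h'
  let p : Ultrafilter ℕ := hyperfilter ℕ
  have hlarge : ∀ M : ℕ, ∀ᶠ N in (p : Filter ℕ), M ≤ N := by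
    intro M
    exact Nat.hyperfilter_le_atTop (eventually_ge_atTop M)
  have hex : ∀ (K : ℕ) (f : Pat d K → Bool), ∃ a : ℝ, Tendsto (wN S K f) p (𝓝 a) :=
    fun K f => exists_limit p _ 1 (wN_nonneg S K f) (wN_le S K f)
  choose w hw using hex
  -- the pair correlations converge
  have hG : ∀ (K : ℕ) (X Y : Pat d K), Tendsto (cor S K X Y) p
      (𝓝 (∑ f, w K f * (bv (f X) * bv (f Y)))) := by
    intro K X Y
    have h1 : Tendsto (fun N => ∑ f, wN S K f N * (bv (f X) * bv (f Y))) p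
        (𝓝 (∑ f, w K f * (bv (f X) * bv (f Y)))) := by
      apply tendsto_finsetSum
      intro f _
      exact (hw K f).mul_const _
    apply h1.congr'
    filter_upwards [hlarge K] with N hN
    exact sum_wN_cor S K N hN X Y
  have hext : ∀ (K K' : ℕ) (ι : Fin K → Fin K'), Function.Injective ι → ∀ X Y : Pat d K',
    (∀ c : Fin d → Fin K', (¬ ∃ c' : Fin d → Fin K, c = ι ∘ c') → X c = Y c) →
      ∑ f, w K' f * (bv (f X) * bv (f Y)) =
        ∑ f, w K f * (bv (f fun c => X (ι ∘ c)) * bv (f fun c => Y (ι ∘ c))) := by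
    intro K K' ι hι X Y hXY
    set g' := ∑ f, w K' f * (bv (f X) * bv (f Y)) with hg'
    set g := ∑ f, w K f * (bv (f fun c => X (ι ∘ c)) * bv (f fun c => Y (ι ∘ c))) with hg
    have h1 : ∀ m : ℕ, 1 ≤ m → (g' - g) ^ 2 ≤ 2 ^ (K' ^ d) / m := by
      intro m hm
      have ht : Tendsto (fun N => (cor S K' X Y N -
          cor S K (fun c => X (ι ∘ c)) (fun c => Y (ι ∘ c)) N) ^ 2) p
          (𝓝 ((g' - g) ^ 2)) :=
        ((hG _ _ _).sub (hG _ _ _)).pow 2
      apply le_of_tendsto ht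
      filter_upwards [hlarge (K' * (m + 1))] with N hN
      exact cor_ext S K K' ι hι X Y hXY m N hm hN
    have h2 : (g' - g) ^ 2 ≤ 0 := by
      have ht : Tendsto (fun m : ℕ => (2:ℝ) ^ (K' ^ d) / m) atTop (𝓝 0) :=
        tendsto_const_div_atTop_nhds_zero_nat _
      apply ge_of_tendsto ht
      filter_upwards [eventually_ge_atTop 1] with m hm
      exact h1 m hm
    have h3 := pow_eq_zero_iff (two_ne_zero) |>.mp (le_antisymm h2 (sq_nonneg _))
    linarith
  have hempty : ∀ (X Y : Pat d 0), X = Y := by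
    intro X Y
    funext c
    exact (c ⟨0, by omega⟩).elim0
  let X₀ : Pat d 0 := fun _ => false
  have hdens0 : ∑ f, w 0 f * (bv (f X₀) * bv (f X₀)) = δ₀ := by
    refine tendsto_nhds_unique (hG 0 X₀ X₀) ?_
    have h1 : ∀ N, cor S 0 X₀ X₀ N = ⌈δ₀ * 2 ^ (N ^ d)⌉₊ / 2 ^ (N ^ d) := by
      intro N
      unfold cor
      rw [dif_pos (Nat.zero_le N), corS_zero hd, hS1]
      unfold nrm
      have h1 : (0:ℝ) < N.factorial := by exact_mod_cast Nat.factorial_pos N
      rw [mul_div_mul_left _ _ h1.ne']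
    have h2 : Tendsto (fun N : ℕ => δ₀ + 1 / ((N : ℝ) + 1)) p (𝓝 (δ₀ + 0)) := by
      apply Tendsto.add tendsto_const_nhds
      exact tendsto_one_div_add_atTop_nhds_zero_nat.mono_left Nat.hyperfilter_le_atTop
    rw [add_zero] at h2
    apply tendsto_of_tendsto_of_tendsto_of_le_of_le' (tendsto_const_nhds (x := δ₀)) h2
    · filter_upwards with N
      rw [h1, le_div_iff₀ (by positivity)]
      exact Nat.le_ceil _
    · filter_upwards with N
      have h3 : (0 : ℝ) < 2 ^ (N ^ d) := by positivity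
      have h4 : ((N : ℝ) + 1) ≤ 2 ^ (N ^ d) := by
        have h5 : N + 1 ≤ 2 ^ (N ^ d) := by
          have h6 : N ≤ N ^ d := Nat.le_self_pow (by omega) N
          have h7 : N < 2 ^ N := Nat.lt_two_pow_self
          have h8 : 2 ^ N ≤ 2 ^ (N ^ d) := Nat.pow_le_pow_right (by norm_num) h6
          omega
        exact_mod_cast h5
      rw [h1, div_le_iff₀ h3]
      have h5 : (⌈δ₀ * 2 ^ (N ^ d)⌉₊ : ℝ) < δ₀ * 2 ^ (N ^ d) + 1 :=
        Nat.ceil_lt_add_one (by positivity)
      have h6 : 1 ≤ 1 / ((N : ℝ) + 1) * 2 ^ (N ^ d) := by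
        rw [one_div, ← div_eq_inv_mul, le_div_iff₀ (by positivity), one_mul]
        exact h4
      rw [add_mul]
      linarith
  refine ⟨⟨w, ?_, ?_, ?_, ?_, hext⟩⟩
  · intro K f
    exact ge_of_tendsto (hw K f) (Eventually.of_forall (wN_nonneg S K f))
  · intro K
    have h1 : Tendsto (fun N => ∑ f, wN S K f N) p (𝓝 (∑ f, w K f)) := by
      apply tendsto_finsetSum
      intro f _
      exact hw K f
    refine tendsto_nhds_unique h1 ?_
    apply (tendsto_const_nhds (x := (1 : ℝ))).congr'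
    filter_upwards [hlarge K] with N hN
    exact (sum_wN_one S K N hN).symm
  · intro K f X Y hXY hX hY
    refine tendsto_nhds_unique (hw K f) ?_
    apply (tendsto_const_nhds (x := (0 : ℝ))).congr'
    filter_upwards [hlarge K] with N hN
    unfold wN
    rw [dif_pos hN, wS_bad (S N) (hS2 N) _ (Fin.castLE_injective hN) X Y hXY f hX hY, zero_div]
  · intro K X
    have h1 := hext 0 K (fun v => v.elim0) (fun v => v.elim0) X X (fun _ _ => rfl)
    simp only [bv_mul_self] at h1 hdens0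
    rw [h1]
    rw [hempty (fun c => X ((fun v => v.elim0) ∘ c)) X₀]
    exact hdens0

end Pool.Agent.Lib.MP_90b327_co
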