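import Mathlib

set_option autoImplicit false

/-!
# The final numerical inequality
-/

namespace Pool.Agent.Lib.MP_90b327_co.StarNum

/-- `(1 - 1/m)^(m-1) ≤ exp (-1 + 1/(2m-1))`. -/
lemma pow_le_exp (k : ℕ) (hk : 1 ≤ k) :
    (1 - 1 / ((k : ℝ) + 1)) ^ k ≤ Real.exp (-1 + 1 / (2 * k + 1)) := by
  have hk0 : (0 : ℝ) < k := by exact_mod_cast hk
  have h1 : 1 - 1 / ((k : ℝ) + 1) = (1 + 1 / (k : ℝ))⁻¹ := by
    field_simp
    ring
  have h2 : 2 * (1 / (k : ℝ)) / (1 / (k : ℝ) + 2) ≤ Real.log (1 + 1 / (k : ℝ)) :=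
    Real.le_log_one_add_of_nonneg (by positivity)
  have h3 : 2 * (1 / (k : ℝ)) / (1 / (k : ℝ) + 2) = 2 / (2 * k + 1) := by
    field_simp
    ring
  rw [h3] at h2
  have h4 : (0 : ℝ) < 1 + 1 / (k : ℝ) := by positivity
  rw [h1, ← Real.exp_log h4, ← Real.exp_neg, ← Real.exp_nat_mul]
  apply Real.exp_le_exp.2
  have h5 : (k : ℝ) * (2 / (2 * k + 1)) ≤ k * Real.log (1 + 1 / (k : ℝ)) :=
    mul_le_mul_of_nonneg_left h2 hk0.le
  have h6 : (k : ℝ) * (2 / (2 * k + 1)) = 1 - 1 / (2 * k + 1) := by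
    field_simp
    ring
  linarith

/-- For `m = k + 1 ≥ 4`: `(1 - (4/9)/√m) (1 - 1/m)^(m-1) ≤ 1/e`. -/
lemma main_le (k : ℕ) (hk : 3 ≤ k) :
    (1 - 4 / 9 / √((k : ℝ) + 1)) * (1 - 1 / ((k : ℝ) + 1)) ^ k ≤ Real.exp (-1) := by
  have hk3 : (3 : ℝ) ≤ k := by exact_mod_cast hk
  set s := √((k : ℝ) + 1) with hs
  have hs2 : s ^ 2 = k + 1 := Real.sq_sqrt (by linarith)
  have hs2' : 2 ≤ s := by
    rw [hs]
    apply Real.le_sqrt_of_sq_le
    linarith
  have h1 := pow_le_exp k (by omega)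
  have h2 : 1 - 4 / 9 / s ≤ Real.exp (-(4 / 9 / s)) := by
    have := Real.add_one_le_exp (-(4 / 9 / s))
    linarith
  have h0 : 0 ≤ 1 - 4 / 9 / s := by
    have : 4 / 9 / s ≤ 4 / 9 / 2 := by
      apply div_le_div_of_nonneg_left <;> linarith
    linarith
  have h3 : 1 / (2 * (k : ℝ) + 1) ≤ 4 / 9 / s := by
    rw [div_le_div_iff₀ (by linarith) (by linarith)]
    nlinarith
  calc (1 - 4 / 9 / s) * (1 - 1 / ((k : ℝ) + 1)) ^ k
      ≤ Real.exp (-(4 / 9 / s)) * Real.exp (-1 + 1 / (2 * k + 1)) := by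
        apply mul_le_mul h2 h1 _ (Real.exp_pos _).le
        apply pow_nonneg
        have : 1 / ((k : ℝ) + 1) ≤ 1 := by
          rw [div_le_one (by linarith)]
          linarith
        linarith
    _ = Real.exp (-(4 / 9 / s) + (-1 + 1 / (2 * k + 1))) := (Real.exp_add _ _).symm
    _ ≤ Real.exp (-1) := by
        apply Real.exp_le_exp.2
        linarith

lemma sqrt2_lt : √(2 : ℝ) < 1.41422 := by
  rw [Real.sqrt_lt' (by norm_num)]
  norm_num

lemma exp_neg_one_lt : Real.exp (-1) < 0.36788 := by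
  rw [Real.exp_neg]
  have h := Real.exp_one_gt_d9
  rw [inv_lt_comm₀ (Real.exp_pos _) (by norm_num)]
  refine lt_trans ?_ h
  norm_num

/-- The strict inequality for all `d ≥ 1`. -/
lemma strict (d : ℕ) (hd : 1 ≤ d) :
    (1 - 4 / 9 / √((2 : ℝ) ^ d)) * (1 - 1 / (2 : ℝ) ^ d) ^ (2 ^ d - 1) < 1 - 4 / 9 * √2 := by
  have h2 := sqrt2_lt
  have h3 := exp_neg_one_lt
  rcases hd.eq_or_lt with rfl | hd
  · have hp : √(2 : ℝ) ^ 2 = 2 := Real.sq_sqrt (by norm_num)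
    have hp0 : 0 < √(2 : ℝ) := by positivity
    have h4 : 4 / 9 / √(2 : ℝ) = 2 / 9 * √2 := by
      rw [div_eq_iff hp0.ne']
      nlinarith
    norm_num
    rw [h4]
    nlinarith
  · have hk : 4 ≤ 2 ^ d := by
      calc 4 = 2 ^ 2 := by norm_num
        _ ≤ 2 ^ d := Nat.pow_le_pow_right (by norm_num) hd
    have h5 := main_le (2 ^ d - 1) (by omega)
    have h6 : (((2 ^ d - 1 : ℕ) : ℝ)) + 1 = (2 : ℝ) ^ d := by
      have : (2 ^ d - 1) + 1 = 2 ^ d := by omega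
      exact_mod_cast this
    rw [h6] at h5
    calc _ ≤ Real.exp (-1) := h5
      _ < 0.36788 := h3
      _ < 1 - 4 / 9 * √2 := by linarith

/-- The conclusion. -/
theorem eta_gt (d : ℕ) (hd : 1 ≤ d) (η : ℝ)
    (h : 1 / 4 - √((2 : ℝ) ^ (d - 1)) * η ≤
      1 / 4 * (1 - 2 * η) * (1 - 1 / (2 : ℝ) ^ d) ^ (2 ^ d - 1)) :
    2 / 9 / √((2 : ℝ) ^ d) < η := by
  by_contra hc
  push Not at hc
  set R := (1 - 1 / (2 : ℝ) ^ d) ^ (2 ^ d - 1) with hR
  have hs := strict d hd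
  rw [← hR] at hs
  set m := √((2 : ℝ) ^ d) with hm
  have hm0 : 0 < m := by positivity
  have h1 : √((2 : ℝ) ^ (d - 1)) = m / √2 := by
    rw [hm, ← Real.sqrt_div (by positivity)]
    congr 1
    obtain ⟨e, rfl⟩ := Nat.exists_eq_add_of_le' hd
    rw [Nat.add_sub_cancel, pow_succ]
    field_simp
  have hp : √(2 : ℝ) ^ 2 = 2 := Real.sq_sqrt (by norm_num)
  have hp0 : 0 < √(2 : ℝ) := by positivity
  have h2 : m / √2 = m * √2 / 2 := by
    rw [div_eq_iff hp0.ne']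
    nlinarith
  rw [h1, h2] at h
  -- `R ≤ 1`, `1 ≤ m`
  have hR1 : R ≤ 1 := by
    apply pow_le_one₀
    · have : 1 / (2 : ℝ) ^ d ≤ 1 := by
        rw [div_le_one (by positivity)]
        exact one_le_pow₀ (by norm_num)
      linarith
    · have : 0 < 1 / (2 : ℝ) ^ d := by positivity
      linarith
  have hR0 : 0 ≤ R := by
    apply pow_nonneg
    have : 1 / (2 : ℝ) ^ d ≤ 1 := by
      rw [div_le_one (by positivity)]
      exact one_le_pow₀ (by norm_num)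
    linarith
  have hm1 : 1 ≤ m := by
    rw [hm]
    apply Real.le_sqrt_of_sq_le
    rw [one_pow]
    exact one_le_pow₀ (by norm_num)
  have hr1 : 1 < √(2 : ℝ) := by
    apply Real.lt_sqrt_of_sq_lt
    norm_num
  -- coefficient of `η`
  have hcoef : 0 < m * √2 / 2 - R / 2 := by nlinarith
  have h3 : (m * √2 / 2 - R / 2) * η ≤ (m * √2 / 2 - R / 2) * (2 / 9 / m) :=
    mul_le_mul_of_nonneg_left hc hcoef.le
  have h4 : (m * √2 / 2 - R / 2) * (2 / 9 / m) = √2 / 9 - R * (1 / 9 / m) := by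
    field_simp
  have h5 : (1 - 4 / 9 / m) * R = R - 4 * (R * (1 / 9 / m)) := by ring
  rw [h5] at hs
  rw [h4] at h3
  nlinarith

end Pool.Agent.Lib.MP_90b327_co.StarNum
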