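import Mathlib
import Pool.Agent.Lib.MP_90b327_co.T2Base
import Pool.Agent.Lib.MP_90b327_co.Abstract

/-!
The case `d = 2` below density `1/3`: two inequalities for the limits of the parameters.

* `LimM.c_sq_le`: `c ^ 2 ≤ t * t'` (Cauchy-Schwarz for two averages of patterns);
* `LimM.q_le`: `δ ^ 2 ≤ (1 - δ) * c` (nested squares against the complement of the empty pattern).
-/

set_option autoImplicit false

namespace Pool.Agent.Lib.MP_90b327_co

open Filter Topology Finset

variable {δ : ℝ}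

/-- positivity of the quadratic form of the constant and of finitely many values -/
lemma LimM.psd (L : LimM 2 δ) (V : Type) [Fintype V] {J : Type} [Fintype J]
    (X : J → P2 V) (a : J → ℝ) (a₀ : ℝ) :
    0 ≤ a₀ ^ 2 + 2 * a₀ * (∑ i, a i) * δ + ∑ i, ∑ j, a i * a j * L.G V (X i) (X j) := by
  have h := L.E_nonneg V (fun F => (a₀ + ∑ i, a i * F (X i)) ^ 2) (fun F _ => sq_nonneg _)
  refine h.trans (le_of_eq ?_)
  have e : (fun F : P2 V → ℝ => (a₀ + ∑ i, a i * F (X i)) ^ 2) =
      fun F => (a₀ ^ 2 + 2 * a₀ * (∑ i, a i * F (X i))) +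
        ∑ i, ∑ j, a i * a j * (F (X i) * F (X j)) := by
    funext F
    have : ∑ i, ∑ j, a i * a j * (F (X i) * F (X j)) =
        (∑ i, a i * F (X i)) * (∑ j, a j * F (X j)) := by
      rw [Finset.sum_mul_sum]
      apply Finset.sum_congr rfl
      intro i _
      apply Finset.sum_congr rfl
      intro j _
      ring
    rw [this]
    ring
  rw [e, L.E_add, L.E_add, L.E_const, L.E_mul, L.E_sum, L.E_sum]
  congr 1
  · congr 1
    rw [Finset.sum_congr rfl (fun i _ => (L.E_mul V (a i) (fun F => F (X i))).trans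
      (by rw [L.E_val] : a i * L.E V (fun F => F (X i)) = a i * δ)), ← Finset.sum_mul]
    ring
  · apply Finset.sum_congr rfl
    intro i _
    rw [L.E_sum]
    apply Finset.sum_congr rfl
    intro j _
    rw [L.E_mul]
    rfl

/-- the square of the second block, the rectangles of the first block with the first `s` vertices
of the second block and, if `b` holds, the square of the first block -/
def pw (b : Bool) (e M s : ℕ) : P2 (Fin e ⊕ Fin M)
  | .inl _, .inl _ => b
  | .inl _, .inr j => decide (j.val < s)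
  | .inr j, .inl _ => decide (j.val < s)
  | .inr _, .inr _ => true

/-- the first block and the vertices from `s` to `d + s` of the second one -/
def iw (e : ℕ) {d s M : ℕ} (h : d + s ≤ M) : Fin e ⊕ Fin d → Fin e ⊕ Fin M :=
  Sum.map id (fun j => ⟨s + j.val, by omega⟩)

lemma iw_injective (e : ℕ) {d s M : ℕ} (h : d + s ≤ M) : Function.Injective (iw e h) := by
  apply Function.Injective.sumMap Function.injective_id
  intro a b hab
  simp only [Fin.mk.injEq] at hab
  apply Fin.ext
  omega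

lemma pw_out (b b' : Bool) (e : ℕ) {d s M : ℕ} (h : d + s ≤ M) (u v : Fin e ⊕ Fin M)
    (huv : ¬ (u ∈ Set.range (iw e h) ∧ v ∈ Set.range (iw e h))) :
    pw b e M s u v = pw b' e M (d + s) u v := by
  have hl : ∀ a : Fin e, (Sum.inl a : Fin e ⊕ Fin M) ∈ Set.range (iw e h) :=
    fun a => ⟨Sum.inl a, rfl⟩
  have hr : ∀ j : Fin M, (Sum.inr j : Fin e ⊕ Fin M) ∉ Set.range (iw e h) →
      decide (j.val < s) = decide (j.val < d + s) := by
    intro j hj
    apply decide_eq_decide.mpr
    constructor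
    · intro h1
      omega
    · intro h1
      by_contra h2
      apply hj
      refine ⟨Sum.inr ⟨j.val - s, by omega⟩, ?_⟩
      simp only [iw, Sum.map_inr]
      congr 1
      apply Fin.ext
      simp only
      omega
  rcases u with u | u <;> rcases v with v | v
  · exact absurd ⟨hl u, hl v⟩ huv
  · exact hr v (fun h2 => huv ⟨hl u, h2⟩)
  · exact hr u (fun h2 => huv ⟨h2, hl v⟩)
  · rfl

lemma LimM.G_pw (L : LimM 2 δ) (b b' : Bool) (e : ℕ) {d s M : ℕ} (h : d + s ≤ M) :
    L.G (Fin e ⊕ Fin M) (pw b e M s) (pw b' e M (d + s)) =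
      L.R (fun x y => (x && y && b) || (!x && !y)) (fun x y => (x && y && b') || !(x && y)) e d := by
  apply L.G_block (iw e h) (iw_injective e h)
  · intro u v
    rcases u with u | u <;> rcases v with v | v
    · simp [iw, pw]
    · simp [iw, pw]
    · simp [iw, pw]
    · simp [iw, pw]
  · intro u v
    rcases u with u | u <;> rcases v with v | v
    · simp [iw, pw]
    · simp only [iw, pw, Sum.map_inl, Sum.map_inr, Sum.isLeft_inl, Sum.isLeft_inr]
      simp
      omega
    · simp only [iw, pw, Sum.map_inl, Sum.map_inr, Sum.isLeft_inl, Sum.isLeft_inr]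
      simp
      omega
    · simp [iw, pw]
  · exact pw_out b b' e h

lemma LimM.G_pw_c (L : LimM 2 δ) (e : ℕ) {d s M : ℕ} (h : d + s ≤ M) :
    L.G (Fin e ⊕ Fin M) (pw false e M s) (pw true e M (d + s)) = L.c e d := by
  rw [L.G_pw _ _ e h]
  unfold LimM.c
  congr 1
  · funext x y
    cases x <;> cases y <;> rfl
  · funext x y
    cases x <;> cases y <;> rfl

lemma LimM.G_pw_t' (L : LimM 2 δ) (e : ℕ) {d s M : ℕ} (h : d + s ≤ M) :
    L.G (Fin e ⊕ Fin M) (pw false e M s) (pw false e M (d + s)) = L.t' e d := by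
  rw [L.G_pw _ _ e h]
  unfold LimM.t'
  congr 1
  · funext x y
    cases x <;> cases y <;> rfl
  · funext x y
    cases x <;> cases y <;> rfl

lemma LimM.G_pw_t (L : LimM 2 δ) (e : ℕ) {d s M : ℕ} (h : d + s ≤ M) :
    L.G (Fin e ⊕ Fin M) (pw true e M s) (pw true e M (d + s)) = L.t e d := by
  rw [L.G_pw _ _ e h]
  unfold LimM.t
  congr 1
  · funext x y
    cases x <;> cases y <;> rfl
  · funext x y
    cases x <;> cases y <;> rfl

lemma LimM.R_nonneg (L : LimM 2 δ) (P Q : Bool → Bool → Bool) (m n : ℕ) : 0 ≤ L.R P Q m n :=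
  L.G_nonneg _ _ _

lemma cs_arith (c t t1 : ℝ) (ht : 0 ≤ t) (ht1 : 0 ≤ t1)
    (h : ∀ x y : ℝ, 0 ≤ x → 0 ≤ y → 2 * (x * y) * c ≤ x ^ 2 * t1 + y ^ 2 * t) (hc : 0 ≤ c) :
    c ^ 2 ≤ t * t1 := by
  rcases eq_or_lt_of_le ht1 with h0 | h0
  · subst h0
    have h1 : c = 0 := by
      by_contra hne
      have hpos : 0 < c := lt_of_le_of_ne hc (Ne.symm hne)
      have h2 := h ((t + 1) / c) 1 (by positivity) (by norm_num)
      have h3 : 2 * ((t + 1) / c * 1) * c = 2 * (t + 1) := by
        field_simp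
      rw [h3] at h2
      linarith
    rw [h1]
    simp
  · have h2 := h c t1 hc ht1
    have h3 : t1 * c ^ 2 ≤ t1 * (t * t1) := by nlinarith
    exact le_of_mul_le_mul_left h3 h0

/-- the quadratic form of the difference of two averages -/
lemma LimM.quad_diff (L : LimM 2 δ) (V : Type) [Fintype V] (n : ℕ) (X Y : Fin (n + 1) → P2 V)
    (x y : ℝ) :
    0 ≤ x ^ 2 * ((1 / (n + 1 : ℝ)) ^ 2 * ∑ i, ∑ k, L.G V (X i) (X k)) -
      2 * (x * y) * ((1 / (n + 1 : ℝ)) ^ 2 * ∑ i, ∑ j, L.G V (X i) (Y j)) +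
      y ^ 2 * ((1 / (n + 1 : ℝ)) ^ 2 * ∑ j, ∑ l, L.G V (Y j) (Y l)) := by
  have h := L.psd V (J := Fin (n + 1) ⊕ Fin (n + 1)) (Sum.elim X Y)
    (Sum.elim (fun _ => x * (1 / (n + 1 : ℝ))) (fun _ => -(y * (1 / (n + 1 : ℝ))))) 0
  simp only [Fintype.sum_sum_type, Sum.elim_inl, Sum.elim_inr] at h
  refine h.trans (le_of_eq ?_)
  simp only [← Finset.mul_sum, Finset.sum_add_distrib]
  have e1 : ∑ j, ∑ i, L.G V (Y j) (X i) = ∑ i, ∑ j, L.G V (X i) (Y j) := by
    rw [Finset.sum_comm]
    apply Finset.sum_congr rfl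
    intro i _
    apply Finset.sum_congr rfl
    intro j _
    exact L.G_symm V _ _
  rw [e1]
  ring

/-- lower bound for a double average -/
lemma double_sum_ge (n : ℕ) (F : Fin (n + 1) → Fin (n + 1) → ℝ) (U : ℝ)
    (hU : ∀ l l', U ≤ F l l') :
    U ≤ (1 / (n + 1 : ℝ)) ^ 2 * ∑ l, ∑ l', F l l' := by
  have hN : (0 : ℝ) < n + 1 := by positivity
  have h1 : ∑ _l : Fin (n + 1), ∑ _l' : Fin (n + 1), U ≤ ∑ l, ∑ l', F l l' :=
    Finset.sum_le_sum fun l _ => Finset.sum_le_sum fun l' _ => hU l l'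
  have h2 : ∑ _l : Fin (n + 1), ∑ _l' : Fin (n + 1), U = (n + 1) ^ 2 * U := by
    simp only [Finset.sum_const, Finset.card_univ, Fintype.card_fin, nsmul_eq_mul]
    push_cast
    ring
  rw [h2] at h1
  have h3 := mul_le_mul_of_nonneg_left h1 (show (0 : ℝ) ≤ (1 / (n + 1 : ℝ)) ^ 2 by positivity)
  refine le_trans (le_of_eq ?_) h3
  field_simp

/-- (C2) -/
theorem LimM.c_sq_le (L : LimM 2 δ) (p : Ultrafilter ℕ+)
    (hp : ∀ A : ℕ+ → Prop, (∀ᶠ m in (p : Filter ℕ+), A m) ↔
      ∀ᶠ a in (p : Filter ℕ+), ∀ᶠ m in (p : Filter ℕ+), A (a + m))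
    (e : ℕ) (c t t1 : ℝ)
    (hc : Tendsto (fun m : ℕ+ => L.c e m) p (𝓝 c))
    (ht : Tendsto (fun m : ℕ+ => L.t e m) p (𝓝 t))
    (ht1 : Tendsto (fun m : ℕ+ => L.t' e m) p (𝓝 t1)) : c ^ 2 ≤ t * t1 := by
  have hδ0 := L.delta_nonneg
  have hc0 : 0 ≤ c := ge_of_tendsto hc (Eventually.of_forall fun m => L.R_nonneg _ _ _ _)
  have ht0 : 0 ≤ t := ge_of_tendsto ht (Eventually.of_forall fun m => L.R_nonneg _ _ _ _)
  have ht10 : 0 ≤ t1 := ge_of_tendsto ht1 (Eventually.of_forall fun m => L.R_nonneg _ _ _ _)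
  apply cs_arith c t t1 ht0 ht10 _ hc0
  intro x y hx hy
  apply le_of_forall_pos_le_add
  intro κ hκ
  -- choice of `ε` and `n`
  set C : ℝ := x ^ 2 + y ^ 2 + 2 * (x * y) + 1 with hC
  have hC0 : 0 < C := by positivity
  set ε : ℝ := κ / (2 * C) with hε
  have hε0 : 0 < ε := by positivity
  have hεC : ε * C = κ / 2 := by
    rw [hε]
    field_simp
  obtain ⟨n, hn⟩ := exists_nat_gt (δ / ε)
  have hN : (0 : ℝ) < n + 1 := by positivity
  have hδN : δ / (n + 1) ≤ ε := by
    rw [div_le_iff₀ hN]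
    rw [div_lt_iff₀ hε0] at hn
    nlinarith
  have hQ : ∀ᶠ d : ℕ+ in (p : Filter ℕ+), ∀ᶠ _m : ℕ+ in (p : Filter ℕ+),
      c - ε < L.c e d ∧ L.t e d < t + ε ∧ L.t' e d < t1 + ε := by
    filter_upwards [hc.eventually (lt_mem_nhds (show c - ε < c by linarith)),
      ht.eventually (gt_mem_nhds (show t < t + ε by linarith)),
      ht1.eventually (gt_mem_nhds (show t1 < t1 + ε by linarith))] with d h1 h2 h3
    exact Eventually.of_forall fun _ => ⟨h1, h2, h3⟩
  obtain ⟨s, -, -, hs2, -⟩ := exists_sizes p hp (fun _ => True)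
    (fun d _ => c - ε < L.c e d ∧ L.t e d < t + ε ∧ L.t' e d < t1 + ε)
    (Eventually.of_forall fun _ => trivial) hQ (2 * n + 1) (fun _ => True)
    (fun _ _ => True) (Eventually.of_forall fun _ => trivial)
    (Eventually.of_forall fun _ => Eventually.of_forall fun _ => trivial)
  have hle : ∀ l ≤ 2 * n + 1, (s l : ℕ) ≤ (s 0 : ℕ) := by
    intro l hl
    rcases Nat.eq_zero_or_pos l with rfl | hpos
    · exact le_rfl
    · obtain ⟨a, ha, -⟩ := hs2 0 l hpos hl
      rw [ha]
      simp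
  have hdiff : ∀ l l', l < l' → l' ≤ 2 * n + 1 → ∃ d : ℕ, (s l : ℕ) = d + (s l' : ℕ) ∧
      d + (s l' : ℕ) ≤ (s 0 : ℕ) ∧ c - ε < L.c e d ∧ L.t e d < t + ε ∧ L.t' e d < t1 + ε := by
    intro l l' hll hl'
    obtain ⟨a, ha, hQa⟩ := hs2 l l' hll hl'
    have h1 : (s l : ℕ) = (a : ℕ) + (s l' : ℕ) := by rw [ha]; simp
    refine ⟨a, h1, ?_, hQa⟩
    rw [← h1]
    exact hle l (by omega)
  set M : ℕ := (s 0 : ℕ) with hM
  -- the patterns
  let X : Fin (n + 1) → P2 (Fin e ⊕ Fin M) := fun i => pw false e M (s (n + 1 + i) : ℕ)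
  let Y : Fin (n + 1) → P2 (Fin e ⊕ Fin M) := fun j => pw true e M (s j : ℕ)
  have hXX : ∀ i k : Fin (n + 1), i < k → L.G (Fin e ⊕ Fin M) (X k) (X i) ≤ t1 + ε := by
    intro i k hik
    obtain ⟨d, h1, h2, -, -, h3⟩ := hdiff (n + 1 + i) (n + 1 + k) (by omega) (by omega)
    simp only [X]
    rw [h1, L.G_pw_t' e h2]
    exact h3.le
  have hYY : ∀ i k : Fin (n + 1), i < k → L.G (Fin e ⊕ Fin M) (Y k) (Y i) ≤ t + ε := by
    intro i k hik
    obtain ⟨d, h1, h2, -, h3, -⟩ := hdiff i k (by omega) (by omega)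
    simp only [Y]
    rw [h1, L.G_pw_t e h2]
    exact h3.le
  have hXY : ∀ i j : Fin (n + 1), c - ε ≤ L.G (Fin e ⊕ Fin M) (X i) (Y j) := by
    intro i j
    obtain ⟨d, h1, h2, h3, -, -⟩ := hdiff j (n + 1 + i) (by omega) (by omega)
    simp only [X, Y]
    rw [h1, L.G_pw_c e h2]
    exact h3.le
  have h1 := double_sum_le n (fun i k => L.G (Fin e ⊕ Fin M) (X i) (X k)) δ (t1 + ε)
    (fun i => L.G_self _ _) (by linarith) (by
      intro i k hik
      rcases lt_or_gt_of_ne hik with h | h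
      · rw [L.G_symm]
        exact hXX i k h
      · exact hXX k i h)
  have h2 := double_sum_le n (fun i k => L.G (Fin e ⊕ Fin M) (Y i) (Y k)) δ (t + ε)
    (fun i => L.G_self _ _) (by linarith) (by
      intro i k hik
      rcases lt_or_gt_of_ne hik with h | h
      · rw [L.G_symm]
        exact hYY i k h
      · exact hYY k i h)
  have h3 := double_sum_ge n (fun i j => L.G (Fin e ⊕ Fin M) (X i) (Y j)) (c - ε) hXY
  have h4 := L.quad_diff (Fin e ⊕ Fin M) n X Y x y
  have hx2 : 0 ≤ x ^ 2 := by positivity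
  have hy2 : 0 ≤ y ^ 2 := by positivity
  have hxy : 0 ≤ 2 * (x * y) := by positivity
  have h1' := mul_le_mul_of_nonneg_left h1 hx2
  have h2' := mul_le_mul_of_nonneg_left h2 hy2
  have h3' := mul_le_mul_of_nonneg_left h3 hxy
  have h5 : 2 * (x * y) * (c - ε) ≤ x ^ 2 * (δ / (n + 1) + (t1 + ε)) +
      y ^ 2 * (δ / (n + 1) + (t + ε)) := by linarith
  have h6 := mul_le_mul_of_nonneg_left hδN hx2
  have h7 := mul_le_mul_of_nonneg_left hδN hy2
  have h8 : 0 ≤ ε := hε0.le
  have h9 : ε * C = ε * x ^ 2 + ε * y ^ 2 + ε * (2 * (x * y)) + ε := by rw [hC]; ring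
  nlinarith [mul_nonneg h8 hxy]

/-- (C1) -/
theorem LimM.q_le (L : LimM 2 δ) (p : Ultrafilter ℕ+)
    (hp : ∀ A : ℕ+ → Prop, (∀ᶠ m in (p : Filter ℕ+), A m) ↔
      ∀ᶠ a in (p : Filter ℕ+), ∀ᶠ m in (p : Filter ℕ+), A (a + m))
    (ce : ℕ+ → ℝ) (c : ℝ)
    (h1 : ∀ e : ℕ+, Tendsto (fun m : ℕ+ => L.c e m) p (𝓝 (ce e)))
    (h2 : Tendsto ce p (𝓝 c)) : δ ^ 2 ≤ (1 - δ) * c := by
  have hδ0 := L.delta_nonneg
  have hce0 : ∀ e, 0 ≤ ce e := fun e =>
    ge_of_tendsto (h1 e) (Eventually.of_forall fun m => L.R_nonneg _ _ _ _)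
  have hc0 : 0 ≤ c := ge_of_tendsto h2 (Eventually.of_forall hce0)
  have key : ∀ lam : ℝ, 0 ≤ lam ^ 2 * (1 - δ) - 2 * lam * δ + c := by
    intro lam
    apply le_of_forall_pos_le_add
    intro κ hκ
    obtain ⟨n, hn⟩ := exists_nat_gt (2 * δ / κ)
    have hN : (0 : ℝ) < n + 1 := by positivity
    have hδN : δ / (n + 1) ≤ κ / 2 := by
      rw [div_le_iff₀ hN]
      rw [div_lt_iff₀ hκ] at hn
      nlinarith
    have hQ : ∀ᶠ e : ℕ+ in (p : Filter ℕ+), ∀ᶠ m : ℕ+ in (p : Filter ℕ+),
        L.c e m < c + κ / 2 := by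
      filter_upwards [h2.eventually (gt_mem_nhds (show c < c + κ / 2 by linarith))] with e he
      filter_upwards [(h1 e).eventually (gt_mem_nhds he)] with m hm
      exact hm
    obtain ⟨s, -, -, hs2, -⟩ := exists_sizes p hp (fun _ => True)
        (fun e m => L.c e m < c + κ / 2)
        (Eventually.of_forall fun _ => trivial) hQ n (fun _ => True)
        (fun _ _ => True) (Eventually.of_forall fun _ => trivial)
        (Eventually.of_forall fun _ => Eventually.of_forall fun _ => trivial)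
    have hle : ∀ l ≤ n, (s l : ℕ) ≤ (s 0 : ℕ) := by
      intro l hl
      rcases Nat.eq_zero_or_pos l with rfl | hpos
      · exact le_rfl
      · obtain ⟨e, he, -⟩ := hs2 0 l hpos hl
        rw [he]
        simp
    let M : ℕ := (s 0 : ℕ)
    let w : Fin (n + 1) → P2 (Fin M) :=
      fun l u v => decide (u.val < (s l : ℕ)) && decide (v.val < (s l : ℕ))
    let x : P2 (Fin M) := fun _ _ => false
    have hxw : ∀ l, L.G (Fin M) x (w l) = 0 := by
      intro l
      apply L.G_bad
      refine ⟨fun v => v.val < (s l : ℕ), ⟨⟨0, (s 0).2⟩, (s l).2⟩, ?_, ?_, ?_⟩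
      · intro u v _ _
        rfl
      · intro u v hu hv
        simp only [w, Bool.and_eq_true, decide_eq_true_eq]
        exact ⟨hu, hv⟩
      · intro u v huv
        simp only [w, x]
        rw [← Bool.not_eq_true]
        simp only [Bool.and_eq_true, decide_eq_true_eq]
        exact huv
    have hww : ∀ l l' : Fin (n + 1), l < l' → L.G (Fin M) (w l') (w l) ≤ c + κ / 2 := by
      intro l l' hll
      have hl' : (l' : ℕ) ≤ n := Nat.lt_succ_iff.mp l'.2
      have hl : (l : ℕ) ≤ n := Nat.lt_succ_iff.mp l.2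
      obtain ⟨e, he, heQ⟩ := hs2 l l' hll hl'
      have he' : (s l : ℕ) = (e : ℕ) + (s l' : ℕ) := by rw [he]; simp
      have hM : (e : ℕ) + (s l' : ℕ) ≤ M := by rw [← he']; exact hle l hl
      let ι : Fin (e : ℕ) ⊕ Fin (s l' : ℕ) → Fin M :=
        Sum.elim (fun j => ⟨(s l' : ℕ) + j.val, by omega⟩) (fun j => ⟨j.val, by omega⟩)
      have hι : Function.Injective ι := by
        rintro (a | a) (b | b) hab
        · simp only [ι, Sum.elim_inl, Fin.mk.injEq] at hab
          congr 1
          apply Fin.ext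
          omega
        · simp only [ι, Sum.elim_inl, Sum.elim_inr, Fin.mk.injEq] at hab
          omega
        · simp only [ι, Sum.elim_inl, Sum.elim_inr, Fin.mk.injEq] at hab
          omega
        · simp only [ι, Sum.elim_inr, Fin.mk.injEq] at hab
          congr 1
          apply Fin.ext
          omega
      have hsmall : ∀ u, decide ((ι u).val < (s l' : ℕ)) = !u.isLeft := by
        rintro (a | a)
        · simp [ι]
        · simp [ι]
      have hbig : ∀ u, decide ((ι u).val < (s l : ℕ)) = true := by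
        rintro (a | a)
        · simp only [ι, Sum.elim_inl, decide_eq_true_eq]
          omega
        · simp only [ι, Sum.elim_inr, decide_eq_true_eq]
          omega
      refine le_trans (le_of_eq ?_) heQ.le
      unfold LimM.c
      apply L.G_block ι hι
      · intro u v
        simp only [w]
        rw [hsmall, hsmall]
      · intro u v
        simp only [w]
        rw [hbig, hbig]
        rfl
      · intro u v huv
        have hout : ∀ u : Fin M, u ∉ Set.range ι → ¬ (u.val < (s l : ℕ)) := by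
          intro u hu hlt
          apply hu
          by_cases h2 : u.val < (s l' : ℕ)
          · exact ⟨Sum.inr ⟨u.val, h2⟩, rfl⟩
          · refine ⟨Sum.inl ⟨u.val - (s l' : ℕ), by omega⟩, ?_⟩
            apply Fin.ext
            simp only [ι, Sum.elim_inl]
            omega
        have hne : ¬ (u.val < (s l : ℕ)) ∨ ¬ (v.val < (s l : ℕ)) := by
          by_contra hcon
          push Not at hcon
          apply huv
          constructor
          · by_contra h3
            exact hout u h3 hcon.1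
          · by_contra h3
            exact hout v h3 hcon.2
        simp only [w]
        rcases hne with h3 | h3
        · have h4 : ¬ (u.val < (s l' : ℕ)) := by omega
          simp [h3, h4]
        · have h4 : ¬ (v.val < (s l' : ℕ)) := by omega
          simp [h3, h4]
    have hC := double_sum_le n (fun l l' => L.G (Fin M) (w l) (w l')) δ (c + κ / 2)
      (fun l => L.G_self _ _) (by positivity) (by
        intro l l' hll
        rcases lt_or_gt_of_ne hll with h | h
        · rw [L.G_symm]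
          exact hww l l' h
        · exact hww l' l h)
    -- the quadratic form
    have h := L.psd (Fin M) (J := Option (Fin (n + 1)))
      (fun i => match i with
        | none => x
        | some l => w l)
      (fun i => match i with
        | none => -lam
        | some _ => -(1 / (n + 1 : ℝ))) lam
    simp only [Fintype.sum_option] at h
    have e1 : ∑ l : Fin (n + 1), -lam * -(1 / (n + 1 : ℝ)) * L.G (Fin M) x (w l) = 0 := by
      apply Finset.sum_eq_zero
      intro l _
      rw [hxw l, mul_zero]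
    have e2 : ∑ l : Fin (n + 1), (-(1 / (n + 1 : ℝ)) * -lam * L.G (Fin M) (w l) x +
        ∑ l', -(1 / (n + 1 : ℝ)) * -(1 / (n + 1 : ℝ)) * L.G (Fin M) (w l) (w l')) =
        (1 / (n + 1 : ℝ)) ^ 2 * ∑ l, ∑ l', L.G (Fin M) (w l) (w l') := by
      rw [Finset.mul_sum]
      apply Finset.sum_congr rfl
      intro l _
      rw [L.G_symm _ (w l) x, hxw l, mul_zero, zero_add, Finset.mul_sum]
      apply Finset.sum_congr rfl
      intro l' _
      ring
    have e3 : ∑ _l : Fin (n + 1), -(1 / (n + 1 : ℝ)) = -1 := by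
      rw [Finset.sum_const, Finset.card_univ, Fintype.card_fin, nsmul_eq_mul]
      push_cast
      field_simp
    rw [e1, e2, e3, L.G_self] at h
    have e4 : lam ^ 2 + 2 * lam * (-lam + -1) * δ + (-lam * -lam * δ + 0 +
        (1 / (n + 1 : ℝ)) ^ 2 * ∑ l, ∑ l', L.G (Fin M) (w l) (w l')) =
        lam ^ 2 * (1 - δ) - 2 * lam * δ +
          (1 / (n + 1 : ℝ)) ^ 2 * ∑ l, ∑ l', L.G (Fin M) (w l) (w l') := by ring
    rw [e4] at h
    linarith
  rcases eq_or_lt_of_le hδ0 with h0 | h0
  · rw [← h0]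
    simpa using hc0
  · have hlt : δ < 1 := by
      by_contra hge
      push Not at hge
      have h3 := key ((c + 1) / δ)
      have h4 : ((c + 1) / δ) ^ 2 * (1 - δ) ≤ 0 :=
        mul_nonpos_of_nonneg_of_nonpos (by positivity) (by linarith)
      have h5 : 2 * ((c + 1) / δ) * δ = 2 * (c + 1) := by
        field_simp
      rw [h5] at h3
      linarith
    have h3 := key (δ / (1 - δ))
    have hpos : 0 < 1 - δ := by linarith
    have h4 : (δ / (1 - δ)) ^ 2 * (1 - δ) - 2 * (δ / (1 - δ)) * δ + c =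
        ((1 - δ) * c - δ ^ 2) / (1 - δ) := by
      field_simp
      ring
    rw [h4] at h3
    by_contra hneg
    push Not at hneg
    have := div_neg_of_neg_of_pos (show (1 - δ) * c - δ ^ 2 < 0 by linarith) hpos
    linarith

end Pool.Agent.Lib.MP_90b327_co
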