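import Mathlib
import Pool.Agent.Lib.MP_90b327_co.Abstract
import Pool.Agent.Lib.MP_90b327_co.T2Base

/-!
Two upward chains: the correlation of two disjoint squares is at most the correlation of a square
with a larger one, when the core is chosen first.
-/

set_option autoImplicit false

namespace Pool.Agent.Lib.MP_90b327_co

open Filter Topology Finset

variable {δ : ℝ}

/-- Choice of increasing sizes `s 0 < s 1 < ... < s n` along an idempotent ultrafilter, the smaller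
size being chosen before the increment. -/
theorem exists_sizes_up (p : Ultrafilter ℕ+)
    (hp : ∀ A : ℕ+ → Prop, (∀ᶠ m in (p : Filter ℕ+), A m) ↔
      ∀ᶠ a in (p : Filter ℕ+), ∀ᶠ m in (p : Filter ℕ+), A (a + m)) (n : ℕ) :
    ∀ (P : ℕ+ → Prop) (Q : ℕ+ → ℕ+ → Prop), (∀ᶠ m in (p : Filter ℕ+), P m) →
      (∀ᶠ s in (p : Filter ℕ+), ∀ᶠ e in (p : Filter ℕ+), Q s e) →
      ∃ s : ℕ → ℕ+, (∀ l ≤ n, P (s l)) ∧
        (∀ l l', l < l' → l' ≤ n → ∃ e, s l' = s l + e ∧ Q (s l) e) := by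
  induction n with
  | zero =>
    intro P Q hP _
    obtain ⟨m, hm⟩ := hP.exists
    refine ⟨fun _ => m, fun l _ => hm, ?_⟩
    intro l l' h1 h2
    omega
  | succ n ih =>
    intro P Q hP hQ
    have h1 : ∀ᶠ a in (p : Filter ℕ+), ∀ᶠ m in (p : Filter ℕ+), P (a + m) := (hp _).mp hP
    have h2 : ∀ᶠ a in (p : Filter ℕ+), ∀ᶠ m in (p : Filter ℕ+), ∀ᶠ e in (p : Filter ℕ+),
        Q (a + m) e := (hp _).mp hQ
    obtain ⟨a, ha, ha1, ha2, ha3⟩ := (hP.and (h1.and (h2.and hQ))).exists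
    obtain ⟨s, hs1, hs2⟩ := ih (fun m => P (a + m) ∧ Q a m) (fun m e => Q (a + m) e)
      (ha1.and ha3) ha2
    refine ⟨fun i => Nat.casesOn i a (fun i => a + s i), ?_, ?_⟩
    · intro l hl
      cases l with
      | zero => exact ha
      | succ l => exact (hs1 l (by omega)).1
    · intro l l' h3 h4
      cases l' with
      | zero => omega
      | succ l' =>
        cases l with
        | zero => exact ⟨s l', rfl, (hs1 l' (by omega)).2⟩
        | succ l =>
          obtain ⟨e, he1, he2⟩ := hs2 l l' (by omega) (by omega)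
          refine ⟨e, ?_, he2⟩
          change a + s l' = a + s l + e
          rw [he1, add_assoc]

/-- the first `s` vertices of the left part -/
def lowL {M M' : ℕ} (s : ℕ) : Fin M ⊕ Fin M' → Bool :=
  Sum.elim (fun j => decide (j.val < s)) (fun _ => false)

/-- the first `s` vertices of the right part -/
def lowR {M M' : ℕ} (s : ℕ) : Fin M ⊕ Fin M' → Bool :=
  Sum.elim (fun _ => false) (fun j => decide (j.val < s))

/-- the square of a vertex set -/
def sqq {V : Type} (A : V → Bool) : P2 V := fun u v => A u && A v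

lemma LimM.G_sqL (L : LimM 2 δ) (e s M M' : ℕ) (h : e + s ≤ M) :
    L.G (Fin M ⊕ Fin M') (sqq (lowL s)) (sqq (lowL (e + s))) = L.c e s := by
  let ι : Fin e ⊕ Fin s → Fin M ⊕ Fin M' :=
    Sum.elim (fun j => Sum.inl ⟨s + j.val, by omega⟩) (fun j => Sum.inl ⟨j.val, by omega⟩)
  have hι : Function.Injective ι := by
    rintro (a | a) (b | b) hab <;>
      simp only [ι, Sum.elim_inl, Sum.elim_inr, Sum.inl.injEq, Fin.mk.injEq] at hab
    · congr 1
      apply Fin.ext
      omega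
    · omega
    · omega
    · congr 1
      apply Fin.ext
      omega
  have h1 : ∀ u, lowL s (ι u) = !u.isLeft := by
    rintro (u | u) <;> simp [lowL, ι]
  have h2 : ∀ u, lowL (e + s) (ι u) = true := by
    rintro (u | u)
    · simp only [lowL, ι, Sum.elim_inl, decide_eq_true_eq]
      omega
    · simp only [lowL, ι, Sum.elim_inl, Sum.elim_inr, decide_eq_true_eq]
      omega
  have h3 : ∀ v : Fin M ⊕ Fin M', v ∉ Set.range ι → lowL s v = false ∧ lowL (e + s) v = false := by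
    rintro (j | v) hv
    · have hj : ¬ (j.val < e + s) := by
        intro hlt
        apply hv
        by_cases h4 : j.val < s
        · exact ⟨Sum.inr ⟨j.val, h4⟩, rfl⟩
        · refine ⟨Sum.inl ⟨j.val - s, by omega⟩, ?_⟩
          simp only [ι, Sum.elim_inl]
          congr 1
          apply Fin.ext
          simp only
          omega
      simp only [lowL, Sum.elim_inl, decide_eq_false_iff_not]
      omega
    · exact ⟨rfl, rfl⟩
  apply L.G_block ι hι
  · intro u v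
    unfold sqq
    rw [h1, h1]
  · intro u v
    unfold sqq
    rw [h2, h2]
    rfl
  · intro u v huv
    unfold sqq
    by_cases hu : u ∈ Set.range ι
    · have hv : v ∉ Set.range ι := fun hv => huv ⟨hu, hv⟩
      rw [(h3 v hv).1, (h3 v hv).2, Bool.and_false, Bool.and_false]
    · rw [(h3 u hu).1, (h3 u hu).2, Bool.false_and, Bool.false_and]

lemma LimM.G_sqR (L : LimM 2 δ) (e s M M' : ℕ) (h : e + s ≤ M') :
    L.G (Fin M ⊕ Fin M') (sqq (lowR s)) (sqq (lowR (e + s))) = L.c e s := by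
  let ι : Fin e ⊕ Fin s → Fin M ⊕ Fin M' :=
    Sum.elim (fun j => Sum.inr ⟨s + j.val, by omega⟩) (fun j => Sum.inr ⟨j.val, by omega⟩)
  have hι : Function.Injective ι := by
    rintro (a | a) (b | b) hab <;>
      simp only [ι, Sum.elim_inl, Sum.elim_inr, Sum.inr.injEq, Fin.mk.injEq] at hab
    · congr 1
      apply Fin.ext
      omega
    · omega
    · omega
    · congr 1
      apply Fin.ext
      omega
  have h1 : ∀ u, lowR s (ι u) = !u.isLeft := by
    rintro (u | u) <;> simp [lowR, ι]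
  have h2 : ∀ u, lowR (e + s) (ι u) = true := by
    rintro (u | u)
    · simp only [lowR, ι, Sum.elim_inl, Sum.elim_inr, decide_eq_true_eq]
      omega
    · simp only [lowR, ι, Sum.elim_inr, decide_eq_true_eq]
      omega
  have h3 : ∀ v : Fin M ⊕ Fin M', v ∉ Set.range ι → lowR s v = false ∧ lowR (e + s) v = false := by
    rintro (v | j) hv
    · exact ⟨rfl, rfl⟩
    · have hj : ¬ (j.val < e + s) := by
        intro hlt
        apply hv
        by_cases h4 : j.val < s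
        · exact ⟨Sum.inr ⟨j.val, h4⟩, rfl⟩
        · refine ⟨Sum.inl ⟨j.val - s, by omega⟩, ?_⟩
          simp only [ι, Sum.elim_inl]
          congr 1
          apply Fin.ext
          simp only
          omega
      simp only [lowR, Sum.elim_inr, decide_eq_false_iff_not]
      omega
  apply L.G_block ι hι
  · intro u v
    unfold sqq
    rw [h1, h1]
  · intro u v
    unfold sqq
    rw [h2, h2]
    rfl
  · intro u v huv
    unfold sqq
    by_cases hu : u ∈ Set.range ι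
    · have hv : v ∉ Set.range ι := fun hv => huv ⟨hu, hv⟩
      rw [(h3 v hv).1, (h3 v hv).2, Bool.and_false, Bool.and_false]
    · rw [(h3 u hu).1, (h3 u hu).2, Bool.false_and, Bool.false_and]

lemma LimM.G_LR (L : LimM 2 δ) (x y M M' : ℕ) (hx : x ≤ M) (hy : y ≤ M') :
    L.G (Fin M ⊕ Fin M') (sqq (lowL x)) (sqq (lowR y)) = L.b x y := by
  let ι : Fin x ⊕ Fin y → Fin M ⊕ Fin M' :=
    Sum.map (Fin.castLE hx) (Fin.castLE hy)
  have hι : Function.Injective ι :=
    (Sum.map_injective).mpr ⟨Fin.castLE_injective hx, Fin.castLE_injective hy⟩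
  have h1 : ∀ u, lowL x (ι u) = u.isLeft := by
    rintro (u | u) <;> simp [lowL, ι]
  have h2 : ∀ u, lowR y (ι u) = !u.isLeft := by
    rintro (u | u) <;> simp [lowR, ι]
  have h3 : ∀ v : Fin M ⊕ Fin M', v ∉ Set.range ι → lowL x v = false ∧ lowR y v = false := by
    rintro (j | j) hv
    · refine ⟨?_, rfl⟩
      simp only [lowL, Sum.elim_inl, decide_eq_false_iff_not]
      intro hlt
      exact hv ⟨Sum.inl ⟨j.val, hlt⟩, rfl⟩
    · refine ⟨rfl, ?_⟩
      simp only [lowR, Sum.elim_inr, decide_eq_false_iff_not]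
      intro hlt
      exact hv ⟨Sum.inr ⟨j.val, hlt⟩, rfl⟩
  apply L.G_block ι hι
  · intro u v
    unfold sqq
    rw [h1, h1]
  · intro u v
    unfold sqq
    rw [h2, h2]
  · intro u v huv
    unfold sqq
    by_cases hu : u ∈ Set.range ι
    · have hv : v ∉ Set.range ι := fun hv => huv ⟨hu, hv⟩
      rw [(h3 v hv).1, (h3 v hv).2, Bool.and_false, Bool.and_false]
    · rw [(h3 u hu).1, (h3 u hu).2, Bool.false_and, Bool.false_and]

/-- the square of the difference of two averages -/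
lemma LimM.E_diff_sq (L : LimM 2 δ) (V : Type) [Fintype V] (n : ℕ) (X Y : ℕ → P2 V) :
    0 ≤ (1 / (n + 1 : ℝ)) ^ 2 * ∑ l : Fin (n + 1), ∑ l' : Fin (n + 1), L.G V (X l) (X l') +
      (1 / (n + 1 : ℝ)) ^ 2 * ∑ l : Fin (n + 1), ∑ l' : Fin (n + 1), L.G V (Y l) (Y l') -
      2 * ((1 / (n + 1 : ℝ)) ^ 2 * ∑ l : Fin (n + 1), ∑ l' : Fin (n + 1), L.G V (X l) (Y l')) := by
  have h := L.E_nonneg V (fun F => (1 / (n + 1 : ℝ)) ^ 2 *
      ∑ l : Fin (n + 1), ∑ l' : Fin (n + 1), F (X l) * F (X l') +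
      (1 / (n + 1 : ℝ)) ^ 2 * ∑ l : Fin (n + 1), ∑ l' : Fin (n + 1), F (Y l) * F (Y l') -
      2 * ((1 / (n + 1 : ℝ)) ^ 2 * ∑ l : Fin (n + 1), ∑ l' : Fin (n + 1), F (X l) * F (Y l')))
    (by
      intro F _
      rw [← Finset.sum_mul_sum, ← Finset.sum_mul_sum, ← Finset.sum_mul_sum]
      have : (1 / (n + 1 : ℝ)) ^ 2 * ((∑ l : Fin (n + 1), F (X l)) * ∑ l : Fin (n + 1), F (X l)) +
          (1 / (n + 1 : ℝ)) ^ 2 * ((∑ l : Fin (n + 1), F (Y l)) * ∑ l : Fin (n + 1), F (Y l)) -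
          2 * ((1 / (n + 1 : ℝ)) ^ 2 * ((∑ l : Fin (n + 1), F (X l)) *
            ∑ l : Fin (n + 1), F (Y l))) =
          ((1 / (n + 1 : ℝ)) * ((∑ l : Fin (n + 1), F (X l)) - ∑ l : Fin (n + 1), F (Y l))) ^ 2 := by
        ring
      rw [this]
      positivity)
  rw [L.E_sub, L.E_add, L.E_mul, L.E_mul, L.E_mul, L.E_mul, L.E_sum, L.E_sum, L.E_sum] at h
  have e : ∀ (A B : ℕ → P2 V), ∑ l : Fin (n + 1), L.E V (fun F => ∑ l' : Fin (n + 1),
      F (A l) * F (B l')) = ∑ l : Fin (n + 1), ∑ l' : Fin (n + 1), L.G V (A l) (B l') := by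
    intro A B
    apply Finset.sum_congr rfl
    intro l _
    rw [L.E_sum]
    rfl
  rw [e, e, e] at h
  exact h

/-- (C3) -/
theorem LimM.b_le (L : LimM 2 δ) (p : Ultrafilter ℕ+)
    (hp : ∀ A : ℕ+ → Prop, (∀ᶠ m in (p : Filter ℕ+), A m) ↔
      ∀ᶠ a in (p : Filter ℕ+), ∀ᶠ m in (p : Filter ℕ+), A (a + m))
    (bx cx : ℕ+ → ℝ) (b cr : ℝ)
    (hb : ∀ y : ℕ+, Tendsto (fun x : ℕ+ => L.b x y) p (𝓝 (bx y))) (hb2 : Tendsto bx p (𝓝 b))
    (hc : ∀ s : ℕ+, Tendsto (fun e : ℕ+ => L.c e s) p (𝓝 (cx s))) (hc2 : Tendsto cx p (𝓝 cr)) :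
    b ≤ cr := by
  have hδ0 := L.delta_nonneg
  have hcr0 : 0 ≤ cr := ge_of_tendsto hc2 (Eventually.of_forall fun s =>
    ge_of_tendsto (hc s) (Eventually.of_forall fun e => L.G_nonneg _ _ _))
  apply le_of_forall_pos_le_add
  intro κ hκ
  set ε : ℝ := κ / 3 with hε
  have hε0 : 0 < ε := by positivity
  obtain ⟨n, hn⟩ := exists_nat_gt (δ / ε)
  have hN : (0 : ℝ) < n + 1 := by positivity
  have hδN : δ / (n + 1) ≤ ε := by
    rw [div_le_iff₀ hN]
    rw [div_lt_iff₀ hε0] at hn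
    nlinarith
  -- the conditions
  have hQ : ∀ᶠ s : ℕ+ in (p : Filter ℕ+), ∀ᶠ e : ℕ+ in (p : Filter ℕ+), L.c e s < cr + ε := by
    filter_upwards [hc2.eventually_lt_const (show cr < cr + ε by linarith)] with s hs
    exact (hc s).eventually_lt_const hs
  have hP : ∀ᶠ y : ℕ+ in (p : Filter ℕ+), ∀ᶠ x : ℕ+ in (p : Filter ℕ+), b - ε < L.b x y := by
    filter_upwards [hb2.eventually_const_lt (show b - ε < b by linarith)] with y hy
    exact (hb y).eventually_const_lt hy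
  obtain ⟨y, hy1, hy2⟩ := exists_sizes_up p hp n _ _ hP hQ
  have hP2 : ∀ᶠ x : ℕ+ in (p : Filter ℕ+), ∀ l ∈ Finset.range (n + 1), b - ε < L.b x (y l) := by
    rw [Filter.eventually_all_finset]
    intro l hl
    exact hy1 l (by rw [Finset.mem_range] at hl; omega)
  obtain ⟨x, hx1, hx2⟩ := exists_sizes_up p hp n _ _ hP2 hQ
  have hle : ∀ (s : ℕ → ℕ+), (∀ l l', l < l' → l' ≤ n → ∃ e, s l' = s l + e ∧
      L.c (e : ℕ) (s l : ℕ) < cr + ε) → ∀ l ≤ n, (s l : ℕ) ≤ (s n : ℕ) := by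
    intro s hs l hl
    rcases Nat.lt_or_ge l n with h | h
    · obtain ⟨e, he, -⟩ := hs l n h le_rfl
      rw [he]
      simp
    · have : l = n := by omega
      rw [this]
  have hlex := hle x hx2
  have hley := hle y hy2
  have h := L.E_diff_sq (Fin (x n : ℕ) ⊕ Fin (y n : ℕ)) n (fun l => sqq (lowL (x l : ℕ)))
    (fun l => sqq (lowR (y l : ℕ)))
  have hxx : ∀ l l' : Fin (n + 1), l < l' → L.G (Fin (x n : ℕ) ⊕ Fin (y n : ℕ))
      (sqq (lowL (x l : ℕ))) (sqq (lowL (x l' : ℕ))) ≤ cr + ε := by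
    intro l l' hll
    have hl' : (l' : ℕ) ≤ n := Nat.lt_succ_iff.mp l'.2
    obtain ⟨e, he, heQ⟩ := hx2 l l' hll hl'
    have he' : (x l' : ℕ) = (e : ℕ) + (x l : ℕ) := by
      rw [he, PNat.add_coe, add_comm]
    have hM' : (e : ℕ) + (x l : ℕ) ≤ (x n : ℕ) := by
      rw [← he']
      exact hlex l' hl'
    rw [he', L.G_sqL _ _ _ _ hM']
    exact heQ.le
  have hyy : ∀ l l' : Fin (n + 1), l < l' → L.G (Fin (x n : ℕ) ⊕ Fin (y n : ℕ))
      (sqq (lowR (y l : ℕ))) (sqq (lowR (y l' : ℕ))) ≤ cr + ε := by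
    intro l l' hll
    have hl' : (l' : ℕ) ≤ n := Nat.lt_succ_iff.mp l'.2
    obtain ⟨e, he, heQ⟩ := hy2 l l' hll hl'
    have he' : (y l' : ℕ) = (e : ℕ) + (y l : ℕ) := by
      rw [he, PNat.add_coe, add_comm]
    have hM' : (e : ℕ) + (y l : ℕ) ≤ (y n : ℕ) := by
      rw [← he']
      exact hley l' hl'
    rw [he', L.G_sqR _ _ _ _ hM']
    exact heQ.le
  have hC1 := double_sum_le n (fun l l' => L.G (Fin (x n : ℕ) ⊕ Fin (y n : ℕ))
      (sqq (lowL (x l : ℕ))) (sqq (lowL (x l' : ℕ)))) δ (cr + ε) (fun l => L.G_self _ _)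
      (by positivity) (by
        intro l l' hll
        rcases lt_or_gt_of_ne hll with h | h
        · exact hxx l l' h
        · rw [L.G_symm]
          exact hxx l' l h)
  have hC2 := double_sum_le n (fun l l' => L.G (Fin (x n : ℕ) ⊕ Fin (y n : ℕ))
      (sqq (lowR (y l : ℕ))) (sqq (lowR (y l' : ℕ)))) δ (cr + ε) (fun l => L.G_self _ _)
      (by positivity) (by
        intro l l' hll
        rcases lt_or_gt_of_ne hll with h | h
        · exact hyy l l' h
        · rw [L.G_symm]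
          exact hyy l' l h)
  have hC3 : b - ε ≤ (1 / (n + 1 : ℝ)) ^ 2 * ∑ l : Fin (n + 1), ∑ l' : Fin (n + 1),
      L.G (Fin (x n : ℕ) ⊕ Fin (y n : ℕ)) (sqq (lowL (x l : ℕ))) (sqq (lowR (y l' : ℕ))) := by
    have h1 : ∑ _l : Fin (n + 1), ∑ _l' : Fin (n + 1), (b - ε) ≤
        ∑ l : Fin (n + 1), ∑ l' : Fin (n + 1),
      L.G (Fin (x n : ℕ) ⊕ Fin (y n : ℕ)) (sqq (lowL (x l : ℕ))) (sqq (lowR (y l' : ℕ))) := by
      apply Finset.sum_le_sum
      intro l _
      apply Finset.sum_le_sum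
      intro l' _
      have hl : (l : ℕ) ≤ n := Nat.lt_succ_iff.mp l.2
      have hl' : (l' : ℕ) ≤ n := Nat.lt_succ_iff.mp l'.2
      rw [L.G_LR _ _ _ _ (hlex l hl) (hley l' hl')]
      exact (hx1 l hl l' (by rw [Finset.mem_range]; omega)).le
    have h2 : ∑ _l : Fin (n + 1), ∑ _l' : Fin (n + 1), (b - ε) = (n + 1 : ℝ) ^ 2 * (b - ε) := by
      simp only [Finset.sum_const, Finset.card_univ, Fintype.card_fin, nsmul_eq_mul]
      push_cast
      ring
    rw [h2] at h1
    have h3 := mul_le_mul_of_nonneg_left h1 (show (0 : ℝ) ≤ (1 / (n + 1 : ℝ)) ^ 2 by positivity)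
    have h4 : (1 / (n + 1 : ℝ)) ^ 2 * ((n + 1 : ℝ) ^ 2 * (b - ε)) = b - ε := by
      field_simp
    rw [h4] at h3
    exact h3
  linarith

end Pool.Agent.Lib.MP_90b327_co
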