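import Mathlib
import Pool.Agent.Lib.MP_90b327_co.Abstract
import Pool.Agent.Lib.MP_90b327_co.T2Base

/-!
The inequality for three blocks.
-/

set_option autoImplicit false

namespace Pool.Agent.Lib.MP_90b327_co

open Filter Topology Finset

variable {δ : ℝ}

/-- a pattern given by a table over the colours of the vertices -/
def pull {V T : Type} (κ : V → T) (P : T → T → Bool) : P2 V := fun u v => P (κ u) (κ v)

lemma bad2_pull {V T : Type} (κ : V → T) (P Q : T → T → Bool) (γ : T → Bool)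
    (h0 : ∃ v, γ (κ v) = true)
    (h1 : ∀ a b, γ a = true → γ b = true → P a b = false)
    (h2 : ∀ a b, γ a = true → γ b = true → Q a b = true)
    (h3 : ∀ a b, ¬ (γ a = true ∧ γ b = true) → Q a b = P a b) :
    Bad2 (pull κ P) (pull κ Q) :=
  ⟨fun v => γ (κ v) = true, h0, fun _ _ hu hv => h1 _ _ hu hv, fun _ _ hu hv => h2 _ _ hu hv,
    fun _ _ h => h3 _ _ h⟩

/-- tables on four colours -/
def tX : Fin 4 → Fin 4 → Bool := fun a b => a == 0 && b == 0
def tY : Fin 4 → Fin 4 → Bool := fun a b => a == 1 && b == 1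
def tZ : Fin 4 → Fin 4 → Bool := fun a b => a == 2 && b == 2
def tXY : Fin 4 → Fin 4 → Bool := fun a b => (a == 0 || a == 1) && (b == 0 || b == 1)
def tG : Fin 4 → Fin 4 → Bool := fun a b => tX a b || tY a b
def tHX : Fin 4 → Fin 4 → Bool := fun a b => tX a b || tZ a b
def tHY : Fin 4 → Fin 4 → Bool := fun a b => tY a b || tZ a b
def tHXY : Fin 4 → Fin 4 → Bool := fun a b => tXY a b || tZ a b
def tGZ : Fin 4 → Fin 4 → Bool := fun a b => tG a b || tZ a b
def tO : Fin 4 → Fin 4 → Bool := fun _ _ => false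

lemma arith1 (y g xy : ℝ) (hy : y = 0 ∨ y = 1) (hg : g = 0 ∨ g = 1) (hxy : xy = 0 ∨ xy = 1)
    (h : y * g = 0) : 0 ≤ xy - xy * y - xy * g := by
  rcases hy with rfl | rfl <;> rcases hg with rfl | rfl <;> rcases hxy with rfl | rfl <;>
    norm_num at *

lemma arith2 (z hx hy gz hxy : ℝ) (h1 : z = 0 ∨ z = 1) (h2 : hx = 0 ∨ hx = 1)
    (h3 : hy = 0 ∨ hy = 1) (h4 : gz = 0 ∨ gz = 1) (h5 : hxy = 0 ∨ hxy = 1)
    (a1 : z * hx = 0) (a2 : z * hy = 0) (a3 : z * hxy = 0) (a4 : hx * gz = 0) (a5 : hy * gz = 0) :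
    0 ≤ 1 - z - hx - hy + hx * hy - gz * hxy := by
  rcases h1 with rfl | rfl <;> rcases h2 with rfl | rfl <;> rcases h3 with rfl | rfl <;>
    rcases h4 with rfl | rfl <;> rcases h5 with rfl | rfl <;> norm_num at *

lemma arith3 (y hy z : ℝ) (h1 : y = 0 ∨ y = 1) (h2 : hy = 0 ∨ hy = 1) (h : y * hy = 0) :
    1 * 1 * (1 - z) ≤ (1 - 1 * y - 1 * 0) + (1 - z - 0 - hy + 0 * hy - 0 * 0) := by
  rcases h1 with rfl | rfl <;> rcases h2 with rfl | rfl <;> norm_num at *

/-- the pointwise inequality for three blocks -/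
lemma pointwise {V : Type} (κ : V → Fin 4) (hx : ∃ v, κ v = 0) (hy : ∃ v, κ v = 1)
    (hz : ∃ v, κ v = 2) (F : P2 V → ℝ) (hF : BadFree F) :
    F (pull κ tX) * F (pull κ tXY) * (1 - F (pull κ tZ)) ≤
      (F (pull κ tXY) - F (pull κ tXY) * F (pull κ tY) - F (pull κ tXY) * F (pull κ tG)) +
      (1 - F (pull κ tZ) - F (pull κ tHX) - F (pull κ tHY) + F (pull κ tHX) * F (pull κ tHY)
        - F (pull κ tGZ) * F (pull κ tHXY)) := by
  have hX : ∃ v, (fun a : Fin 4 => a == 0) (κ v) = true := by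
    obtain ⟨v, hv⟩ := hx
    exact ⟨v, by simp [hv]⟩
  have hY : ∃ v, (fun a : Fin 4 => a == 1) (κ v) = true := by
    obtain ⟨v, hv⟩ := hy
    exact ⟨v, by simp [hv]⟩
  have hZ : ∃ v, (fun a : Fin 4 => a == 2) (κ v) = true := by
    obtain ⟨v, hv⟩ := hz
    exact ⟨v, by simp [hv]⟩
  have hXY : ∃ v, (fun a : Fin 4 => a == 0 || a == 1) (κ v) = true := by
    obtain ⟨v, hv⟩ := hx
    exact ⟨v, by simp [hv]⟩
  have b1 := hF.bad _ _ (bad2_pull κ tX tG (fun a => a == 1) hY (by decide) (by decide) (by decide))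
  have b2 := hF.bad _ _ (bad2_pull κ tY tG (fun a => a == 0) hX (by decide) (by decide) (by decide))
  have b3 := hF.bad _ _ (bad2_pull κ tX tHX (fun a => a == 2) hZ (by decide) (by decide) (by decide))
  have b4 := hF.bad _ _ (bad2_pull κ tZ tHX (fun a => a == 0) hX (by decide) (by decide) (by decide))
  have b5 := hF.bad _ _ (bad2_pull κ tY tHY (fun a => a == 2) hZ (by decide) (by decide) (by decide))
  have b6 := hF.bad _ _ (bad2_pull κ tZ tHY (fun a => a == 1) hY (by decide) (by decide) (by decide))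
  have b7 := hF.bad _ _ (bad2_pull κ tXY tHXY (fun a => a == 2) hZ (by decide) (by decide) (by decide))
  have b8 := hF.bad _ _ (bad2_pull κ tZ tHXY (fun a => a == 0 || a == 1) hXY (by decide) (by decide)
    (by decide))
  have b9 := hF.bad _ _ (bad2_pull κ tHX tGZ (fun a => a == 1) hY (by decide) (by decide) (by decide))
  have b10 := hF.bad _ _ (bad2_pull κ tHY tGZ (fun a => a == 0) hX (by decide) (by decide)
    (by decide))
  have p1 := arith1 _ _ _ (hF.zero_or_one (pull κ tY)) (hF.zero_or_one (pull κ tG))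
    (hF.zero_or_one (pull κ tXY)) b2
  have p2 := arith2 _ _ _ _ _ (hF.zero_or_one (pull κ tZ)) (hF.zero_or_one (pull κ tHX))
    (hF.zero_or_one (pull κ tHY)) (hF.zero_or_one (pull κ tGZ)) (hF.zero_or_one (pull κ tHXY))
    b4 b6 b8 b9 b10
  rcases hF.zero_or_one (pull κ tX) with e1 | e1
  · rw [e1, zero_mul, zero_mul]
    linarith
  · rcases hF.zero_or_one (pull κ tXY) with e2 | e2
    · rw [e2] at p1 ⊢
      rw [mul_zero, zero_mul]
      linarith
    · have e3 : F (pull κ tG) = 0 := by simpa [e1] using b1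
      have e4 : F (pull κ tHX) = 0 := by simpa [e1] using b3
      have e5 : F (pull κ tHXY) = 0 := by simpa [e2] using b7
      have := arith3 _ _ (F (pull κ tZ)) (hF.zero_or_one (pull κ tY))
        (hF.zero_or_one (pull κ tHY)) b5
      rw [e1, e2, e3, e4, e5, mul_zero (F (pull κ tGZ))]
      linarith

lemma LimM.G_pull (L : LimM 2 δ) {V T : Type} [Fintype V] {m n : ℕ} (ι : Fin m ⊕ Fin n → V)
    (hι : Function.Injective ι) (κ : V → T) (c1 c2 : T)
    (h1 : ∀ u, κ (ι u) = if u.isLeft then c1 else c2)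
    (h2 : ∀ v, κ v = c1 ∨ κ v = c2 → v ∈ Set.range ι) (P Q : T → T → Bool)
    (hPQ : ∀ a b, ¬ ((a = c1 ∨ a = c2) ∧ (b = c1 ∨ b = c2)) → P a b = Q a b)
    (P' Q' : Bool → Bool → Bool)
    (hP : ∀ a b : Bool, P (if a then c1 else c2) (if b then c1 else c2) = P' a b)
    (hQ : ∀ a b : Bool, Q (if a then c1 else c2) (if b then c1 else c2) = Q' a b) :
    L.G V (pull κ P) (pull κ Q) = L.R P' Q' m n := by
  apply L.G_block ι hι
  · intro u v
    unfold pull
    rw [h1, h1]
    exact hP _ _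
  · intro u v
    unfold pull
    rw [h1, h1]
    exact hQ _ _
  · intro u v huv
    apply hPQ
    rintro ⟨h3, h4⟩
    exact huv ⟨h2 u h3, h2 v h4⟩

/-- the colours for two blocks and the first `s` vertices of the rest -/
def kap (x y M s : ℕ) : (Fin x ⊕ Fin y) ⊕ Fin M → Fin 4 :=
  Sum.elim (Sum.elim (fun _ => 0) (fun _ => 1)) (fun j => if j.val < s then 2 else 3)

lemma kap_inl (x y M s : ℕ) (u : Fin x ⊕ Fin y) :
    kap x y M s (Sum.inl u) = if u.isLeft then 0 else 1 := by
  rcases u with u | u <;> rfl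

lemma kap_range (x y M s : ℕ) (v : (Fin x ⊕ Fin y) ⊕ Fin M)
    (h : kap x y M s v = 0 ∨ kap x y M s v = 1) :
    v ∈ Set.range (Sum.inl : Fin x ⊕ Fin y → (Fin x ⊕ Fin y) ⊕ Fin M) := by
  rcases v with v | j
  · exact ⟨v, rfl⟩
  · exfalso
    simp only [kap, Sum.elim_inr] at h
    by_cases hj : j.val < s
    · simp [hj] at h
    · simp [hj] at h

lemma LimM.ev_c (L : LimM 2 δ) (x y M s : ℕ) :
    L.G _ (pull (kap x y M s) tXY) (pull (kap x y M s) tY) = L.c x y := by
  rw [L.G_symm]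
  exact L.G_pull Sum.inl Sum.inl_injective _ 0 1 (kap_inl x y M s) (kap_range x y M s) _ _
    (by decide) _ _ (by decide) (by decide)

lemma LimM.ev_t (L : LimM 2 δ) (x y M s : ℕ) :
    L.G _ (pull (kap x y M s) tXY) (pull (kap x y M s) tG) = L.t x y := by
  rw [L.G_symm]
  exact L.G_pull Sum.inl Sum.inl_injective _ 0 1 (kap_inl x y M s) (kap_range x y M s) _ _
    (by decide) _ _ (by decide) (by decide)

lemma LimM.ev_b (L : LimM 2 δ) (x y M s : ℕ) :
    L.G _ (pull (kap x y M s) tHX) (pull (kap x y M s) tHY) = L.b x y := by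
  exact L.G_pull Sum.inl Sum.inl_injective _ 0 1 (kap_inl x y M s) (kap_range x y M s) _ _
    (by decide) _ _ (by decide) (by decide)

lemma LimM.ev_t2 (L : LimM 2 δ) (x y M s : ℕ) :
    L.G _ (pull (kap x y M s) tGZ) (pull (kap x y M s) tHXY) = L.t x y := by
  exact L.G_pull Sum.inl Sum.inl_injective _ 0 1 (kap_inl x y M s) (kap_range x y M s) _ _
    (by decide) _ _ (by decide) (by decide)

lemma LimM.ev_c2 (L : LimM 2 δ) (x y M s : ℕ) :
    L.G _ (pull (kap x y M s) tX) (pull (kap x y M s) tXY) = L.c y x := by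
  apply L.G_pull (fun u : Fin y ⊕ Fin x => Sum.inl u.swap)
    (Sum.inl_injective.comp Sum.swap_leftInverse.injective) _ 1 0
  · rintro (u | u) <;> rfl
  · intro v hv
    obtain ⟨u, rfl⟩ := kap_range x y M s v hv.symm
    exact ⟨u.swap, by simp⟩
  · decide
  · decide
  · decide

/-- membership in the first `s` vertices of the second part -/
def low {W : Type} {M : ℕ} (s : ℕ) : W ⊕ Fin M → Bool :=
  Sum.elim (fun _ => false) (fun j => decide (j.val < s))

/-- the square on the first `s` vertices of the second part -/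
def sq {W : Type} {M : ℕ} (s : ℕ) : P2 (W ⊕ Fin M) := fun u v => low s u && low s v

/-- nested squares -/
lemma LimM.G_sq (L : LimM 2 δ) (W : Type) [Fintype W] (e s M : ℕ) (h : e + s ≤ M) :
    L.G (W ⊕ Fin M) (sq s) (sq (e + s)) = L.c e s := by
  let ι : Fin e ⊕ Fin s → W ⊕ Fin M :=
    Sum.elim (fun j => Sum.inr ⟨s + j.val, by omega⟩) (fun j => Sum.inr ⟨j.val, by omega⟩)
  have hι : Function.Injective ι := by
    rintro (a | a) (b | b) hab <;>
      simp only [ι, Sum.elim_inl, Sum.elim_inr, Sum.inr.injEq, Fin.mk.injEq] at hab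
    · congr 1
      apply Fin.ext
      omega
    · omega
    · omega
    · congr 1
      apply Fin.ext
      omega
  have h1 : ∀ u, low s (ι u) = !u.isLeft := by
    rintro (u | u) <;> simp [low, ι]
  have h2 : ∀ u, low (e + s) (ι u) = true := by
    rintro (u | u)
    · simp only [low, ι, Sum.elim_inl, Sum.elim_inr, decide_eq_true_eq]
      omega
    · simp only [low, ι, Sum.elim_inr, decide_eq_true_eq]
      omega
  have h3 : ∀ v : W ⊕ Fin M, v ∉ Set.range ι → low s v = false ∧ low (e + s) v = false := by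
    rintro (v | j) hv
    · exact ⟨rfl, rfl⟩
    · have hj : ¬ (j.val < e + s) := by
        intro hlt
        apply hv
        by_cases h4 : j.val < s
        · exact ⟨Sum.inr ⟨j.val, h4⟩, rfl⟩
        · refine ⟨Sum.inl ⟨j.val - s, by omega⟩, ?_⟩
          simp only [ι, Sum.elim_inl]
          congr 1
          apply Fin.ext
          simp only
          omega
      simp only [low, Sum.elim_inr, decide_eq_false_iff_not]
      omega
  apply L.G_block ι hι
  · intro u v
    unfold sq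
    rw [h1, h1]
  · intro u v
    unfold sq
    rw [h2, h2]
    rfl
  · intro u v huv
    unfold sq
    by_cases hu : u ∈ Set.range ι
    · have hv : v ∉ Set.range ι := fun hv => huv ⟨hu, hv⟩
      rw [(h3 v hv).1, (h3 v hv).2, Bool.and_false, Bool.and_false]
    · rw [(h3 u hu).1, (h3 u hu).2, Bool.false_and, Bool.false_and]

lemma pull_tZ (x y M s : ℕ) : pull (kap x y M s) tZ = sq s := by
  have h : ∀ v : (Fin x ⊕ Fin y) ⊕ Fin M, (kap x y M s v == 2) = low s v := by
    rintro ((v | v) | j)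
    · rfl
    · rfl
    · simp only [kap, low, Sum.elim_inr]
      by_cases hj : j.val < s <;> simp [hj]
  funext u v
  simp only [pull, tZ, sq, h]

lemma pull_indep (x y M s : ℕ) (P : Fin 4 → Fin 4 → Bool) (h1 : ∀ a, P a 2 = P a 3)
    (h2 : ∀ a, P 2 a = P 3 a) : pull (kap x y M s) P = pull (kap x y M 0) P := by
  funext u v
  simp only [pull]
  have h : ∀ w : (Fin x ⊕ Fin y) ⊕ Fin M, kap x y M s w = kap x y M 0 w ∨
      (kap x y M s w = 2 ∧ kap x y M 0 w = 3) := by
    rintro ((w | w) | j)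
    · exact Or.inl rfl
    · exact Or.inl rfl
    · simp only [kap, Sum.elim_inr]
      by_cases hj : j.val < s
      · right
        simp [hj]
      · left
        simp [hj]
  rcases h u with hu | ⟨hu, hu'⟩ <;> rcases h v with hv | ⟨hv, hv'⟩
  · rw [hu, hv]
  · rw [hu, hv, hv', h1]
  · rw [hu, hu', hv, h2]
  · rw [hu, hu', hv, hv', h1, h2]

end Pool.Agent.Lib.MP_90b327_co
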