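import Mathlib
import Pool.Agent.Lib.MP_90b327_co.T2Key

/-!
The main inequality: three blocks, the third one running through a chain.
-/

set_option autoImplicit false

namespace Pool.Agent.Lib.MP_90b327_co

open Filter Topology Finset

variable {δ : ℝ}

lemma real_step (k W β a u lam : ℝ) (hlam : 0 < lam) (hk : k = 0 ∨ k = 1) (ha : k = 1 → a = 0)
    (hu : u = W - β * (1 - a)) :
    (1 - β - lam / 2) * k ≤ k * (1 - W) + 1 / (2 * lam) * u ^ 2 := by
  have h2 : 0 ≤ 1 / (2 * lam) * u ^ 2 := by positivity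
  rcases hk with rfl | hk
  · linarith
  · rw [ha hk, sub_zero, mul_one] at hu
    rw [hk]
    have h3 : u ≤ lam / 2 + 1 / (2 * lam) * u ^ 2 := by
      have h4 : lam / 2 + 1 / (2 * lam) * u ^ 2 - u = 1 / (2 * lam) * (u - lam) ^ 2 := by
        field_simp
        ring
      have h5 : 0 ≤ 1 / (2 * lam) * (u - lam) ^ 2 := by positivity
      linarith
    linarith

/-- the functional bounding the left side -/
noncomputable def rhsF (x y M : ℕ) (s : ℕ) (F : P2 ((Fin x ⊕ Fin y) ⊕ Fin M) → ℝ) : ℝ :=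
  1 - F (sq s) - F (pull (kap x y M s) tHX) - F (pull (kap x y M s) tHY) +
    F (pull (kap x y M s) tHX) * F (pull (kap x y M s) tHY) -
    F (pull (kap x y M s) tGZ) * F (pull (kap x y M s) tHXY)

lemma LimM.E_rhsF (L : LimM 2 δ) (x y M s : ℕ) :
    L.E _ (rhsF x y M s) = 1 - 3 * δ + L.b x y - L.t x y := by
  have h : L.E _ (rhsF x y M s) = L.E _ (fun F => 1 - F (sq s) - F (pull (kap x y M s) tHX) -
      F (pull (kap x y M s) tHY) +
    F (pull (kap x y M s) tHX) * F (pull (kap x y M s) tHY) -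
    F (pull (kap x y M s) tGZ) * F (pull (kap x y M s) tHXY)) := rfl
  rw [h, L.E_sub, L.E_add, L.E_sub, L.E_sub, L.E_sub, L.E_const, L.E_val, L.E_val, L.E_val]
  have h1 := L.ev_b x y M s
  have h2 := L.ev_t2 x y M s
  unfold LimM.G at h1 h2
  rw [h1, h2]
  ring

/-- the functional of the first bracket -/
noncomputable def rhsG (x y M : ℕ) (F : P2 ((Fin x ⊕ Fin y) ⊕ Fin M) → ℝ) : ℝ :=
  F (pull (kap x y M 0) tXY) - F (pull (kap x y M 0) tXY) * F (pull (kap x y M 0) tY) -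
    F (pull (kap x y M 0) tXY) * F (pull (kap x y M 0) tG)

lemma LimM.E_rhsG (L : LimM 2 δ) (x y M : ℕ) :
    L.E _ (rhsG x y M) = δ - L.c x y - L.t x y := by
  have h : L.E _ (rhsG x y M) = L.E _ (fun F => F (pull (kap x y M 0) tXY) -
    F (pull (kap x y M 0) tXY) * F (pull (kap x y M 0) tY) -
    F (pull (kap x y M 0) tXY) * F (pull (kap x y M 0) tG)) := rfl
  rw [h, L.E_sub, L.E_sub, L.E_val]
  have h1 := L.ev_c x y M 0
  have h2 := L.ev_t x y M 0
  unfold LimM.G at h1 h2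
  rw [h1, h2]

/-- the average over the chain -/
noncomputable def avgZ (x y M n : ℕ) (s : ℕ → ℕ) (F : P2 ((Fin x ⊕ Fin y) ⊕ Fin M) → ℝ) : ℝ :=
  (1 / (n + 1 : ℝ)) * ∑ l : Fin (n + 1), F (sq (s l))

lemma exists_low {x y M s : ℕ} (hM : 0 < M) (hs : 0 < s) :
    ∃ v : (Fin x ⊕ Fin y) ⊕ Fin M, kap x y M s v = 2 := by
  refine ⟨Sum.inr ⟨0, hM⟩, ?_⟩
  simp [kap, hs]

/-- the averaged pointwise inequality -/
lemma pointwise_avg (x y M n : ℕ) (hx : 0 < x) (hy : 0 < y) (hM : 0 < M) (s : ℕ → ℕ)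
    (hs : ∀ l, 0 < s l) (F : P2 ((Fin x ⊕ Fin y) ⊕ Fin M) → ℝ) (hF : BadFree F) :
    F (pull (kap x y M 0) tX) * F (pull (kap x y M 0) tXY) * (1 - avgZ x y M n s F) ≤
      rhsG x y M F + (1 / (n + 1 : ℝ)) * ∑ l : Fin (n + 1), rhsF x y M (s l) F := by
  have hN : (0 : ℝ) < n + 1 := by positivity
  have h1 : ∀ l : Fin (n + 1), F (pull (kap x y M 0) tX) * F (pull (kap x y M 0) tXY) *
      (1 - F (sq (s l))) ≤ rhsG x y M F + rhsF x y M (s l) F := by
    intro l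
    have h := pointwise (kap x y M (s l)) ⟨Sum.inl (Sum.inl ⟨0, hx⟩), rfl⟩
      ⟨Sum.inl (Sum.inr ⟨0, hy⟩), rfl⟩ (exists_low hM (hs l)) F hF
    rw [pull_tZ, pull_indep x y M (s l) tX (by decide) (by decide),
      pull_indep x y M (s l) tXY (by decide) (by decide),
      pull_indep x y M (s l) tY (by decide) (by decide),
      pull_indep x y M (s l) tG (by decide) (by decide)] at h
    exact h
  have h2 := Finset.sum_le_sum fun l (_ : l ∈ (Finset.univ : Finset (Fin (n + 1)))) => h1 l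
  rw [← Finset.mul_sum, Finset.sum_sub_distrib, Finset.sum_add_distrib, Finset.sum_const,
    Finset.sum_const, Finset.card_univ, Fintype.card_fin, nsmul_eq_mul, nsmul_eq_mul] at h2
  push_cast at h2
  have h3 := mul_le_mul_of_nonneg_left h2 (show (0 : ℝ) ≤ 1 / (n + 1 : ℝ) by positivity)
  unfold avgZ
  have e1 : (1 / (n + 1 : ℝ)) * (F (pull (kap x y M 0) tX) * F (pull (kap x y M 0) tXY) *
      ((n + 1 : ℝ) * 1 - ∑ l : Fin (n + 1), F (sq (s l)))) =
      F (pull (kap x y M 0) tX) * F (pull (kap x y M 0) tXY) *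
        (1 - (1 / (n + 1 : ℝ)) * ∑ l : Fin (n + 1), F (sq (s l))) := by
    field_simp
  have e2 : (1 / (n + 1 : ℝ)) * ((n + 1 : ℝ) * rhsG x y M F +
      ∑ l : Fin (n + 1), rhsF x y M (s l) F) =
      rhsG x y M F + (1 / (n + 1 : ℝ)) * ∑ l : Fin (n + 1), rhsF x y M (s l) F := by
    field_simp
  rw [e1, e2] at h3
  exact h3

/-- the empty pattern -/
def emp {V : Type} : P2 V := fun _ _ => false

lemma bad_emp_sq {W : Type} {M s : ℕ} (hM : 0 < M) (hs : 0 < s) :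
    Bad2 (emp : P2 (W ⊕ Fin M)) (sq s) := by
  refine ⟨fun v => low s v = true, ⟨Sum.inr ⟨0, hM⟩, by simp [low, hs]⟩, ?_, ?_, ?_⟩
  · intro u v _ _
    rfl
  · intro u v hu hv
    simp [sq, hu, hv]
  · intro u v h
    simp only [sq, emp]
    rw [← Bool.not_eq_true, Bool.and_eq_true]
    exact h

lemma bad_emp_pull {x y M : ℕ} (hx : 0 < x) :
    Bad2 (emp : P2 ((Fin x ⊕ Fin y) ⊕ Fin M)) (pull (kap x y M 0) tX) :=
  bad2_pull (kap x y M 0) (fun _ _ => false) tX (fun a => a == 0)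
    ⟨Sum.inl (Sum.inl ⟨0, hx⟩), rfl⟩ (by decide) (by decide) (by decide)

/-- the square of the deviation -/
lemma sq_dev (x y M n : ℕ) (hM : 0 < M) (s : ℕ → ℕ) (hs : ∀ l, 0 < s l) (β : ℝ)
    (F : P2 ((Fin x ⊕ Fin y) ⊕ Fin M) → ℝ) (hF : BadFree F) :
    (avgZ x y M n s F - β * (1 - F emp)) ^ 2 =
      (1 / (n + 1 : ℝ)) ^ 2 * ∑ l : Fin (n + 1), ∑ l' : Fin (n + 1), F (sq (s l)) * F (sq (s l'))
        - 2 * β * ((1 / (n + 1 : ℝ)) * ∑ l : Fin (n + 1), F (sq (s l))) + β ^ 2 * (1 - F emp) := by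
  have h1 : avgZ x y M n s F * F emp = 0 := by
    unfold avgZ
    rw [mul_assoc, Finset.sum_mul, Finset.sum_eq_zero, mul_zero]
    intro l _
    rw [mul_comm]
    exact hF.bad _ _ (bad_emp_sq hM (hs l))
  have h2 : (1 - F emp) ^ 2 = 1 - F emp := by
    rcases hF.zero_or_one emp with h | h <;> rw [h] <;> norm_num
  have h3 : (avgZ x y M n s F) ^ 2 = (1 / (n + 1 : ℝ)) ^ 2 *
      ∑ l : Fin (n + 1), ∑ l' : Fin (n + 1), F (sq (s l)) * F (sq (s l')) := by
    unfold avgZ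
    rw [mul_pow, pow_two (∑ l : Fin (n + 1), F (sq (s l))), Finset.sum_mul_sum]
  calc (avgZ x y M n s F - β * (1 - F emp)) ^ 2
      = (avgZ x y M n s F) ^ 2 - 2 * β * (avgZ x y M n s F - avgZ x y M n s F * F emp)
        + β ^ 2 * (1 - F emp) ^ 2 := by ring
    _ = _ := by
        rw [h1, h2, h3, sub_zero]
        rfl

lemma LimM.E_sq_dev (L : LimM 2 δ) (x y M n : ℕ) (hM : 0 < M) (s : ℕ → ℕ) (hs : ∀ l, 0 < s l)
    (β : ℝ) : L.E _ (fun F => (avgZ x y M n s F - β * (1 - F emp)) ^ 2) =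
      (1 / (n + 1 : ℝ)) ^ 2 * ∑ l : Fin (n + 1), ∑ l' : Fin (n + 1),
        L.G ((Fin x ⊕ Fin y) ⊕ Fin M) (sq (s l)) (sq (s l')) - 2 * β * δ + β ^ 2 * (1 - δ) := by
  rw [L.E_congr _ _ _ (fun F hF => sq_dev x y M n hM s hs β F hF), L.E_add, L.E_sub, L.E_mul,
    L.E_sum, L.E_mul, L.E_mul, L.E_sum, L.E_mul, L.E_sub, L.E_const, L.E_val]
  have e1 : ∑ l : Fin (n + 1), L.E ((Fin x ⊕ Fin y) ⊕ Fin M) (fun F => F (sq (s l))) =
      (n + 1) * δ := by
    have h : ∀ l : Fin (n + 1),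
        L.E ((Fin x ⊕ Fin y) ⊕ Fin M) (fun F => F (sq (s l))) = δ := fun l => L.E_val _ _
    simp only [h]
    rw [Finset.sum_const, Finset.card_univ, Fintype.card_fin, nsmul_eq_mul]
    push_cast
    ring
  have e2 : ∑ l : Fin (n + 1), L.E ((Fin x ⊕ Fin y) ⊕ Fin M)
      (fun F => ∑ l' : Fin (n + 1), F (sq (s l)) * F (sq (s l'))) =
      ∑ l : Fin (n + 1), ∑ l' : Fin (n + 1),
        L.G ((Fin x ⊕ Fin y) ⊕ Fin M) (sq (s l)) (sq (s l')) := by
    apply Finset.sum_congr rfl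
    intro l _
    rw [L.E_sum]
    rfl
  rw [e1, e2]
  have hN : (n + 1 : ℝ) ≠ 0 := by positivity
  have e3 : (1 / (n + 1 : ℝ)) * ((n + 1) * δ) = δ := by
    field_simp
  rw [e3]

/-- The main inequality. -/
theorem LimM.main_ineq (L : LimM 2 δ) (p : Ultrafilter ℕ+)
    (hp : ∀ A : ℕ+ → Prop, (∀ᶠ m in (p : Filter ℕ+), A m) ↔
      ∀ᶠ a in (p : Filter ℕ+), ∀ᶠ m in (p : Filter ℕ+), A (a + m)) (c : ℝ) (hc0 : 0 ≤ c)
    (hc : ∀ ε : ℝ, 0 < ε → ∀ᶠ e : ℕ+ in (p : Filter ℕ+), ∀ᶠ m : ℕ+ in (p : Filter ℕ+),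
      L.c (e : ℕ) (m : ℕ) ≤ c + ε) (x y : ℕ) (hx : 0 < x) (hy : 0 < y) (β lam : ℝ)
    (hlam : 0 < lam) :
    (1 - β - lam / 2) * L.c y x ≤ 1 - 2 * δ + L.b x y - L.c x y - 2 * L.t x y +
      1 / (2 * lam) * (c - 2 * β * δ + β ^ 2 * (1 - δ)) := by
  have hδ0 := L.delta_nonneg
  apply le_of_forall_pos_le_add
  intro κ hκ
  -- the error
  set ε : ℝ := κ * lam with hε
  have hε0 : 0 < ε := by positivity
  obtain ⟨n, hn⟩ := exists_nat_gt (δ / ε)
  have hN : (0 : ℝ) < n + 1 := by positivity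
  have hδN : δ / (n + 1) ≤ ε := by
    rw [div_le_iff₀ hN]
    rw [div_lt_iff₀ hε0] at hn
    nlinarith
  obtain ⟨s, -, -, hs2, -⟩ := exists_sizes p hp (fun _ => True)
    (fun e m => L.c (e : ℕ) (m : ℕ) ≤ c + ε) (Eventually.of_forall fun _ => trivial) (hc ε hε0) n
    (fun _ => True) (fun _ _ => True) (Eventually.of_forall fun _ => trivial)
    (Eventually.of_forall fun _ => Eventually.of_forall fun _ => trivial)
  have hle : ∀ l ≤ n, (s l : ℕ) ≤ (s 0 : ℕ) := by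
    intro l hl
    rcases Nat.eq_zero_or_pos l with rfl | hpos
    · exact le_rfl
    · obtain ⟨e, he, -⟩ := hs2 0 l hpos hl
      rw [he]
      simp
  set M : ℕ := (s 0 : ℕ) with hMdef
  have hM : 0 < M := (s 0).2
  let s' : ℕ → ℕ := fun l => (s l : ℕ)
  have hs' : ∀ l, 0 < s' l := fun l => (s l).2
  have hww : ∀ l l' : Fin (n + 1), l < l' →
      L.G ((Fin x ⊕ Fin y) ⊕ Fin M) (sq (s' l')) (sq (s' l)) ≤ c + ε := by
    intro l l' hll
    have hl' : (l' : ℕ) ≤ n := Nat.lt_succ_iff.mp l'.2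
    have hl : (l : ℕ) ≤ n := Nat.lt_succ_iff.mp l.2
    obtain ⟨e, he, heQ⟩ := hs2 l l' hll hl'
    have he' : s' l = (e : ℕ) + s' l' := by
      change (s l : ℕ) = e + (s l' : ℕ)
      rw [he]
      simp
    have hM' : (e : ℕ) + s' l' ≤ M := by
      rw [← he']
      exact hle l hl
    rw [he', L.G_sq _ _ _ _ hM']
    exact heQ
  have hC := double_sum_le n (fun l l' => L.G ((Fin x ⊕ Fin y) ⊕ Fin M) (sq (s' l)) (sq (s' l')))
    δ (c + ε) (fun l => L.G_self _ _) (by positivity) (by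
      intro l l' hll
      rcases lt_or_gt_of_ne hll with h | h
      · rw [L.G_symm]
        exact hww l l' h
      · exact hww l' l h)
  -- take expectations
  have hE := L.E_mono ((Fin x ⊕ Fin y) ⊕ Fin M)
    (fun F => (1 - β - lam / 2) * (F (pull (kap x y M 0) tX) * F (pull (kap x y M 0) tXY)))
    (fun F => (rhsG x y M F + (1 / (n + 1 : ℝ)) * ∑ l : Fin (n + 1), rhsF x y M (s' l) F) +
      1 / (2 * lam) * (avgZ x y M n s' F - β * (1 - F emp)) ^ 2) (by
      intro F hF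
      have h1 := pointwise_avg x y M n hx hy hM s' hs' F hF
      have h2 := real_step (F (pull (kap x y M 0) tX) * F (pull (kap x y M 0) tXY))
        (avgZ x y M n s' F) β (F emp) (avgZ x y M n s' F - β * (1 - F emp)) lam hlam (by
          rcases hF.zero_or_one (pull (kap x y M 0) tX) with h | h <;>
            rcases hF.zero_or_one (pull (kap x y M 0) tXY) with h' | h' <;> rw [h, h'] <;> norm_num)
        (by
          intro hk
          have h3 : F (pull (kap x y M 0) tX) = 1 := by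
            rcases hF.zero_or_one (pull (kap x y M 0) tX) with h | h
            · rw [h, zero_mul] at hk
              exact absurd hk (by norm_num)
            · exact h
          have h4 := hF.bad _ _ (bad_emp_pull (x := x) (y := y) (M := M) hx)
          rwa [h3, mul_one] at h4) rfl
      linarith)
  rw [L.E_mul, L.E_add, L.E_add, L.E_mul, L.E_mul, L.E_sum, L.E_rhsG,
    L.E_sq_dev x y M n hM s' hs' β] at hE
  have e1 : L.E ((Fin x ⊕ Fin y) ⊕ Fin M)
      (fun F => F (pull (kap x y M 0) tX) * F (pull (kap x y M 0) tXY)) = L.c y x :=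
    L.ev_c2 x y M 0
  have e2 : ∑ l : Fin (n + 1), L.E ((Fin x ⊕ Fin y) ⊕ Fin M) (rhsF x y M (s' l)) =
      (n + 1) * (1 - 3 * δ + L.b x y - L.t x y) := by
    have h : ∀ l : Fin (n + 1), L.E ((Fin x ⊕ Fin y) ⊕ Fin M) (rhsF x y M (s' l)) =
        1 - 3 * δ + L.b x y - L.t x y := fun l => L.E_rhsF x y M (s' l)
    simp only [h]
    rw [Finset.sum_const, Finset.card_univ, Fintype.card_fin, nsmul_eq_mul]
    push_cast
    ring
  rw [e1, e2] at hE
  have e3 : (1 / (n + 1 : ℝ)) * ((n + 1) * (1 - 3 * δ + L.b x y - L.t x y)) =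
      1 - 3 * δ + L.b x y - L.t x y := by
    field_simp
  rw [e3] at hE
  have h5 : 1 / (2 * lam) * ((1 / (n + 1 : ℝ)) ^ 2 * ∑ l : Fin (n + 1), ∑ l' : Fin (n + 1),
      L.G ((Fin x ⊕ Fin y) ⊕ Fin M) (sq (s' l)) (sq (s' l')) - 2 * β * δ + β ^ 2 * (1 - δ)) ≤
      1 / (2 * lam) * (2 * ε + c - 2 * β * δ + β ^ 2 * (1 - δ)) := by
    apply mul_le_mul_of_nonneg_left _ (by positivity)
    linarith
  have h6 : 1 / (2 * lam) * (2 * ε + c - 2 * β * δ + β ^ 2 * (1 - δ)) =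
      κ + 1 / (2 * lam) * (c - 2 * β * δ + β ^ 2 * (1 - δ)) := by
    rw [hε]
    field_simp
    ring
  linarith

end Pool.Agent.Lib.MP_90b327_co
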