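import Mathlib
import Pool.Agent.Lib.MP_90b327_co.T2Ineq

/-!
The contradiction at density `323/1000`, from the chain inequalities.
-/

set_option autoImplicit false

namespace Pool.Agent.Lib.MP_90b327_co

open Filter Topology Finset

variable {δ : ℝ}

lemma badFree_two {V : Type} {F : P2 V → ℝ} (hF : BadFree F) {X Y : P2 V} (h : Bad2 X Y) :
    F X + F Y ≤ 1 := by
  have h1 := hF.bad X Y h
  rcases hF.zero_or_one X with h2 | h2
  · rw [h2, zero_add]
    exact hF.le_one Y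
  · rw [h2, one_mul] at h1
    rw [h2, h1, add_zero]

lemma LimM.c_add_t (L : LimM 2 δ) (e s : ℕ) (he : 0 < e) : L.c e s + L.t e s ≤ δ := by
  unfold LimM.c LimM.t LimM.R LimM.G
  rw [← L.E_add]
  refine le_trans ?_ (L.E_val (Fin e ⊕ Fin s) (fun _ _ => true)).le
  apply L.E_mono
  intro F hF
  have h := badFree_two hF (X := fun u v => !u.isLeft && !v.isLeft)
    (Y := fun u v => u.isLeft == v.isLeft)
    (bad2_pull (Sum.isLeft : Fin e ⊕ Fin s → Bool) (fun a b => !a && !b) (fun a b => a == b)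
      (fun a => a) ⟨Sum.inl ⟨0, he⟩, rfl⟩ (by decide) (by decide) (by decide))
  have h2 := hF.nonneg (fun _ _ => true)
  rw [← add_mul]
  exact mul_le_of_le_one_left h2 h

lemma LimM.c_add_t' (L : LimM 2 δ) (e s : ℕ) (he : 0 < e) : L.c e s + L.t' e s ≤ δ := by
  unfold LimM.c LimM.t' LimM.R LimM.G
  rw [← L.E_add]
  refine le_trans ?_ (L.E_val (Fin e ⊕ Fin s) (fun u v => !u.isLeft && !v.isLeft)).le
  apply L.E_mono
  intro F hF
  have h := badFree_two hF (X := fun u v : Fin e ⊕ Fin s => !(u.isLeft && v.isLeft))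
    (Y := fun _ _ => true)
    (bad2_pull (Sum.isLeft : Fin e ⊕ Fin s → Bool) (fun a b => !(a && b)) (fun _ _ => true)
      (fun a => a) ⟨Sum.inl ⟨0, he⟩, rfl⟩ (by decide) (by decide) (by decide))
  have h2 := hF.nonneg (fun u v : Fin e ⊕ Fin s => !u.isLeft && !v.isLeft)
  rw [← mul_add]
  refine mul_le_of_le_one_right h2 ?_
  linarith

lemma LimM.t_symm (L : LimM 2 δ) (x y : ℕ) : L.t x y = L.t y x := by
  unfold LimM.t
  have h : L.G (Fin y ⊕ Fin x) (fun u v => u.isLeft == v.isLeft) (fun _ _ => true) =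
      L.R (fun a b => a == b) (fun _ _ => true) x y := by
    apply L.G_block (fun u : Fin x ⊕ Fin y => u.swap) Sum.swap_leftInverse.injective
    · rintro (u | u) (v | v) <;> rfl
    · intro u v
      rfl
    · intro u v h
      exfalso
      exact h ⟨⟨u.swap, by simp⟩, ⟨v.swap, by simp⟩⟩
  rw [← h]
  rfl

lemma arith_final (c t t1 : ℝ) (ht : 0 ≤ t) (ht1 : 0 ≤ t1)
    (h1 : c + t ≤ 323 / 1000) (h2 : c + t1 ≤ 323 / 1000) (h3 : c ^ 2 ≤ t * t1)
    (h4 : (323 / 1000 : ℝ) ^ 2 ≤ (1 - 323 / 1000) * c)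
    (h5 : (1 - 323 / 677 - 17 / 200 / 2) * c ≤ 1 - 2 * (323 / 1000) - 2 * t +
      1 / (2 * (17 / 200)) * (c - 2 * (323 / 677) * (323 / 1000) +
        (323 / 677) ^ 2 * (1 - 323 / 1000))) : False := by
  have h6 : c ≤ 323 / 2000 := by
    have : c ^ 2 ≤ (323 / 1000 - c) ^ 2 := by
      calc c ^ 2 ≤ t * t1 := h3
        _ ≤ (323 / 1000 - c) * (323 / 1000 - c) := by
            apply mul_le_mul (by linarith) (by linarith) ht1 (by linarith)
        _ = _ := by ring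
    nlinarith
  have h7 : c ^ 2 ≤ t * (323 / 1000 - c) :=
    h3.trans (mul_le_mul_of_nonneg_left (by linarith) ht)
  have h8 : 0 < 323 / 1000 - c := by linarith
  have h9 := mul_le_mul_of_nonneg_right h5 h8.le
  have h10 : (104329 / 677000 : ℝ) ≤ c := by
    norm_num at h4 ⊢
    linarith
  have h11 : 0 ≤ (c - 104329 / 677000) ^ 2 := sq_nonneg _
  nlinarith

/-- The inequalities between the iterated limits, for every density. -/
theorem LimM.limit_ineqs (L : LimM 2 δ) (p : Ultrafilter ℕ+)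
    (hp : ∀ A : ℕ+ → Prop, (∀ᶠ m in (p : Filter ℕ+), A m) ↔
      ∀ᶠ a in (p : Filter ℕ+), ∀ᶠ m in (p : Filter ℕ+), A (a + m))
    (C1 : ∀ (ce : ℕ+ → ℝ) (c : ℝ),
      (∀ e : ℕ+, Tendsto (fun m : ℕ+ => L.c e m) p (𝓝 (ce e))) → Tendsto ce p (𝓝 c) →
        δ ^ 2 ≤ (1 - δ) * c)
    (C2 : ∀ (e : ℕ) (c t t1 : ℝ), Tendsto (fun m : ℕ+ => L.c e m) p (𝓝 c) →
      Tendsto (fun m : ℕ+ => L.t e m) p (𝓝 t) → Tendsto (fun m : ℕ+ => L.t' e m) p (𝓝 t1) →
        c ^ 2 ≤ t * t1)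
    (C3 : ∀ (bx cx : ℕ+ → ℝ) (b cr : ℝ),
      (∀ y : ℕ+, Tendsto (fun x : ℕ+ => L.b x y) p (𝓝 (bx y))) → Tendsto bx p (𝓝 b) →
      (∀ s : ℕ+, Tendsto (fun e : ℕ+ => L.c e s) p (𝓝 (cx s))) → Tendsto cx p (𝓝 cr) →
        b ≤ cr) :
    ∃ c t t1 : ℝ, 0 ≤ t ∧ 0 ≤ t1 ∧ c + t ≤ δ ∧ c + t1 ≤ δ ∧ c ^ 2 ≤ t * t1 ∧
      δ ^ 2 ≤ (1 - δ) * c ∧ ∀ β lam : ℝ, 0 < lam →
        (1 - β - lam / 2) * c ≤ 1 - 2 * δ - 2 * t +
          1 / (2 * lam) * (c - 2 * β * δ + β ^ 2 * (1 - δ)) := by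
  have lim : ∀ f : ℕ+ → ℝ, (∀ m, 0 ≤ f m) → (∀ m, f m ≤ δ) → ∃ a, Tendsto f p (𝓝 a) :=
    fun f h0 h1 => exists_limit p f δ h0 h1
  have hc := fun e : ℕ+ => lim (fun m : ℕ+ => L.c e m) (fun m => L.G_nonneg _ _ _)
    (fun m => L.G_le _ _ _)
  have ht := fun e : ℕ+ => lim (fun m : ℕ+ => L.t e m) (fun m => L.G_nonneg _ _ _)
    (fun m => L.G_le _ _ _)
  have ht' := fun e : ℕ+ => lim (fun m : ℕ+ => L.t' e m) (fun m => L.G_nonneg _ _ _)
    (fun m => L.G_le _ _ _)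
  have hb := fun y : ℕ+ => lim (fun x : ℕ+ => L.b x y) (fun m => L.G_nonneg _ _ _)
    (fun m => L.G_le _ _ _)
  have hcx := fun s : ℕ+ => lim (fun e : ℕ+ => L.c e s) (fun m => L.G_nonneg _ _ _)
    (fun m => L.G_le _ _ _)
  choose ce hce using hc
  choose te hte using ht
  choose te' hte' using ht'
  choose bx hbx using hb
  choose cx hcx using hcx
  have bd : ∀ (f : ℕ+ → ℕ+ → ℝ) (g : ℕ+ → ℝ), (∀ e, Tendsto (f e) p (𝓝 (g e))) →
      (∀ e m, 0 ≤ f e m) → (∀ e m, f e m ≤ δ) → ∃ a, Tendsto g p (𝓝 a) ∧ 0 ≤ a := by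
    intro f g hfg h0 h1
    have h2 : ∀ e, 0 ≤ g e := fun e => ge_of_tendsto (hfg e) (Eventually.of_forall (h0 e))
    obtain ⟨a, ha⟩ := lim g h2 (fun e => le_of_tendsto (hfg e) (Eventually.of_forall (h1 e)))
    exact ⟨a, ha, ge_of_tendsto ha (Eventually.of_forall h2)⟩
  obtain ⟨c, hc, hc0⟩ := bd (fun e m => L.c e m) ce hce (fun _ _ => L.G_nonneg _ _ _)
    (fun _ _ => L.G_le _ _ _)
  obtain ⟨t, ht, ht0⟩ := bd (fun e m => L.t e m) te hte (fun _ _ => L.G_nonneg _ _ _)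
    (fun _ _ => L.G_le _ _ _)
  obtain ⟨t1, ht1, ht10⟩ := bd (fun e m => L.t' e m) te' hte' (fun _ _ => L.G_nonneg _ _ _)
    (fun _ _ => L.G_le _ _ _)
  obtain ⟨b, hb, hb0⟩ := bd (fun y x => L.b x y) bx hbx (fun _ _ => L.G_nonneg _ _ _)
    (fun _ _ => L.G_le _ _ _)
  obtain ⟨cr, hcr, hcr0⟩ := bd (fun s e => L.c e s) cx hcx (fun _ _ => L.G_nonneg _ _ _)
    (fun _ _ => L.G_le _ _ _)
  have a1 : c + t ≤ δ := by
    apply le_of_tendsto (hc.add ht)
    filter_upwards with e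
    apply le_of_tendsto ((hce e).add (hte e))
    filter_upwards with m
    exact L.c_add_t e m e.2
  have a2 : c + t1 ≤ δ := by
    apply le_of_tendsto (hc.add ht1)
    filter_upwards with e
    apply le_of_tendsto ((hce e).add (hte' e))
    filter_upwards with m
    exact L.c_add_t' e m e.2
  have a3 : c ^ 2 ≤ t * t1 := by
    apply le_of_tendsto_of_tendsto (hc.pow 2) (ht.mul ht1)
    filter_upwards with e
    exact C2 e _ _ _ (hce e) (hte e) (hte' e)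
  have a4 := C1 ce c hce hc
  have a5 := C3 bx cx b cr hbx hb hcx hcr
  have hcε : ∀ ε : ℝ, 0 < ε → ∀ᶠ e : ℕ+ in (p : Filter ℕ+), ∀ᶠ m : ℕ+ in (p : Filter ℕ+),
      L.c (e : ℕ) (m : ℕ) ≤ c + ε := by
    intro ε hε
    have h1 := hc.eventually_lt_const (show c < c + ε by linarith)
    filter_upwards [h1] with e he
    have h2 := (hce e).eventually_lt_const he
    filter_upwards [h2] with m hm
    exact hm.le
  refine ⟨c, t, t1, ht0, ht10, a1, a2, a3, a4, ?_⟩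
  intro β lam hlam
  have hmain := fun (x y : ℕ+) => L.main_ineq p hp c hc0 hcε x y x.2 y.2 β lam hlam
  have a6 : ∀ y : ℕ+, (1 - β - lam / 2) * ce y ≤ 1 - 2 * δ + bx y - cx y - 2 * te y +
      1 / (2 * lam) * (c - 2 * β * δ + β ^ 2 * (1 - δ)) := by
    intro y
    have h1 : Tendsto (fun x : ℕ+ => L.t x y) p (𝓝 (te y)) := by
      have : (fun x : ℕ+ => L.t x y) = fun m : ℕ+ => L.t y m := by
        funext x
        exact L.t_symm _ _
      rw [this]
      exact hte y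
    apply le_of_tendsto_of_tendsto ((hce y).const_mul _)
      (((((tendsto_const_nhds (x := 1 - 2 * δ)).add (hbx y)).sub (hcx y)).sub
        (h1.const_mul 2)).add_const _)
    filter_upwards with x
    exact hmain x y
  have a7 : (1 - β - lam / 2) * c ≤ 1 - 2 * δ + b - cr - 2 * t +
      1 / (2 * lam) * (c - 2 * β * δ + β ^ 2 * (1 - δ)) := by
    apply le_of_tendsto_of_tendsto (hc.const_mul _)
      (((((tendsto_const_nhds (x := 1 - 2 * δ)).add hb).sub hcr).sub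
        (ht.const_mul 2)).add_const _)
    filter_upwards with y
    exact a6 y
  linarith

end Pool.Agent.Lib.MP_90b327_co
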