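import Mathlib
import Pool.Agent.Lib.MP_90b327_co.T2Limit
import Pool.Agent.Lib.MP_90b327_co.T2Final
import Pool.Agent.Lib.MP_90b327_co.T2ChainA
import Pool.Agent.Lib.MP_90b327_co.T2ChainB

/-!
No limit object of density `323/1000` for `d = 2`.
-/

set_option autoImplicit false

namespace Pool.Agent.Lib.MP_90b327_co

theorem LimM.false_of_eq {δ : ℝ} (L : LimM 2 δ) (hδ : δ = 323 / 1000) : False := by
  obtain ⟨p, hp⟩ := exists_idempotent
  obtain ⟨c, t, t1, ht, ht1, a1, a2, a3, a4, a5⟩ := L.limit_ineqs p hp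
    (fun ce c h1 h2 => L.q_le p hp ce c h1 h2)
    (fun e c t t1 h1 h2 h3 => L.c_sq_le p hp e c t t1 h1 h2 h3)
    (fun bx cx b cr h1 h2 h3 h4 => L.b_le p hp bx cx b cr h1 h2 h3 h4)
  have a6 := a5 (323 / 677) (17 / 200) (by norm_num)
  rw [hδ] at a1 a2 a4 a6
  exact arith_final c t t1 ht ht1 a1 a2 a3 a4 a6

end Pool.Agent.Lib.MP_90b327_co
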