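import Mathlib
import Pool.Agent.Lib.MP_90b327_co.Interface
import Pool.Agent.Lib.MP_90b327_co.Transfer

/-!
Transfer from arbitrary weights on finitely many patterns to the uniform density.
-/

set_option autoImplicit false

namespace Pool.Agent.Lib.MP_90b327_co.WeightTransfer

open Pool.Agent.Lib.MP_90b327_co

/-- Let `d ≥ 1`, let `w` be a probability distribution on the subsets of `[K]^d` such that every
family `T` of subsets of `[K]^d` with `w(T) > δ` contains `A` and `A ∪ γ^d` with `γ` non-empty and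
`A` disjoint from `γ^d`.  Then for every `ε > 0` and every `N ≥ K * (2^(K^d) / ε^2 + 2)` every
family of more than `(δ + ε) * 2^(N^d)` subsets of `[N]^d` contains such a pair. -/
theorem weight_transfer (d : ℕ) (hd : 1 ≤ d) (K : ℕ) (w : Finset (Fin d → Fin K) → ℝ)
    (hw : ∀ X, 0 ≤ w X) (hw1 : ∑ X, w X = 1) (δ : ℝ)
    (h : ∀ T : Finset (Finset (Fin d → Fin K)), δ < ∑ X ∈ T, w X →
      ∃ A ∈ T, ∃ γ : Finset (Fin K), γ.Nonempty ∧
        Disjoint A (Fintype.piFinset (fun _ : Fin d => γ)) ∧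
        A ∪ Fintype.piFinset (fun _ : Fin d => γ) ∈ T)
    (ε : ℝ) (hε : 0 < ε) (N : ℕ) (hN : (K : ℝ) * (2 ^ (K ^ d) / ε ^ 2 + 2) ≤ N)
    (S : Finset (Finset (Fin d → Fin N))) (hS : (S.card : ℝ) > (δ + ε) * (2 : ℝ) ^ (N ^ d)) :
      ∃ A ∈ S, ∃ γ : Finset (Fin N), γ.Nonempty ∧
        Disjoint A (Fintype.piFinset (fun _ : Fin d => γ)) ∧
        A ∪ Fintype.piFinset (fun _ : Fin d => γ) ∈ S := by
  by_contra hcon
  have hbad : ¬ Good d N S := hcon
  set m : ℕ := ⌈(2 : ℝ) ^ (K ^ d) / ε ^ 2⌉₊ with hm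
  have hpos : (0 : ℝ) < (2 : ℝ) ^ (K ^ d) / ε ^ 2 := by positivity
  have hm1 : 1 ≤ m := Nat.one_le_iff_ne_zero.mpr (Nat.ceil_pos.mpr hpos).ne'
  have hmle : (2 : ℝ) ^ (K ^ d) / ε ^ 2 ≤ m := Nat.le_ceil _
  have hmlt : (m : ℝ) < (2 : ℝ) ^ (K ^ d) / ε ^ 2 + 1 := Nat.ceil_lt_add_one hpos.le
  have hKm : K * (m + 1) ≤ N := by
    have : (K : ℝ) * ((m : ℝ) + 1) ≤ N := by
      refine le_trans ?_ hN
      apply mul_le_mul_of_nonneg_left _ (Nat.cast_nonneg K)
      linarith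
    exact_mod_cast this
  have h1 := transfer hd K w hw hw1 δ h m hm1 N hKm S hbad
  have hm' : (0 : ℝ) < m := by exact_mod_cast hm1
  have h2 : Real.sqrt (2 ^ (K ^ d) / m) ≤ ε := by
    rw [Real.sqrt_le_left hε.le, div_le_iff₀ hm']
    rw [div_le_iff₀ (by positivity)] at hmle
    linarith
  have h3 : (δ + Real.sqrt (2 ^ (K ^ d) / m)) * (2 : ℝ) ^ (N ^ d) ≤ (δ + ε) * (2 : ℝ) ^ (N ^ d) := by
    apply mul_le_mul_of_nonneg_right _ (by positivity)
    linarith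
  linarith

end Pool.Agent.Lib.MP_90b327_co.WeightTransfer
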